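import Pool.Agent.H66.IL.WA
import Mathlib.Analysis.InnerProductSpace.Dual
import Mathlib.Analysis.Normed.Module.HahnBanach

/-!
# [H66 IL WB] UD, chapter ILF: the function `μ`

`l1dual`: bounded functionals on `L ^ 1` of a finite measure are given by bounded functions. PROOF. Restrict to `L ^ 2 ⊆ L ^ 1` (finite measure; the inclusion is continuous): Riesz (`InnerProductSpace.toDual`): `g ∈ L ^ 2` with `Λ f = ∫ f g` for `f ∈ L ^ 2` (use the conjugate). For measurable `A` with `‖g‖ > C` on `A` take `f = 1_A conj g / ‖g‖`: `∫_A ‖g‖ = Λ f ≤ C μ A`, so `μ A = 0`: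
`‖g‖ ≤ C` a.e.; change `g` on a null set. Simple functions (or `L ^ 2`) are dense in `L ^ 1`, both sides are continuous.
`mu_ex`: the test functions with support in `ball 0 R` give a subspace of `L ^ 1 (volume.restrict (ball 0 R))`; by `hw` the functional `φ ↦ - ∫ X db φ` is well defined and bounded by `C` on it (`db` is linear on `C ^ 1` functions); Hahn-Banach (`exists_extension_norm_eq`) and `l1dual`. (Two test functions with the same class are equal a.e. on the ball; by `hw` applied to the difference the functional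
has the same value.) `μ` is extended by `0` outside the ball or is anything bounded there.
-/

set_option autoImplicit false

open Filter Topology Metric Set MeasureTheory

namespace Pool.Agent.H66.IL

private theorem mem12 {α : Type*} [MeasurableSpace α] {ν : Measure α} [IsFiniteMeasure ν] (f : Lp ℂ 2 ν) :
    MemLp f 1 ν := (Lp.memLp f).mono_exponent (by norm_num)

private noncomputable def jj {α : Type*} [MeasurableSpace α] (ν : Measure α) [IsFiniteMeasure ν] :
    Lp ℂ 2 ν →ₗ[ℂ] Lp ℂ 1 ν where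
  toFun f := (mem12 f).toLp f
  map_add' f g := by
    apply Lp.ext
    filter_upwards [MemLp.coeFn_toLp (mem12 (f+g)), MemLp.coeFn_toLp (mem12 f), MemLp.coeFn_toLp (mem12 g),
      Lp.coeFn_add f g, Lp.coeFn_add ((mem12 f).toLp f) ((mem12 g).toLp g)] with x h1 h2 h3 h4 h5
    rw [h1, h5, h4]; simp [h2, h3]
  map_smul' c f := by
    apply Lp.ext
    filter_upwards [MemLp.coeFn_toLp (mem12 (c • f)), MemLp.coeFn_toLp (mem12 f),
      Lp.coeFn_smul c f, Lp.coeFn_smul c ((mem12 f).toLp f)] with x h1 h2 h3 h4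
    simp only [RingHom.id_apply]
    rw [h1, h4, h3]; simp [h2]

private theorem jj_ae {α : Type*} [MeasurableSpace α] (ν : Measure α) [IsFiniteMeasure ν] (f : Lp ℂ 2 ν) :
    (jj ν f : α → ℂ) =ᵐ[ν] f := MemLp.coeFn_toLp (mem12 f)

private theorem jj_bd {α : Type*} [MeasurableSpace α] (ν : Measure α) [IsFiniteMeasure ν] :
    ∃ K : ℝ, 0 ≤ K ∧ ∀ f : Lp ℂ 2 ν, ‖jj ν f‖ ≤ K * ‖f‖ := by
  refine ⟨(ν univ ^ ((1 : ℝ) / 2)).toReal, ENNReal.toReal_nonneg, fun f => ?_⟩
  have h1 : ‖jj ν f‖ = (eLpNorm f 1 ν).toReal := by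
    change ‖(mem12 f).toLp f‖ = _
    rw [Lp.norm_toLp]
  rw [h1, Lp.norm_def, mul_comm, ← ENNReal.toReal_mul]
  apply ENNReal.toReal_mono
  · apply ENNReal.mul_ne_top (Lp.memLp f).eLpNorm_ne_top
    exact ENNReal.rpow_ne_top_of_nonneg (by norm_num) (measure_ne_top ν _)
  · have := eLpNorm_le_eLpNorm_mul_rpow_measure_univ (p := 1) (q := 2) (μ := ν) (f := (f : α → ℂ)) (by norm_num)
      (Lp.aestronglyMeasurable f)
    refine this.trans (le_of_eq ?_)
    congr 2
    norm_num

theorem l1dual {α : Type*} [MeasurableSpace α] {ν : Measure α} [IsFiniteMeasure ν] (Λ : Lp ℂ 1 ν →L[ℂ] ℂ) {C : ℝ} (hC : 0 ≤ C)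
    (hΛ : ∀ f, ‖Λ f‖ ≤ C * ‖f‖) : ∃ g : α → ℂ, Measurable g ∧ (∀ x, ‖g x‖ ≤ C) ∧ ∀ f : Lp ℂ 1 ν, Λ f = ∫ x, f x * g x ∂ν := by
  obtain ⟨K, hK, hKf⟩ := jj_bd ν
  -- the functional on L2
  let ℓ : StrongDual ℂ (Lp ℂ 2 ν) := LinearMap.mkContinuous (Λ.toLinearMap.comp (jj ν)) (C * K) (fun f => by
    change ‖Λ (jj ν f)‖ ≤ _
    calc ‖Λ (jj ν f)‖ ≤ C * ‖jj ν f‖ := hΛ _
      _ ≤ C * (K * ‖f‖) := by gcongr; exact hKf f
      _ = _ := by ring)
  have hℓ : ∀ f, ℓ f = Λ (jj ν f) := fun f => rfl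
  set g0 : Lp ℂ 2 ν := (InnerProductSpace.toDual ℂ (Lp ℂ 2 ν)).symm ℓ with hg0
  have hin : ∀ f : Lp ℂ 2 ν, Λ (jj ν f) = ∫ x, f x * (starRingEnd ℂ) (g0 x) ∂ν := by
    intro f
    rw [← hℓ, ← InnerProductSpace.toDual_symm_apply (y := ℓ), ← hg0, L2.inner_def]
    rfl
  -- measurable representative
  have hsm : StronglyMeasurable (g0 : α → ℂ) := Lp.stronglyMeasurable g0
  set g1 : α → ℂ := fun x => (starRingEnd ℂ) (g0 x) with hg1
  have hg1m : Measurable g1 := (Complex.continuous_conj.measurable).comp hsm.measurable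
  have hmem : ∀ {f : α → ℂ}, AEStronglyMeasurable f ν → (∃ c, ∀ x, ‖f x‖ ≤ c) → MemLp f 2 ν := by
    intro f hf ⟨c, hc⟩
    exact MemLp.of_bound hf c (Eventually.of_forall hc)
  have hbase : ∀ (f : α → ℂ) (h2 : MemLp f 2 ν) (h1 : MemLp f 1 ν), Λ (h1.toLp f) = ∫ x, f x * g1 x ∂ν := by
    intro f h2 h1
    have e : h1.toLp f = jj ν (h2.toLp f) := by
      apply Lp.ext
      filter_upwards [jj_ae ν (h2.toLp f), h2.coeFn_toLp, h1.coeFn_toLp] with x a b c
      rw [a, b, c]
    rw [e, hin]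
    apply integral_congr_ae
    filter_upwards [h2.coeFn_toLp] with x a
    rw [a]
  -- the bound
  have hbd : ∀ᵐ x ∂ν, ‖g1 x‖ ≤ C := by
    set A : Set α := {x | C < ‖g1 x‖} with hA
    have hAm : MeasurableSet A := measurableSet_lt measurable_const hg1m.norm
    let u : α → ℂ := A.indicator (fun x => (starRingEnd ℂ) (g1 x) / ‖g1 x‖)
    have hum : Measurable u := by
      apply Measurable.indicator _ hAm
      exact (Complex.continuous_conj.measurable.comp hg1m).div (Complex.measurable_ofReal.comp hg1m.norm)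
    have hub : ∀ x, ‖u x‖ ≤ A.indicator (fun _ => (1 : ℝ)) x := by
      intro x
      by_cases hx : x ∈ A
      · simp only [u, indicator_of_mem hx, norm_div, RCLike.norm_conj, Complex.norm_real, norm_norm]
        exact div_self_le_one _
      · simp [u, indicator_of_notMem hx]
    have hub1 : ∀ x, ‖u x‖ ≤ 1 := fun x => (hub x).trans (by
      by_cases hx : x ∈ A <;> simp [hx])
    have hu2 : MemLp u 2 ν := hmem hum.aestronglyMeasurable ⟨1, hub1⟩
    have hu1 : MemLp u 1 ν := hu2.mono_exponent (by norm_num)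
    have h1 := hbase u hu2 hu1
    have hug : ∀ x, u x * g1 x = ((A.indicator (fun x => ‖g1 x‖) x : ℝ) : ℂ) := by
      intro x
      by_cases hx : x ∈ A
      · have hne : (‖g1 x‖ : ℂ) ≠ 0 := by
          have : 0 < ‖g1 x‖ := lt_of_le_of_lt hC hx
          exact_mod_cast this.ne'
        simp only [u, indicator_of_mem hx]
        rw [div_mul_eq_mul_div, mul_comm ((starRingEnd ℂ) (g1 x)), Complex.mul_conj, Complex.normSq_eq_norm_sq]
        push_cast
        field_simp
      · simp [u, indicator_of_notMem hx]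
    have h2 : ∫ x, u x * g1 x ∂ν = ((∫ x, A.indicator (fun x => ‖g1 x‖) x ∂ν : ℝ) : ℂ) := by
      rw [integral_congr_ae (Eventually.of_forall hug)]
      exact integral_complex_ofReal
    have h3 : ‖Λ (hu1.toLp u)‖ ≤ C * (∫ x, A.indicator (fun _ => (1 : ℝ)) x ∂ν) := by
      refine (hΛ _).trans ?_
      gcongr
      rw [L1.norm_eq_integral_norm]
      apply integral_mono_ae
      · exact (Lp.memLp (hu1.toLp u)).integrable le_rfl |>.norm
      · exact (integrable_const (1 : ℝ)).indicator hAm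
      · filter_upwards [hu1.coeFn_toLp] with x hx
        rw [hx]; exact hub x
    have hgi : Integrable g1 ν := by
      have : MemLp (g0 : α → ℂ) 1 ν := mem12 g0
      exact (memLp_one_iff_integrable.1 (MemLp.of_le this hg1m.aestronglyMeasurable (Eventually.of_forall fun x => by
        simp [hg1])))
    have hI : Integrable (A.indicator (fun x => ‖g1 x‖)) ν := hgi.norm.indicator hAm
    have hI1 : Integrable (A.indicator (fun _ => (1 : ℝ))) ν := (integrable_const (1 : ℝ)).indicator hAm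
    have h4 : ∫ x, A.indicator (fun x => ‖g1 x‖) x ∂ν ≤ C * (∫ x, A.indicator (fun _ => (1 : ℝ)) x ∂ν) := by
      rw [h1, h2, Complex.norm_real, Real.norm_eq_abs] at h3
      exact (le_abs_self _).trans h3
    have h5 : ∫ x, (A.indicator (fun x => ‖g1 x‖) x - C * A.indicator (fun _ => (1 : ℝ)) x) ∂ν = 0 := by
      apply le_antisymm
      · rw [integral_sub hI (hI1.const_mul C), integral_const_mul]
        linarith
      · apply integral_nonneg
        intro x
        by_cases hx : x ∈ A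
        · have : C < ‖g1 x‖ := hx
          simp [hx]; linarith
        · simp [hx]
    rw [integral_eq_zero_iff_of_nonneg] at h5
    · filter_upwards [h5] with x hx
      by_contra hlt
      have hxA : x ∈ A := not_le.1 hlt
      simp [hxA] at hx
      have : C < ‖g1 x‖ := hxA
      linarith
    · intro x
      by_cases hx : x ∈ A
      · have : C < ‖g1 x‖ := hx
        simp [hx]; linarith
      · simp [hx]
    · exact hI.sub (hI1.const_mul C)
  -- modification
  set g2 : α → ℂ := fun x => if ‖g1 x‖ ≤ C then g1 x else 0 with hg2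
  have hg2m : Measurable g2 := Measurable.ite (measurableSet_le hg1m.norm measurable_const) hg1m measurable_const
  have hg2b : ∀ x, ‖g2 x‖ ≤ C := by
    intro x
    simp only [hg2]
    split_ifs with h
    · exact h
    · simpa using hC
  have hg21 : g2 =ᵐ[ν] g1 := by
    filter_upwards [hbd] with x hx
    simp [hg2, hx]
  refine ⟨g2, hg2m, hg2b, ?_⟩
  have hint : ∀ f : Lp ℂ 1 ν, Integrable (fun x => f x * g2 x) ν := by
    intro f
    have hf : Integrable (f : α → ℂ) ν := (Lp.memLp f).integrable le_rfl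
    exact hf.mul_bdd (c := C) hg2m.aestronglyMeasurable (Eventually.of_forall hg2b)
  let Λ2 : Lp ℂ 1 ν →L[ℂ] ℂ := LinearMap.mkContinuous
    { toFun := fun f => ∫ x, f x * g2 x ∂ν
      map_add' := fun f g => by
        rw [← integral_add (hint f) (hint g)]
        apply integral_congr_ae
        filter_upwards [Lp.coeFn_add f g] with x hx
        rw [hx]; simp [add_mul]
      map_smul' := fun c f => by
        simp only [RingHom.id_apply, smul_eq_mul]
        rw [← integral_const_mul]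
        apply integral_congr_ae
        filter_upwards [Lp.coeFn_smul c f] with x hx
        rw [hx]; simp [mul_assoc] } C (fun f => by
      change ‖∫ x, f x * g2 x ∂ν‖ ≤ C * ‖f‖
      rw [L1.norm_eq_integral_norm, ← integral_const_mul]
      apply norm_integral_le_of_norm_le
      · exact ((Lp.memLp f).integrable le_rfl).norm.const_mul C
      · refine Eventually.of_forall fun x => ?_
        rw [norm_mul, mul_comm]
        gcongr
        exact hg2b x)
  have hΛ2 : ∀ f, Λ2 f = ∫ x, f x * g2 x ∂ν := fun f => rfl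
  intro f
  rw [← hΛ2]
  refine Lp.induction (p := 1) (by norm_num) (motive := fun f => Λ f = Λ2 f) ?_ ?_ ?_ f
  · intro c s hs hμs
    rw [Lp.simpleFunc.coe_indicatorConst, hΛ2]
    have h2 : MemLp (s.indicator fun _ => c) 2 ν := memLp_indicator_const 2 hs c (Or.inr hμs.ne)
    have h1 : MemLp (s.indicator fun _ => c) 1 ν := memLp_indicator_const 1 hs c (Or.inr hμs.ne)
    have := hbase _ h2 h1
    have e : indicatorConstLp 1 hs hμs.ne c = h1.toLp _ := rfl
    rw [e, this]
    apply integral_congr_ae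
    filter_upwards [hg21, h1.coeFn_toLp] with x a b
    rw [a, b]
  · intro f g hf hg _ h1 h2
    rw [map_add, map_add, h1, h2]
  · exact isClosed_eq Λ.continuous Λ2.continuous

private theorem ext_fn {V E : Type*} [AddCommGroup V] [Module ℂ V] [NormedAddCommGroup E] [NormedSpace ℂ E] (ι : V →ₗ[ℂ] E)
    (l : V →ₗ[ℂ] ℂ) {C : ℝ} (hC : 0 ≤ C) (h : ∀ v, ‖l v‖ ≤ C * ‖ι v‖) :
    ∃ Λ : E →L[ℂ] ℂ, (∀ x, ‖Λ x‖ ≤ C * ‖x‖) ∧ ∀ v, Λ (ι v) = l v := by
  obtain ⟨σ, hσ⟩ := ι.rangeRestrict.exists_rightInverse_of_surjective (LinearMap.range_rangeRestrict ι)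
  have hσ' : ∀ y : LinearMap.range ι, ι (σ y) = y := by
    intro y
    have := LinearMap.congr_fun hσ y
    have := congrArg Subtype.val this
    simpa using this
  let f : StrongDual ℂ (LinearMap.range ι) := LinearMap.mkContinuous (l.comp σ) C (fun y => by
    change ‖l (σ y)‖ ≤ _
    refine (h _).trans ?_
    rw [hσ']
    rfl)
  have hf : ∀ y, f y = l (σ y) := fun y => rfl
  have hfn : ‖f‖ ≤ C := LinearMap.mkContinuous_norm_le _ hC _
  obtain ⟨g, hg1, hg2⟩ := exists_extension_norm_eq (LinearMap.range ι) f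
  refine ⟨g, fun x => ?_, fun v => ?_⟩
  · refine (g.le_opNorm x).trans ?_
    gcongr
    rw [hg2]; exact hfn
  · have h1 := hg1 ⟨ι v, LinearMap.mem_range_self ι v⟩
    rw [show g (ι v) = g ((⟨ι v, LinearMap.mem_range_self ι v⟩ : LinearMap.range ι) : E) from rfl, h1, hf]
    have h2 : ‖l (σ ⟨ι v, LinearMap.mem_range_self ι v⟩ - v)‖ ≤ 0 := by
      refine (h _).trans ?_
      rw [map_sub, hσ']
      simp
    rw [map_sub] at h2
    exact sub_eq_zero.1 (norm_le_zero_iff.1 h2)

private theorem db_add {φ ψ : ℂ → ℂ} (hφ : ContDiff ℝ 1 φ) (hψ : ContDiff ℝ 1 ψ) (u : ℂ) :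
    db (φ + ψ) u = db φ u + db ψ u := by
  unfold db
  rw [fderiv_add (hφ.differentiable (by norm_num) u) (hψ.differentiable (by norm_num) u)]
  simp only [add_apply]
  ring

private theorem db_smul {φ : ℂ → ℂ} (hφ : ContDiff ℝ 1 φ) (c : ℂ) (u : ℂ) :
    db (c • φ) u = c * db φ u := by
  unfold db
  rw [fderiv_const_smul (hφ.differentiable (by norm_num) u)]
  simp only [smul_apply, smul_eq_mul]
  ring

private theorem db_cont {φ : ℂ → ℂ} (hφ : ContDiff ℝ 1 φ) : Continuous (db φ) := by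
  have h := hφ.continuous_fderiv (by norm_num)
  unfold db
  fun_prop

private theorem db_cs {φ : ℂ → ℂ} (hφ : HasCompactSupport φ) : HasCompactSupport (db φ) := by
  have h : HasCompactSupport (fderiv ℝ φ) := hφ.fderiv ℝ
  refine h.mono' ?_
  intro u hu
  by_contra hn
  apply hu
  have : fderiv ℝ φ u = 0 := image_eq_zero_of_notMem_tsupport hn
  simp [db, this]

theorem mu_ex {X : ℂ → ℂ} (hX : Continuous X) {R C : ℝ} (hC : 0 ≤ C)
    (hw : ∀ φ : ℂ → ℂ, Tf (ball 0 R) φ → ‖∫ u, X u * db φ u‖ ≤ C * ∫ u, ‖φ u‖) :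
    ∃ μ : ℂ → ℂ, Measurable μ ∧ (∀ z, ‖μ z‖ ≤ C) ∧ ∀ φ : ℂ → ℂ, Tf (ball 0 R) φ → ∫ u, X u * db φ u = - ∫ u, μ u * φ u := by
  set ν : Measure ℂ := volume.restrict (ball 0 R) with hν
  have : IsFiniteMeasure ν := ⟨by
    rw [hν, Measure.restrict_apply_univ]; exact measure_ball_lt_top⟩
  let V : Submodule ℂ (ℂ → ℂ) :=
    { carrier := {φ | Tf (ball 0 R) φ}
      add_mem' := fun {φ ψ} h1 h2 =>
        ⟨h1.c1.add h2.c1, h1.cs.add h2.cs, (tsupport_add φ ψ).trans (union_subset h1.sub h2.sub)⟩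
      zero_mem' := ⟨contDiff_const, HasCompactSupport.zero, by
        rw [show tsupport (0 : ℂ → ℂ) = ∅ by simp [tsupport]]
        exact empty_subset _⟩
      smul_mem' := fun c φ h => ⟨h.c1.const_smul c, h.cs.smul_left (f := fun _ => c), (closure_mono (by
        intro u hu hu0
        exact hu (by simp [hu0]))).trans h.sub⟩ }
  have hV : ∀ φ : V, Tf (ball 0 R) φ.1 := fun φ => φ.2
  have hi : ∀ φ : V, Integrable φ.1 (volume : Measure ℂ) := fun φ =>
    (hV φ).c1.continuous.integrable_of_hasCompactSupport (hV φ).cs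
  have hm : ∀ φ : V, MemLp φ.1 1 ν := fun φ => memLp_one_iff_integrable.2 (hi φ).restrict
  have hXi : ∀ φ : V, Integrable (fun u => X u * db φ.1 u) (volume : Measure ℂ) := fun φ =>
    (hX.mul (db_cont (hV φ).c1)).integrable_of_hasCompactSupport ((db_cs (hV φ).cs).mul_left)
  let ι : V →ₗ[ℂ] Lp ℂ 1 ν :=
    { toFun := fun φ => (hm φ).toLp φ.1
      map_add' := fun φ ψ => rfl
      map_smul' := fun c φ => rfl }
  let l : V →ₗ[ℂ] ℂ :=
    { toFun := fun φ => - ∫ u, X u * db φ.1 u
      map_add' := fun φ ψ => by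
        rw [← neg_add, ← integral_add (hXi φ) (hXi ψ)]
        congr 1
        apply integral_congr_ae
        refine Eventually.of_forall fun u => ?_
        simp only [Submodule.coe_add]
        rw [db_add (hV φ).c1 (hV ψ).c1]
        ring
      map_smul' := fun c φ => by
        simp only [RingHom.id_apply, smul_eq_mul]
        rw [mul_neg, ← integral_const_mul]
        congr 1
        apply integral_congr_ae
        refine Eventually.of_forall fun u => ?_
        simp only [Submodule.coe_smul]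
        rw [db_smul (hV φ).c1]
        ring }
  have hsupp : ∀ φ : V, ∀ u, u ∉ ball (0 : ℂ) R → φ.1 u = 0 := fun φ u hu =>
    image_eq_zero_of_notMem_tsupport (fun h => hu ((hV φ).sub h))
  have hιn : ∀ φ : V, ‖ι φ‖ = ∫ u, ‖φ.1 u‖ := by
    intro φ
    change ‖(hm φ).toLp φ.1‖ = _
    rw [L1.norm_eq_integral_norm]
    have : ∫ a, ‖((hm φ).toLp φ.1 : ℂ → ℂ) a‖ ∂ν = ∫ a, ‖φ.1 a‖ ∂ν := by
      apply integral_congr_ae
      filter_upwards [(hm φ).coeFn_toLp] with x hx
      rw [hx]
    rw [this, hν]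
    exact setIntegral_eq_integral_of_forall_compl_eq_zero (fun u hu => by rw [hsupp φ u hu, norm_zero])
  obtain ⟨Λ, hΛ1, hΛ2⟩ := ext_fn ι l hC (fun φ => by
    rw [hιn]
    change ‖- ∫ u, X u * db φ.1 u‖ ≤ _
    rw [norm_neg]
    exact hw φ.1 (hV φ))
  obtain ⟨g, hgm, hgb, hg⟩ := l1dual Λ hC hΛ1
  refine ⟨g, hgm, hgb, fun φ hφ => ?_⟩
  have h1 := hΛ2 ⟨φ, hφ⟩
  rw [hg] at h1
  change _ = - ∫ u, X u * db φ u at h1
  have h2 : ∫ x, ((ι ⟨φ, hφ⟩ : Lp ℂ 1 ν) : ℂ → ℂ) x * g x ∂ν = ∫ u, g u * φ u := by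
    have : ∫ x, ((ι ⟨φ, hφ⟩ : Lp ℂ 1 ν) : ℂ → ℂ) x * g x ∂ν = ∫ x, g x * φ x ∂ν := by
      apply integral_congr_ae
      filter_upwards [(hm ⟨φ, hφ⟩).coeFn_toLp] with x hx
      change ((hm ⟨φ, hφ⟩).toLp φ : ℂ → ℂ) x * g x = _
      rw [hx, mul_comm]
    rw [this, hν]
    exact setIntegral_eq_integral_of_forall_compl_eq_zero (fun u hu => by
      have := hsupp ⟨φ, hφ⟩ u hu
      simp only at this
      rw [this, mul_zero])
  rw [← h2, h1, neg_neg]

end Pool.Agent.H66.IL
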