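import Pool.Agent.H66.IL.Defs

/-!
# [H66 IL GTE] UD, chapter ILF: the trap with all Fatou critical points and all poles

PROOF of `gt_ex`. The critical points are finitely many (`Pool.Agent.H32.BT.crit_finite`). For every attracted critical point `c` let `z c` be its sink and `A c` a trap with `z c ∈ interior (A c)` (`trap_of_sink`, H84/BR/Trp). `T1 = T0 ∪ ⋃ A c`: closed, `f T1 ⊆ interior T1`, attracted: a trap.
Every `x ∈ FS` enters `T1`: `x` is attracted (`GA.fa`) to a sink `z` of period `n`; `sink_crit` (H44/ND/SKC): a critical point `c` and `m` with `f^[n j] (f^[m] c) → z`; `c` is attracted, to `z c`, so its orbit is in `A c` from some time on (`interior (A c)` is a neighbourhood of `z c`, `A c` is forward invariant), and `A c` is closed: `z ∈ A c`,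
`z = f^[n] z ∈ interior (A c)`, so `f^[n k] x ∈ A c` for large `k`.
`T = f^[k]⁻¹ T1` for large `k` (`trap_pre`, H84/BR/Trp, iterated: a trap, `f^[k]⁻¹ T1 ⊆ interior (f^[k+1]⁻¹ T1)`): it contains the finitely many Fatou critical points and the poles (`f (pole) = ∞ ∈ interior T0`) in its interior. `en`: clear, `T1 ⊆ T` (increasing). `GA v T`: the other fields do not depend on `T`; `ti`: `T0 ⊆ T`.
-/

set_option autoImplicit false

open Filter Topology Polynomial Metric Set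

namespace Pool.Agent.H66.IL

open Pool.Agent.H44.Fatou (rat rat_continuous rat_coe rat_coe_of_ne pt crit_coe ev)
open Pool.Agent.H56.HR (FS)
open Pool.Agent.H32.BT Pool.Agent.H79.Eul Pool.Agent.H79.Par Pool.Agent.H79.ES Pool.Agent.H47.NN Pool.Agent.H44.RC Pool.Agent.H84.BR
open Pool.Agent.H64.NC (GA JC)
open Pool.Agent.H61.TT (gg dg ww)
open Pool.Agent.H57.CP (tD)
open Pool.Agent.H83.UP (PP)

variable {d : ℕ} {v w : E d} {T : Set (OnePoint ℂ)} {r R : ℝ}

private theorem trap_iter {f : OnePoint ℂ → OnePoint ℂ} (hf : Continuous f) {A : Set (OnePoint ℂ)} (hA : Trap f A) (k : ℕ) :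
    Trap f (f^[k] ⁻¹' A) := by
  induction k with
  | zero => exact hA
  | succ k ih =>
    have h1 : f^[k + 1] ⁻¹' A = f ⁻¹' (f^[k] ⁻¹' A) := by
      rw [Function.iterate_succ, preimage_comp]
    rw [h1]
    exact (trap_pre hf ih).1

private theorem trap_mono {f : OnePoint ℂ → OnePoint ℂ} (hf : Continuous f) {A : Set (OnePoint ℂ)} (hA : Trap f A) (k : ℕ) :
    f^[k] ⁻¹' A ⊆ interior (f^[k + 1] ⁻¹' A) := by
  have h1 : f^[k + 1] ⁻¹' A = f ⁻¹' (f^[k] ⁻¹' A) := by
    rw [Function.iterate_succ, preimage_comp]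
  rw [h1]
  exact (trap_pre hf (trap_iter hf hA k)).2.1

private theorem trap_le {f : OnePoint ℂ → OnePoint ℂ} (hf : Continuous f) {A : Set (OnePoint ℂ)} (hA : Trap f A) {j k : ℕ}
    (hjk : j ≤ k) : f^[j] ⁻¹' A ⊆ f^[k] ⁻¹' A := by
  induction hjk with
  | refl => exact Subset.rfl
  | step _ ih => exact ih.trans ((trap_mono hf hA _).trans interior_subset)

private theorem trap_it {f : OnePoint ℂ → OnePoint ℂ} {A : Set (OnePoint ℂ)} (hA : Trap f A) {x : OnePoint ℂ} (hx : x ∈ A)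
    (k : ℕ) : f^[k] x ∈ A ∧ (0 < k → f^[k] x ∈ interior A) := by
  induction k with
  | zero => exact ⟨hx, fun h => absurd h (lt_irrefl 0)⟩
  | succ k ih =>
    rw [Function.iterate_succ_apply']
    exact ⟨interior_subset (hA.maps _ ih.1), fun _ => hA.maps _ ih.1⟩

/-- for every attracted point `c` there is a trap which contains every sink to which some iterate of `c` converges,
in its interior -/
private theorem trap_crit {P Q : Polynomial ℂ} (h : IsCoprime P Q) (hd : 2 ≤ max P.natDegree Q.natDegree) {c : OnePoint ℂ}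
    (hc : Att (rat P Q) c) : ∃ A : Set (OnePoint ℂ), Trap (rat P Q) A ∧ ∀ z n m, IsSink (rat P Q) z n →
      Tendsto (fun k : ℕ => (rat P Q)^[n * k] ((rat P Q)^[m] c)) atTop (𝓝 z) → z ∈ interior A := by
  obtain ⟨s, l, hs, hst⟩ := hc
  obtain ⟨A, hA, hsA⟩ := trap_of_sink h hd hs
  refine ⟨A, hA, fun z n m hz hzt => ?_⟩
  obtain ⟨K, hK⟩ := (hst.eventually_mem (isOpen_interior.mem_nhds hsA)).exists
  have hK2 : (rat P Q)^[l * K] c ∈ A := interior_subset hK
  have h1 : ∀ᶠ k : ℕ in atTop, (rat P Q)^[n * k] ((rat P Q)^[m] c) ∈ A := by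
    filter_upwards [eventually_ge_atTop (l * K)] with k hk
    have h2 : n * k + m = (n * k + m - l * K) + l * K := by
      have : k ≤ n * k := Nat.le_mul_of_pos_left k hz.1
      omega
    rw [← Function.iterate_add_apply, h2, Function.iterate_add_apply]
    exact (trap_it hA hK2 _).1
  have h3 : z ∈ A := hA.closed.mem_of_tendsto hzt h1
  have h4 := (trap_it hA h3 n).2 hz.1
  rwa [hz.2.1] at h4

theorem gt_ex {T0 : Set (OnePoint ℂ)} (h : GA v T0) : ∃ T, T0 ⊆ T ∧ GT v T := by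
  have hf : Continuous (Rf v) := rat_continuous h.cop
  have hd2 : 2 ≤ max (pol v.1).natDegree (pol v.2).natDegree := by rw [h.deg]; exact h.hd
  have hex : ∀ c : OnePoint ℂ, ∃ A : Set (OnePoint ℂ), Att (Rf v) c → (Trap (Rf v) A ∧ ∀ z n m, IsSink (Rf v) z n →
      Tendsto (fun k : ℕ => (Rf v)^[n * k] ((Rf v)^[m] c)) atTop (𝓝 z) → z ∈ interior A) := by
    intro c
    by_cases hc : Att (Rf v) c
    · obtain ⟨A, hA⟩ := trap_crit h.cop hd2 hc
      exact ⟨A, fun _ => hA⟩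
    · exact ⟨∅, fun h1 => absurd h1 hc⟩
  choose A hA using hex
  set F : Set (OnePoint ℂ) := {c | IsCrit (Rf v) c ∧ Att (Rf v) c} with hF
  have hFf : F.Finite := (crit_finite h.cop (by omega)).subset fun c hc => hc.1
  set T1 : Set (OnePoint ℂ) := T0 ∪ ⋃ c ∈ F, A c with hT1
  have hsub : ∀ c ∈ F, A c ⊆ T1 := fun c hc x hx => Or.inr (mem_biUnion hc hx)
  have ht1 : Trap (Rf v) T1 := by
    refine ⟨h.tr.closed.union (hFf.isClosed_biUnion fun c hc => (hA c hc.2).1.closed), ?_, ?_⟩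
    · rintro x (hx | hx)
      · exact interior_mono subset_union_left (h.tr.maps x hx)
      · obtain ⟨c, hc, hxc⟩ := mem_iUnion₂.1 hx
        exact interior_mono (hsub c hc) ((hA c hc.2).1.maps x hxc)
    · rintro x (hx | hx)
      · exact h.tr.att x hx
      · obtain ⟨c, hc, hxc⟩ := mem_iUnion₂.1 hx
        exact (hA c hc.2).1.att x hxc
  have hent : ∀ x ∈ FS (Rf v), ∃ k, (Rf v)^[k] x ∈ T1 := by
    intro x hx
    obtain ⟨z, n, hz, hzt⟩ := h.fa x hx
    obtain ⟨c, hc, m, hm⟩ := Pool.Agent.H44.ND.sink_crit h.cop hd2 hz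
    have hca : Att (Rf v) c := (att_iter hf c m).1 ⟨z, n, hz, hm⟩
    have hzi : z ∈ interior (A c) := (hA c hca).2 z n m hz hm
    obtain ⟨k, hk⟩ := (hzt.eventually_mem (isOpen_interior.mem_nhds hzi)).exists
    exact ⟨n * k, hsub c ⟨hc, hca⟩ (interior_subset hk)⟩
  obtain ⟨K, hK⟩ : ∃ K : ℕ, ∀ c ∈ F, (Rf v)^[K] c ∈ T1 := by
    have h1 : ∀ c : OnePoint ℂ, ∃ k : ℕ, c ∈ F → (Rf v)^[k] c ∈ T1 := by
      intro c
      by_cases hc : c ∈ F
      · obtain ⟨k, hk⟩ := hent c (h.af c hc.2)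
        exact ⟨k, fun _ => hk⟩
      · exact ⟨0, fun h1 => absurd h1 hc⟩
    choose κ hκ using h1
    refine ⟨hFf.toFinset.sup κ, fun c hc => ?_⟩
    exact trap_le hf ht1 (Finset.le_sup (f := κ) (hFf.mem_toFinset.2 hc)) (hκ c hc)
  have hle : T0 ⊆ (Rf v)^[K + 2] ⁻¹' T1 := fun x hx =>
    trap_le hf ht1 (Nat.zero_le (K + 2)) (show x ∈ (Rf v)^[0] ⁻¹' T1 from Or.inl hx)
  refine ⟨(Rf v)^[K + 2] ⁻¹' T1, hle, ?_⟩
  have hga : GA v ((Rf v)^[K + 2] ⁻¹' T1) :=
    ⟨h.hd, h.cop, h.deg, h.no, h.af, h.fa, trap_iter hf ht1 _, interior_mono hle h.ti⟩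
  refine ⟨hga, fun c hc hcF => ?_, fun z hz => ?_, fun x hx => ?_⟩
  · have h1 : (Rf v)^[K] c ∈ T1 := hK c ⟨hc, h.fa c hcF⟩
    exact trap_mono hf ht1 (K + 1) (trap_le hf ht1 (Nat.le_succ K) h1)
  · have h1 : Rf v (z : OnePoint ℂ) = OnePoint.infty := by
      unfold Rf
      rw [rat_coe]
      unfold pt
      rw [if_pos hz]
    have h2 : (Rf v)^[1] (z : OnePoint ℂ) ∈ T1 := by
      rw [Function.iterate_one, h1]
      exact Or.inl (interior_subset h.ti)
    exact trap_mono hf ht1 (K + 1) (trap_le hf ht1 (by omega) h2)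
  · obtain ⟨k, hk⟩ := hent x hx
    refine ⟨k, ?_⟩
    exact trap_le hf ht1 (Nat.zero_le (K + 2)) (show (Rf v)^[k] x ∈ (Rf v)^[0] ⁻¹' T1 from hk)

end Pool.Agent.H66.IL
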