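import Pool.Agent.H66.IL.Defs
import Pool.Agent.H57.CF.VLF
import Pool.Agent.H44.ND.JMP
import Pool.Agent.H57.CF.UPF
import Pool.Agent.H44.CP.MVL

/-!
# [H66 IL LNE] UD, chapter ILF: lines of maps

PROOF of `ln_ex`. Everything for small `t` (`t ↦ v + t w` is continuous). `cop`, `deg`: `cop_near`. `bd`: `R` as `GA.rad` for `interior T`. `tr`: `jc_cpt` (H44/ND/CLM) for `T` closed and `interior T` open. `pa`: `{x | Rf v x ∈ T}` is compact and all its points are attracted (`att_iter`, `tr.att`): `att_pers` (H79/ES/NAP) and a finite cover.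
`ca`: let `S = {c | IsCrit (Rf v) c ∧ Att (Rf v) c}` (finite; in `FS` by `GA.af`, so in `interior T` by `GT.cr`); pairwise disjoint open `U c ⊆ interior T` (`Set.Finite.t2_separation`); `ac_pers` (H79/ES/NNA): for small `t` every `U c` contains an attracted critical point of `Rf (v + t w)`. These are `NA v` different ones, and there are at most `NA v` (`hna`): so all attracted critical
points of `Rf (v + t w)` are in `⋃ U c ⊆ interior T` (`Set.eq_of_subset_of_ncard_le`). `no`: `hno`. Take a closed disc `‖t‖ ≤ r` in the neighbourhood.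
`ln_up`, `ln_upF`: as in the proofs of `vel` (H44/CP/MVL) and `velF` (H57/CF/VLF): a ball without maps `Up` around `v`, in which `NA ≤ NA v`; `neu_up`, `neu_upF`.
-/

set_option autoImplicit false

open Filter Topology Polynomial Metric Set

namespace Pool.Agent.H66.IL

open Pool.Agent.H44.Fatou (rat rat_continuous rat_coe rat_coe_of_ne pt crit_coe ev)
open Pool.Agent.H56.HR (FS)
open Pool.Agent.H32.BT Pool.Agent.H79.Eul Pool.Agent.H79.Par Pool.Agent.H79.ES Pool.Agent.H47.NN Pool.Agent.H44.RC Pool.Agent.H84.BR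
open Pool.Agent.H64.NC (GA JC)
open Pool.Agent.H61.TT (gg dg ww)
open Pool.Agent.H57.CP (tD)
open Pool.Agent.H83.UP (PP)

variable {d : ℕ} {v w : E d} {T : Set (OnePoint ℂ)} {r R : ℝ}

open Pool.Agent.H44.ND Pool.Agent.H57.CF Pool.Agent.H44.CP Pool.Agent.H47.NM

private theorem lne_ten (v w : E d) : Tendsto (fun t : ℂ => v + t • w) (𝓝 0) (𝓝 v) := by
  have h1 : Continuous fun t : ℂ => v + t • w := by fun_prop
  have h2 := h1.tendsto 0
  simpa only [zero_smul, add_zero] using h2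

private theorem lne_ac {v0 : E d} (hd : 2 ≤ d) (hcop : IsCoprime (pol v0.1) (pol v0.2))
    (hdeg : max (pol v0.1).natDegree (pol v0.2).natDegree = d) {c : OnePoint ℂ}
    (hc : IsCrit (Rf v0) c) (ha : Att (Rf v0) c) {W : Set (OnePoint ℂ)} (hW : W ∈ 𝓝 c) :
    ∀ᶠ v in 𝓝 v0, ∃ z ∈ W, IsCrit (Rf v) z ∧ Att (Rf v) z := by
  obtain ⟨W', hW', h1⟩ := att_pers hd hcop hdeg ha
  filter_upwards [h1, crit_pers hd hcop hdeg hc (inter_mem hW hW')] with v h2 h3
  obtain ⟨z, hz, h4⟩ := h3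
  exact ⟨z, hz.1, h4, h2 z hz.2⟩

private theorem lne_fin {v : E d} (hd : 2 ≤ d) (hcop : IsCoprime (pol v.1) (pol v.2))
    (hdeg : max (pol v.1).natDegree (pol v.2).natDegree = d) :
    {z : OnePoint ℂ | IsCrit (Rf v) z ∧ Att (Rf v) z}.Finite := by
  have h : {z : OnePoint ℂ | IsCrit (Rf v) z}.Finite := crit_finite hcop (by rw [hdeg]; omega)
  exact h.subset fun z hz => hz.1

theorem ln_ex (h : GT v T) (hna : ∀ᶠ t in 𝓝 (0 : ℂ), NA (v + t • w) ≤ NA v)
    (hno : ∀ᶠ t in 𝓝 (0 : ℂ), ∀ p : ℕ, 0 < p → ∀ x m, Cyc (pol (v + t • w).1) (pol (v + t • w).2) p x m → ‖m‖ ≠ 1) :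
    ∃ r R, LN v w T r R := by
  have hd := h.hd
  -- the radius
  obtain ⟨R, hR0, hR⟩ : ∃ R : ℝ, 0 < R ∧ ∀ z : ℂ, R < ‖z‖ → (z : OnePoint ℂ) ∈ interior T := by
    have h1 : Tendsto (fun z : ℂ => (z : OnePoint ℂ)) (Filter.cocompact ℂ) (𝓝 OnePoint.infty) := by
      rw [← Filter.coclosedCompact_eq_cocompact]
      exact OnePoint.tendsto_coe_infty
    have h2 : ∀ᶠ z : ℂ in Filter.cocompact ℂ, (z : OnePoint ℂ) ∈ interior T :=
      h1.eventually (isOpen_interior.mem_nhds h.ti)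
    rw [← Metric.cobounded_eq_cocompact,
      (Metric.hasBasis_cobounded_compl_closedBall (0 : ℂ)).eventually_iff] at h2
    obtain ⟨R, -, hR⟩ := h2
    refine ⟨max R 1, lt_of_lt_of_le one_pos (le_max_right _ _), fun z hz => hR ?_⟩
    intro h3
    exact (mem_closedBall_zero_iff.1 h3).not_gt ((le_max_left _ _).trans_lt hz)
  -- coprimality and degree
  have e1 := (lne_ten v w).eventually (cop_near h.cop h.deg (by omega))
  -- the trap
  have e2 := (lne_ten v w).eventually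
    (jc_cpt (by omega) h.cop h.deg h.tr.closed isOpen_interior h.tr.maps)
  -- the preimage of the trap
  have hcont : Continuous (Rf v) := rat_continuous h.cop
  have e3' : ∀ᶠ v' in 𝓝 v, ∀ x ∈ Rf v ⁻¹' T, Att (Rf v') x := by
    refine (h.tr.closed.preimage hcont).isCompact.eventually_forall_of_forall_eventually
      fun x hx => ?_
    have hax : Att (Rf v) x := (Pool.Agent.H32.BT.att_iter hcont x 1).1 (h.tr.att _ hx)
    obtain ⟨W, hW, hWv⟩ := att_pers hd h.cop h.deg hax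
    have h1 : ∀ᶠ z in 𝓝 (v, x), (∀ y ∈ W, Att (Rf z.1) y) ∧ z.2 ∈ W :=
      hWv.prod_nhds hW
    filter_upwards [h1] with z hz
    exact hz.1 _ hz.2
  have e3 := (lne_ten v w).eventually e3'
  -- the attracted critical points
  have hA := lne_fin hd h.cop h.deg
  obtain ⟨U, hU, hdis⟩ := hA.t2_separation
  have e4' : ∀ᶠ v' in 𝓝 v, ∀ z ∈ {z : OnePoint ℂ | IsCrit (Rf v) z ∧ Att (Rf v) z},
      ∃ y ∈ U z ∩ interior T, IsCrit (Rf v') y ∧ Att (Rf v') y := by
    rw [Filter.eventually_all_finite hA]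
    intro z hz
    exact lne_ac hd h.cop h.deg hz.1 hz.2 (((hU z).2.inter isOpen_interior).mem_nhds
      ⟨(hU z).1, h.cr z hz.1 (h.af z hz.2)⟩)
  have e4 := (lne_ten v w).eventually e4'
  obtain ⟨ε, hε, hall⟩ := Metric.eventually_nhds_iff_ball.1
    (e1.and (e2.and (e3.and (e4.and (hna.and hno)))))
  have hin : ∀ t : ℂ, ‖t‖ ≤ ε / 2 → t ∈ ball (0 : ℂ) ε := by
    intro t ht
    rw [mem_ball_zero_iff]
    linarith
  refine ⟨ε / 2, R, ⟨by linarith, hR0, fun t ht => (hall t (hin t ht)).1.1,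
    fun t ht => (hall t (hin t ht)).1.2, fun t ht => (hall t (hin t ht)).2.2.2.2.2, hR,
    fun t ht => (hall t (hin t ht)).2.1, fun t ht x hx => (hall t (hin t ht)).2.2.1 x hx,
    fun t ht c hc hca => ?_⟩⟩
  obtain ⟨⟨c1, c2⟩, -, -, h4, h5, -⟩ := hall t (hin t ht)
  choose! g hg using h4
  have hinj : InjOn g {z : OnePoint ℂ | IsCrit (Rf v) z ∧ Att (Rf v) z} := by
    intro z hz y hy hzy
    by_contra hne
    have h6 := hdis hz hy hne
    rw [Function.onFun, Set.disjoint_left] at h6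
    refine h6 (hg z hz).1.1 ?_
    rw [hzy]
    exact (hg y hy).1.1
  have hsub : g '' {z : OnePoint ℂ | IsCrit (Rf v) z ∧ Att (Rf v) z} ⊆
      {z : OnePoint ℂ | IsCrit (Rf (v + t • w)) z ∧ Att (Rf (v + t • w)) z} := by
    rintro _ ⟨z, hz, rfl⟩
    exact (hg z hz).2
  have heq := Set.eq_of_subset_of_ncard_le hsub (by
    rw [hinj.ncard_image]
    exact h5) (lne_fin hd c1 c2)
  have h7 : c ∈ g '' {z : OnePoint ℂ | IsCrit (Rf v) z ∧ Att (Rf v) z} := by
    rw [heq]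
    exact ⟨hc, hca⟩
  obtain ⟨z, hz, rfl⟩ := h7
  exact (hg z hz).1.2

theorem ln_up (hd : 2 ≤ d) (hcop : IsCoprime (pol v.1) (pol v.2)) (hdeg : max (pol v.1).natDegree (pol v.2).natDegree = d)
    (hup : ¬ Up v) (w : E d) : (∀ᶠ t in 𝓝 (0 : ℂ), NA (v + t • w) ≤ NA v) ∧
    ∀ᶠ t in 𝓝 (0 : ℂ), ∀ p : ℕ, 0 < p → ∀ x m, Cyc (pol (v + t • w).1) (pol (v + t • w).2) p x m → ‖m‖ ≠ 1 := by
  obtain ⟨ε0, hε0, hno⟩ : ∃ ε : ℝ, 0 < ε ∧ ∀ w ∈ ball v ε, IsCoprime (pol w.1) (pol w.2) →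
      max (pol w.1).natDegree (pol w.2).natDegree = d → NA w ≤ NA v := by
    unfold Up at hup
    push Not at hup
    obtain ⟨ε, hε, h⟩ := hup
    exact ⟨ε, hε, fun w hw h1 h2 => Nat.lt_succ_iff.1 (h w hw h1 h2)⟩
  have e1 := cop_near hcop hdeg (by omega)
  have e2 : ∀ᶠ v' in 𝓝 v, v' ∈ ball v ε0 := ball_mem_nhds v hε0
  have f1 : ∀ᶠ v' in 𝓝 v, NA v' ≤ NA v := by
    filter_upwards [e1, e2] with v' h1 h2
    exact hno v' h2 h1.1 h1.2
  have f2 : ∀ᶠ v' in 𝓝 v, ∀ p : ℕ, 0 < p → ∀ x m,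
      Cyc (pol v'.1) (pol v'.2) p x m → ‖m‖ ≠ 1 := by
    filter_upwards [e1, e2, na_low hd hcop hdeg] with v' h1 h2 h3
    intro p hp x m hc hm
    have hu := neu_up hd h1.1 h1.2 hp hc hm
    obtain ⟨δ, hδ, hδb⟩ := Metric.isOpen_iff.1 isOpen_ball v' h2
    obtain ⟨w', hw', c1, c2, c3⟩ := hu δ hδ
    have h4 := hno w' (hδb hw') c1 c2
    omega
  exact ⟨(lne_ten v w).eventually f1, (lne_ten v w).eventually f2⟩

theorem ln_upF {k : ℕ} (hd : 2 ≤ d) (hk : 2 ≤ k) (hkd : k ≤ d) {x : Em d k} (hg : GenM d k (pol x.1) (pol x.2))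
    (hup : ¬ UpF d k x) (y : Em d k) : (∀ᶠ t in 𝓝 (0 : ℂ), NA (ex d k x + t • ex d k y) ≤ NA (ex d k x)) ∧
    ∀ᶠ t in 𝓝 (0 : ℂ), ∀ p : ℕ, 0 < p → ∀ z m, Cyc (pol (ex d k x + t • ex d k y).1) (pol (ex d k x + t • ex d k y).2) p z m → ‖m‖ ≠ 1 := by
  have hcop := hg.cop
  have hdeg := genM_deg hg
  obtain ⟨ε0, hε0, hno⟩ : ∃ ε : ℝ, 0 < ε ∧ ∀ w ∈ ball x ε, IsCoprime (pol w.1) (pol w.2) →
      max (pol w.1).natDegree (pol w.2).natDegree = d → NA (ex d k w) ≤ NA (ex d k x) := by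
    unfold UpF at hup
    push Not at hup
    obtain ⟨ε, hε, h⟩ := hup
    exact ⟨ε, hε, fun w hw h1 h2 => Nat.lt_succ_iff.1 (h w hw h1 h2)⟩
  have hlin : ∀ t : ℂ, ex d k x + t • ex d k y = ex d k (x + t • y) := by
    intro t
    refine Prod.ext rfl (funext fun i => ?_)
    show (ex d k x).2 i + t • (ex d k y).2 i = (ex d k (x + t • y)).2 i
    unfold ex
    by_cases h : (i : ℕ) < d - k + 1
    · simp only [h, dite_true]
      rfl
    · simp only [h, dite_false, smul_zero, add_zero]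
  have hten : Tendsto (fun t : ℂ => x + t • y) (𝓝 0) (𝓝 x) := by
    have h1 : Continuous fun t : ℂ => x + t • y := by fun_prop
    have h2 := h1.tendsto 0
    simpa only [zero_smul, add_zero] using h2
  have e1 := genM_near hd hkd hg
  have e2 : ∀ᶠ v' in 𝓝 x, v' ∈ ball x ε0 := ball_mem_nhds x hε0
  simp only [hlin]
  have f1 : ∀ᶠ v' in 𝓝 x, NA (ex d k v') ≤ NA (ex d k x) := by
    filter_upwards [e1, e2] with v' h1 h2
    exact hno v' h2 h1.cop (genM_deg h1)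
  have f2 : ∀ᶠ v' in 𝓝 x, ∀ p : ℕ, 0 < p → ∀ z m,
      Cyc (pol (ex d k v').1) (pol (ex d k v').2) p z m → ‖m‖ ≠ 1 := by
    filter_upwards [e1, e2, ex_low hd hcop hdeg] with v' h1 h2 h3
    intro p hp z m hc hm
    rw [(ex_pol v').1, (ex_pol v').2] at hc
    have hu := neu_upF hd hk hkd h1 hp hc hm
    obtain ⟨δ, hδ, hδb⟩ := Metric.isOpen_iff.1 isOpen_ball v' h2
    obtain ⟨w', hw', c1, c2, c3⟩ := hu δ hδ
    have h4 := hno w' (hδb hw') c1 c2
    omega
  exact ⟨hten.eventually f1, hten.eventually f2⟩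

end Pool.Agent.H66.IL
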