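import Pool.Agent.H66.IL.AC

/-!
# [H66 IL FRD] UD, chapter ILF: the linear problem `R g ∘ F = S g + p` (Fredholm alternative)

PROOF. Let `w0 = ∏ (X - C c)` over the multiset `M` of the roots of `S` in `K` (`S.roots.filter (· ∈ K)`), `n = card M`, `S = w0 * S1`, `S1` has no zeros on `K` (`S ≠ 0`; `Polynomial.prod_multiset_X_sub_C_dvd`-like, `Multiset.prod_X_sub_C_dvd_iff_le_roots`; a root of `S1` in `K` would be a root of `S` with a larger multiplicity).
QUOTIENT (`ak_quo`, by induction on the list, from `ak_div`): continuous linear `D : AK K →L AK K` and for every `g` a polynomial `r` of degree `< n` (`r.degree < n`) with `g = w0 * D g + r` on `K` (for one more root `c`: `D g = (z - c) D_c (D g) + (D g) c`).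
Let `N = ak_mul R ∘ ak_cmp F` (compact), `A = ak_inv S1`, `K0 = A ∘ D ∘ N` (compact: `IsCompactOperator.clm_comp`, `comp_clm`). `s + 1 = Δ - n + 1 ≥ e + 1` coefficients: `Y = AK K × (Fin (Δ - n + 1) → ℂ)` (complete). For `σ` let `q σ = ∑ j, σ j X ^ j`, `B σ = A (q σ)` (linear, continuous since finite dimensional).
`Θ (g, σ) = (g + B σ - K0 g, j ↦ if j < e then ez g (ζ j) else 0)`. `Θ = 1 - Q`, `Q (g, σ) = (K0 g - B σ, σ - ..)` compact: sum of `K0 ∘ fst` (in the first component) and of operators which factor through a finite dimensional space (`isCompactOperator_of_locallyCompactSpace_dom`/`_rng`, `IsCompactOperator.add`, `IsCompactOperator.prodMk`-like).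
The last component (`j = Δ - n`, `e ≤ Δ - n`) of `Θ` is `0`, so `Θ` is not surjective, so `1` is not in the resolvent set of `Q`: `Pool` Mathlib `IsCompactOperator.hasEigenvalue_or_mem_resolventSet` (Mathlib.Analysis.Normed.Operator.Compact.FredholmAlternative): `(g, σ) ≠ 0` with `Q (g, σ) = (g, σ)`, i.e. `Θ (g, σ) = 0`.
Then `g (ζ i) = 0` and on `K`: `S1 g + q σ = D (N g)` (multiply by `S1`), so `S g + w0 q σ = w0 D (N g) = N g - r`: `p = w0 q σ + r`, degree `≤ Δ`. If `g = 0` on `K` then `N g = 0`, `D (N g) = 0` and `q σ = 0` on `K`; `K` is infinite (it contains the nonempty open set `interior K ∋ F z`), so `q σ = 0`, `σ = 0`: contradiction.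
-/

set_option autoImplicit false

open Filter Topology Polynomial Metric Set

namespace Pool.Agent.H66.IL

variable {K : Set ℂ}

private theorem nl (l : List ℂ) : ((l.map fun c => X - C c).prod).natDegree ≤ l.length := by
  induction l with
  | nil => simp
  | cons c l ih =>
    rw [List.map_cons, List.prod_cons, List.length_cons]
    refine natDegree_mul_le.trans ?_
    rw [natDegree_X_sub_C]
    omega

theorem ak_quo [CompactSpace K] (l : List ℂ) (hl : ∀ c ∈ l, c ∈ interior K) : ∃ D : AK K →L[ℂ] AK K, ∀ g : AK K,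
    ∃ r : Polynomial ℂ, r.degree < l.length ∧ ∀ z ∈ K,
    ez (g : C(K, ℂ)) z = ((l.map fun c => X - C c).prod).eval z * ez (D g : C(K, ℂ)) z + r.eval z := by
  induction l with
  | nil =>
    refine ⟨ContinuousLinearMap.id ℂ _, fun g => ⟨0, ?_, fun z hz => ?_⟩⟩
    · rw [degree_zero]
      exact WithBot.bot_lt_coe _
    · simp
  | cons c l ih =>
    obtain ⟨D, hD⟩ := ih (fun c hc => hl c (List.mem_cons_of_mem _ hc))
    obtain ⟨Dc, hDc⟩ := ak_div (hl c List.mem_cons_self)
    refine ⟨Dc.comp D, fun g => ?_⟩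
    obtain ⟨r, hr, h⟩ := hD g
    refine ⟨C (ez (D g : C(K, ℂ)) c) * (l.map fun c => X - C c).prod + r, ?_, fun z hz => ?_⟩
    · refine lt_of_le_of_lt (degree_add_le _ _) (max_lt ?_ ?_)
      · refine lt_of_le_of_lt degree_le_natDegree ?_
        exact_mod_cast (lt_of_le_of_lt (natDegree_C_mul_le _ _) (lt_of_le_of_lt (nl l) (Nat.lt_succ_self _)))
      · refine lt_of_lt_of_le hr ?_
        rw [List.length_cons]
        exact_mod_cast Nat.le_succ _
    · have h1 := h z hz
      have h2 := hDc (D g) z hz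
      rw [List.map_cons, List.prod_cons, eval_mul, eval_sub, eval_X, eval_C, eval_add, eval_mul, eval_C,
        ContinuousLinearMap.comp_apply]
      linear_combination h1 + ((l.map fun c => X - C c).prod).eval z * h2

open Classical in
theorem fred (hK : IsCompact K) (hKn : K.Nonempty) {F : ℂ → ℂ} (hF : ContinuousOn F K)
    (hFd : DifferentiableOn ℂ F (interior K)) (hFm : ∀ z ∈ K, F z ∈ interior K) (R : Polynomial ℂ) {S : Polynomial ℂ}
    (hS : S ≠ 0) (hSz : ∀ z ∈ K, S.eval z = 0 → z ∈ interior K) {Δ e : ℕ}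
    (hn : Multiset.card (S.roots.filter fun z => z ∈ K) + e ≤ Δ) (ζ : Fin e → ℂ) (hζ : ∀ i, ζ i ∈ K) :
    ∃ (g : ℂ → ℂ) (p : Polynomial ℂ), ContinuousOn g K ∧ DifferentiableOn ℂ g (interior K) ∧ p.natDegree ≤ Δ ∧
      (∀ z ∈ K, R.eval z * g (F z) = S.eval z * g z + p.eval z) ∧ (∀ i, g (ζ i) = 0) ∧ ∃ z ∈ K, g z ≠ 0 := by
  have : CompactSpace K := isCompact_iff_compactSpace.1 hK
  have : CompleteSpace (AK K) := (ak_closed (K := K)).completeSpace_coe
  obtain ⟨M, hM⟩ : ∃ M : Multiset ℂ, M = S.roots.filter fun z => z ∈ K := ⟨_, rfl⟩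
  obtain ⟨n, hnM⟩ : ∃ n : ℕ, n = Multiset.card M := ⟨_, rfl⟩
  rw [← hM, ← hnM] at hn
  obtain ⟨l, hlM⟩ : ∃ l : List ℂ, (l : Multiset ℂ) = M := ⟨M.toList, M.coe_toList⟩
  have hll : l.length = n := by rw [hnM, ← hlM, Multiset.coe_card]
  obtain ⟨w0, hw0⟩ : ∃ w0 : Polynomial ℂ, w0 = (l.map fun c => X - C c).prod := ⟨_, rfl⟩
  have hw0M : (M.map fun c => X - C c).prod = w0 := by
    rw [← hlM, Multiset.map_coe, Multiset.prod_coe, hw0]
  have hmem : ∀ c ∈ M, c ∈ K ∧ S.eval c = 0 := by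
    intro c hc
    rw [hM, Multiset.mem_filter] at hc
    exact ⟨hc.2, (mem_roots hS).1 hc.1⟩
  have hdvd : w0 ∣ S := by
    rw [← hw0M]
    exact (Multiset.prod_X_sub_C_dvd_iff_le_roots hS M).2 (by rw [hM]; exact Multiset.filter_le _ _)
  obtain ⟨S1, hS1⟩ := hdvd
  have hS1z : ∀ z ∈ K, S1.eval z ≠ 0 := by
    intro z hz h0
    have h1 : (X - C z) ∣ S1 := dvd_iff_isRoot.2 h0
    have h2 : ((z ::ₘ M).map fun c => X - C c).prod ∣ S := by
      rw [Multiset.map_cons, Multiset.prod_cons, hw0M, hS1, mul_comm]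
      exact mul_dvd_mul_left w0 h1
    have h3 := (Multiset.prod_X_sub_C_dvd_iff_le_roots hS _).1 h2
    have h4 := Multiset.count_le_of_le z h3
    rw [Multiset.count_cons_self, hM, Multiset.count_filter_of_pos hz] at h4
    omega
  obtain ⟨E, hE⟩ : ∃ E : ℂ → (AK K →L[ℂ] ℂ), ∀ (z : ℂ) (g : AK K), E z g = ez (g : C(K, ℂ)) z := by
    refine ⟨fun z => LinearMap.mkContinuous
      { toFun := fun g => ez (g : C(K, ℂ)) z
        map_add' := fun f g => ?_
        map_smul' := fun c g => ?_ } 1 (fun g => ?_), fun z g => rfl⟩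
    · exact congrFun (ez_add (f : C(K, ℂ)) (g : C(K, ℂ))) z
    · exact congrFun (ez_smul c (g : C(K, ℂ))) z
    · rw [one_mul]
      exact ez_le _ z
  obtain ⟨L, hL, hLF⟩ := ak_cmp hF hFd hFm
  obtain ⟨Mu, hMu⟩ := ak_mul (K := K) R
  obtain ⟨A, hA⟩ := ak_inv (K := K) S1 hS1z
  obtain ⟨D, hD⟩ := ak_quo (K := K) l (fun c hc => by
    have h1 : c ∈ M := by rw [← hlM]; exact hc
    exact hSz c (hmem c h1).1 (hmem c h1).2)
  have hN : IsCompactOperator (Mu ∘ L) := hL.clm_comp Mu
  have hpol : ∀ j : ℕ, ∃ g : AK K, ∀ z ∈ K, ez (g : C(K, ℂ)) z = z ^ j := fun j =>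
    ak_of (continuous_pow j).continuousOn (differentiable_pow j).differentiableOn
  choose ep hep using hpol
  obtain ⟨m, hm⟩ : ∃ m : ℕ, m = Δ - n + 1 := ⟨_, rfl⟩
  obtain ⟨Bq, hBq⟩ : ∃ Bq : (Fin m → ℂ) →L[ℂ] AK K, ∀ σ, Bq σ = ∑ j : Fin m, σ j • ep j := by
    refine ⟨∑ j : Fin m, (ContinuousLinearMap.proj j : (Fin m → ℂ) →L[ℂ] ℂ).smulRight (ep j), fun σ => ?_⟩
    rw [_root_.sum_apply]
    rfl
  have hBqz : ∀ σ : Fin m → ℂ, ∀ z ∈ K,
      ez (Bq σ : C(K, ℂ)) z = (∑ j : Fin m, C (σ j) * X ^ (j : ℕ)).eval z := by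
    intro σ z hz
    rw [← hE, hBq, map_sum, eval_finsetSum]
    refine Finset.sum_congr rfl fun j _ => ?_
    rw [map_smul, hE, hep _ z hz, smul_eq_mul, eval_mul, eval_C, eval_pow, eval_X]
  obtain ⟨Ev, hEv⟩ : ∃ Ev : AK K →L[ℂ] (Fin m → ℂ), ∀ g j,
      Ev g j = if h : (j : ℕ) < e then ez (g : C(K, ℂ)) (ζ ⟨j, h⟩) else 0 := by
    refine ⟨ContinuousLinearMap.pi fun j => if h : (j : ℕ) < e then E (ζ ⟨j, h⟩) else 0, fun g j => ?_⟩
    rw [ContinuousLinearMap.pi_apply]
    by_cases h : (j : ℕ) < e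
    · rw [dif_pos h, dif_pos h, hE]
    · rw [dif_neg h, dif_neg h]
      rfl
  obtain ⟨Q, hQ⟩ : ∃ Q : (AK K × (Fin m → ℂ)) →L[ℂ] (AK K × (Fin m → ℂ)), ∀ g σ,
      Q (g, σ) = (A (D (Mu (L g))) - A (Bq σ), σ - Ev g) :=
    ⟨((A.comp (D.comp (Mu.comp L))).comp (ContinuousLinearMap.fst ℂ (AK K) (Fin m → ℂ)) -
      (A.comp Bq).comp (ContinuousLinearMap.snd ℂ (AK K) (Fin m → ℂ))).prod
      (ContinuousLinearMap.snd ℂ (AK K) (Fin m → ℂ) - Ev.comp (ContinuousLinearMap.fst ℂ (AK K) (Fin m → ℂ))),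
      fun g σ => rfl⟩
  have hQc : IsCompactOperator Q := by
    have h1 : IsCompactOperator (A ∘ (D ∘ (Mu ∘ L))) := (hN.clm_comp D).clm_comp A
    have h2 := (h1.comp_clm (ContinuousLinearMap.fst ℂ (AK K) (Fin m → ℂ))).clm_comp
      (ContinuousLinearMap.inl ℂ (AK K) (Fin m → ℂ))
    have h3 := ((isCompactOperator_of_locallyCompactSpace_rng (A.comp Bq)).comp_clm
      (ContinuousLinearMap.snd ℂ (AK K) (Fin m → ℂ))).clm_comp (ContinuousLinearMap.inl ℂ (AK K) (Fin m → ℂ))
    have h4 := (isCompactOperator_of_locallyCompactSpace_dom (ContinuousLinearMap.snd ℂ (AK K) (Fin m → ℂ) -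
      Ev.comp (ContinuousLinearMap.fst ℂ (AK K) (Fin m → ℂ)))).clm_comp
      (ContinuousLinearMap.inr ℂ (AK K) (Fin m → ℂ))
    have h5 := (h2.sub h3).add h4
    refine (congrArg IsCompactOperator (funext fun y => ?_)).mpr h5
    rcases y with ⟨g, σ⟩
    rw [hQ]
    show _ = (A (D (Mu (L g))), (0 : Fin m → ℂ)) - (A (Bq σ), 0) + (0, σ - Ev g)
    rw [Prod.mk_sub_mk, Prod.mk_add_mk, add_zero, sub_zero, zero_add]
  rcases IsCompactOperator.hasEigenvalue_or_mem_resolventSet hQc (one_ne_zero : (1 : ℂ) ≠ 0) with h1 | h1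
  · obtain ⟨⟨g, σ⟩, hy⟩ := h1.exists_hasEigenvector
    have h2 : Q (g, σ) = (g, σ) := by
      have h3 := hy.apply_eq_smul
      rw [one_smul] at h3
      exact h3
    have h3 : (g, σ) ≠ 0 := hy.2
    rw [hQ, Prod.mk.injEq] at h2
    obtain ⟨h4, h5⟩ := h2
    have h6 : Ev g = 0 := by
      have h7 := sub_eq_self.1 h5
      exact h7
    obtain ⟨r, hr, hrz⟩ := hD (Mu (L g))
    have hS1g : ∀ z ∈ K, S1.eval z * ez (g : C(K, ℂ)) z =
        ez (D (Mu (L g)) : C(K, ℂ)) z - (∑ j : Fin m, C (σ j) * X ^ (j : ℕ)).eval z := by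
      intro z hz
      have h7 := hA (D (Mu (L g))) z hz
      have h8 := hA (Bq σ) z hz
      rw [hBqz σ z hz] at h8
      have h9 : ez (g : C(K, ℂ)) z = ez (A (D (Mu (L g))) : C(K, ℂ)) z - ez (A (Bq σ) : C(K, ℂ)) z := by
        rw [← hE, ← hE, ← hE, ← map_sub, h4]
      rw [h9, mul_sub, h7, h8]
    refine ⟨ez (g : C(K, ℂ)), w0 * (∑ j : Fin m, C (σ j) * X ^ (j : ℕ)) + r, ez_cont _, g.2, ?_, ?_, ?_, ?_⟩
    · refine (natDegree_add_le _ _).trans (max_le ?_ ?_)
      · refine natDegree_mul_le.trans ?_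
        have h7 : w0.natDegree ≤ n := by
          rw [hw0, ← hll]
          exact nl l
        have h8 : (∑ j : Fin m, C (σ j) * X ^ (j : ℕ)).natDegree ≤ Δ - n := by
          refine natDegree_sum_le_of_forall_le _ _ fun j _ => ?_
          refine (natDegree_C_mul_X_pow_le _ _).trans ?_
          have := j.2
          omega
        omega
      · have h7 : r.natDegree ≤ n := by
          refine natDegree_le_of_degree_le ?_
          rw [← hll]
          exact hr.le
        omega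
    · intro z hz
      have h7 := hrz z hz
      rw [hMu _ z hz, hLF _ z hz, ← hw0] at h7
      have h8 := hS1g z hz
      rw [h7, hS1, eval_mul, eval_add, eval_mul]
      linear_combination (-(w0.eval z)) * h8
    · intro i
      have h7 : (i : ℕ) < m := by
        have := i.2
        omega
      have h8 := congrFun h6 ⟨i, h7⟩
      rw [hEv, dif_pos i.2] at h8
      exact h8
    · by_contra hno
      push Not at hno
      have hg : g = 0 := by
        apply Subtype.ext
        refine ez_ext fun z hz => ?_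
        rw [hno z hz]
        exact (congrFun ez_zero z).symm
      have hq : ∀ z ∈ K, (∑ j : Fin m, C (σ j) * X ^ (j : ℕ)).eval z = 0 := by
        intro z hz
        have h7 := hS1g z hz
        rw [hno z hz, mul_zero, hg] at h7
        have h8 : ez (D (Mu (L (0 : AK K))) : C(K, ℂ)) z = 0 := by
          rw [← hE, map_zero, map_zero, map_zero, map_zero]
        rw [h8] at h7
        linear_combination h7
      obtain ⟨z0, hz0⟩ := hKn
      have hinf : K.Infinite := infinite_of_mem_nhds (F z0) (mem_interior_iff_mem_nhds.1 (hFm z0 hz0))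
      have hq0 : (∑ j : Fin m, C (σ j) * X ^ (j : ℕ)) = 0 :=
        eq_zero_of_infinite_isRoot _ (hinf.mono fun z hz => hq z hz)
      apply h3
      rw [hg]
      refine Prod.ext rfl ?_
      funext j0
      have h7 : (∑ j : Fin m, C (σ j) * X ^ (j : ℕ)).coeff j0 = σ j0 := by
        rw [finsetSum_coeff, Finset.sum_eq_single j0]
        · rw [coeff_C_mul, coeff_X_pow_self, mul_one]
        · intro b _ hb
          rw [coeff_C_mul, coeff_X_pow, if_neg (fun h => hb (Fin.ext h.symm)), mul_zero]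
        · intro h
          exact absurd (Finset.mem_univ _) h
      rw [hq0, coeff_zero] at h7
      exact h7.symm
  · exfalso
    rw [spectrum.mem_resolventSet_iff, ContinuousLinearMap.isUnit_iff_bijective] at h1
    obtain ⟨⟨g, σ⟩, hy⟩ := h1.2 (0, fun _ => 1)
    have hj : (Δ - n) < m := by omega
    have h3 : (g, σ) - Q (g, σ) = (0, fun _ => 1) := by
      rw [map_one] at hy
      exact hy
    rw [hQ, Prod.mk_sub_mk, Prod.mk.injEq] at h3
    have h2 := congrFun h3.2 ⟨Δ - n, hj⟩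
    rw [sub_sub_cancel, hEv, dif_neg (by show ¬ (Δ - n < e); omega)] at h2
    exact zero_ne_one h2

end Pool.Agent.H66.IL
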