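import Pool.Agent.H66.IL.Defs
import Pool.Agent.H66.IL.FRD

/-!
# [H66 IL SOL] UD, chapter ILF: the solution on the trap (from the chart `1 / (z - a)`)

PROOF. `P = pol v.1`, `Q = pol v.2`, `f = Rf v`. `e : ℂ → OnePoint ℂ`, `e ζ = a + 1 / ζ`, `e 0 = ∞` (`= pt (a ζ + 1) ζ`; continuous, injective, image = complement of `a`), `e' x = 1 / (x - a)`, `e' ∞ = 0`. `K = e⁻¹ T`: closed, bounded since `a ∉ T` (`T ⊆ FS`, `GA.af`, `Trap.att`), so compact; nonempty (`0 ∈ K`). `e⁻¹ (interior T) ⊆ interior K`.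
`F ζ = Q* ζ / M* ζ` with `Q* = reflect d (Q.comp (X + C a))`, `M* = reflect d ((P - C a * Q).comp (X + C a))` (`cj1`, `cj2` of H32/BT/Defs; the lemmas on them in H32/BT/Cj, H84/PT): `e (F ζ) = f (e ζ)` for `ζ ∈ K` (`M* ζ ≠ 0` since `f (e ζ) ≠ a`), continuous on `K`, holomorphic, `F K ⊆ interior K`.
`S^ = reflect (Δ - κ) ((ww P Q).comp (X + C a))` (`S^ ζ = ζ^Δ (ww P Q) (z) (z - a)^κ` at `z = a + 1/ζ`), `R^ = reflect Δ (R.comp (X + C a))` with `R = (P - C a * Q)^κ * Q^(2-κ)`. `S^ ≠ 0` (`ww P Q ≠ 0`: coprime, degree at least 1). Zeros of `S^` in `K` are in `interior K`: `ζ = 0` clear (`GA.ti`); `ζ ≠ 0`: `ww P Q (z) = 0`, `z ∈ T`: a pole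
(`GT.po`) or a critical point in `FS` (`GT.cr`). Number: `natDegree S^ ≤ Δ - κ` and `1 / (c0 - a)` is a zero which is not in `K` (`c0 ∈ J`), so at most `Δ - κ - 1` zeros in `K`; `e = κ + 1`: `fred` with `ζ i = 1 / (Z i - a)`.
`fred`: `g^, p^`. `g x = g^ (e' x)`, `p = (reflect Δ p^).comp (X - C a)` (`p z = (z - a)^Δ p^ (1 / (z - a))`). Multiply the equation at `ζ = 1 / (z - a)` by `(z - a)^Δ`.
-/

set_option autoImplicit false

open Filter Topology Polynomial Metric Set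

namespace Pool.Agent.H66.IL

open Pool.Agent.H44.Fatou (rat rat_continuous rat_coe rat_coe_of_ne pt crit_coe ev)
open Pool.Agent.H56.HR (FS)
open Pool.Agent.H32.BT Pool.Agent.H79.Eul Pool.Agent.H79.Par Pool.Agent.H79.ES Pool.Agent.H47.NN Pool.Agent.H44.RC Pool.Agent.H84.BR
open Pool.Agent.H64.NC (GA JC)
open Pool.Agent.H61.TT (gg dg ww)
open Pool.Agent.H57.CP (tD)
open Pool.Agent.H83.UP (PP)

variable {d : ℕ} {v w : E d} {T : Set (OnePoint ℂ)} {r R : ℝ}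

open Classical in
private theorem sol_card {S : Polynomial ℂ} (hS : S ≠ 0) {K : Set ℂ} {c : ℂ} (hc : c ∉ K)
    (h0 : S.eval c = 0) : Multiset.card (S.roots.filter fun z => z ∈ K) + 1 ≤ S.natDegree := by
  have h1 : c ∈ S.roots := (mem_roots hS).2 h0
  obtain ⟨M, hM⟩ := Multiset.exists_cons_of_mem h1
  rw [hM, Multiset.filter_cons_of_neg _ hc]
  have h3 := S.card_roots'
  rw [hM, Multiset.card_cons] at h3
  exact (Nat.succ_le_succ (Multiset.card_le_card (Multiset.filter_le _ _))).trans h3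

private theorem sol_refl {Δ : ℕ} {p : Polynomial ℂ} (hp : p.natDegree ≤ Δ) {z : ℂ} (hz : z ≠ 0) :
    (reflect Δ p).eval z = p.eval z⁻¹ * z ^ Δ := by
  have h1 := Pool.Agent.H44.Fatou.eval_reflect (P := reflect Δ p) (N := Δ)
    (mob_natDegree_reflect_le hp) hz
  rw [reflect_reflect] at h1
  exact h1

theorem sol (h : GT v T) {a c0 : ℂ} (ha : a ∈ JC v) (hc : c0 ∈ JC v) (hne : c0 ≠ a)
    (hw : (ww (pol v.1) (pol v.2)).eval c0 = 0) {κ Δ : ℕ} (hκ : κ ≤ 2)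
    (hR : ((pol v.1 - C a * pol v.2) ^ κ * (pol v.2) ^ (2 - κ)).natDegree ≤ Δ)
    (hS : (ww (pol v.1) (pol v.2)).natDegree + κ ≤ Δ) (Z : Fin (κ + 1) → ℂ) (hZ : ∀ i, (Z i : OnePoint ℂ) ∈ T) :
    ∃ (g : OnePoint ℂ → ℂ) (p : Polynomial ℂ), p.natDegree ≤ Δ ∧ ContinuousOn g T ∧
      DifferentiableOn ℂ (fun z : ℂ => g z) {z : ℂ | (z : OnePoint ℂ) ∈ interior T} ∧
      (∀ z : ℂ, (z : OnePoint ℂ) ∈ T → ((pol v.1 - C a * pol v.2) ^ κ * (pol v.2) ^ (2 - κ)).eval z * g (Rf v z) =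
        (ww (pol v.1) (pol v.2)).eval z * (z - a) ^ κ * g z + p.eval z) ∧
      (∀ i, g (Z i) = 0) ∧ ∃ z ∈ T, g z ≠ 0 := by
  have hTF : ∀ x ∈ T, x ∈ FS (Rf v) := fun x hx => h.af x (h.tr.att x hx)
  have haJ : (a : OnePoint ℂ) ∉ FS (Rf v) := ha
  have hcJ : (c0 : OnePoint ℂ) ∉ FS (Rf v) := hc
  have haT : (a : OnePoint ℂ) ∉ T := fun h1 => haJ (hTF _ h1)
  have hcT : (c0 : OnePoint ℂ) ∉ T := fun h1 => hcJ (hTF _ h1)
  have hd1 : 1 ≤ d := by
    have := h.hd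
    omega
  obtain ⟨φ, f1, f2, f3, f4⟩ := exists_mob a
  obtain ⟨-, -, fc⟩ := f4 d (pol v.1) (pol v.2) h.cop h.deg hd1
  have s0 : φ.symm ((0 : ℂ) : OnePoint ℂ) = OnePoint.infty := by
    rw [← f3, φ.symm_apply_apply]
  have s1 : ∀ z : ℂ, z ≠ a → φ.symm (((z - a)⁻¹ : ℂ) : OnePoint ℂ) = z := fun z hz => by
    rw [← f1 z hz, φ.symm_apply_apply]
  have sne : ∀ x : OnePoint ℂ, x ∈ T → φ x ≠ OnePoint.infty := by
    intro y hy h3
    apply haT
    have h4 : y = (a : OnePoint ℂ) := φ.injective (h3.trans f2.symm)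
    rwa [h4] at hy
  have hza : ∀ z : ℂ, (z : OnePoint ℂ) ∈ T → z ≠ a := by
    rintro z hz rfl
    exact haT hz
  -- the compact set
  obtain ⟨K, hK⟩ : ∃ K : Set ℂ, K = {ζ : ℂ | φ.symm (ζ : OnePoint ℂ) ∈ T} := ⟨_, rfl⟩
  have hKm : ∀ ζ : ℂ, ζ ∈ K ↔ φ.symm (ζ : OnePoint ℂ) ∈ T := fun ζ => by
    rw [hK]
    rfl
  have hKi : ∀ ζ : ℂ, φ.symm (ζ : OnePoint ℂ) ∈ interior T → ζ ∈ interior K := by
    intro ζ hζ
    have hop : IsOpen {ζ : ℂ | φ.symm (ζ : OnePoint ℂ) ∈ interior T} :=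
      isOpen_interior.preimage (φ.symm.continuous.comp OnePoint.continuous_coe)
    exact interior_maximal (fun y hy => (hKm y).2 (interior_subset hy)) hop hζ
  have hKc : IsCompact K := by
    have h1 : (OnePoint.some '' K : Set (OnePoint ℂ)) = φ '' T := by
      ext x
      constructor
      · rintro ⟨ζ, hζ, rfl⟩
        exact ⟨_, (hKm ζ).1 hζ, φ.apply_symm_apply _⟩
      · rintro ⟨y, hy, rfl⟩
        obtain ⟨ζ, hζ⟩ := OnePoint.ne_infty_iff_exists.1 (sne y hy)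
        refine ⟨ζ, (hKm ζ).2 ?_, hζ⟩
        rw [hζ, φ.symm_apply_apply]
        exact hy
    have h5 : IsClosed (OnePoint.some '' K : Set (OnePoint ℂ)) := by
      rw [h1]
      exact φ.isClosedMap _ h.tr.closed
    exact (OnePoint.isClosed_image_coe.1 h5).2
  have hK0 : (0 : ℂ) ∈ interior K := hKi 0 (by rw [s0]; exact h.ti)
  -- the inverse chart
  obtain ⟨e', he'⟩ : ∃ e' : OnePoint ℂ → ℂ, ∀ x, e' x = (φ x).elim 0 id := ⟨_, fun _ => rfl⟩
  have e1 : ∀ ζ : ℂ, e' (φ.symm (ζ : OnePoint ℂ)) = ζ := fun ζ => by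
    rw [he', φ.apply_symm_apply]
    rfl
  have e2 : ∀ z : ℂ, z ≠ a → e' z = (z - a)⁻¹ := fun z hz => by
    rw [← e1 (z - a)⁻¹, s1 z hz]
  have e3 : ∀ x ∈ T, φ.symm ((e' x : ℂ) : OnePoint ℂ) = x := by
    intro x hx
    obtain ⟨ζ, hζ⟩ := OnePoint.ne_infty_iff_exists.1 (sne x hx)
    have h1 : x = φ.symm (ζ : OnePoint ℂ) := by rw [hζ, φ.symm_apply_apply]
    rw [h1, e1]
  have e4 : ∀ x ∈ T, e' x ∈ K := fun x hx => (hKm _).2 (by rw [e3 x hx]; exact hx)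
  have e5 : ContinuousOn e' T := by
    intro x hx
    refine ContinuousAt.continuousWithinAt ?_
    obtain ⟨ζ, hζ⟩ := OnePoint.ne_infty_iff_exists.1 (sne x hx)
    have h1 : ContinuousAt (fun y : OnePoint ℂ => (y.elim 0 id : ℂ)) (φ x) := by
      rw [← hζ, OnePoint.continuousAt_coe]
      exact continuousAt_id
    have h2 : e' = (fun y : OnePoint ℂ => (y.elim 0 id : ℂ)) ∘ φ := funext he'
    rw [h2]
    exact ContinuousAt.comp h1 φ.continuous.continuousAt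
  -- the map
  have hQ : ∀ ζ ∈ K, (cj2 a d (pol v.1) (pol v.2)).eval ζ ≠ 0 := by
    intro ζ hζ h0
    have h1 := fc (φ.symm ζ)
    rw [φ.apply_symm_apply, rat_coe, h0] at h1
    have h2 : rat (pol v.1) (pol v.2) (φ.symm ζ) ∈ interior T := h.tr.maps _ ((hKm ζ).1 hζ)
    unfold pt at h1
    rw [if_pos rfl] at h1
    have h3 : rat (pol v.1) (pol v.2) (φ.symm ζ) = a := φ.injective (h1.symm.trans f2.symm)
    rw [h3] at h2
    exact haT (interior_subset h2)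
  obtain ⟨F, hF⟩ : ∃ F : ℂ → ℂ, F = fun ζ => (cj1 a d (pol v.1) (pol v.2)).eval ζ /
    (cj2 a d (pol v.1) (pol v.2)).eval ζ := ⟨_, rfl⟩
  have hFe : ∀ ζ ∈ K, ((F ζ : ℂ) : OnePoint ℂ) = φ (Rf v (φ.symm ζ)) := by
    intro ζ hζ
    have h1 := fc (φ.symm ζ)
    rw [φ.apply_symm_apply, rat_coe_of_ne (hQ ζ hζ)] at h1
    rw [hF]
    exact h1
  have hFs : ∀ ζ ∈ K, φ.symm ((F ζ : ℂ) : OnePoint ℂ) = Rf v (φ.symm ζ) := fun ζ hζ => by
    rw [hFe ζ hζ, φ.symm_apply_apply]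
  have hFm : ∀ ζ ∈ K, F ζ ∈ interior K := fun ζ hζ =>
    hKi _ (by rw [hFs ζ hζ]; exact h.tr.maps _ ((hKm ζ).1 hζ))
  have hFc : ContinuousOn F K := by
    rw [hF]
    exact (Polynomial.continuous _).continuousOn.div (Polynomial.continuous _).continuousOn hQ
  have hFd : DifferentiableOn ℂ F (interior K) := by
    rw [hF]
    exact (Polynomial.differentiable _).differentiableOn.div
      (Polynomial.differentiable _).differentiableOn fun ζ hζ => hQ ζ (interior_subset hζ)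
  -- the polynomials
  have hW : ww (pol v.1) (pol v.2) ≠ 0 := Pool.Agent.H61.TT.ww_ne ⟨h.hd, h.cop, h.deg⟩
  obtain ⟨W, hWd⟩ : ∃ W, W = ww (pol v.1) (pol v.2) := ⟨_, rfl⟩
  have hWW : ∀ z : ℂ, W.eval z = 0 → IsCrit (Rf v) (z : OnePoint ℂ) := fun z hz =>
    crit_of_wr h.cop (by rw [h.deg]; exact hd1) (by rw [hWd] at hz; exact hz)
  rw [← hWd] at hw hS hW
  rw [← hWd]
  have hWn : W.natDegree ≤ Δ - κ := by omega
  have hκΔ : κ ≤ Δ := by omega
  obtain ⟨S, hSd⟩ : ∃ S, S = reflect (Δ - κ) (W.comp (X + C a)) := ⟨_, rfl⟩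
  have hS0 : S ≠ 0 := by
    intro h0
    rw [hSd, reflect_eq_zero_iff] at h0
    apply hW
    rw [← comp_shift_pos a W, h0, zero_comp]
  have hSe : ∀ z : ℂ, z ≠ a → W.eval z = S.eval (z - a)⁻¹ * (z - a) ^ (Δ - κ) := fun z hz => by
    rw [hSd]
    exact mob_eval a hWn hz
  have hSz : ∀ ζ ∈ K, S.eval ζ = 0 → ζ ∈ interior K := by
    intro ζ hζ h0
    by_cases hζ0 : ζ = 0
    · rw [hζ0]
      exact hK0
    · obtain ⟨z, hz⟩ : ∃ z, z = a + ζ⁻¹ := ⟨_, rfl⟩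
      have h1 : z ≠ a := by
        rw [hz]
        intro h2
        exact inv_ne_zero hζ0 (add_eq_left.1 h2)
      have h2 : (z - a)⁻¹ = ζ := by rw [hz, add_sub_cancel_left, inv_inv]
      have h3 : φ.symm (ζ : OnePoint ℂ) = z := by rw [← h2, s1 z h1]
      have h4 : W.eval z = 0 := by rw [hSe z h1, h2, h0, zero_mul]
      have h5 := (hKm ζ).1 hζ
      apply hKi
      rw [h3] at h5 ⊢
      exact h.cr z (hWW z h4) (hTF _ h5)
  have hcn : (c0 - a)⁻¹ ∉ K := fun h1 => hcT (by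
    have h2 := (hKm _).1 h1
    rwa [s1 c0 hne] at h2)
  have hce : S.eval (c0 - a)⁻¹ = 0 := by
    have h1 := hSe c0 hne
    rw [hw] at h1
    rcases mul_eq_zero.1 h1.symm with h2 | h2
    · exact h2
    · exact absurd h2 (pow_ne_zero _ (sub_ne_zero.2 hne))
  have hSn : S.natDegree ≤ Δ - κ := by
    rw [hSd]
    exact mob_natDegree_reflect_le (mob_deg1 a hWn)
  obtain ⟨R, hRd⟩ : ∃ R, R = (pol v.1 - C a * pol v.2) ^ κ * (pol v.2) ^ (2 - κ) := ⟨_, rfl⟩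
  rw [← hRd] at hR ⊢
  have hZa : ∀ i, Z i ≠ a := fun i => hza _ (hZ i)
  have hcard := sol_card hS0 hcn hce
  obtain ⟨gh, ph, g1, g2, g3, g4, g5, ζ1, g6, g7⟩ := fred hKc ⟨0, interior_subset hK0⟩ hFc hFd hFm
    (reflect Δ (R.comp (X + C a))) hS0 hSz (Δ := Δ) (e := κ + 1) (by omega)
    (fun i => (Z i - a)⁻¹) (fun i => (hKm _).2 (by rw [s1 _ (hZa i)]; exact hZ i))
  refine ⟨fun x => gh (e' x), (reflect Δ ph).comp (X - C a), ?_, ?_, ?_, ?_, ?_, ?_⟩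
  · rw [natDegree_comp, natDegree_X_sub_C, mul_one]
    exact mob_natDegree_reflect_le g3
  · exact g1.comp e5 e4
  · intro z hz
    have h1 : z ≠ a := hza z (interior_subset hz)
    have h2 : (z - a)⁻¹ ∈ interior K := hKi _ (by rw [s1 z h1]; exact hz)
    have h3 : DifferentiableAt ℂ gh (z - a)⁻¹ := (g2 _ h2).differentiableAt
      (isOpen_interior.mem_nhds h2)
    have h4 : DifferentiableAt ℂ (fun z' : ℂ => (z' - a)⁻¹) z :=
      (differentiableAt_id.sub_const a).inv (sub_ne_zero.2 h1)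
    have h5 : DifferentiableAt ℂ (fun z' : ℂ => gh (z' - a)⁻¹) z := DifferentiableAt.comp z h3 h4
    refine (h5.congr_of_eventuallyEq ?_).differentiableWithinAt
    filter_upwards [isOpen_ne.mem_nhds h1] with z' hz'
    rw [e2 z' hz']
  · intro z hz
    have h1 := hza z hz
    have h2 : (z - a)⁻¹ ∈ K := (hKm _).2 (by rw [s1 z h1]; exact hz)
    have h3 := g4 _ h2
    have h4 : e' (Rf v z) = F (z - a)⁻¹ := by
      have h5 := hFs _ h2
      rw [s1 z h1] at h5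
      rw [← h5, e1]
    have h6 : R.eval z = (reflect Δ (R.comp (X + C a))).eval (z - a)⁻¹ * (z - a) ^ Δ :=
      mob_eval a hR h1
    have h7 : ((reflect Δ ph).comp (X - C a)).eval z = ph.eval (z - a)⁻¹ * (z - a) ^ Δ := by
      rw [eval_comp, eval_sub, eval_X, eval_C, sol_refl g3 (sub_ne_zero.2 h1)]
    have h8 : (z - a) ^ (Δ - κ) * (z - a) ^ κ = (z - a) ^ Δ := by
      rw [← pow_add, Nat.sub_add_cancel hκΔ]
    change R.eval z * gh (e' (Rf v z)) = W.eval z * (z - a) ^ κ * gh (e' z) +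
      ((reflect Δ ph).comp (X - C a)).eval z
    rw [h4, e2 z h1, h6, h7, hSe z h1, mul_assoc (S.eval _), h8]
    linear_combination (z - a) ^ Δ * h3
  · intro i
    change gh (e' (Z i)) = 0
    rw [e2 _ (hZa i)]
    exact g5 i
  · refine ⟨φ.symm ζ1, (hKm ζ1).1 g6, ?_⟩
    change gh (e' (φ.symm ζ1)) ≠ 0
    rw [e1]
    exact g7

end Pool.Agent.H66.IL
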