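import Pool.Agent.H66.IL.TR

/-!
# [H66 IL XC] UD, chapter ILF: the vector field on the plane

`xhat X V J`: `V` on `J`, `X` off `J`. PROOF of `xh_ex`. `(JC v)ᶜ = {z | z ∈ FS}` (`JS` is the complement of `FS`), open: `hol`. `eq`: `XF.eq`, `XJ.eq` (`gg z ∈ JC v` iff `z ∈ JC v` for `b z ≠ 0`: `fs_iff`). `δ`: `infDist z (JC v) < δ` implies `z ∉ T` (`JC v` compact (`GA.cl`, `GA.rad`), `T` closed, disjoint from it). `tri`: for `w ∈ J` `XJ.tri` (renamed), for `w ∉ J` `tr3`.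
`con`: off `J` clear; at `x ∈ J`: fix `y ∈ J`, `y ≠ x` (`hJ2`); by `tri` for `w → x`: `‖X^ w - X^ x‖ ≤ ‖w - x‖ / ‖y - x‖ * ‖V y - V x‖ + C ‖w - x‖ (1 + |log (‖y - x‖ / ‖w - x‖)|) → 0`.
-/

set_option autoImplicit false

open Filter Topology Polynomial Metric Set

namespace Pool.Agent.H66.IL

open Pool.Agent.H44.Fatou (rat rat_continuous rat_coe rat_coe_of_ne pt crit_coe ev)
open Pool.Agent.H56.HR (FS)
open Pool.Agent.H32.BT Pool.Agent.H79.Eul Pool.Agent.H79.Par Pool.Agent.H79.ES Pool.Agent.H47.NN Pool.Agent.H44.RC Pool.Agent.H84.BR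
open Pool.Agent.H64.NC (GA JC)
open Pool.Agent.H61.TT (gg dg ww)
open Pool.Agent.H57.CP (tD)
open Pool.Agent.H83.UP (PP)

variable {d : ℕ} {v w : E d} {T : Set (OnePoint ℂ)} {r R : ℝ}

open Classical in
/-- `V` on `J`, `X` off `J` -/
noncomputable def xhat (J : Set ℂ) (V X : ℂ → ℂ) (z : ℂ) : ℂ := if z ∈ J then V z else X z

private theorem xc_delta (h : GT v T) : ∃ δ : ℝ, 0 < δ ∧ ∀ x ∈ JC v, ∀ w : ℂ, infDist w (JC v) < δ →
    (w : OnePoint ℂ) ∉ T := by
  obtain ⟨R, hR0, hR⟩ := h.toGA.rad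
  have hTF : ∀ x ∈ T, x ∈ FS (Rf v) := fun x hx => h.af x (h.tr.att x hx)
  have hJb : JC v ⊆ closedBall 0 R := by
    intro z hz
    rw [mem_closedBall_zero_iff]
    by_contra hlt
    exact hz (hTF _ (hR z (not_le.1 hlt)))
  have hJk : IsCompact (JC v) := (isCompact_closedBall (0 : ℂ) R).of_isClosed_subset h.toGA.cl hJb
  have hTc : IsClosed ((fun z : ℂ => (z : OnePoint ℂ)) ⁻¹' T) :=
    h.tr.closed.preimage OnePoint.continuous_coe
  have hdis : Disjoint (JC v) ((fun z : ℂ => (z : OnePoint ℂ)) ⁻¹' T) := by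
    rw [Set.disjoint_left]
    intro z h1 h2
    exact h1 (hTF _ h2)
  obtain ⟨δ, hδ, hδ1⟩ := hdis.exists_thickenings hJk hTc
  refine ⟨δ, hδ, fun x hx w hw hwT => ?_⟩
  obtain ⟨y, hy, hyw⟩ := (infDist_lt_iff ⟨x, hx⟩).1 hw
  have h2 : w ∈ thickening δ (JC v) := mem_thickening_iff.2 ⟨y, hy, hyw⟩
  exact Set.disjoint_left.1 hδ1 h2 (self_subset_thickening hδ _ hwT)

private theorem xc_log {a t : ℝ} (ha : 0 < a) (ht : 0 < t) :
    t * |Real.log (a / t)| = |t * Real.log a - t * Real.log t| := by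
  rw [Real.log_div ha.ne' ht.ne', ← mul_sub, abs_mul, abs_of_pos ht]

theorem xh_ex (hT : GT v T) (h : LN v w T r R) {κ : ℕ} {p : Polynomial ℂ} {Z : Fin (κ + 1) → ℂ} {X V : ℂ → ℂ} {C0 : ℝ}
    (hX : XF v T κ p Z X) (hV : XJ v p C0 V) (hxi : ∀ z : ℂ, xi v w z = p.eval z / (pol v.2).eval z ^ 2)
    (hper : ∀ y ∈ JC v, ∀ ρ : ℝ, 0 < ρ → ∃ x ∈ JC v, x ∈ PP v ∧ ‖x - y‖ < ρ)
    (hJ2 : ∀ x ∈ JC v, ∃ y ∈ JC v, y ≠ x) :
    Continuous (xhat (JC v) V X) ∧ DifferentiableOn ℂ (xhat (JC v) V X) (JC v)ᶜ ∧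
    (∀ z : ℂ, (pol v.2).eval z ≠ 0 → xhat (JC v) V X (gg (pol v.1) (pol v.2) z) =
      dg (pol v.1) (pol v.2) z * xhat (JC v) V X z + p.eval z / (pol v.2).eval z ^ 2) ∧
    ∃ C δ : ℝ, 0 ≤ C ∧ 0 < δ ∧ ∀ x ∈ JC v, ∀ y ∈ JC v, x ≠ y → ∀ w : ℂ, infDist w (JC v) < δ → w ≠ x →
      ‖xhat (JC v) V X w - xhat (JC v) V X x - (w - x) / (y - x) * (xhat (JC v) V X y - xhat (JC v) V X x)‖ ≤
        C * ‖w - x‖ * (1 + |Real.log (‖y - x‖ / ‖w - x‖)|) := by
  have hoff : ∀ z, z ∉ JC v → xhat (JC v) V X z = X z := fun z hz => if_neg hz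
  have hon : ∀ z, z ∈ JC v → xhat (JC v) V X z = V z := fun z hz => if_pos hz
  have hfs : ∀ z : ℂ, z ∉ JC v → (z : OnePoint ℂ) ∈ FS (Rf v) := fun z hz => not_not.1 hz
  have hJc : IsClosed (JC v) := hT.toGA.cl
  have hd : DifferentiableOn ℂ (xhat (JC v) V X) (JC v)ᶜ :=
    (hX.hol.mono fun z hz => hfs z hz).congr fun z hz => hoff z hz
  -- the estimate
  obtain ⟨C, hC, htr⟩ := tr3 hT h hX hV hxi hper
  obtain ⟨δ, hδ, hδT⟩ := xc_delta hT
  have hest : ∀ x ∈ JC v, ∀ y ∈ JC v, x ≠ y → ∀ w : ℂ, infDist w (JC v) < δ → w ≠ x →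
      ‖xhat (JC v) V X w - xhat (JC v) V X x - (w - x) / (y - x) * (xhat (JC v) V X y - xhat (JC v) V X x)‖ ≤
        (C + C0) * ‖w - x‖ * (1 + |Real.log (‖y - x‖ / ‖w - x‖)|) := by
    intro x hx y hy hxy w hw hwx
    have hC0 : 0 ≤ C0 := zero_le_one.trans hV.hC
    have hn : 0 ≤ ‖w - x‖ := norm_nonneg _
    have hl : 0 ≤ 1 + |Real.log (‖y - x‖ / ‖w - x‖)| := by positivity
    rw [hon x hx, hon y hy]
    by_cases hwJ : w ∈ JC v
    · rw [hon w hwJ]
      refine (hV.tri w hwJ x hx y hy hwx hxy.symm).trans ?_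
      exact mul_le_mul_of_nonneg_right (mul_le_mul_of_nonneg_right (by linarith) hn) hl
    · rw [hoff w hwJ]
      refine (htr x hx y hy hxy w hwJ (hδT x hx w hw)).trans ?_
      exact mul_le_mul_of_nonneg_right (mul_le_mul_of_nonneg_right (by linarith) hn) hl
  have hCC : 0 ≤ C + C0 := add_nonneg hC (zero_le_one.trans hV.hC)
  refine ⟨?_, hd, ?_, C + C0, δ, hCC, hδ, hest⟩
  · rw [continuous_iff_continuousAt]
    intro x
    by_cases hx : x ∈ JC v
    · obtain ⟨y, hy, hyx⟩ := hJ2 x hx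
      have ha : 0 < ‖y - x‖ := norm_pos_iff.2 (sub_ne_zero.2 hyx)
      let B : ℂ → ℝ := fun w => ‖w - x‖ / ‖y - x‖ * ‖xhat (JC v) V X y - xhat (JC v) V X x‖ +
        (C + C0) * (‖w - x‖ + |‖w - x‖ * Real.log ‖y - x‖ - ‖w - x‖ * Real.log ‖w - x‖|)
      have hBc : Continuous B := by
        have h1 : Continuous fun w : ℂ => ‖w - x‖ := (continuous_id.sub continuous_const).norm
        have h2 : Continuous fun w : ℂ => ‖w - x‖ * Real.log ‖w - x‖ :=
          Real.continuous_mul_log.comp h1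
        exact ((h1.div_const _).mul continuous_const).add
          (continuous_const.mul (h1.add ((h1.mul continuous_const).sub h2).abs))
      have hB0 : B x = 0 := by
        show ‖x - x‖ / ‖y - x‖ * ‖xhat (JC v) V X y - xhat (JC v) V X x‖ +
          (C + C0) * (‖x - x‖ + |‖x - x‖ * Real.log ‖y - x‖ - ‖x - x‖ * Real.log ‖x - x‖|) = 0
        rw [sub_self, norm_zero, zero_div, zero_mul, zero_mul, zero_mul, sub_zero, abs_zero,
          add_zero, mul_zero, add_zero]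
      have hBt : Tendsto B (𝓝 x) (𝓝 0) := by
        have h1 := hBc.tendsto x
        rwa [hB0] at h1
      have hle : ∀ᶠ w in 𝓝 x, ‖xhat (JC v) V X w - xhat (JC v) V X x‖ ≤ B w := by
        filter_upwards [Metric.ball_mem_nhds x hδ] with w hw
        by_cases hwx : w = x
        · rw [hwx, sub_self, norm_zero, hB0]
        · have ht : 0 < ‖w - x‖ := norm_pos_iff.2 (sub_ne_zero.2 hwx)
          have h1 := hest x hx y hy hyx.symm w
            (lt_of_le_of_lt (infDist_le_dist_of_mem hx) (mem_ball.1 hw)) hwx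
          have h2 : xhat (JC v) V X w - xhat (JC v) V X x =
              (w - x) / (y - x) * (xhat (JC v) V X y - xhat (JC v) V X x) +
              (xhat (JC v) V X w - xhat (JC v) V X x -
                (w - x) / (y - x) * (xhat (JC v) V X y - xhat (JC v) V X x)) := by ring
          have h3 := norm_add_le ((w - x) / (y - x) * (xhat (JC v) V X y - xhat (JC v) V X x))
            (xhat (JC v) V X w - xhat (JC v) V X x -
                (w - x) / (y - x) * (xhat (JC v) V X y - xhat (JC v) V X x))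
          rw [← h2, norm_mul, norm_div] at h3
          have h4 : (C + C0) * ‖w - x‖ * (1 + |Real.log (‖y - x‖ / ‖w - x‖)|) =
              (C + C0) * (‖w - x‖ + |‖w - x‖ * Real.log ‖y - x‖ - ‖w - x‖ * Real.log ‖w - x‖|) := by
            rw [← xc_log ha ht]
            ring
          rw [h4] at h1
          exact h3.trans (by
            show _ ≤ ‖w - x‖ / ‖y - x‖ * ‖xhat (JC v) V X y - xhat (JC v) V X x‖ +
              (C + C0) * (‖w - x‖ + |‖w - x‖ * Real.log ‖y - x‖ - ‖w - x‖ * Real.log ‖w - x‖|)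
            linarith)
      have h5 : Tendsto (fun w => xhat (JC v) V X w - xhat (JC v) V X x) (𝓝 x) (𝓝 0) :=
        squeeze_zero_norm' hle hBt
      have h6 := h5.add_const (xhat (JC v) V X x)
      rw [zero_add] at h6
      refine h6.congr fun w => ?_
      rw [sub_add_cancel]
    · exact (hd.differentiableAt (hJc.isOpen_compl.mem_nhds hx)).continuousAt
  · intro z hb
    by_cases hz : z ∈ JC v
    · rw [hon z hz, hon _ (hT.toGA.jg hz)]
      exact hV.eq z hz
    · have h1 : gg (pol v.1) (pol v.2) z ∉ JC v := by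
        intro h2
        have h3 : Rf v (z : OnePoint ℂ) = ((gg (pol v.1) (pol v.2) z : ℂ) : OnePoint ℂ) := by
          unfold Rf
          rw [rat_coe_of_ne hb]
          rfl
        have h4 : Rf v (z : OnePoint ℂ) ∉ FS (Rf v) := by
          rw [h3]
          exact h2
        refine h4 ?_
        have h5 := (Pool.Agent.H47.RJ.fs_iff (v := v) (by have := hT.hd; omega) hT.cop hT.deg 1 (z : OnePoint ℂ)).2
          (hfs z hz)
        rwa [Function.iterate_one] at h5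
      rw [hoff z hz, hoff _ h1]
      exact hX.eq z (hfs z hz) hb

end Pool.Agent.H66.IL
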