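import Pool.Agent.H66.IL.Defs

/-!
# [H66 IL XFS] UD, chapter ILF: the vector field on the Fatou set

PROOF. `P, Q, f = Rf v`. `Y z = (z - a)^κ * g z` for `z ∈ T`. For `z ∈ T`, `Q z ≠ 0`: `f z = gg z ∈ T`, `Y (gg z) = (gg z - a)^κ g (f z)`, times `Q z ^ 2`: `(P z - a Q z)^κ Q z^(2-κ) g (f z)`, so by `he` `Y (gg z) = dg z * Y z + p z / Q z ^ 2` (`dg = ww / Q ^ 2`).
DEFINITION: for `z ∈ FS` let `k z` be the least `k` with `f^[k] z ∈ T` (`GT.en`); `XX 0 z = Y z`, `XX (k+1) z = (XX k (gg z) - p z / Q z ^ 2) / dg z`; `X z = XX (k z) z` for `z ∈ FS`, `X z = 0` otherwise. For `z ∈ FS`, `z ∉ T`: `Q z ≠ 0` (`GT.po`), `gg z = f z ∈ FS`, `k z = k (gg z) + 1`, `dg z ≠ 0` (otherwise `z` is critical, in `FS`, so in `T` by `GT.cr`). So `eq` holds for all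
`z ∈ FS`, `Q z ≠ 0`.
`hol`: by induction on `k`: `X` is differentiable at every `z ∈ FS` with `k z ≤ k`. If `z ∈ interior T`: `X = Y` near `z` and `hgd`. Otherwise `Q z ≠ 0`, `dg z ≠ 0` (`GT.po`, `GT.cr`), near `z` all points are in `FS` (open) and `X x = (X (gg x) - p x / Q x ^ 2) / dg x` by `eq`: it is enough that `X` is differentiable at `gg z`: if `z ∈ T` then `gg z ∈ interior T`; if `z ∉ T` then `k (gg z) < k z`.
`gr`: `g` is bounded on the compact `T`, `‖z - a‖ ≤ (1 + ‖a‖)(1 + ‖z‖)`. `nz`: `g z ≠ 0` at some `z ∈ T`; if `z = ∞ ∈ interior T` then by continuity also at finite points of `T` near `∞`; `a ∉ T`.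
-/

set_option autoImplicit false

open Filter Topology Polynomial Metric Set

namespace Pool.Agent.H66.IL

open Pool.Agent.H44.Fatou (rat rat_continuous rat_coe rat_coe_of_ne pt crit_coe ev)
open Pool.Agent.H56.HR (FS)
open Pool.Agent.H32.BT Pool.Agent.H79.Eul Pool.Agent.H79.Par Pool.Agent.H79.ES Pool.Agent.H47.NN Pool.Agent.H44.RC Pool.Agent.H84.BR
open Pool.Agent.H64.NC (GA JC)
open Pool.Agent.H61.TT (gg dg ww)
open Pool.Agent.H57.CP (tD)
open Pool.Agent.H83.UP (PP)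

variable {d : ℕ} {v w : E d} {T : Set (OnePoint ℂ)} {r R : ℝ}

private theorem rfc {z : ℂ} (hz : (pol v.2).eval z ≠ 0) :
    Rf v (z : OnePoint ℂ) = ((gg (pol v.1) (pol v.2) z : ℂ) : OnePoint ℂ) := by
  unfold Rf
  rw [rat_coe_of_ne hz]
  rfl

private theorem tfs (h : GT v T) {x : OnePoint ℂ} (hx : x ∈ T) : x ∈ FS (Rf v) := h.af x (h.tr.att x hx)

private theorem dne (h : GT v T) {z : ℂ} (hz : (z : OnePoint ℂ) ∈ FS (Rf v)) (hzT : (z : OnePoint ℂ) ∉ interior T) :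
    (pol v.2).eval z ≠ 0 ∧ dg (pol v.1) (pol v.2) z ≠ 0 := by
  have h1 : (pol v.2).eval z ≠ 0 := fun h0 => hzT (h.po z h0)
  refine ⟨h1, fun h0 => hzT (h.cr _ ?_ hz)⟩
  have h2 : (ww (pol v.1) (pol v.2)).eval z = 0 := by
    unfold dg at h0
    rcases div_eq_zero_iff.1 h0 with h3 | h3
    · exact h3
    · exact absurd (pow_eq_zero_iff (two_ne_zero)|>.1 h3) h1
  exact Pool.Agent.H32.BT.crit_of_wr h.cop (by rw [h.deg]; have := h.hd; omega) h2

/-- the first entrance time -/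
private noncomputable def kk (v : E d) (T : Set (OnePoint ℂ)) (z : ℂ) : ℕ := sInf {k | (Rf v)^[k] (z : OnePoint ℂ) ∈ T}

/-- the candidates -/
private noncomputable def XX (v : E d) (p : Polynomial ℂ) (Y : ℂ → ℂ) : ℕ → ℂ → ℂ
  | 0, z => Y z
  | k + 1, z => (XX v p Y k (gg (pol v.1) (pol v.2) z) - p.eval z / (pol v.2).eval z ^ 2) / dg (pol v.1) (pol v.2) z

private theorem kk_T {z : ℂ} (hz : (z : OnePoint ℂ) ∈ T) : kk v T z = 0 := by
  unfold kk
  exact Nat.sInf_eq_zero.2 (Or.inl hz)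

private theorem kk_s (h : GT v T) {z : ℂ} (hz : (z : OnePoint ℂ) ∈ FS (Rf v)) (hzT : (z : OnePoint ℂ) ∉ T) :
    kk v T z = kk v T (gg (pol v.1) (pol v.2) z) + 1 := by
  obtain ⟨hb, -⟩ := dne h hz (fun h1 => hzT (interior_subset h1))
  obtain ⟨k, hk⟩ := h.en _ hz
  have e : ∀ j, (Rf v)^[j + 1] (z : OnePoint ℂ) = (Rf v)^[j] ((gg (pol v.1) (pol v.2) z : ℂ) : OnePoint ℂ) := by
    intro j
    rw [Function.iterate_succ_apply, rfc hb]
  have hne : {k | (Rf v)^[k] (z : OnePoint ℂ) ∈ T}.Nonempty := ⟨k, hk⟩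
  have hmem : (Rf v)^[kk v T z] (z : OnePoint ℂ) ∈ T := Nat.sInf_mem hne
  obtain ⟨m, hm⟩ : ∃ m, kk v T z = m + 1 := by
    rcases hkk : kk v T z with _ | m
    · rw [hkk] at hmem
      exact absurd hmem hzT
    · exact ⟨m, rfl⟩
  rw [hm] at hmem ⊢
  rw [e] at hmem
  congr 1
  refine le_antisymm ?_ (Nat.sInf_le hmem)
  have hne2 : {k | (Rf v)^[k] ((gg (pol v.1) (pol v.2) z : ℂ) : OnePoint ℂ) ∈ T}.Nonempty := ⟨m, hmem⟩
  have hmem2 : (Rf v)^[kk v T (gg (pol v.1) (pol v.2) z)] ((gg (pol v.1) (pol v.2) z : ℂ) : OnePoint ℂ) ∈ T :=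
    Nat.sInf_mem hne2
  have h3 : kk v T z ≤ kk v T (gg (pol v.1) (pol v.2) z) + 1 := by
    refine Nat.sInf_le ?_
    show (Rf v)^[_] (z : OnePoint ℂ) ∈ T
    rw [e]
    exact hmem2
  omega

theorem xfs (h : GT v T) {a : ℂ} (ha : a ∈ JC v) {κ : ℕ} (hκ : κ ≤ 2) {p : Polynomial ℂ} {g : OnePoint ℂ → ℂ}
    (hg : ContinuousOn g T) (hgd : DifferentiableOn ℂ (fun z : ℂ => g z) {z : ℂ | (z : OnePoint ℂ) ∈ interior T})
    (he : ∀ z : ℂ, (z : OnePoint ℂ) ∈ T → ((pol v.1 - C a * pol v.2) ^ κ * (pol v.2) ^ (2 - κ)).eval z * g (Rf v z) =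
      (ww (pol v.1) (pol v.2)).eval z * (z - a) ^ κ * g z + p.eval z)
    {Z : Fin (κ + 1) → ℂ} (hZ : ∀ i, (Z i : OnePoint ℂ) ∈ T) (hZi : Function.Injective Z) (hz : ∀ i, g (Z i) = 0)
    (hnz : ∃ z ∈ T, g z ≠ 0) : ∃ X : ℂ → ℂ, XF v T κ p Z X := by
  have haT : (a : OnePoint ℂ) ∉ T := fun h1 => ha (tfs h h1)
  set Y : ℂ → ℂ := fun z => (z - a) ^ κ * g z with hY
  set X : ℂ → ℂ := fun z => XX v p Y (kk v T z) z with hX
  have XT : ∀ z : ℂ, (z : OnePoint ℂ) ∈ T → X z = Y z := by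
    intro z hz
    show XX v p Y (kk v T z) z = Y z
    rw [kk_T hz]
    rfl
  have fsg : ∀ z : ℂ, (z : OnePoint ℂ) ∈ FS (Rf v) → (pol v.2).eval z ≠ 0 →
      ((gg (pol v.1) (pol v.2) z : ℂ) : OnePoint ℂ) ∈ FS (Rf v) := by
    intro z hz hb
    rw [← rfc hb]
    exact (Pool.Agent.H47.RJ.fs_iff (by have := h.hd; omega) h.cop h.deg 1 (z : OnePoint ℂ)).2 hz
  have YT : ∀ z : ℂ, (z : OnePoint ℂ) ∈ T → (pol v.2).eval z ≠ 0 →
      Y (gg (pol v.1) (pol v.2) z) = dg (pol v.1) (pol v.2) z * Y z + p.eval z / (pol v.2).eval z ^ 2 := by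
    intro z hz hb
    have h1 := he z hz
    rw [rfc hb, eval_mul, eval_pow, eval_pow, eval_sub, eval_mul, eval_C] at h1
    show (gg (pol v.1) (pol v.2) z - a) ^ κ * g (gg (pol v.1) (pol v.2) z : ℂ) =
      (ww (pol v.1) (pol v.2)).eval z / (pol v.2).eval z ^ 2 * ((z - a) ^ κ * g z) + p.eval z / (pol v.2).eval z ^ 2
    have e1 : gg (pol v.1) (pol v.2) z - a = ((pol v.1).eval z - a * (pol v.2).eval z) / (pol v.2).eval z := by
      unfold gg
      field_simp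
    have e2 : (pol v.2).eval z ^ κ * (pol v.2).eval z ^ (2 - κ) = (pol v.2).eval z ^ 2 := by
      rw [← pow_add]
      congr 1
      omega
    have hb2 : (pol v.2).eval z ^ 2 ≠ 0 := pow_ne_zero _ hb
    have hbk : (pol v.2).eval z ^ κ ≠ 0 := pow_ne_zero _ hb
    have e3 : (gg (pol v.1) (pol v.2) z - a) ^ κ * (pol v.2).eval z ^ 2 =
        ((pol v.1).eval z - a * (pol v.2).eval z) ^ κ * (pol v.2).eval z ^ (2 - κ) := by
      rw [e1, div_pow, ← e2]
      field_simp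
    have e4 : (gg (pol v.1) (pol v.2) z - a) ^ κ * g (gg (pol v.1) (pol v.2) z : ℂ) =
        ((ww (pol v.1) (pol v.2)).eval z * (z - a) ^ κ * g z + p.eval z) / (pol v.2).eval z ^ 2 := by
      rw [eq_div_iff hb2, ← h1, ← e3]
      ring
    rw [e4]
    ring
  have Xeq : ∀ z : ℂ, (z : OnePoint ℂ) ∈ FS (Rf v) → (pol v.2).eval z ≠ 0 →
      X (gg (pol v.1) (pol v.2) z) = dg (pol v.1) (pol v.2) z * X z + p.eval z / (pol v.2).eval z ^ 2 := by
    intro z hz hb
    by_cases hzT : (z : OnePoint ℂ) ∈ T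
    · have h1 : ((gg (pol v.1) (pol v.2) z : ℂ) : OnePoint ℂ) ∈ T := by
        rw [← rfc hb]
        exact interior_subset (h.tr.maps _ hzT)
      rw [XT _ hzT, XT _ h1]
      exact YT z hzT hb
    · obtain ⟨-, hd0⟩ := dne h hz (fun h1 => hzT (interior_subset h1))
      have h1 : X z = (X (gg (pol v.1) (pol v.2) z) - p.eval z / (pol v.2).eval z ^ 2) / dg (pol v.1) (pol v.2) z := by
        show XX v p Y (kk v T z) z = _
        rw [kk_s h hz hzT]
        rfl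
      rw [h1, mul_div_cancel₀ _ hd0]
      ring
  have hFo : IsOpen {z : ℂ | (z : OnePoint ℂ) ∈ FS (Rf v)} := by
    have : IsOpen (FS (Rf v)) := isOpen_interior
    exact this.preimage OnePoint.continuous_coe
  have hTo : IsOpen {z : ℂ | (z : OnePoint ℂ) ∈ interior T} := isOpen_interior.preimage OnePoint.continuous_coe
  have dA : ∀ z : ℂ, (z : OnePoint ℂ) ∈ interior T → DifferentiableAt ℂ X z := by
    intro z hz
    have h1 : DifferentiableAt ℂ Y z :=
      ((differentiableAt_id.sub_const a).pow κ).mul (hgd.differentiableAt (hTo.mem_nhds hz))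
    refine h1.congr_of_eventuallyEq ?_
    filter_upwards [hTo.mem_nhds hz] with x hx
    exact XT x (interior_subset hx)
  have dB : ∀ z : ℂ, (z : OnePoint ℂ) ∈ FS (Rf v) → (pol v.2).eval z ≠ 0 → dg (pol v.1) (pol v.2) z ≠ 0 →
      DifferentiableAt ℂ X (gg (pol v.1) (pol v.2) z) → DifferentiableAt ℂ X z := by
    intro z hz hb hd0 hd1
    have hQ : DifferentiableAt ℂ (fun x => (pol v.2).eval x) z := (pol v.2).differentiableAt
    have hP : DifferentiableAt ℂ (fun x => (pol v.1).eval x) z := (pol v.1).differentiableAt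
    have hW : DifferentiableAt ℂ (fun x => (ww (pol v.1) (pol v.2)).eval x) z :=
      (ww (pol v.1) (pol v.2)).differentiableAt
    have hp : DifferentiableAt ℂ (fun x => p.eval x) z := p.differentiableAt
    have hgg : DifferentiableAt ℂ (gg (pol v.1) (pol v.2)) z := hP.div hQ hb
    have hdg : DifferentiableAt ℂ (dg (pol v.1) (pol v.2)) z := hW.div (hQ.pow 2) (pow_ne_zero _ hb)
    have h1 : DifferentiableAt ℂ (fun x => (X (gg (pol v.1) (pol v.2) x) - p.eval x / (pol v.2).eval x ^ 2) /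
        dg (pol v.1) (pol v.2) x) z :=
      ((DifferentiableAt.comp z hd1 hgg).sub (hp.div (hQ.pow 2) (pow_ne_zero _ hb))).div hdg hd0
    refine h1.congr_of_eventuallyEq ?_
    filter_upwards [hFo.mem_nhds hz, hQ.continuousAt.eventually_ne hb, hdg.continuousAt.eventually_ne hd0]
      with x hx hxb hxd
    rw [Xeq x hx hxb, eq_div_iff hxd]
    ring
  have hol : ∀ n : ℕ, ∀ z : ℂ, (z : OnePoint ℂ) ∈ FS (Rf v) → kk v T z = n → DifferentiableAt ℂ X z := by
    intro n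
    induction n using Nat.strong_induction_on with
    | _ n ih =>
      intro z hz hn
      by_cases hzi : (z : OnePoint ℂ) ∈ interior T
      · exact dA z hzi
      obtain ⟨hb, hd0⟩ := dne h hz hzi
      refine dB z hz hb hd0 ?_
      by_cases hzT : (z : OnePoint ℂ) ∈ T
      · refine dA _ ?_
        rw [← rfc hb]
        exact h.tr.maps _ hzT
      · have h1 := kk_s h hz hzT
        exact ih (kk v T (gg (pol v.1) (pol v.2) z)) (by omega) _ (fsg z hz hb) rfl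
  refine ⟨X, ⟨fun z hz => (hol _ z hz rfl).differentiableWithinAt, Xeq, ?_, hZi, ?_, ?_⟩⟩
  · have hTc : IsCompact T := h.tr.closed.isCompact
    obtain ⟨C0, hC0⟩ := hTc.exists_bound_of_continuousOn hg
    refine ⟨(1 + ‖a‖) ^ κ * C0, fun z hz => ?_⟩
    rw [XT z hz]
    have hC1 := hC0 _ hz
    have hC2 : 0 ≤ C0 := (norm_nonneg _).trans hC1
    have h1 : ‖z - a‖ ≤ (1 + ‖a‖) * (1 + ‖z‖) := by
      refine (norm_sub_le _ _).trans ?_
      nlinarith [norm_nonneg z, norm_nonneg a, mul_nonneg (norm_nonneg z) (norm_nonneg a)]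
    calc ‖Y z‖ = ‖z - a‖ ^ κ * ‖g z‖ := by rw [hY]; simp only [norm_mul, norm_pow]
      _ ≤ ((1 + ‖a‖) * (1 + ‖z‖)) ^ κ * C0 :=
        mul_le_mul (pow_le_pow_left₀ (norm_nonneg _) h1 κ) hC1 (norm_nonneg _) (by positivity)
      _ = (1 + ‖a‖) ^ κ * C0 * (1 + ‖z‖) ^ κ := by rw [mul_pow]; ring
  · intro i
    rw [XT _ (hZ i)]
    show (Z i - a) ^ κ * g (Z i) = 0
    rw [hz i, mul_zero]
  · have hfin : ∃ z : ℂ, (z : OnePoint ℂ) ∈ T ∧ g z ≠ 0 := by
      obtain ⟨x, hx, hgx⟩ := hnz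
      induction x using OnePoint.rec with
      | coe z => exact ⟨z, hx, hgx⟩
      | infty =>
        have hTn : T ∈ 𝓝 (OnePoint.infty : OnePoint ℂ) := mem_interior_iff_mem_nhds.1 h.ti
        have hgc : ContinuousAt g OnePoint.infty := hg.continuousAt hTn
        have h2 : ∀ᶠ x in 𝓝 (OnePoint.infty : OnePoint ℂ), x ∈ T ∧ g x ≠ 0 :=
          (eventually_mem_set.2 hTn).and (hgc.eventually_ne hgx)
        have h1 : Tendsto (fun z : ℂ => (z : OnePoint ℂ)) (Filter.cocompact ℂ) (𝓝 OnePoint.infty) := by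
          rw [← Filter.coclosedCompact_eq_cocompact]
          exact OnePoint.tendsto_coe_infty
        exact (h1.eventually h2).exists
    obtain ⟨z, hzT, hgz⟩ := hfin
    refine ⟨z, hzT, ?_⟩
    rw [XT z hzT]
    refine mul_ne_zero (pow_ne_zero _ ?_) hgz
    intro h0
    apply haT
    rw [← sub_eq_zero.1 h0]
    exact hzT

end Pool.Agent.H66.IL
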