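import Pool.Agent.H66.IL.FXA
import Pool.Agent.H66.IL.GTE
import Pool.Agent.H66.IL.LNE
import Pool.Agent.H66.IL.SOL
import Pool.Agent.H66.IL.XFS
import Pool.Agent.H66.IL.XC
import Pool.Agent.H83.UP.ALL
import Pool.Agent.H44.RR.CNT

/-!
# UD, chapter ILF: the field and the line field, Julia set not the sphere

`Drs v Δ`: all polynomials of degree at most `Δ` are directions of lines of maps without new attracted critical points and without neutral cycles. `vj`: velocities of all directions from `VP`.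
`fx_ga`: `FX`. `fx_up`, `fx_upF`: all rational maps; the families.
-/

set_option autoImplicit false

open Filter Topology Polynomial Metric Set MeasureTheory

namespace Pool.Agent.H66.IL

open Pool.Agent.H44.Fatou (rat rat_continuous rat_coe rat_coe_of_ne pt crit_coe ev)
open Pool.Agent.H56.HR (FS)
open Pool.Agent.H32.BT Pool.Agent.H79.Eul Pool.Agent.H79.Par Pool.Agent.H79.ES Pool.Agent.H47.NN Pool.Agent.H44.RC Pool.Agent.H84.BR
open Pool.Agent.H64.NC (GA JC)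
open Pool.Agent.H61.TT (gg dg ww RatD)
open Pool.Agent.H57.CP (tD)
open Pool.Agent.H83.UP (PP)
open Pool.Agent.H44.ND Pool.Agent.H57.CF Pool.Agent.H44.CP Pool.Agent.H47.NM Pool.Agent.H18.UP

variable {d : ℕ} {v : E d} {T : Set (OnePoint ℂ)}

/-- directions -/
def Drs (v : E d) (Δ : ℕ) : Prop := ∀ p : Polynomial ℂ, p.natDegree ≤ Δ → ∃ w : E d,
  (∀ z : ℂ, xi v w z = p.eval z / (pol v.2).eval z ^ 2) ∧ (∀ᶠ t in 𝓝 (0 : ℂ), NA (v + t • w) ≤ NA v) ∧
  ∀ᶠ t in 𝓝 (0 : ℂ), ∀ q : ℕ, 0 < q → ∀ x m, Cyc (pol (v + t • w).1) (pol (v + t • w).2) q x m → ‖m‖ ≠ 1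

theorem drs_up (hd : 2 ≤ d) (hcop : IsCoprime (pol v.1) (pol v.2)) (hdeg : max (pol v.1).natDegree (pol v.2).natDegree = d)
    (hup : ¬ Up v) : Drs v (2 * d) := by
  intro p hp
  obtain ⟨w, hw⟩ := Pool.Agent.H61.TT.xi_surj (v0 := v) ⟨hd, hcop, hdeg⟩ hp
  obtain ⟨h1, h2⟩ := ln_up hd hcop hdeg hup w
  exact ⟨w, hw, h1, h2⟩

theorem drs_upF {k : ℕ} (hd : 2 ≤ d) (hk : 2 ≤ k) (hkd : k ≤ d) {x : Em d k} (hg : GenM d k (pol x.1) (pol x.2))
    (hup : ¬ UpF d k x) : Drs (ex d k x) (2 * d - k) := by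
  intro p hp
  have hF := fam_ex hk hkd hg
  obtain ⟨w', hw', hxi⟩ := Pool.Agent.H79.GP.xi_surjm hd hF hp
  obtain ⟨y, hy⟩ : ∃ y : Em d k, ex d k y = w' := by
    refine ⟨(w'.1, fun i => w'.2 ⟨i, by omega⟩), ?_⟩
    refine Prod.ext rfl (funext fun i => ?_)
    unfold ex
    by_cases h : (i : ℕ) < d - k + 1
    · simp only [h, dite_true]
    · simp only [h, dite_false]
      exact (hw' i (by omega)).symm
  obtain ⟨h1, h2⟩ := ln_upF hd hk hkd hg hup y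
  rw [hy] at h1 h2
  exact ⟨w', hxi, h1, h2⟩

/-- velocities of a direction -/
theorem vj {D : ℕ} {C : ℝ} {X : ℕ → ℂ → ℂ} (h : VP D (pol v.1) (pol v.2) (JC v) C X) {p : Polynomial ℂ}
    (hp : p.natDegree ≤ D) : ∃ (C' : ℝ) (V : ℂ → ℂ), XJ v p C' V := by
  obtain ⟨S, hS⟩ : ∃ S : ℝ, S = ∑ j ∈ Finset.range (D + 1), ‖p.coeff j‖ := ⟨_, rfl⟩
  have hS0 : 0 ≤ S := by
    rw [hS]
    exact Finset.sum_nonneg fun _ _ => norm_nonneg _
  have hC := h.hC
  refine ⟨(S + 1) * C, fun x => ∑ j ∈ Finset.range (D + 1), p.coeff j * X j x, ?_, ?_, ?_, ?_⟩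
  · nlinarith
  · intro x hx
    refine (norm_sum_le _ _).trans ?_
    calc ∑ j ∈ Finset.range (D + 1), ‖p.coeff j * X j x‖ ≤ ∑ j ∈ Finset.range (D + 1), ‖p.coeff j‖ * C := by
          refine Finset.sum_le_sum fun j hj => ?_
          rw [norm_mul]
          exact mul_le_mul_of_nonneg_left (h.bd j (by have := Finset.mem_range.1 hj; omega) x hx) (norm_nonneg _)
      _ = S * C := by rw [hS, Finset.sum_mul]
      _ ≤ (S + 1) * C := by nlinarith
  · intro x hx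
    have h1 : p.eval x = ∑ j ∈ Finset.range (D + 1), p.coeff j * x ^ j := by
      rw [eval_eq_sum_range' (Nat.lt_succ_of_le hp)]
    show ∑ j ∈ Finset.range (D + 1), p.coeff j * X j (gg (pol v.1) (pol v.2) x) =
      dg (pol v.1) (pol v.2) x * (∑ j ∈ Finset.range (D + 1), p.coeff j * X j x) + p.eval x / (pol v.2).eval x ^ 2
    rw [h1, Finset.mul_sum, Finset.sum_div, ← Finset.sum_add_distrib]
    refine Finset.sum_congr rfl fun j hj => ?_
    rw [h.eq j (by have := Finset.mem_range.1 hj; omega) x hx]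
    ring
  · intro x hx y hy z hz hxy hzy
    show ‖(∑ j ∈ Finset.range (D + 1), p.coeff j * X j x) - (∑ j ∈ Finset.range (D + 1), p.coeff j * X j y) -
      (x - y) / (z - y) * ((∑ j ∈ Finset.range (D + 1), p.coeff j * X j z) -
        ∑ j ∈ Finset.range (D + 1), p.coeff j * X j y)‖ ≤ _
    have h1 : (∑ j ∈ Finset.range (D + 1), p.coeff j * X j x) - (∑ j ∈ Finset.range (D + 1), p.coeff j * X j y) -
      (x - y) / (z - y) * ((∑ j ∈ Finset.range (D + 1), p.coeff j * X j z) -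
        ∑ j ∈ Finset.range (D + 1), p.coeff j * X j y) =
      ∑ j ∈ Finset.range (D + 1), p.coeff j * (X j x - X j y - (x - y) / (z - y) * (X j z - X j y)) := by
      rw [← Finset.sum_sub_distrib, ← Finset.sum_sub_distrib, Finset.mul_sum, ← Finset.sum_sub_distrib]
      refine Finset.sum_congr rfl fun j _ => ?_
      ring
    rw [h1]
    refine (norm_sum_le _ _).trans ?_
    have hL : 0 ≤ 1 + |Real.log (‖z - y‖ / ‖x - y‖)| := by positivity
    calc ∑ j ∈ Finset.range (D + 1), ‖p.coeff j * (X j x - X j y - (x - y) / (z - y) * (X j z - X j y))‖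
        ≤ ∑ j ∈ Finset.range (D + 1), ‖p.coeff j‖ * (C * ‖x - y‖ * (1 + |Real.log (‖z - y‖ / ‖x - y‖)|)) := by
          refine Finset.sum_le_sum fun j hj => ?_
          rw [norm_mul]
          exact mul_le_mul_of_nonneg_left (h.tri j (by have := Finset.mem_range.1 hj; omega) x hx y hy z hz hxy hzy)
            (norm_nonneg _)
      _ = S * (C * ‖x - y‖ * (1 + |Real.log (‖z - y‖ / ‖x - y‖)|)) := by rw [hS, Finset.sum_mul]
      _ ≤ (S + 1) * C * ‖x - y‖ * (1 + |Real.log (‖z - y‖ / ‖x - y‖)|) := by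
          have h2 : 0 ≤ C * ‖x - y‖ * (1 + |Real.log (‖z - y‖ / ‖x - y‖)|) := by positivity
          nlinarith

theorem fx_ga {T0 : Set (OnePoint ℂ)} (h0 : GA v T0) {κ Δ : ℕ} (hκ : κ ≤ 2)
    (hR : ∀ a : ℂ, ((pol v.1 - C a * pol v.2) ^ κ * (pol v.2) ^ (2 - κ)).natDegree ≤ Δ)
    (hS : (ww (pol v.1) (pol v.2)).natDegree + κ ≤ Δ) (hdir : Drs v Δ) {δ0 R0 : ℝ}
    (hU : US0 d Δ (pol v.1) (pol v.2) (JC v) δ0 R0) {C0 : ℝ} {V : ℕ → ℂ → ℂ} (hV : VP Δ (pol v.1) (pol v.2) (JC v) C0 V)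
    {c : ℂ} (hc : IsCrit (Rf v) (c : OnePoint ℂ)) (hcJ : (c : OnePoint ℂ) ∈ JS (Rf v)) :
    ∃ (E : Set ℂ) (X h μ : ℂ → ℂ) (b0 : ℝ), ∀ δ : ℝ,
      Pool.Agent.H56.UD.FX (gg (pol v.1) (pol v.2)) {z : ℂ | (pol v.2).eval z ≠ 0} (JC v) E δ X h μ b0 := by
  obtain ⟨T, hT0, hT⟩ := gt_ex h0
  have hGA : GA v T := hT.toGA
  -- the critical point
  have hcb : (pol v.2).eval c ≠ 0 := hGA.bne hcJ
  have hw : (ww (pol v.1) (pol v.2)).eval c = 0 := crit_coe hc
  -- Thk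
  have hth : Thk (JC v) := thk hU
  obtain ⟨θ, r1, hθ, hr1, hthk⟩ := id hth
  have hJ2 : ∀ x ∈ JC v, ∃ y ∈ JC v, y ≠ x := by
    intro x hx
    obtain ⟨y, hy, h1, -⟩ := hthk x hx r1 hr1 le_rfl
    refine ⟨y, hy, ?_⟩
    rintro rfl
    rw [sub_self, norm_zero] at h1
    have : 0 < θ * r1 := by positivity
    linarith
  obtain ⟨a, ha, hac⟩ := hJ2 c hcJ
  -- points of the trap
  obtain ⟨Z, hZ, hZi⟩ : ∃ Z : Fin (κ + 1) → ℂ, (∀ i, (Z i : OnePoint ℂ) ∈ T) ∧ Function.Injective Z := by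
    obtain ⟨R, hR0, hR1⟩ := hGA.rad
    refine ⟨fun i => ((R + 1 + (i : ℕ) : ℝ) : ℂ), fun i => hR1 _ ?_, fun i j hij => ?_⟩
    · rw [Complex.norm_real, Real.norm_of_nonneg (by positivity)]
      have : (0 : ℝ) ≤ ((i : ℕ) : ℝ) := by positivity
      linarith
    · have h1 := Complex.ofReal_injective hij
      have h2 : ((i : ℕ) : ℝ) = ((j : ℕ) : ℝ) := by linarith
      exact Fin.ext (by exact_mod_cast h2)
  obtain ⟨g, p, hp, hgc, hgd, hge, hgz, hgn⟩ := sol hT ha hcJ hac.symm hw hκ (hR a) hS Z hZ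
  obtain ⟨X, hX⟩ := xfs hT ha hκ hgc hgd hge hZ hZi hgz hgn
  obtain ⟨w, hxi, hna, hno⟩ := hdir p hp
  obtain ⟨r, R, hL⟩ := ln_ex hT hna hno
  obtain ⟨C1, V1, hV1⟩ := vj hV hp
  have hper : ∀ y ∈ JC v, ∀ ρ : ℝ, 0 < ρ → ∃ x ∈ JC v, x ∈ PP v ∧ ‖x - y‖ < ρ := by
    intro y hy ρ hρ
    obtain ⟨x, hx, hxy, q, hq, hqx⟩ := hU.per y hy ρ hρ
    exact ⟨x, hx, Pool.Agent.H83.UP.per_pp hGA hx hq hqx, hxy⟩
  obtain ⟨x1, x2, x3, C2, δ, hC2, hδ, x4⟩ := xh_ex hT hL hX hV1 hxi hper hJ2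
  -- the trap is disjoint from the Julia set
  have hTJ : ∀ z : ℂ, (z : OnePoint ℂ) ∈ T → z ∉ JC v := fun z hz h1 => h1 (hGA.af _ (hGA.tr.att _ hz))
  have hxT : ∀ z : ℂ, (z : OnePoint ℂ) ∈ T → xhat (JC v) V1 X z = X z := fun z hz => if_neg (hTJ z hz)
  obtain ⟨R2, hR20, hR2⟩ := hGA.rad
  obtain ⟨C3, hC3⟩ := hX.gr
  have hJk : IsCompact (JC v) := by
    refine (isCompact_closedBall (0 : ℂ) R2).of_isClosed_subset hGA.cl fun z hz => ?_
    rw [mem_closedBall_zero_iff]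
    by_contra hlt
    exact hTJ z (hR2 z (not_le.1 hlt)) hz
  refine fxa (h := fun z => p.eval z / (pol v.2).eval z ^ 2) hJk x1 x2 ?_ ?_ hC2 hδ x4 hth (κ := κ) (C1 := C3) (R1 := R2)
    (fun z hz => ?_) hX.zj (fun i => ?_) ?_
  · exact (p.differentiable.differentiableOn).div ((pol v.2).differentiable.differentiableOn.pow 2)
      fun z hz => pow_ne_zero 2 hz
  · intro z hz
    rw [(Pool.Agent.H61.TT.hasDerivAt_gg hz).deriv]
    exact x3 z hz
  · rw [hxT z (hR2 z hz)]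
    exact hC3 z (hR2 z hz)
  · rw [hxT _ (hZ i)]
    exact hX.zr i
  · obtain ⟨z, hz, hz1⟩ := hX.nz
    exact ⟨z, by rw [hxT z hz]; exact hz1⟩

/-- all rational maps -/
theorem fx_up {T : Set (OnePoint ℂ)} (h : GA v T) (hup : ¬ Up v) {c : ℂ}
    (hc : IsCrit (Rf v) (c : OnePoint ℂ)) (hcJ : (c : OnePoint ℂ) ∈ JS (Rf v)) :
    ∃ (E : Set ℂ) (X h μ : ℂ → ℂ) (b0 : ℝ), ∀ δ : ℝ,
      Pool.Agent.H56.UD.FX (gg (pol v.1) (pol v.2)) {z : ℂ | (pol v.2).eval z ≠ 0} (JC v) E δ X h μ b0 := by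
  have hd := h.hd
  have hrt : RatD d (pol v.1) (pol v.2) := ⟨h.hd, h.cop, h.deg⟩
  have hw := Pool.Agent.H44.RR.ww_deg hrt
  have ha : (pol v.1).natDegree ≤ d := (le_max_left _ _).trans (le_of_eq h.deg)
  have hb : (pol v.2).natDegree ≤ d := (le_max_right _ _).trans (le_of_eq h.deg)
  obtain ⟨δ0, R0, hU⟩ := us0 h (D := 2 * d) (by omega) (by omega) hc hcJ (fun x hx => Pool.Agent.H61.TT.lagr hrt hx)
  obtain ⟨C0, V, hV⟩ := Pool.Agent.H83.UP.vp_ga h hU fun η hη =>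
    Pool.Agent.H83.UP.mot_up h.hd h.cop h.deg hup (h.tr.att _ (interior_subset h.ti)) hη
  refine fx_ga h (κ := 2) (Δ := 2 * d) le_rfl (fun a => ?_) (by omega) (drs_up h.hd h.cop h.deg hup) hU hV hc hcJ
  have h1 : (pol v.1 - C a * pol v.2).natDegree ≤ d :=
    (natDegree_sub_le _ _).trans (max_le ha ((natDegree_C_mul_le _ _).trans hb))
  rw [Nat.sub_self, pow_zero, mul_one]
  exact (natDegree_pow_le).trans (Nat.mul_le_mul_left 2 h1)

/-- the families -/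
theorem fx_upF {k : ℕ} (hd : 2 ≤ d) (hk : 2 ≤ k) (hkd : k ≤ d) {x : Em d k} (hg : GenM d k (pol x.1) (pol x.2))
    (hup : ¬ UpF d k x) {T : Set (OnePoint ℂ)} (h : GA (ex d k x) T) {c : ℂ}
    (hc : IsCrit (Rf (ex d k x)) (c : OnePoint ℂ)) (hcJ : (c : OnePoint ℂ) ∈ JS (Rf (ex d k x))) :
    ∃ (E : Set ℂ) (X h μ : ℂ → ℂ) (b0 : ℝ), ∀ δ : ℝ,
      Pool.Agent.H56.UD.FX (gg (pol (ex d k x).1) (pol (ex d k x).2)) {z : ℂ | (pol (ex d k x).2).eval z ≠ 0}
        (JC (ex d k x)) E δ X h μ b0 := by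
  have hrt : RatD d (pol (ex d k x).1) (pol (ex d k x).2) := ⟨h.hd, h.cop, h.deg⟩
  have hbk : (pol (ex d k x).2).natDegree + k ≤ d := by
    rw [(fam_ex hk hkd hg).hb]
    omega
  have ha : (pol (ex d k x).1).natDegree ≤ d := (le_max_left _ _).trans (le_of_eq h.deg)
  have ha' := natDegree_derivative_le (pol (ex d k x).1)
  have hb' := natDegree_derivative_le (pol (ex d k x).2)
  have hw : (ww (pol (ex d k x).1) (pol (ex d k x).2)).natDegree + 1 ≤ 2 * d - k := by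
    have h1 : (ww (pol (ex d k x).1) (pol (ex d k x).2)).natDegree ≤ 2 * d - k - 1 := by
      unfold Pool.Agent.H61.TT.ww
      refine (natDegree_sub_le _ _).trans (max_le ?_ ?_)
      · exact natDegree_mul_le.trans (by omega)
      · by_cases h0 : (pol (ex d k x).2).natDegree = 0
        · rw [natDegree_eq_zero.1 h0 |>.choose_spec.symm, derivative_C, mul_zero, natDegree_zero]
          omega
        · exact natDegree_mul_le.trans (by omega)
    omega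
  obtain ⟨δ0, R0, hU⟩ := us0 h (D := 2 * d - k) (by omega) (by omega) hc hcJ
    (fun x hx => Pool.Agent.H79.GP.lagn hrt (by omega) hkd hbk hx)
  obtain ⟨C0, V, hV⟩ := Pool.Agent.H83.UP.vp_ga h hU fun η hη =>
    Pool.Agent.H83.UP.mot_upF hd hk hkd hg hup hη
  refine fx_ga h (κ := 1) (Δ := 2 * d - k) one_le_two (fun a => ?_) hw (drs_upF hd hk hkd hg hup) hU hV hc hcJ
  have h1 : (pol (ex d k x).1 - C a * pol (ex d k x).2).natDegree ≤ d :=
    (natDegree_sub_le _ _).trans (max_le ha ((natDegree_C_mul_le _ _).trans (by omega)))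
  rw [pow_one, show 2 - 1 = 1 from rfl, pow_one]
  exact natDegree_mul_le.trans (by omega)

end Pool.Agent.H66.IL
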