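import Pool.Agent.H66.IL.RI

/-!
# [H66 IL NZ] UD, chapter ILF: the line field is not zero

`ent`: an entire function of growth `(1 + ‖z‖)^κ` with `κ + 1` different zeros is zero. PROOF by induction on `κ`: `κ = 0`: Liouville (`Differentiable.apply_eq_apply_of_bounded`). Step: `f z = (z - Z 0) * f1 z` with `f1 = dslope f (Z 0)` entire, of growth `(1 + ‖z‖)^κ` (for `‖z - Z 0‖ ≥ 1` divide; bounded on the ball), zero at the other `Z i`.
`nz`: `X` is holomorphic on `ball 0 R` (`mor`) and off `J ⊆ ball 0 R`: entire; growth: `gr` off a bounded set, bounded on bounded sets (continuous).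
-/

set_option autoImplicit false

open Filter Topology Polynomial Metric Set MeasureTheory

namespace Pool.Agent.H66.IL

theorem ent {f : ℂ → ℂ} (hf : Differentiable ℂ f) {κ : ℕ} {C : ℝ} (hC : ∀ z, ‖f z‖ ≤ C * (1 + ‖z‖) ^ κ) {Z : Fin (κ + 1) → ℂ}
    (hZ : Function.Injective Z) (h0 : ∀ i, f (Z i) = 0) : ∀ z, f z = 0 := by
  induction κ generalizing f C with
  | zero =>
    intro z
    have hb : Bornology.IsBounded (range f) := by
      rw [isBounded_iff_forall_norm_le]
      refine ⟨C, ?_⟩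
      rintro _ ⟨y, rfl⟩
      have h1 := hC y
      rwa [pow_zero, mul_one] at h1
    rw [hf.apply_eq_apply_of_bounded hb z (Z 0)]
    exact h0 0
  | succ κ ih =>
    have hd : Differentiable ℂ (dslope f (Z 0)) := by
      rw [← differentiableOn_univ]
      exact (Complex.differentiableOn_dslope univ_mem).2 hf.differentiableOn
    obtain ⟨M, hM⟩ := (isCompact_closedBall (Z 0) 1).exists_bound_of_continuousOn
      hd.continuous.continuousOn
    have hM0 : 0 ≤ M := (norm_nonneg _).trans (hM (Z 0) (mem_closedBall_self zero_le_one))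
    have hC0 : 0 ≤ C := by
      have h1 := hC 0
      rw [norm_zero, add_zero, one_pow, mul_one] at h1
      exact (norm_nonneg _).trans h1
    have hone : ∀ z : ℂ, (1 : ℝ) ≤ (1 + ‖z‖) ^ κ := fun z =>
      one_le_pow₀ (by linarith [norm_nonneg z])
    have hmain : ∀ z, ‖dslope f (Z 0) z‖ ≤ (C * (2 + ‖Z 0‖) + M) * (1 + ‖z‖) ^ κ := by
      intro z
      rcases le_total ‖z - Z 0‖ 1 with h | h
      · have h1 := hM z (by rw [mem_closedBall, dist_eq_norm]; exact h)
        have h2 : 0 ≤ C * (2 + ‖Z 0‖) := mul_nonneg hC0 (by linarith [norm_nonneg (Z 0)])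
        calc ‖dslope f (Z 0) z‖ ≤ M * 1 := by rw [mul_one]; exact h1
          _ ≤ (C * (2 + ‖Z 0‖) + M) * (1 + ‖z‖) ^ κ :=
            mul_le_mul (by linarith) (hone z) zero_le_one (by linarith)
      · have h1 : (z - Z 0) • dslope f (Z 0) z = f z - f (Z 0) := sub_smul_dslope f (Z 0) z
        rw [h0 0, sub_zero] at h1
        have h2 : ‖z - Z 0‖ * ‖dslope f (Z 0) z‖ = ‖f z‖ := by
          rw [← norm_smul, h1]
        have h3 : 1 + ‖z‖ ≤ (2 + ‖Z 0‖) * ‖z - Z 0‖ := by
          have h4 : ‖z‖ ≤ ‖z - Z 0‖ + ‖Z 0‖ := by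
            have h5 := norm_add_le (z - Z 0) (Z 0)
            rwa [sub_add_cancel] at h5
          nlinarith [norm_nonneg (Z 0)]
        have hpos : 0 < ‖z - Z 0‖ := lt_of_lt_of_le one_pos h
        have h6 : ‖z - Z 0‖ * ‖dslope f (Z 0) z‖ ≤
            ‖z - Z 0‖ * (C * (2 + ‖Z 0‖) * (1 + ‖z‖) ^ κ) := by
          rw [h2]
          calc ‖f z‖ ≤ C * (1 + ‖z‖) ^ (κ + 1) := hC z
            _ = C * (1 + ‖z‖) ^ κ * (1 + ‖z‖) := by rw [pow_succ]; ring
            _ ≤ C * (1 + ‖z‖) ^ κ * ((2 + ‖Z 0‖) * ‖z - Z 0‖) :=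
              mul_le_mul_of_nonneg_left h3 (mul_nonneg hC0 (zero_le_one.trans (hone z)))
            _ = ‖z - Z 0‖ * (C * (2 + ‖Z 0‖) * (1 + ‖z‖) ^ κ) := by ring
        refine (le_of_mul_le_mul_left h6 hpos).trans ?_
        exact mul_le_mul_of_nonneg_right (by linarith) (zero_le_one.trans (hone z))
    have hz1 : ∀ z, dslope f (Z 0) z = 0 := by
      refine ih hd hmain (Z := fun i => Z i.succ) (fun i j hij => ?_) fun i => ?_
      · exact Fin.succ_injective _ (hZ hij)
      · have hne : Z i.succ ≠ Z 0 := fun h => Fin.succ_ne_zero i (hZ h)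
        rw [dslope_of_ne _ hne, slope_def_field, h0, h0, sub_zero, zero_div]
    intro z
    have h1 : (z - Z 0) • dslope f (Z 0) z = f z - f (Z 0) := sub_smul_dslope f (Z 0) z
    rw [hz1, smul_zero, h0 0, sub_zero] at h1
    exact h1.symm

theorem nz {X : ℂ → ℂ} (hX : Continuous X) {J : Set ℂ} {R R1 C : ℝ} (hJ : J ⊆ ball 0 R) (hd : DifferentiableOn ℂ X Jᶜ)
    (hJc : IsClosed J) (h0 : ∀ z w : ℂ, z.re ≤ w.re → z.im ≤ w.im → Rt z w ⊆ ball 0 R → RI X z w = 0) {κ : ℕ}
    (hg : ∀ z : ℂ, R1 < ‖z‖ → ‖X z‖ ≤ C * (1 + ‖z‖) ^ κ) {Z : Fin (κ + 1) → ℂ} (hZ : Function.Injective Z)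
    (hz : ∀ i, X (Z i) = 0) : ∀ z, X z = 0 := by
  have hb : DifferentiableOn ℂ X (ball 0 R) := mor hX.continuousOn h0
  have hf : Differentiable ℂ X := by
    intro z
    by_cases hz0 : z ∈ ball (0 : ℂ) R
    · exact hb.differentiableAt (isOpen_ball.mem_nhds hz0)
    · exact hd.differentiableAt (hJc.isOpen_compl.mem_nhds fun h => hz0 (hJ h))
  obtain ⟨M, hM⟩ := (isCompact_closedBall (0 : ℂ) R1).exists_bound_of_continuousOn
    hX.continuousOn
  refine ent hf (C := |C| + |M|) (fun z => ?_) hZ hz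
  have hone : (1 : ℝ) ≤ (1 + ‖z‖) ^ κ := one_le_pow₀ (by linarith [norm_nonneg z])
  rcases lt_or_ge R1 ‖z‖ with h | h
  · refine (hg z h).trans (mul_le_mul_of_nonneg_right ?_ (zero_le_one.trans hone))
    have h1 := le_abs_self C
    have h2 := abs_nonneg M
    linarith
  · have h1 := hM z (by rw [mem_closedBall_zero_iff]; exact h)
    have h2 := le_abs_self M
    have h3 := abs_nonneg C
    calc ‖X z‖ ≤ (|C| + |M|) * 1 := by rw [mul_one]; linarith
      _ ≤ (|C| + |M|) * (1 + ‖z‖) ^ κ :=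
        mul_le_mul_of_nonneg_left hone (add_nonneg h3 (abs_nonneg M))

end Pool.Agent.H66.IL
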