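import Pool.Agent.H66.IL.TZ
import Pool.Agent.H66.IL.NZ

/-!
# [H66 IL SEG] UD, chapter ILF, Julia set = sphere: Egorov set for finitely many functions, dimension

`eg_fam`. PROOF. `eg` for `μ i0` and `K`: `E0, b0`. For a finite set `s` of indices there is a compact `E ⊆ E0` with `0 < volume E` and the estimate for all `i ∈ s` (`Finset.induction_on`): step: apply `eg` to `fun u => μ i u + (C + 1)` (it is bounded by `2 C + 1` and nowhere zero since `‖μ i u‖ ≤ C`, so `{z ∈ E | .. ≠ 0} = E`) and the compact set `E`; differences are those of `μ i`. `ρ` = minimum.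
The estimates are inherited by subsets. Finally `s = univ`.
`sdm`. PROOF. Suppose `∑ c i * X i` is entire for all `c` in `W = ker β` (a subspace of `Fin n → ℂ`, `finrank W ≥ n - 1 ≥ 4`: rank-nullity for `c ↦ ∑ c i β i`). The linear map `W → (Fin 3 → ℂ)`, `c ↦` the values at the points `0, 1, 2`, is not injective (`LinearMap.exists_ne_zero_of_finrank...` or `ker_ne_bot_of_finrank_lt`): `c ≠ 0` in `W` with `F = ∑ c i * X i` zero at `0, 1, 2`.
`‖F z‖ ≤ (∑ ‖c i‖) C (1 + ‖z‖)^2`: `ent` (NZ, `κ = 2`): `F = 0`, so `c = 0` by `hinj`: contradiction.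
-/

set_option autoImplicit false

open Filter Topology Polynomial Metric Set MeasureTheory

namespace Pool.Agent.H66.IL

private theorem seg95_inj : Function.Injective (![0, 1, 2] : Fin 3 → ℂ) := by
  intro i j hij
  fin_cases i <;> fin_cases j <;> simp_all

private theorem seg95_step {n : ℕ} {μ : Fin n → ℂ → ℂ} (hm : ∀ i, Measurable (μ i)) {C : ℝ} (hb : ∀ i z, ‖μ i z‖ ≤ C)
    (s : Finset (Fin n)) : ∀ {K : Set ℂ}, IsCompact K → 0 < volume K → ∃ E : Set ℂ, IsCompact E ∧ E ⊆ K ∧ 0 < volume E ∧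
      ∀ η : ℝ, 0 < η → ∃ ρ : ℝ, 0 < ρ ∧ ∀ i ∈ s, ∀ z ∈ E, ∀ r : ℝ, 0 < r → r < ρ →
        ∫ u in ball z r, ‖μ i u - μ i z‖ ≤ η * r ^ 2 := by
  classical
  induction s using Finset.induction_on with
  | empty =>
    intro K hK hp
    exact ⟨K, hK, Subset.rfl, hp, fun η hη => ⟨1, one_pos, fun i hi => absurd hi (Finset.notMem_empty i)⟩⟩
  | insert i s hi ih =>
    intro K hK hp
    obtain ⟨E1, hE1, hE1K, hE1p, hE1r⟩ := ih hK hp
    have hC0 : 0 ≤ C := (norm_nonneg _).trans (hb i 0)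
    have hne : ∀ z, μ i z + ((C + 1 : ℝ) : ℂ) ≠ 0 := by
      intro z h0
      have h1 : μ i z = -((C + 1 : ℝ) : ℂ) := eq_neg_of_add_eq_zero_left h0
      have h2 := hb i z
      rw [h1, norm_neg, Complex.norm_real, Real.norm_of_nonneg (by linarith)] at h2
      linarith
    obtain ⟨E, b0, hb0, hE, hEE, hEp, -, hEr⟩ := eg (μ := fun z => μ i z + ((C + 1 : ℝ) : ℂ))
      ((hm i).add_const _) (C := 2 * C + 1) (fun z => by
        calc ‖μ i z + ((C + 1 : ℝ) : ℂ)‖ ≤ ‖μ i z‖ + ‖((C + 1 : ℝ) : ℂ)‖ := norm_add_le _ _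
          _ ≤ C + (C + 1) := by
              refine add_le_add (hb i z) (le_of_eq ?_)
              rw [Complex.norm_real, Real.norm_of_nonneg (by linarith)]
          _ = 2 * C + 1 := by ring) hE1 (by
        refine hE1p.trans_le (measure_mono fun z hz => ⟨hz, hne z⟩))
    refine ⟨E, hE, hEE.trans hE1K, hEp, fun η hη => ?_⟩
    obtain ⟨ρ, hρ, h1⟩ := hE1r η hη
    obtain ⟨ρ', hρ', h2⟩ := hEr η hη
    refine ⟨min ρ ρ', lt_min hρ hρ', fun j hj z hz r hr hrρ => ?_⟩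
    rcases Finset.mem_insert.1 hj with hji | hjs
    · have h3 := h2 z hz r hr (hrρ.trans_le (min_le_right _ _))
      rw [hji]
      refine (le_of_eq ?_).trans h3
      refine integral_congr_ae (Eventually.of_forall fun u => ?_)
      show ‖μ i u - μ i z‖ = ‖(μ i u + ((C + 1 : ℝ) : ℂ)) - (μ i z + ((C + 1 : ℝ) : ℂ))‖
      congr 1
      ring
    · exact h1 j hjs z (hEE hz) r hr (hrρ.trans_le (min_le_left _ _))

theorem eg_fam {n : ℕ} {μ : Fin n → ℂ → ℂ} (hm : ∀ i, Measurable (μ i)) {C : ℝ} (hb : ∀ i z, ‖μ i z‖ ≤ C) {K : Set ℂ}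
    (hK : IsCompact K) (i0 : Fin n) (hp : 0 < volume {z ∈ K | μ i0 z ≠ 0}) : ∃ (E : Set ℂ) (b0 : ℝ), 0 < b0 ∧ IsCompact E ∧
    E ⊆ K ∧ 0 < volume E ∧ (∀ z ∈ E, b0 ≤ ‖μ i0 z‖) ∧ ∀ η : ℝ, 0 < η → ∃ ρ : ℝ, 0 < ρ ∧ ∀ i, ∀ z ∈ E, ∀ r : ℝ, 0 < r → r < ρ →
      ∫ u in ball z r, ‖μ i u - μ i z‖ ≤ η * r ^ 2 := by
  obtain ⟨E0, b0, hb0, hE0, hE0K, hE0p, hE0b, -⟩ := eg (hm i0) (hb i0) hK hp
  obtain ⟨E, hE, hEE, hEp, hEr⟩ := seg95_step hm hb Finset.univ hE0 hE0p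
  refine ⟨E, b0, hb0, hE, hEE.trans hE0K, hEp, fun z hz => hE0b z (hEE hz), fun η hη => ?_⟩
  obtain ⟨ρ, hρ, h1⟩ := hEr η hη
  exact ⟨ρ, hρ, fun i z hz r hr hrρ => h1 i (Finset.mem_univ i) z hz r hr hrρ⟩

theorem sdm {n : ℕ} {X : Fin n → ℂ → ℂ} {C : ℝ} (hg : ∀ i z, ‖X i z‖ ≤ C * (1 + ‖z‖ ^ 2)) (hn : 5 ≤ n)
    (hinj : ∀ c : Fin n → ℂ, (∀ z, ∑ i, c i * X i z = 0) → c = 0) (β : Fin n → ℂ) :
    ∃ c : Fin n → ℂ, ∑ i, c i * β i = 0 ∧ ¬ Differentiable ℂ (fun z => ∑ i, c i * X i z) := by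
  by_contra hcon
  push Not at hcon
  obtain ⟨Y, hY⟩ : ∃ Y : Fin 4 → Fin n → ℂ, Y = ![β, fun i => X i 0, fun i => X i 1, fun i => X i 2] := ⟨_, rfl⟩
  obtain ⟨Φ, hΦ⟩ : ∃ Φ : (Fin n → ℂ) →ₗ[ℂ] (Fin 4 → ℂ), ∀ c k, Φ c k = ∑ i, c i * Y k i := by
    refine ⟨{ toFun := fun c k => ∑ i, c i * Y k i, map_add' := fun c c' => ?_, map_smul' := fun t c => ?_ },
      fun c k => rfl⟩
    · funext k
      simp only [Pi.add_apply, add_mul, Finset.sum_add_distrib]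
    · funext k
      simp only [Pi.smul_apply, smul_eq_mul, RingHom.id_apply, Finset.mul_sum, mul_assoc]
  have hker : LinearMap.ker Φ ≠ ⊥ := by
    apply LinearMap.ker_ne_bot_of_finrank_lt
    rw [Module.finrank_fin_fun, Module.finrank_fin_fun]
    omega
  obtain ⟨c, hc, hc0⟩ := (Submodule.ne_bot_iff _).1 hker
  have hk : ∀ k, ∑ i, c i * Y k i = 0 := by
    intro k
    rw [← hΦ, LinearMap.mem_ker.1 hc]
    rfl
  have hd := hcon c (by
    have h1 := hk 0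
    rw [hY] at h1
    exact h1)
  have hC0 : 0 ≤ C := by
    have h1 := hg ⟨0, by omega⟩ 0
    rw [norm_zero] at h1
    have h2 := (norm_nonneg _).trans h1
    linarith
  apply hc0
  apply hinj
  refine ent hd (κ := 2) (C := (∑ i, ‖c i‖) * C) (fun z => ?_) (Z := ![0, 1, 2]) ?_ ?_
  · calc ‖∑ i, c i * X i z‖ ≤ ∑ i, ‖c i * X i z‖ := norm_sum_le _ _
      _ ≤ ∑ i, ‖c i‖ * (C * (1 + ‖z‖) ^ 2) := by
          refine Finset.sum_le_sum fun i _ => ?_
          rw [norm_mul]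
          refine mul_le_mul_of_nonneg_left ((hg i z).trans ?_) (norm_nonneg _)
          refine mul_le_mul_of_nonneg_left ?_ hC0
          nlinarith [norm_nonneg z]
      _ = _ := by rw [← Finset.sum_mul, mul_assoc]
  · exact seg95_inj
  · intro i
    fin_cases i
    · have h1 := hk 1
      rw [hY] at h1
      exact h1
    · have h1 := hk 2
      rw [hY] at h1
      exact h1
    · have h1 := hk 3
      rw [hY] at h1
      exact h1

end Pool.Agent.H66.IL
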