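import Mathlib

/-!
# [H66 IL RI] UD, chapter ILF: boundary integrals over rectangles

`Rt z w`: the closed rectangle with the corners `z`, `w`. `RI X z w`: the integral of `X dw` over its boundary (Mathlib's form in `Complex.integral_boundary_rect_of_...`). `db φ`: the derivative `∂̄ φ`.
PROOFS. `ri_le`: each side: `intervalIntegral.norm_integral_le_of_norm_le_const`. `ri_lin`: linearity (continuity on the rectangle gives the integrability on the sides). `ri_aff`, `ri_hol`: `Complex.integral_boundary_rect_eq_zero_of_differentiableOn` (and the version with a countable exceptional set).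
`ri_conj`: the boundary integral of `conj` is `2 I area` (`Complex.integral_boundary_rect_of_hasFDerivAt_real_off_countable` or directly: the integrals of linear functions). `ri_green`: the same theorem for a `C^1` function.
`mor`: Morera: `Complex.IsConservativeOn.isExactOn_ball` (Mathlib.Analysis.Complex.HasPrimitives; `IsConservativeOn f U`: `wedgeIntegral z w f = - wedgeIntegral w z f` for all rectangles in `U`), `IsExactOn.differentiableOn`. The four orders of the corners: `RI` of the rectangle with exchanged corners is `±` the same (`intervalIntegral.integral_symm`).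
-/

set_option autoImplicit false

open Filter Topology Metric Set MeasureTheory

namespace Pool.Agent.H66.IL

/-- the closed rectangle -/
def Rt (z w : ℂ) : Set ℂ := {u | z.re ≤ u.re ∧ u.re ≤ w.re ∧ z.im ≤ u.im ∧ u.im ≤ w.im}

/-- the integral over the boundary of a rectangle -/
noncomputable def RI (X : ℂ → ℂ) (z w : ℂ) : ℂ :=
  (((∫ x : ℝ in z.re..w.re, X (x + z.im * Complex.I)) - ∫ x : ℝ in z.re..w.re, X (x + w.im * Complex.I)) +
    Complex.I * ∫ y : ℝ in z.im..w.im, X (w.re + y * Complex.I)) -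
    Complex.I * ∫ y : ℝ in z.im..w.im, X (z.re + y * Complex.I)

/-- `∂̄ φ` -/
noncomputable def db (φ : ℂ → ℂ) (z : ℂ) : ℂ := (fderiv ℝ φ z 1 + Complex.I * fderiv ℝ φ z Complex.I) / 2

private theorem rt_eq {z w : ℂ} (h1 : z.re ≤ w.re) (h2 : z.im ≤ w.im) :
    Rt z w = uIcc z.re w.re ×ℂ uIcc z.im w.im := by
  rw [uIcc_of_le h1, uIcc_of_le h2]
  ext u
  exact ⟨fun h => ⟨⟨h.1, h.2.1⟩, ⟨h.2.2.1, h.2.2.2⟩⟩, fun h => ⟨h.1.1, h.1.2, h.2.1, h.2.2⟩⟩

private theorem rt_mem {z w : ℂ} {x y : ℝ} (hx : x ∈ Icc z.re w.re) (hy : y ∈ Icc z.im w.im) :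
    (x + y * Complex.I : ℂ) ∈ Rt z w := by
  have h1 : (x + y * Complex.I : ℂ).re = x := by simp
  have h2 : (x + y * Complex.I : ℂ).im = y := by simp
  refine ⟨?_, ?_, ?_, ?_⟩
  · rw [h1]; exact hx.1
  · rw [h1]; exact hx.2
  · rw [h2]; exact hy.1
  · rw [h2]; exact hy.2

private theorem ri_ih {X : ℂ → ℂ} {z w : ℂ} (h1 : z.re ≤ w.re)
    (hX : ContinuousOn X (Rt z w)) {y : ℝ} (hy : y ∈ Icc z.im w.im) :
    IntervalIntegrable (fun x : ℝ => X (x + y * Complex.I)) volume z.re w.re := by
  refine ContinuousOn.intervalIntegrable ?_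
  refine hX.comp (by fun_prop) fun x hx => ?_
  rw [uIcc_of_le h1] at hx
  exact rt_mem hx hy

private theorem ri_iv {X : ℂ → ℂ} {z w : ℂ} (h2 : z.im ≤ w.im)
    (hX : ContinuousOn X (Rt z w)) {x : ℝ} (hx : x ∈ Icc z.re w.re) :
    IntervalIntegrable (fun y : ℝ => X (x + y * Complex.I)) volume z.im w.im := by
  refine ContinuousOn.intervalIntegrable ?_
  refine hX.comp (by fun_prop) fun y hy => ?_
  rw [uIcc_of_le h2] at hy
  exact rt_mem hx hy

theorem ri_le {X : ℂ → ℂ} {z w : ℂ} (h1 : z.re ≤ w.re) (h2 : z.im ≤ w.im) {C : ℝ} (hC : ∀ u ∈ Rt z w, ‖X u‖ ≤ C) :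
    ‖RI X z w‖ ≤ C * (2 * (w.re - z.re) + 2 * (w.im - z.im)) := by
  have ha : ‖∫ x : ℝ in z.re..w.re, X (x + z.im * Complex.I)‖ ≤ C * (w.re - z.re) := by
    have h := intervalIntegral.norm_integral_le_of_norm_le_const (a := z.re) (b := w.re)
      (f := fun x : ℝ => X (x + z.im * Complex.I)) (C := C) fun x hx => by
        rw [uIoc_of_le h1] at hx
        exact hC _ (rt_mem ⟨hx.1.le, hx.2⟩ ⟨le_rfl, h2⟩)
    rwa [abs_of_nonneg (sub_nonneg.2 h1)] at h
  have hb : ‖∫ x : ℝ in z.re..w.re, X (x + w.im * Complex.I)‖ ≤ C * (w.re - z.re) := by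
    have h := intervalIntegral.norm_integral_le_of_norm_le_const (a := z.re) (b := w.re)
      (f := fun x : ℝ => X (x + w.im * Complex.I)) (C := C) fun x hx => by
        rw [uIoc_of_le h1] at hx
        exact hC _ (rt_mem ⟨hx.1.le, hx.2⟩ ⟨h2, le_rfl⟩)
    rwa [abs_of_nonneg (sub_nonneg.2 h1)] at h
  have hc : ‖∫ y : ℝ in z.im..w.im, X (w.re + y * Complex.I)‖ ≤ C * (w.im - z.im) := by
    have h := intervalIntegral.norm_integral_le_of_norm_le_const (a := z.im) (b := w.im)
      (f := fun y : ℝ => X (w.re + y * Complex.I)) (C := C) fun y hy => by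
        rw [uIoc_of_le h2] at hy
        exact hC _ (rt_mem ⟨h1, le_rfl⟩ ⟨hy.1.le, hy.2⟩)
    rwa [abs_of_nonneg (sub_nonneg.2 h2)] at h
  have hd : ‖∫ y : ℝ in z.im..w.im, X (z.re + y * Complex.I)‖ ≤ C * (w.im - z.im) := by
    have h := intervalIntegral.norm_integral_le_of_norm_le_const (a := z.im) (b := w.im)
      (f := fun y : ℝ => X (z.re + y * Complex.I)) (C := C) fun y hy => by
        rw [uIoc_of_le h2] at hy
        exact hC _ (rt_mem ⟨le_rfl, h1⟩ ⟨hy.1.le, hy.2⟩)
    rwa [abs_of_nonneg (sub_nonneg.2 h2)] at h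
  have hI : ∀ u : ℂ, ‖Complex.I * u‖ = ‖u‖ := fun u => by rw [norm_mul, Complex.norm_I, one_mul]
  unfold RI
  refine (norm_sub_le _ _).trans ?_
  refine (add_le_add (norm_add_le _ _) le_rfl).trans ?_
  refine (add_le_add (add_le_add (norm_sub_le _ _) le_rfl) le_rfl).trans ?_
  rw [hI, hI]
  linarith

theorem ri_add {X Y : ℂ → ℂ} {z w : ℂ} (h1 : z.re ≤ w.re) (h2 : z.im ≤ w.im) (hX : ContinuousOn X (Rt z w))
    (hY : ContinuousOn Y (Rt z w)) : RI (fun u => X u + Y u) z w = RI X z w + RI Y z w := by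
  unfold RI
  have hl : z.re ∈ Icc z.re w.re := ⟨le_rfl, h1⟩
  have hr : w.re ∈ Icc z.re w.re := ⟨h1, le_rfl⟩
  have hb : z.im ∈ Icc z.im w.im := ⟨le_rfl, h2⟩
  have ht : w.im ∈ Icc z.im w.im := ⟨h2, le_rfl⟩
  rw [intervalIntegral.integral_add (ri_ih h1 hX hb) (ri_ih h1 hY hb),
    intervalIntegral.integral_add (ri_ih h1 hX ht) (ri_ih h1 hY ht),
    intervalIntegral.integral_add (ri_iv h2 hX hr) (ri_iv h2 hY hr),
    intervalIntegral.integral_add (ri_iv h2 hX hl) (ri_iv h2 hY hl)]
  ring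

theorem ri_smul {X : ℂ → ℂ} (c : ℂ) (z w : ℂ) : RI (fun u => c * X u) z w = c * RI X z w := by
  unfold RI
  simp only [intervalIntegral.integral_const_mul]
  ring

theorem ri_hol {X : ℂ → ℂ} {z w : ℂ} (h1 : z.re ≤ w.re) (h2 : z.im ≤ w.im) (hX : ContinuousOn X (Rt z w)) {s : Set ℂ}
    (hs : s.Countable) (hd : ∀ u ∈ Rt z w, u ∉ s → DifferentiableAt ℂ X u) : RI X z w = 0 := by
  have h := Complex.integral_boundary_rect_eq_zero_of_differentiable_on_off_countable X z w s hs
    (by rw [← rt_eq h1 h2]; exact hX) fun u hu => ?_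
  · exact h
  · rw [min_eq_left h1, max_eq_right h1, min_eq_left h2, max_eq_right h2] at hu
    exact hd u ⟨hu.1.1.1.le, hu.1.1.2.le, hu.1.2.1.le, hu.1.2.2.le⟩ hu.2

private theorem ri_green0 {φ : ℂ → ℂ} (hφ : ContDiff ℝ 1 φ) {z w : ℂ} :
    RI φ z w = ∫ x : ℝ in z.re..w.re, ∫ y : ℝ in z.im..w.im,
      2 * Complex.I * db φ (x + y * Complex.I) := by
  have hc : Continuous fun u : ℂ => Complex.I • fderiv ℝ φ u 1 - fderiv ℝ φ u Complex.I := by
    have h1 : Continuous fun u : ℂ => fderiv ℝ φ u := hφ.continuous_fderiv one_ne_zero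
    exact ((h1.clm_apply continuous_const).const_smul Complex.I).sub
      (h1.clm_apply continuous_const)
  have h := Complex.integral_boundary_rect_of_differentiableOn_real φ z w
    (hφ.differentiable one_ne_zero).differentiableOn
    (hc.continuousOn.integrableOn_compact (isCompact_uIcc.reProdIm isCompact_uIcc))
  have h0 : RI φ z w = ∫ x : ℝ in z.re..w.re, ∫ y : ℝ in z.im..w.im,
      (Complex.I • fderiv ℝ φ (x + y * Complex.I) 1 -
        fderiv ℝ φ (x + y * Complex.I) Complex.I) := h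
  rw [h0]
  congr 1
  funext x
  congr 1
  funext y
  rw [smul_eq_mul]
  unfold db
  have h3 : Complex.I * Complex.I = -1 := Complex.I_mul_I
  linear_combination (-(fderiv ℝ φ (x + y * Complex.I) Complex.I)) * h3

theorem ri_conj {z w z0 : ℂ} (h1 : z.re ≤ w.re) (h2 : z.im ≤ w.im) :
    RI (fun u => (starRingEnd ℂ) (u - z0)) z w = 2 * Complex.I * ((w.re - z.re) * (w.im - z.im)) := by
  have hφ : ContDiff ℝ 1 fun u : ℂ => (starRingEnd ℂ) (u - z0) :=
    Complex.conjCLE.contDiff.comp (contDiff_id.sub contDiff_const)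
  have hf : ∀ u : ℂ, fderiv ℝ (fun u : ℂ => (starRingEnd ℂ) (u - z0)) u =
      (Complex.conjCLE : ℂ →L[ℝ] ℂ) := by
    intro u
    have h3 : HasFDerivAt (fun u : ℂ => (starRingEnd ℂ) (u - z0))
        (Complex.conjCLE : ℂ →L[ℝ] ℂ) u := by
      have h4 := (Complex.conjCLE.hasFDerivAt (x := u - z0)).comp u
        ((hasFDerivAt_id (𝕜 := ℝ) u).sub_const z0)
      rwa [ContinuousLinearMap.comp_id] at h4
    exact h3.fderiv
  have hdb : ∀ u : ℂ, db (fun u : ℂ => (starRingEnd ℂ) (u - z0)) u = 1 := by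
    intro u
    unfold db
    rw [hf]
    simp
  rw [ri_green0 hφ]
  simp only [hdb, mul_one, intervalIntegral.integral_const]
  simp only [Complex.real_smul]
  push_cast
  ring

theorem ri_green {φ : ℂ → ℂ} (hφ : ContDiff ℝ 1 φ) {z w : ℂ} (h1 : z.re ≤ w.re) (h2 : z.im ≤ w.im) :
    RI φ z w = 2 * Complex.I * ∫ u in Rt z w, db φ u := by
  have hc : Continuous (db φ) := by
    have h1 : Continuous fun u : ℂ => fderiv ℝ φ u := hφ.continuous_fderiv one_ne_zero
    unfold db
    exact ((h1.clm_apply continuous_const).add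
      (continuous_const.mul (h1.clm_apply continuous_const))).div_const _
  rw [ri_green0 hφ]
  simp only [intervalIntegral.integral_const_mul]
  congr 1
  have hR : MeasurableSet (Icc z.re w.re ×ˢ Icc z.im w.im) :=
    measurableSet_Icc.prod measurableSet_Icc
  have h3 := (Complex.volume_preserving_equiv_real_prod.symm).setIntegral_preimage_emb
    (Complex.measurableEquivRealProd.symm.measurableEmbedding) (db φ) (Rt z w)
  have h4 : Complex.measurableEquivRealProd.symm ⁻¹' (Rt z w) =
      Icc z.re w.re ×ˢ Icc z.im w.im := by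
    ext p
    constructor
    · intro h
      exact ⟨⟨h.1, h.2.1⟩, ⟨h.2.2.1, h.2.2.2⟩⟩
    · intro h
      exact ⟨h.1.1, h.1.2, h.2.1, h.2.2⟩
  rw [h4] at h3
  rw [← h3, Measure.volume_eq_prod, setIntegral_prod]
  · rw [intervalIntegral.integral_of_le h1, integral_Icc_eq_integral_Ioc]
    refine integral_congr_ae (Eventually.of_forall fun x => ?_)
    dsimp only
    rw [intervalIntegral.integral_of_le h2, integral_Icc_eq_integral_Ioc]
    refine integral_congr_ae (Eventually.of_forall fun y => ?_)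
    dsimp only
    congr 1
    exact (Complex.mk_eq_add_mul_I x y).symm
  · refine ContinuousOn.integrableOn_compact (isCompact_Icc.prod isCompact_Icc) ?_
    exact (hc.comp Complex.equivRealProdCLM.symm.continuous).continuousOn

/-- Morera -/
theorem mor {Y : ℂ → ℂ} {z0 : ℂ} {r : ℝ} (hY : ContinuousOn Y (ball z0 r))
    (h : ∀ z w : ℂ, z.re ≤ w.re → z.im ≤ w.im → Rt z w ⊆ ball z0 r → RI Y z w = 0) : DifferentiableOn ℂ Y (ball z0 r) := by
  have hcons : Complex.IsConservativeOn Y (ball z0 r) := by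
    intro z w hzw
    rw [← add_eq_zero_iff_eq_neg, Complex.wedgeIntegral_add_wedgeIntegral_eq]
    simp only [smul_eq_mul]
    have key : ∀ z' w' : ℂ, z'.re ≤ w'.re → z'.im ≤ w'.im →
        uIcc z.re w.re = uIcc z'.re w'.re → uIcc z.im w.im = uIcc z'.im w'.im →
        RI Y z' w' = 0 := by
      intro z' w' h1 h2 h3 h4
      refine h z' w' h1 h2 ?_
      rw [rt_eq h1 h2, ← h3, ← h4]
      exact hzw
    rcases le_total z.re w.re with h1 | h1 <;> rcases le_total z.im w.im with h2 | h2
    · exact key z w h1 h2 rfl rfl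
    · have h3 := key ⟨z.re, w.im⟩ ⟨w.re, z.im⟩ h1 h2 rfl (uIcc_comm _ _)
      unfold RI at h3
      dsimp only at h3
      rw [intervalIntegral.integral_symm w.im z.im, intervalIntegral.integral_symm w.im z.im]
      linear_combination -h3
    · have h3 := key ⟨w.re, z.im⟩ ⟨z.re, w.im⟩ h1 h2 (uIcc_comm _ _) rfl
      unfold RI at h3
      dsimp only at h3
      rw [intervalIntegral.integral_symm w.re z.re, intervalIntegral.integral_symm w.re z.re]
      linear_combination -h3
    · have h3 := key w z h1 h2 (uIcc_comm _ _) (uIcc_comm _ _)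
      unfold RI at h3
      rw [intervalIntegral.integral_symm w.re z.re, intervalIntegral.integral_symm w.re z.re,
        intervalIntegral.integral_symm w.im z.im, intervalIntegral.integral_symm w.im z.im]
      linear_combination h3
  exact (hcons.isExactOn_ball hY).differentiableOn isOpen_ball

end Pool.Agent.H66.IL
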