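import Pool.Agent.H66.IL.SDF
import Pool.Agent.H64.NC.SFI
import Pool.Agent.H44.RR.CNT

/-!
# [H66 IL SCN] UD, chapter ILF, Julia set = sphere: the fields are continuous at infinity

PROOF of `scn`. `a = pol v.1`, `b = pol v.2`. `Rf v ∞ = ∞`: the coefficient of `b` of degree `d` is zero, so `natDegree b ≤ d - 1`, `natDegree a = d` (`hdeg`). `inf_con` (H64/NC/SFI): `b z ≠ 0`, `‖dg z‖ ≤ θ < 1` for `‖z‖ ≥ L0`. Let `e = natDegree b`: `ww a b = a' b - a b'` has the leading coefficient `(d - e) a_d b_e ≠ 0` in degree `d + e - 1`, so `dg z = ww z / b z ^ 2` is unbounded if `e < d - 1`: `e = d - 1`.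
So for `z → ∞` (`Polynomial.div_tendsto_leadingCoeff_div_of_degree_eq`, or divide by powers of `z`): `dg z → κ = a_d / b_(d-1)`, `‖κ‖ ≤ θ`, `κ ≠ 0`, `gg z / z → κ`. Let `W z = V z / z^2`, bounded for `‖z‖ ≥ 1` (growth in `VelP`). For large `z` (`gg z ≠ 0`, `a z ≠ 0`) the equation of `VelP` divided by `gg z ^ 2`: `W (gg z) = m z * W z + k z`,
`m z = dg z * (z / gg z)^2 → 1 / κ`, `k z = η z / a z ^ 2 → k0` (`natDegree η ≤ 2 d = natDegree (a^2)`). Let `l = k0 / (1 - 1 / κ)` (`κ ≠ 1`), `D z = W z - l`: `D (gg z) = m z * D z + o(1)`; for large `z` `‖m z‖ ≥ M` with a fixed `M > 1`, `gg z → ∞`.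
CLAIM: if `‖D z‖ ≤ s` for all large `z` and `τ > 0` then `‖D z‖ ≤ (s + τ) / M` for all large `z`. With `τ = s (M - 1) / 2`: `‖D z‖ ≤ s (M + 1) / (2 M)`. By iteration `D z → 0`.
`yex`. PROOF. `Y w = -(w^2 * V (q + 1 / w))` for `w ≠ 0`, `Y 0 = -l`. For `w → 0`: `z = q + 1 / w → ∞`, `w^2 * V z = (w z)^2 * (V z / z^2)`, `w z = 1 + q w → 1`. Growth: `‖V‖` is bounded near `q` (`‖w‖ ≥ 1`, `‖1 / w‖ ≤ 1`), `Y` is bounded on the ball.
-/

set_option autoImplicit false

open Filter Topology Polynomial Metric Set MeasureTheory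

namespace Pool.Agent.H66.IL

open Pool.Agent.H44.Fatou (rat rat_continuous rat_coe rat_coe_of_ne pt crit_coe)
open Pool.Agent.H32.BT Pool.Agent.H79.Eul Pool.Agent.H79.Par
open Pool.Agent.H35.EX Pool.Agent.H44.RR Pool.Agent.H56.HR Pool.Agent.H44.RC Pool.Agent.H47.RJ
open Pool.Agent.H47.NM Pool.Agent.H47.NN Pool.Agent.H44.ND Pool.Agent.H79.ES Pool.Agent.H44.RG
open Pool.Agent.H44.CP Pool.Agent.H47.PS Pool.Agent.H64.NC
open Pool.Agent.H61.TT (gg ww)
open Pool.Agent.H66.UP

variable {d : ℕ} {v : E d}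

private theorem scn_lim {p : Polynomial ℂ} {n : ℕ} (hp : p.natDegree ≤ n) :
    Tendsto (fun z : ℂ => p.eval z / z ^ n) (Filter.cocompact ℂ) (𝓝 (p.coeff n)) := by
  have h1 : Tendsto (fun z : ℂ => (reflect n p).eval z⁻¹) (Filter.cocompact ℂ) (𝓝 (p.coeff n)) := by
    have h2 : Tendsto (fun z : ℂ => z⁻¹) (Filter.cocompact ℂ) (𝓝 0) := by
      rw [← Metric.cobounded_eq_cocompact]
      exact tendsto_inv₀_cobounded
    have h3 := ((reflect n p).continuous.tendsto (0 : ℂ)).comp h2
    rw [Pool.Agent.H44.Fatou.eval_reflect_zero] at h3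
    exact h3
  have h0 : ∀ᶠ z : ℂ in Filter.cocompact ℂ, z ≠ 0 := by
    have h4 : ({0} : Set ℂ)ᶜ ∈ Filter.cocompact ℂ := isCompact_singleton.compl_mem_cocompact
    filter_upwards [h4] with z hz
    exact hz
  refine h1.congr' ?_
  filter_upwards [h0] with z hz
  rw [Pool.Agent.H44.Fatou.eval_reflect hp hz]
  field_simp

private theorem scn_ctr {l : Filter ℂ} {D : ℂ → ℂ} {g : ℂ → ℂ} {θ S : ℝ} (h0 : 0 ≤ θ) (h1 : θ < 1) (hg : Tendsto g l l)
    (hD : ∀ᶠ z in l, ‖D z‖ ≤ S) (h : ∀ ε : ℝ, 0 < ε → ∀ᶠ z in l, ‖D z‖ ≤ θ * (‖D (g z)‖ + ε)) : Tendsto D l (𝓝 0) := by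
  rw [tendsto_zero_iff_norm_tendsto_zero]
  rw [Metric.tendsto_nhds]
  intro τ hτ
  set ε := τ * (1 - θ) / 2 with hε
  have hε0 : 0 < ε := by rw [hε]; have := sub_pos.2 h1; positivity
  have h2 : ∀ n : ℕ, ∀ᶠ z in l, ‖D z‖ ≤ θ ^ n * S + τ / 2 := by
    intro n
    induction n with
    | zero =>
      filter_upwards [hD] with z hz
      rw [pow_zero, one_mul]
      linarith
    | succ n ih =>
      filter_upwards [h ε hε0, hg.eventually ih] with z h3 h4
      have h5 : θ * (‖D (g z)‖ + ε) ≤ θ * (θ ^ n * S + τ / 2 + ε) :=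
        mul_le_mul_of_nonneg_left (by linarith) h0
      have h6 : θ * (θ ^ n * S + τ / 2 + ε) ≤ θ ^ (n + 1) * S + τ / 2 := by
        rw [pow_succ, hε]
        nlinarith [mul_nonneg hτ.le (sq_nonneg (1 - θ))]
      linarith
  have h3 : Tendsto (fun n : ℕ => θ ^ n * S) atTop (𝓝 0) := by
    have := (tendsto_pow_atTop_nhds_zero_of_lt_one h0 h1).mul_const S
    rwa [zero_mul] at this
  obtain ⟨n, hn⟩ := (h3.eventually (gt_mem_nhds (half_pos hτ))).exists
  filter_upwards [h2 n] with z hz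
  rw [Real.dist_eq, sub_zero, abs_of_nonneg (norm_nonneg _)]
  linarith

private theorem scn_ww {a b : Polynomial ℂ} {d : ℕ} (hd : 1 ≤ d) (ha : a.natDegree = d) :
    (ww a b).natDegree ≤ (d - 1) + b.natDegree ∧
      (ww a b).coeff ((d - 1) + b.natDegree) = ((d : ℂ) - b.natDegree) * (a.coeff d * b.coeff b.natDegree) := by
  have h1 : (derivative a).natDegree ≤ d - 1 := ha ▸ natDegree_derivative_le a
  have h2 : (derivative b).natDegree ≤ b.natDegree - 1 := natDegree_derivative_le b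
  by_cases he : b.natDegree = 0
  · have h3 : derivative b = 0 := derivative_of_natDegree_zero he
    have h4 : ww a b = derivative a * b := by
      unfold ww
      rw [h3, mul_zero, sub_zero]
    rw [h4]
    refine ⟨natDegree_mul_le.trans (by omega), ?_⟩
    rw [coeff_mul_add_eq_of_natDegree_le h1 le_rfl, coeff_derivative, he]
    have h5 : d - 1 + 1 = d := by omega
    rw [h5, Nat.cast_sub hd]
    push_cast
    ring
  · obtain ⟨e, he1⟩ : ∃ e, b.natDegree = e + 1 := ⟨b.natDegree - 1, by omega⟩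
    unfold ww
    refine ⟨(natDegree_sub_le _ _).trans (max_le ?_ ?_), ?_⟩
    · exact natDegree_mul_le.trans (by omega)
    · exact natDegree_mul_le.trans (by omega)
    · have h6 : (d - 1) + b.natDegree = d + e := by omega
      have h7 : (a * derivative b).coeff (d + e) = a.coeff d * (derivative b).coeff e :=
        coeff_mul_add_eq_of_natDegree_le ha.le (by omega)
      have h8 : (derivative a * b).coeff ((d - 1) + b.natDegree) = (derivative a).coeff (d - 1) * b.coeff b.natDegree :=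
        coeff_mul_add_eq_of_natDegree_le h1 le_rfl
      rw [coeff_sub, h8, h6, h7, coeff_derivative, coeff_derivative, he1]
      have h5 : d - 1 + 1 = d := by omega
      rw [h5, Nat.cast_sub hd]
      push_cast
      ring

theorem scn (hd : 2 ≤ d) (hcop : IsCoprime (pol v.1) (pol v.2)) (hdeg : max (pol v.1).natDegree (pol v.2).natDegree = d)
    (hup : ¬ Up v) (hJ : JS (Rf v) = univ) (hi : Rf v OnePoint.infty = OnePoint.infty) {η : Polynomial ℂ}
    (hη : η.natDegree ≤ 2 * d) {V : ℂ → ℂ} (hV : VelP (pol v.1) (pol v.2) η V) :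
    ∃ l : ℂ, Tendsto (fun z : ℂ => V z / z ^ 2) (Filter.cocompact ℂ) (𝓝 l) := by
  obtain ⟨L0, θ, hL0, hθ0, hθ1, hcon⟩ := inf_con hd hcop hdeg hup hJ hi
  obtain ⟨-, hVe, -, C, hVC⟩ := hV
  set a := pol v.1 with hadef
  set b := pol v.2 with hbdef
  have hlarge : ∀ L : ℝ, ∀ᶠ z : ℂ in Filter.cocompact ℂ, L ≤ ‖z‖ := fun L =>
    tendsto_norm_cocompact_atTop.eventually (eventually_ge_atTop L)
  have hbd : b.coeff d = 0 := by
    by_contra h0
    have h1 : Rf v OnePoint.infty = pt (a.coeff d) (b.coeff d) := by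
      have h2 : Pool.Agent.H44.Fatou.dg a b = d := hdeg
      show rat a b OnePoint.infty = _
      rw [Pool.Agent.H44.Fatou.rat_infty, h2]
    rw [h1] at hi
    unfold pt at hi
    rw [if_neg h0] at hi
    exact OnePoint.coe_ne_infty _ hi
  have hbn : b.natDegree < d := by
    refine lt_of_le_of_ne (hdeg ▸ le_max_right _ _) fun h1 => ?_
    have h2 : b.leadingCoeff = 0 := by
      unfold leadingCoeff
      rw [h1, hbd]
    rw [leadingCoeff_eq_zero.1 h2, natDegree_zero] at h1
    omega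
  have han : a.natDegree = d := by
    rcases max_choice a.natDegree b.natDegree with h1 | h1
    · rw [← h1, hdeg]
    · rw [hdeg] at h1
      omega
  have hb0 : b.coeff b.natDegree ≠ 0 := by
    intro h0
    have h1 : b = 0 := leadingCoeff_eq_zero.1 h0
    have h2 : ((L0 : ℝ) : ℂ) = ((L0 : ℝ) : ℂ) := rfl
    refine (hcon ((L0 : ℝ) : ℂ) ?_).1 (by rw [h1, eval_zero])
    rw [Complex.norm_real, Real.norm_of_nonneg hL0.le]
  have ha0 : a.coeff d ≠ 0 := by
    intro h0
    have h1 : a.leadingCoeff = 0 := by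
      unfold leadingCoeff
      rw [han, h0]
    rw [leadingCoeff_eq_zero.1 h1, natDegree_zero] at han
    omega
  obtain ⟨hw1, hw2⟩ := scn_ww (b := b) (by omega : 1 ≤ d) han
  have hbl := scn_lim (p := b) le_rfl
  have hal := scn_lim (p := a) han.le
  have hwl := scn_lim hw1
  rw [hw2] at hwl
  have hW0 : ((d : ℂ) - b.natDegree) * (a.coeff d * b.coeff b.natDegree) ≠ 0 := by
    refine mul_ne_zero ?_ (mul_ne_zero ha0 hb0)
    rw [sub_ne_zero]
    intro h1
    have h2 : d = b.natDegree := by exact_mod_cast h1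
    omega
  have he : b.natDegree = d - 1 := by
    by_contra hne
    obtain ⟨k, hk⟩ : ∃ k, d - 1 = b.natDegree + (k + 1) := ⟨d - 1 - b.natDegree - 1, by omega⟩
    have h1 : Tendsto (fun z : ℂ => (b.eval z / z ^ b.natDegree) ^ 2 * (1 / z ^ (k + 1))) (Filter.cocompact ℂ) (𝓝 0) := by
      have h2 : Tendsto (fun z : ℂ => (1 : ℂ) / z ^ (k + 1)) (Filter.cocompact ℂ) (𝓝 0) := by
        have h3 := scn_lim (p := (1 : Polynomial ℂ)) (n := k + 1) (by rw [natDegree_one]; omega)
        rw [coeff_one, if_neg (by omega)] at h3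
        simpa using h3
      have h4 := (hbl.pow 2).mul h2
      rwa [mul_zero] at h4
    have h5 : Tendsto (fun z : ℂ => (ww a b).eval z / z ^ ((d - 1) + b.natDegree)) (Filter.cocompact ℂ) (𝓝 0) := by
      have hlim : Tendsto (fun z : ℂ => θ * ‖(b.eval z / z ^ b.natDegree) ^ 2 * (1 / z ^ (k + 1))‖) (Filter.cocompact ℂ) (𝓝 0) := by
        have h9 := h1.norm.const_mul θ
        rwa [norm_zero, mul_zero] at h9
      refine squeeze_zero_norm' ?_ hlim
      filter_upwards [hlarge L0, hlarge 1] with z hz1 hz2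
      obtain ⟨h6, h7⟩ := hcon z hz1
      have hz0 : z ≠ 0 := norm_pos_iff.1 (lt_of_lt_of_le one_pos hz2)
      have h8 : (ww a b).eval z / z ^ ((d - 1) + b.natDegree) =
          Pool.Agent.H61.TT.dg a b z * ((b.eval z / z ^ b.natDegree) ^ 2 * (1 / z ^ (k + 1))) := by
        unfold Pool.Agent.H61.TT.dg
        rw [hk]
        field_simp
        ring
      rw [h8, norm_mul]
      exact mul_le_mul_of_nonneg_right h7 (norm_nonneg _)
    exact hW0 (tendsto_nhds_unique hwl h5)
  obtain ⟨e, hde⟩ : ∃ e, d = e + 1 := ⟨d - 1, by omega⟩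
  have he' : b.natDegree = e := by omega
  have hdm : d - 1 = e := by omega
  rw [he', hdm] at hwl hw1
  rw [he'] at hW0
  rw [he'] at hbl hb0
  set κ : ℂ := a.coeff d / b.coeff e with hκ
  have hκ0 : κ ≠ 0 := div_ne_zero ha0 hb0
  have hz0 : ∀ᶠ z : ℂ in Filter.cocompact ℂ, z ≠ 0 := by
    filter_upwards [hlarge 1] with z hz
    exact norm_pos_iff.1 (lt_of_lt_of_le one_pos hz)
  have hbz : ∀ᶠ z : ℂ in Filter.cocompact ℂ, b.eval z ≠ 0 := by
    filter_upwards [hlarge L0] with z hz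
    exact (hcon z hz).1
  have hdgl : Tendsto (Pool.Agent.H61.TT.dg a b) (Filter.cocompact ℂ) (𝓝 κ) := by
    have h1 := hwl.div (hbl.pow 2) (pow_ne_zero 2 hb0)
    have h2 : ((d : ℂ) - e) * (a.coeff d * b.coeff e) / b.coeff e ^ 2 = κ := by
      rw [hκ, hde]
      push_cast
      field_simp
      ring
    rw [h2] at h1
    refine h1.congr' ?_
    filter_upwards [hz0, hbz] with z h3 h4
    simp only [Pi.div_apply]
    unfold Pool.Agent.H61.TT.dg
    field_simp
    ring
  have hκθ : ‖κ‖ ≤ θ := by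
    refine le_of_tendsto hdgl.norm ?_
    filter_upwards [hlarge L0] with z hz
    exact (hcon z hz).2
  have hggl : Tendsto (fun z : ℂ => gg a b z / z) (Filter.cocompact ℂ) (𝓝 κ) := by
    have h1 := hal.div hbl hb0
    refine h1.congr' ?_
    filter_upwards [hz0, hbz] with z h3 h4
    simp only [Pi.div_apply]
    unfold gg
    rw [hde]
    field_simp
    ring
  have hggc : Tendsto (gg a b) (Filter.cocompact ℂ) (Filter.cocompact ℂ) := by
    have h1 : Tendsto (fun z : ℂ => ‖gg a b z / z‖ * ‖z‖) (Filter.cocompact ℂ) atTop :=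
      Filter.Tendsto.pos_mul_atTop (norm_pos_iff.2 hκ0) hggl.norm tendsto_norm_cocompact_atTop
    rw [← Metric.cobounded_eq_cocompact, ← tendsto_norm_atTop_iff_cobounded, Metric.cobounded_eq_cocompact]
    refine h1.congr' ?_
    filter_upwards [hz0] with z hz
    rw [← norm_mul, div_mul_cancel₀ _ hz]
  have hml : Tendsto (fun z : ℂ => Pool.Agent.H61.TT.dg a b z * (1 / (gg a b z / z)) ^ 2) (Filter.cocompact ℂ) (𝓝 (1 / κ)) := by
    have h1 := hdgl.mul (((tendsto_const_nhds (x := (1 : ℂ))).div hggl hκ0).pow 2)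
    have h2 : κ * (1 / κ) ^ 2 = 1 / κ := by field_simp
    rw [h2] at h1
    exact h1
  have hkl : Tendsto (fun z : ℂ => η.eval z / a.eval z ^ 2) (Filter.cocompact ℂ) (𝓝 (η.coeff (2 * d) / a.coeff d ^ 2)) := by
    have h1 := (scn_lim hη).div (hal.pow 2) (pow_ne_zero 2 ha0)
    refine h1.congr' ?_
    filter_upwards [hz0] with z hz
    simp only [Pi.div_apply, Pi.pow_apply]
    rw [div_pow, ← pow_mul, mul_comm d 2, div_div_div_cancel_right₀ (pow_ne_zero _ hz)]
  set k0 : ℂ := η.coeff (2 * d) / a.coeff d ^ 2 with hk0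
  have hκ1 : 1 - 1 / κ ≠ 0 := by
    intro h1
    have h2 : κ = 1 := by
      have h3 : 1 / κ = 1 := (sub_eq_zero.1 h1).symm
      field_simp at h3
      exact h3.symm
    rw [h2, norm_one] at hκθ
    linarith
  set l : ℂ := k0 / (1 - 1 / κ) with hl
  have hll : 1 / κ * l + k0 - l = 0 := by
    have h1 : l * (1 - 1 / κ) = k0 := by rw [hl]; exact div_mul_cancel₀ _ hκ1
    linear_combination -h1
  refine ⟨l, ?_⟩
  set D : ℂ → ℂ := fun z => V z / z ^ 2 - l with hD
  have hD0 : Tendsto D (Filter.cocompact ℂ) (𝓝 0) := by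
    have hC0 : 0 ≤ C := by
      have h1 := (norm_nonneg (V 0)).trans (hVC 0)
      rw [norm_zero] at h1
      linarith
    have hθ'0 : 0 < (1 + θ) / 2 := by linarith
    refine scn_ctr (g := gg a b) (θ := (1 + θ) / 2) (S := 2 * C + ‖l‖) hθ'0.le (by linarith) hggc ?_ ?_
    · filter_upwards [hlarge 1, hz0] with z h1 h2
      refine (norm_sub_le _ _).trans ?_
      have h3 : ‖V z / z ^ 2‖ ≤ 2 * C := by
        rw [norm_div, norm_pow, div_le_iff₀ (by positivity)]
        have h4 := hVC z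
        have h5 : 1 ≤ ‖z‖ ^ 2 := one_le_pow₀ h1
        nlinarith
      linarith
    · intro ε hε
      have hr : Tendsto (fun z : ℂ => Pool.Agent.H61.TT.dg a b z * (1 / (gg a b z / z)) ^ 2 * l + η.eval z / a.eval z ^ 2 - l)
          (Filter.cocompact ℂ) (𝓝 0) := by
        have h1 := ((hml.mul_const l).add hkl).sub_const l
        rwa [hll] at h1
      have hm1 : ∀ᶠ z : ℂ in Filter.cocompact ℂ, 2 / (1 + θ) < ‖Pool.Agent.H61.TT.dg a b z * (1 / (gg a b z / z)) ^ 2‖ := by
        refine hml.norm.eventually (lt_mem_nhds ?_)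
        rw [norm_div, norm_one, div_lt_div_iff₀ (by linarith) (norm_pos_iff.2 hκ0)]
        linarith
      have hr1 : ∀ᶠ z : ℂ in Filter.cocompact ℂ,
          ‖Pool.Agent.H61.TT.dg a b z * (1 / (gg a b z / z)) ^ 2 * l + η.eval z / a.eval z ^ 2 - l‖ < ε := by
        have h1 := hr.norm
        rw [norm_zero] at h1
        exact h1.eventually (gt_mem_nhds hε)
      have hg0 : ∀ᶠ z : ℂ in Filter.cocompact ℂ, gg a b z ≠ 0 := hggc.eventually hz0
      filter_upwards [hm1, hr1, hz0, hbz, hg0] with z h1 h2 h3 h4 h5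
      have ha : a.eval z ≠ 0 := by
        intro h6
        apply h5
        unfold gg
        rw [h6, zero_div]
      have h7 : D (gg a b z) = Pool.Agent.H61.TT.dg a b z * (1 / (gg a b z / z)) ^ 2 * D z +
          (Pool.Agent.H61.TT.dg a b z * (1 / (gg a b z / z)) ^ 2 * l + η.eval z / a.eval z ^ 2 - l) := by
        have h8 : V (gg a b z) / gg a b z ^ 2 = Pool.Agent.H61.TT.dg a b z * (1 / (gg a b z / z)) ^ 2 * (V z / z ^ 2) +
            η.eval z / a.eval z ^ 2 := by
          rw [hVe z h4]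
          have h9 : η.eval z / a.eval z ^ 2 = η.eval z / b.eval z ^ 2 / gg a b z ^ 2 := by
            unfold gg
            field_simp
          rw [h9]
          field_simp
        rw [hD]
        simp only
        rw [h8]
        ring
      set m : ℂ := Pool.Agent.H61.TT.dg a b z * (1 / (gg a b z / z)) ^ 2 with hm
      have h10 : ‖m‖ * ‖D z‖ ≤ ‖D (gg a b z)‖ + ε := by
        rw [← norm_mul]
        have h11 : m * D z = D (gg a b z) - (m * l + η.eval z / a.eval z ^ 2 - l) := by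
          rw [h7]
          ring
        rw [h11]
        exact (norm_sub_le _ _).trans (by linarith)
      have h12 : 2 / (1 + θ) * ‖D z‖ ≤ ‖D (gg a b z)‖ + ε :=
        (mul_le_mul_of_nonneg_right h1.le (norm_nonneg _)).trans h10
      have h13 : ‖D z‖ = (1 + θ) / 2 * (2 / (1 + θ) * ‖D z‖) := by
        have : (1 + θ) ≠ 0 := by linarith
        field_simp
      rw [h13]
      exact mul_le_mul_of_nonneg_left h12 hθ'0.le
  have h1 := hD0.add_const l
  rw [zero_add] at h1
  refine h1.congr fun z => ?_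
  rw [hD]
  simp

theorem yex {V : ℂ → ℂ} (hV : Continuous V) {l : ℂ} (hl : Tendsto (fun z : ℂ => V z / z ^ 2) (Filter.cocompact ℂ) (𝓝 l)) (q : ℂ) :
    ∃ Y : ℂ → ℂ, Continuous Y ∧ (∀ w : ℂ, w ≠ 0 → Y w = -(w ^ 2 * V (q + 1 / w))) ∧ ∃ C : ℝ, ∀ w : ℂ, ‖Y w‖ ≤ C * (1 + ‖w‖ ^ 2) := by
  classical
  set Y : ℂ → ℂ := fun w => if w = 0 then -l else -(w ^ 2 * V (q + 1 / w)) with hY
  have hY0 : Y 0 = -l := by rw [hY]; simp
  have hY1 : ∀ w : ℂ, w ≠ 0 → Y w = -(w ^ 2 * V (q + 1 / w)) := by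
    intro w hw
    rw [hY]
    simp only
    rw [if_neg hw]
  have hYc : Continuous Y := by
    rw [continuous_iff_continuousAt]
    intro w
    by_cases hw : w = 0
    · rw [hw]
      have h1 : Tendsto (fun w : ℂ => q + 1 / w) (𝓝[≠] 0) (Filter.cocompact ℂ) := by
        rw [← Metric.cobounded_eq_cocompact]
        have h2 : Tendsto (fun w : ℂ => 1 / w) (𝓝[≠] 0) (Bornology.cobounded ℂ) := by
          simp only [one_div]
          exact tendsto_inv₀_nhdsNE_zero
        rw [← tendsto_norm_atTop_iff_cobounded] at h2 ⊢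
        have h3 : Tendsto (fun w : ℂ => ‖(1 : ℂ) / w‖ + -‖q‖) (𝓝[≠] 0) atTop := tendsto_atTop_add_const_right _ _ h2
        refine tendsto_atTop_mono (fun w => ?_) h3
        have h4 : ‖(1 : ℂ) / w‖ ≤ ‖q + 1 / w‖ + ‖q‖ := by
          have h5 : (1 : ℂ) / w = (q + 1 / w) - q := by ring
          conv_lhs => rw [h5]
          exact norm_sub_le _ _
        linarith
      have h2 : Tendsto (fun w : ℂ => V (q + 1 / w) / (q + 1 / w) ^ 2) (𝓝[≠] 0) (𝓝 l) := hl.comp h1
      have h3 : Tendsto (fun w : ℂ => -((q * w + 1) ^ 2 * (V (q + 1 / w) / (q + 1 / w) ^ 2))) (𝓝[≠] 0) (𝓝 (-l)) := by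
        have h4 : Tendsto (fun w : ℂ => (q * w + 1) ^ 2) (𝓝[≠] 0) (𝓝 1) := by
          have h5 : Continuous (fun w : ℂ => (q * w + 1) ^ 2) := by fun_prop
          have h6 := h5.tendsto 0
          simp only [mul_zero, zero_add, one_pow] at h6
          exact h6.mono_left nhdsWithin_le_nhds
        have h7 := (h4.mul h2).neg
        rwa [one_mul] at h7
      have h4 : Tendsto Y (𝓝[≠] 0) (𝓝 (Y 0)) := by
        rw [hY0]
        refine h3.congr' ?_
        have h5 : ∀ᶠ w : ℂ in 𝓝[≠] 0, q + 1 / w ≠ 0 := by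
          have h6 : ({0} : Set ℂ)ᶜ ∈ Filter.cocompact ℂ := isCompact_singleton.compl_mem_cocompact
          exact h1.eventually h6
        filter_upwards [h5, self_mem_nhdsWithin] with w h6 h7
        have hw0 : w ≠ 0 := h7
        rw [hY1 w hw0]
        have h8 : q * w + 1 = w * (q + 1 / w) := by field_simp
        rw [h8]
        generalize V (q + 1 / w) = x
        generalize q + 1 / w = u at h6
        field_simp
      exact continuousAt_iff_punctured_nhds.2 h4
    · have h1 : ContinuousAt (fun w : ℂ => -(w ^ 2 * V (q + 1 / w))) w := by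
        have h2 : ContinuousAt (fun w : ℂ => q + 1 / w) w :=
          continuousAt_const.add (continuousAt_const.div continuousAt_id hw)
        exact ((continuousAt_id.pow 2).mul (hV.continuousAt.comp h2)).neg
      refine h1.congr ?_
      filter_upwards [isOpen_ne.mem_nhds hw] with u hu
      exact (hY1 u hu).symm
  refine ⟨Y, hYc, hY1, ?_⟩
  obtain ⟨B1, hB1⟩ := (isCompact_closedBall q (1 : ℝ)).exists_bound_of_continuousOn hV.continuousOn
  obtain ⟨B2, hB2⟩ := (isCompact_closedBall (0 : ℂ) (1 : ℝ)).exists_bound_of_continuousOn hYc.continuousOn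
  refine ⟨|B1| + |B2|, fun w => ?_⟩
  have h0 : 0 ≤ ‖w‖ ^ 2 := by positivity
  rcases le_total ‖w‖ 1 with h1 | h1
  · have h2 := hB2 w (mem_closedBall_zero_iff.2 h1)
    have h3 := le_abs_self B2
    have h4 := abs_nonneg B1
    have h5 := abs_nonneg B2
    nlinarith
  · have hw0 : w ≠ 0 := norm_pos_iff.1 (lt_of_lt_of_le one_pos h1)
    rw [hY1 w hw0, norm_neg, norm_mul, norm_pow]
    have h2 : q + 1 / w ∈ closedBall q 1 := by
      rw [mem_closedBall, dist_eq_norm, add_sub_cancel_left, norm_div, norm_one]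
      exact (div_le_one (by linarith)).2 h1
    have h3 := hB1 _ h2
    have h4 := le_abs_self B1
    have h5 := abs_nonneg B1
    have h6 := abs_nonneg B2
    have h7 : ‖V (q + 1 / w)‖ ≤ |B1| + |B2| := by linarith
    nlinarith [mul_le_mul_of_nonneg_left h7 h0]

end Pool.Agent.H66.IL
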