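import Pool.Agent.H66.IL.SDF
import Pool.Agent.H79.PJ.RIter

/-!
# [H66 IL SHL] UD, chapter ILF, Julia set = sphere: the functional equation in the new chart

PROOF of `shl`. `a = pol v.1`, `b = pol v.2`, `h w = Y (g w) - deriv g w * Y w`: continuous on the open set `U` (`deriv g` is continuous on `U`: `DifferentiableOn.deriv`). Let `S = {w ∈ U | w = 0 ∨ g w = 0 ∨ ∃ i ≤ N, (Rf v)^[i] (em q w) = ∞}`. `S` is finite: `g w = 0` means `(Rf v)^[N] (em q w) = ∞`; `em q` is injective; `(Rf v)^[i] = rat A B` with `A, B` coprime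
(`rat_iter`, H79/PJ/RIter), so `(Rf v)^[i] x = ∞`, `x` in the plane, implies `B.eval x = 0` (`B ≠ 0`, otherwise `A, B` coprime gives `A` a unit: degree `0`), finitely many.
CLAIM: `h` is differentiable at `w0 ∈ U \ S`. Near `w0` (in an open `O ∋ w0`) all points `w` are in `U \ S` (`S` is finite, so closed). For `w ∈ O`, `z = q + 1 / w`: `gg^[i] z` is finite for `i ≤ N`, `(Rf v)^[i] z = gg^[i] z`, `b (gg^[i] z) ≠ 0` for `i < N`, `q + 1 / g w = gg^[N] z`. `VelP` iterated: `V (gg^[N] z) = tD a b N z * V z + L z`,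
`L z = ∑_(i < N) (∏_(i < j < N) dg (gg^[j] z)) * η (gg^[i] z) / b (gg^[i] z)^2` (or by recursion `L_(i+1) z = dg (gg^[i] z) * L_i z + η (gg^[i] z) / b (gg^[i] z)^2`), holomorphic near `z0 = q + 1 / w0`. Differentiate `q + 1 / g w = gg^[N] (q + 1 / w)`: `deriv g w = (g w)^2 * tD a b N z / w^2`. So
`h w = -(g w)^2 * V (gg^[N] z) + deriv g w * w^2 * V z = -(g w)^2 * L (q + 1 / w)`: holomorphic at `w0`.
So `h` is continuous on `U` and differentiable off the finite set `S`: differentiable on `U` (`Complex.hasFPowerSeriesOnBall_of_differentiable_off_countable` on small closed balls, or the removable singularity theorem at the isolated points).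
-/

set_option autoImplicit false

open Filter Topology Polynomial Metric Set MeasureTheory

namespace Pool.Agent.H66.IL

open Pool.Agent.H44.Fatou (rat rat_continuous rat_coe rat_coe_of_ne pt crit_coe)
open Pool.Agent.H32.BT Pool.Agent.H79.Eul Pool.Agent.H79.Par
open Pool.Agent.H47.NM Pool.Agent.H47.NN Pool.Agent.H44.ND Pool.Agent.H79.ES
open Pool.Agent.H61.TT (gg ww)
open Pool.Agent.H57.CP (tD)
open Pool.Agent.H66.UP

variable {d : ℕ} {v : E d}

private theorem shl_rat_inf {P Q : Polynomial ℂ} {z : ℂ} (h : rat P Q (z : OnePoint ℂ) = OnePoint.infty) : Q.eval z = 0 := by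
  by_contra h1
  rw [rat_coe_of_ne h1] at h
  exact OnePoint.coe_ne_infty _ h

private theorem shl_rat_fin {P Q : Polynomial ℂ} {z : ℂ} (h : rat P Q (z : OnePoint ℂ) ≠ OnePoint.infty) : Q.eval z ≠ 0 := by
  intro h1
  apply h
  rw [rat_coe]
  unfold pt
  rw [if_pos h1]

private theorem shl_iter {a b : Polynomial ℂ} {z : ℂ} : ∀ n : ℕ, (∀ i ≤ n, (rat a b)^[i] (z : OnePoint ℂ) ≠ OnePoint.infty) →
    (rat a b)^[n] (z : OnePoint ℂ) = ((gg a b)^[n] z : ℂ) ∧ ∀ i < n, b.eval ((gg a b)^[i] z) ≠ 0 := by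
  intro n
  induction n with
  | zero => intro _; exact ⟨rfl, fun i hi => absurd hi (Nat.not_lt_zero i)⟩
  | succ n ih =>
    intro h
    obtain ⟨h1, h2⟩ := ih (fun i hi => h i (hi.trans (Nat.le_succ n)))
    have h3 := h (n + 1) le_rfl
    rw [Function.iterate_succ_apply', h1] at h3
    have h4 := shl_rat_fin h3
    refine ⟨?_, fun i hi => ?_⟩
    · rw [Function.iterate_succ_apply', h1, rat_coe_of_ne h4, Function.iterate_succ_apply']
      rfl
    · rcases Nat.lt_succ_iff_lt_or_eq.1 hi with h5 | h5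
      · exact h2 i h5
      · rw [h5]; exact h4

/-- the accumulated vector field -/
private noncomputable def shl_L (a b η : Polynomial ℂ) : ℕ → ℂ → ℂ
  | 0, _ => 0
  | n + 1, z => Pool.Agent.H61.TT.dg a b ((gg a b)^[n] z) * shl_L a b η n z +
      η.eval ((gg a b)^[n] z) / b.eval ((gg a b)^[n] z) ^ 2

private theorem shl_V {a b η : Polynomial ℂ} {V : ℂ → ℂ} (hV : VelP a b η V) {z : ℂ} : ∀ n : ℕ,
    (∀ i < n, b.eval ((gg a b)^[i] z) ≠ 0) → V ((gg a b)^[n] z) = tD a b n z * V z + shl_L a b η n z := by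
  intro n
  induction n with
  | zero => intro _; simp [tD, shl_L]
  | succ n ih =>
    intro h
    rw [Function.iterate_succ_apply', hV.2.1 _ (h n (Nat.lt_succ_self n)), ih (fun i hi => h i (hi.trans (Nat.lt_succ_self n)))]
    have e1 : tD a b (n + 1) z = tD a b n z * Pool.Agent.H61.TT.dg a b ((gg a b)^[n] z) := by
      unfold tD
      rw [Finset.prod_range_succ]
    have e2 : shl_L a b η (n + 1) z = Pool.Agent.H61.TT.dg a b ((gg a b)^[n] z) * shl_L a b η n z +
      η.eval ((gg a b)^[n] z) / b.eval ((gg a b)^[n] z) ^ 2 := rfl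
    rw [e1, e2]
    ring

private theorem shl_D {a b : Polynomial ℂ} {z : ℂ} : ∀ n : ℕ, (∀ i < n, b.eval ((gg a b)^[i] z) ≠ 0) →
    HasDerivAt ((gg a b)^[n]) (tD a b n z) z := by
  intro n
  induction n with
  | zero =>
    intro _
    have : tD a b 0 z = 1 := by unfold tD; simp
    rw [this]
    exact hasDerivAt_id z
  | succ n ih =>
    intro h
    have h1 := ih (fun i hi => h i (hi.trans (Nat.lt_succ_self n)))
    have h2 : HasDerivAt (gg a b) (Pool.Agent.H61.TT.dg a b ((gg a b)^[n] z)) ((gg a b)^[n] z) :=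
      Pool.Agent.H61.TT.hasDerivAt_gg (h n (Nat.lt_succ_self n))
    have h3 := h2.comp z h1
    have e1 : tD a b (n + 1) z = Pool.Agent.H61.TT.dg a b ((gg a b)^[n] z) * tD a b n z := by
      unfold tD
      rw [Finset.prod_range_succ, mul_comm]
    rw [e1, Function.iterate_succ']
    exact h3

private theorem shl_LD {a b η : Polynomial ℂ} {z : ℂ} : ∀ n : ℕ, (∀ i < n, b.eval ((gg a b)^[i] z) ≠ 0) →
    DifferentiableAt ℂ (shl_L a b η n) z := by
  intro n
  induction n with
  | zero =>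
    intro _
    have : shl_L a b η 0 = fun _ => 0 := by funext x; rfl
    rw [this]
    exact differentiableAt_const _
  | succ n ih =>
    intro h
    have hlt : ∀ i < n, b.eval ((gg a b)^[i] z) ≠ 0 := fun i hi => h i (hi.trans (Nat.lt_succ_self n))
    have h1 := ih hlt
    have h2 : DifferentiableAt ℂ ((gg a b)^[n]) z := (shl_D n hlt).differentiableAt
    have hb := h n (Nat.lt_succ_self n)
    have h3 : DifferentiableAt ℂ (Pool.Agent.H61.TT.dg a b) ((gg a b)^[n] z) := Pool.Agent.H61.TT.differentiableAt_dg hb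
    have h4 : DifferentiableAt ℂ (fun x => Pool.Agent.H61.TT.dg a b ((gg a b)^[n] x)) z := h3.comp z h2
    have h5 : DifferentiableAt ℂ (fun x => η.eval ((gg a b)^[n] x)) z :=
      (η.differentiableAt (x := (gg a b)^[n] z)).comp z h2
    have h6 : DifferentiableAt ℂ (fun x => b.eval ((gg a b)^[n] x)) z :=
      (b.differentiableAt (x := (gg a b)^[n] z)).comp z h2
    have e : shl_L a b η (n + 1) = fun x => Pool.Agent.H61.TT.dg a b ((gg a b)^[n] x) * shl_L a b η n x +
      η.eval ((gg a b)^[n] x) / b.eval ((gg a b)^[n] x) ^ 2 := by funext x; rfl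
    rw [e]
    exact (h4.mul h1).add (h5.div (h6.pow 2) (pow_ne_zero 2 hb))

/-- the points of the plane whose orbit meets infinity in at most `N` steps -/
private theorem shl_fin {P Q : Polynomial ℂ} (h : IsCoprime P Q) (hd : 1 ≤ Pool.Agent.H44.Fatou.dg P Q) (N : ℕ) :
    {z : ℂ | ∃ i ≤ N, (rat P Q)^[i] (z : OnePoint ℂ) = OnePoint.infty}.Finite := by
  have e : {z : ℂ | ∃ i ≤ N, (rat P Q)^[i] (z : OnePoint ℂ) = OnePoint.infty} ⊆
      ⋃ i ∈ Set.Iic N, {z : ℂ | (rat P Q)^[i] (z : OnePoint ℂ) = OnePoint.infty} := by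
    rintro z ⟨i, hi, h1⟩
    exact Set.mem_biUnion hi h1
  refine Set.Finite.subset (Set.Finite.biUnion (Set.finite_Iic N) fun i _ => ?_) e
  obtain ⟨A, B, hAB, hdg, hr⟩ := Pool.Agent.H79.PJ.rat_iter h hd i
  have hB : B ≠ 0 := by
    rintro rfl
    have h1 : IsUnit A := isCoprime_zero_right.1 hAB
    have h2 : A.natDegree = 0 := natDegree_eq_zero_of_isUnit h1
    have h3 : Pool.Agent.H44.Fatou.dg A 0 = 0 := by
      unfold Pool.Agent.H44.Fatou.dg
      rw [h2, natDegree_zero]
      rfl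
    rw [h3] at hdg
    have h4 : 0 < Pool.Agent.H44.Fatou.dg P Q ^ i := Nat.pow_pos hd
    omega
  refine Set.Finite.subset (s := {z : ℂ | B.IsRoot z}) (Polynomial.finite_setOfPred_isRoot hB) ?_
  intro z hz
  have hz' : (rat P Q)^[i] (z : OnePoint ℂ) = OnePoint.infty := hz
  rw [← hr] at hz'
  exact shl_rat_inf hz'

theorem shl (hd : 2 ≤ d) (hcop : IsCoprime (pol v.1) (pol v.2)) (hdeg : max (pol v.1).natDegree (pol v.2).natDegree = d)
    {η : Polynomial ℂ} {V Y : ℂ → ℂ} (hV : VelP (pol v.1) (pol v.2) η V) {q : ℂ} (hY : Continuous Y)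
    (hYV : ∀ w : ℂ, w ≠ 0 → Y w = -(w ^ 2 * V (q + 1 / w))) {N : ℕ} {g : ℂ → ℂ} {U : Set ℂ} (hU : IsOpen U)
    (hg : DifferentiableOn ℂ g U) (he : ∀ w ∈ U, (Rf v)^[N] (em q w) = em q (g w)) :
    DifferentiableOn ℂ (fun w => Y (g w) - deriv g w * Y w) U := by
  set a := pol v.1 with ha
  set b := pol v.2 with hb
  have hRf : Rf v = rat a b := rfl
  have hdg : 1 ≤ Pool.Agent.H44.Fatou.dg a b := by
    unfold Pool.Agent.H44.Fatou.dg
    rw [hdeg]
    omega
  set F : Set ℂ := {z : ℂ | ∃ i ≤ N, (rat a b)^[i] (z : OnePoint ℂ) = OnePoint.infty} with hF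
  have hFf : F.Finite := shl_fin hcop hdg N
  set T : Set ℂ := insert 0 ((fun z => 1 / (z - q)) '' F) with hT
  have hTf : T.Finite := (hFf.image _).insert 0
  have hUT : IsOpen (U \ T) := hU.sdiff hTf.isClosed
  have key : ∀ w ∈ U \ T, w ≠ 0 ∧ g w ≠ 0 ∧ (∀ i < N, b.eval ((gg a b)^[i] (q + 1 / w)) ≠ 0) ∧
      q + 1 / g w = (gg a b)^[N] (q + 1 / w) := by
    intro w hw
    have hw0 : w ≠ 0 := by
      rintro rfl
      exact hw.2 (Set.mem_insert _ _)
    have hwF : (q + 1 / w) ∉ F := by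
      intro h1
      apply hw.2
      refine Set.mem_insert_of_mem _ ⟨q + 1 / w, h1, ?_⟩
      show 1 / (q + 1 / w - q) = w
      rw [add_sub_cancel_left, one_div_one_div]
    have hfin : ∀ i ≤ N, (rat a b)^[i] ((q + 1 / w : ℂ) : OnePoint ℂ) ≠ OnePoint.infty := by
      intro i hi h1
      exact hwF ⟨i, hi, h1⟩
    obtain ⟨h1, h2⟩ := shl_iter N hfin
    have h3 := he w hw.1
    have h4 : em q w = ((q + 1 / w : ℂ) : OnePoint ℂ) := by
      unfold em
      rw [if_neg hw0]
    rw [h4, hRf, h1] at h3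
    have hg0 : g w ≠ 0 := by
      intro h5
      unfold em at h3
      rw [if_pos h5] at h3
      exact OnePoint.coe_ne_infty _ h3
    refine ⟨hw0, hg0, h2, ?_⟩
    unfold em at h3
    rw [if_neg hg0] at h3
    exact (OnePoint.coe_injective h3).symm
  have hgd : ∀ w ∈ U, HasDerivAt g (deriv g w) w := fun w hw => (hg.differentiableAt (hU.mem_nhds hw)).hasDerivAt
  have hdz : ∀ w : ℂ, w ≠ 0 → HasDerivAt (fun x : ℂ => q + 1 / x) (-(1 / w ^ 2)) w := by
    intro w hw
    have h1 := (hasDerivAt_inv hw).const_add q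
    have e : (fun x : ℂ => q + 1 / x) = fun x : ℂ => q + x⁻¹ := by
      funext x
      rw [one_div]
    rw [e, one_div]
    exact h1
  have hval : ∀ w ∈ U \ T, Y (g w) - deriv g w * Y w = -((g w) ^ 2 * shl_L a b η N (q + 1 / w)) := by
    intro w hw
    obtain ⟨hw0, hg0, hbn, heq⟩ := key w hw
    have h1 : HasDerivAt (fun x => q + 1 / g x) (-(1 / (g w) ^ 2) * deriv g w) w :=
      (hdz (g w) hg0).comp w (hgd w hw.1)
    have h2 : HasDerivAt (fun x => (gg a b)^[N] (q + 1 / x)) (tD a b N (q + 1 / w) * (-(1 / w ^ 2))) w :=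
      (shl_D N hbn).comp w (hdz w hw0)
    have h3 : (fun x => q + 1 / g x) =ᶠ[𝓝 w] fun x => (gg a b)^[N] (q + 1 / x) := by
      filter_upwards [hUT.mem_nhds hw] with x hx
      exact (key x hx).2.2.2
    have h4 : -(1 / (g w) ^ 2) * deriv g w = tD a b N (q + 1 / w) * (-(1 / w ^ 2)) :=
      h1.unique (h2.congr_of_eventuallyEq h3)
    have h5 : deriv g w = (g w) ^ 2 * (tD a b N (q + 1 / w) / w ^ 2) := by
      have e1 : -(1 / (g w) ^ 2) * deriv g w = -(deriv g w / (g w) ^ 2) := by ring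
      have e2 : tD a b N (q + 1 / w) * (-(1 / w ^ 2)) = -(tD a b N (q + 1 / w) / w ^ 2) := by ring
      rw [e1, e2, neg_inj, div_eq_iff (pow_ne_zero 2 hg0)] at h4
      rw [h4]
      ring
    have h6 : V (q + 1 / g w) = tD a b N (q + 1 / w) * V (q + 1 / w) + shl_L a b η N (q + 1 / w) := by
      rw [heq]
      exact shl_V hV N hbn
    rw [hYV _ hg0, hYV _ hw0, h6, h5]
    field_simp
    ring
  have hdiff : DifferentiableOn ℂ (fun w => Y (g w) - deriv g w * Y w) (U \ T) := by
    intro w hw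
    obtain ⟨hw0, hg0, hbn, heq⟩ := key w hw
    have h1 : (fun w => Y (g w) - deriv g w * Y w) =ᶠ[𝓝 w] fun w => -((g w) ^ 2 * shl_L a b η N (q + 1 / w)) := by
      filter_upwards [hUT.mem_nhds hw] with x hx
      exact hval x hx
    have h2 : DifferentiableAt ℂ (fun x => shl_L a b η N (q + 1 / x)) w :=
      (shl_LD N hbn).comp w (hdz w hw0).differentiableAt
    have h3 : DifferentiableAt ℂ (fun w => -((g w) ^ 2 * shl_L a b η N (q + 1 / w))) w :=
      (((hgd w hw.1).differentiableAt.pow 2).mul h2).neg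
    exact (h1.differentiableAt_iff.2 h3).differentiableWithinAt
  have hcont : ContinuousOn (fun w => Y (g w) - deriv g w * Y w) U := by
    have h1 : ContinuousOn (deriv g) U := (hg.deriv hU).continuousOn
    exact (hY.comp_continuousOn hg.continuousOn).sub (h1.mul hY.continuousOn)
  intro c hc
  have hs : U ∩ (T \ {c})ᶜ ∈ 𝓝 c := by
    refine inter_mem (hU.mem_nhds hc) ?_
    have h1 : IsClosed (T \ {c}) := (hTf.subset Set.sdiff_subset).isClosed
    refine h1.isOpen_compl.mem_nhds ?_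
    intro h2
    exact h2.2 rfl
  have h2 := (Complex.differentiableOn_compl_singleton_and_continuousAt_iff
    (f := fun w => Y (g w) - deriv g w * Y w) hs).1 ⟨?_, (hcont.continuousAt (hU.mem_nhds hc))⟩
  · exact (h2.differentiableAt hs).differentiableWithinAt
  · refine hdiff.mono ?_
    rintro x ⟨⟨hx1, hx2⟩, hx3⟩
    refine ⟨hx1, fun hx4 => hx2 ⟨hx4, hx3⟩⟩

end Pool.Agent.H66.IL
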