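import Pool.Agent.H66.IL.SDF

/-!
# [H66 IL STR] UD, chapter ILF, Julia set = sphere: change of the chart for the expansions

PROOF of `str`. `ψ w = q + 1 / w`, `M z = 1 / (z - q)`, `E' = M '' E` (compact, `0 ∉ E'`; `0 < volume E'`: otherwise `E = ψ '' E'` has volume zero, `MeasureTheory.addHaar_image_eq_zero_of_differentiableOn_of_addHaar_eq_zero`). `c1 ≤ ‖w‖ ≤ c2` on `E'`, `0 < c1`. `ψ' w = -1 / w^2`, `Y i w = X i (ψ w) / ψ' w = - w^2 * X i (ψ w)`.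
`μ' i w0 = μ i (ψ w0) * conj (ψ' w0) / ψ' w0` (norm `‖μ i (ψ w0)‖`). For `w0 ∈ E'`, `w ∈ ball w0 r`, `r ≤ c1 / 2`: `‖ψ w - ψ w0‖ = ‖w - w0‖ / (‖w‖ ‖w0‖) < L r` with `L = 2 / c1^2`; `TT` for `X` with the radius `L r` and `ε'`: `H` on `ball (ψ w0) (L r)`:
`X i (ψ w) = μ i (ψ w0) * conj (ψ w - ψ w0) + H (ψ w) + O(ε' L r)`; `ψ w - ψ w0 = ψ' w0 * (w - w0) + O(‖w - w0‖^2)` (exactly `(w - w0)^2 / (w0^2 w)` is the difference), `1 / ψ' w = - w^2`, `‖1 / ψ' w - 1 / ψ' w0‖ ≤ 3 (c2 + 1) ‖w - w0‖`: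
`Y i w = μ' i w0 * conj (w - w0) + H (ψ w) * (- w^2) + O((ε' + C r) r)`, constants depend on `c1, c2, C` (`‖μ i z‖ ≤ C`) only. `w ↦ H (ψ w) * (- w^2)` is holomorphic on `ball w0 r`. Choose `ε'` and then `ρ` small.
-/

set_option autoImplicit false

open Filter Topology Polynomial Metric Set MeasureTheory

namespace Pool.Agent.H66.IL

private theorem str_diff {q w w0 : ℂ} (hw : w ≠ 0) (hw0 : w0 ≠ 0) :
    (q + 1 / w) - (q + 1 / w0) = -((w - w0) / (w * w0)) := by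
  field_simp
  ring

private theorem str_alg {w w0 μ : ℂ} (hw : w ≠ 0) (hw0 : w0 ≠ 0) :
    -(w ^ 2 * (μ * (starRingEnd ℂ) (-((w - w0) / (w * w0))))) -
        μ * (w0 ^ 2 / (starRingEnd ℂ) w0 ^ 2) * (starRingEnd ℂ) (w - w0) =
      μ * (starRingEnd ℂ) (w - w0) *
        (((w ^ 2 - w0 ^ 2) * (starRingEnd ℂ) w0 + w0 ^ 2 * ((starRingEnd ℂ) (w0 - w))) /
          ((starRingEnd ℂ) w * (starRingEnd ℂ) w0 ^ 2)) := by
  have h1 : (starRingEnd ℂ) w ≠ 0 := (_root_.map_ne_zero _).2 hw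
  have h2 : (starRingEnd ℂ) w0 ≠ 0 := (_root_.map_ne_zero _).2 hw0
  simp only [map_neg, map_div₀, map_mul, map_sub]
  field_simp
  ring

private theorem str_bound {c1 c2 r C : ℝ} {w w0 μ : ℂ} (hc1 : 0 < c1) (h1 : c1 ≤ ‖w0‖) (h2 : ‖w0‖ ≤ c2)
    (hr : r ≤ c1 / 2) (hw : ‖w - w0‖ < r) (hμ : ‖μ‖ ≤ C) :
    ‖μ * (starRingEnd ℂ) (w - w0) *
        (((w ^ 2 - w0 ^ 2) * (starRingEnd ℂ) w0 + w0 ^ 2 * ((starRingEnd ℂ) (w0 - w))) /
          ((starRingEnd ℂ) w * (starRingEnd ℂ) w0 ^ 2))‖ ≤ C * (8 * c2 ^ 2 / c1 ^ 3) * r * r := by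
  have hr0 : 0 < r := (norm_nonneg _).trans_lt hw
  have hc2 : 0 < c2 := hc1.trans_le (h1.trans h2)
  have hC : 0 ≤ C := (norm_nonneg _).trans hμ
  have h3 : c1 / 2 ≤ ‖w‖ := by
    have := norm_sub_norm_le w0 w
    rw [norm_sub_rev] at this
    linarith
  have h4 : ‖w‖ ≤ 2 * c2 := by
    have := norm_sub_norm_le w w0
    have h5 : c1 ≤ c2 := h1.trans h2
    linarith
  have e1 : ‖(w ^ 2 - w0 ^ 2) * (starRingEnd ℂ) w0 + w0 ^ 2 * ((starRingEnd ℂ) (w0 - w))‖ ≤ 4 * c2 ^ 2 * r := by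
    have e2 : w ^ 2 - w0 ^ 2 = (w - w0) * (w + w0) := by ring
    have e3 : ‖w + w0‖ ≤ 3 * c2 := (norm_add_le _ _).trans (by linarith)
    calc ‖(w ^ 2 - w0 ^ 2) * (starRingEnd ℂ) w0 + w0 ^ 2 * ((starRingEnd ℂ) (w0 - w))‖
        ≤ ‖(w ^ 2 - w0 ^ 2) * (starRingEnd ℂ) w0‖ + ‖w0 ^ 2 * ((starRingEnd ℂ) (w0 - w))‖ := norm_add_le _ _
      _ = ‖w - w0‖ * ‖w + w0‖ * ‖w0‖ + ‖w0‖ ^ 2 * ‖w - w0‖ := by
          rw [e2, norm_mul, norm_mul, norm_mul, norm_pow, RCLike.norm_conj, RCLike.norm_conj, norm_sub_rev w0 w]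
      _ ≤ r * (3 * c2) * c2 + c2 ^ 2 * r := by
          have := norm_nonneg (w - w0)
          have := norm_nonneg (w + w0)
          have := norm_nonneg w0
          gcongr
      _ = 4 * c2 ^ 2 * r := by ring
  have e4 : c1 ^ 3 / 2 ≤ ‖(starRingEnd ℂ) w * (starRingEnd ℂ) w0 ^ 2‖ := by
    rw [norm_mul, norm_pow, RCLike.norm_conj, RCLike.norm_conj]
    calc c1 ^ 3 / 2 = (c1 / 2) * c1 ^ 2 := by ring
      _ ≤ ‖w‖ * ‖w0‖ ^ 2 := by gcongr
  rw [norm_mul, norm_mul, norm_div, RCLike.norm_conj]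
  have e5 : 0 < c1 ^ 3 / 2 := by positivity
  calc ‖μ‖ * ‖w - w0‖ * (‖(w ^ 2 - w0 ^ 2) * (starRingEnd ℂ) w0 + w0 ^ 2 * ((starRingEnd ℂ) (w0 - w))‖ /
        ‖(starRingEnd ℂ) w * (starRingEnd ℂ) w0 ^ 2‖)
      ≤ C * r * ((4 * c2 ^ 2 * r) / (c1 ^ 3 / 2)) := by gcongr
    _ = C * (8 * c2 ^ 2 / c1 ^ 3) * r * r := by
        field_simp
        ring

theorem str {n : ℕ} {X Y μ : Fin n → ℂ → ℂ} {E : Set ℂ} {q : ℂ} {C : ℝ} (hE : IsCompact E) (hq : q ∉ E) (hp : 0 < volume E)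
    (hb : ∀ i z, ‖μ i z‖ ≤ C) (hY : ∀ i, ∀ w : ℂ, w ≠ 0 → Y i w = -(w ^ 2 * X i (q + 1 / w))) (hT : TT E X μ) :
    ∃ (E' : Set ℂ) (μ' : Fin n → ℂ → ℂ), IsCompact E' ∧ 0 < volume E' ∧
      (∀ i, ∀ w ∈ E', q + 1 / w ∈ E ∧ ‖μ' i w‖ = ‖μ i (q + 1 / w)‖) ∧ TT E' Y μ' := by
  have hne : E.Nonempty := by
    rw [Set.nonempty_iff_ne_empty]
    rintro rfl
    simp at hp
  -- the distances
  obtain ⟨δ, hδ, hδE⟩ : ∃ δ : ℝ, 0 < δ ∧ ∀ z ∈ E, δ ≤ ‖z - q‖ := by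
    obtain ⟨δ, hδ, h⟩ := Metric.isOpen_iff.1 hE.isClosed.isOpen_compl q hq
    refine ⟨δ, hδ, fun z hz => ?_⟩
    by_contra h1
    push Not at h1
    have h2 : z ∈ ball q δ := by rwa [mem_ball, dist_eq_norm]
    exact h h2 hz
  obtain ⟨R, hR⟩ : ∃ R : ℝ, ∀ z ∈ E, ‖z - q‖ ≤ R := by
    obtain ⟨R, hR⟩ := hE.isBounded.subset_closedBall q
    refine ⟨R, fun z hz => ?_⟩
    have := hR hz
    rwa [mem_closedBall, dist_eq_norm] at this
  have hR0 : 0 < R := by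
    obtain ⟨z, hz⟩ := hne
    exact hδ.trans_le ((hδE z hz).trans (hR z hz))
  -- the new set
  have hM : ContinuousOn (fun z : ℂ => 1 / (z - q)) E := by
    apply ContinuousOn.div continuousOn_const (continuousOn_id.sub continuousOn_const)
    intro z hz h
    have h1 := hδE z hz
    have h2 : ‖z - q‖ = 0 := by
      have : z - q = 0 := h
      rw [this, norm_zero]
    linarith
  obtain ⟨E', hE'⟩ : ∃ E' : Set ℂ, E' = (fun z : ℂ => 1 / (z - q)) '' E := ⟨_, rfl⟩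
  have hmem : ∀ w ∈ E', w ≠ 0 ∧ q + 1 / w ∈ E ∧ R⁻¹ ≤ ‖w‖ ∧ ‖w‖ ≤ δ⁻¹ := by
    intro w hw
    rw [hE'] at hw
    obtain ⟨z, hz, rfl⟩ := hw
    have h1 := hδE z hz
    have h2 := hR z hz
    have h3 : 0 < ‖z - q‖ := hδ.trans_le h1
    have h4 : z - q ≠ 0 := norm_pos_iff.1 h3
    refine ⟨one_div_ne_zero h4, ?_, ?_, ?_⟩
    · show q + 1 / (1 / (z - q)) ∈ E
      rw [one_div_one_div, add_sub_cancel]
      exact hz
    · show R⁻¹ ≤ ‖1 / (z - q)‖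
      rw [norm_div, norm_one, one_div]
      exact inv_anti₀ h3 h2
    · show ‖1 / (z - q)‖ ≤ δ⁻¹
      rw [norm_div, norm_one, one_div]
      exact inv_anti₀ hδ h1
  have hc1 : 0 < R⁻¹ := inv_pos.2 hR0
  have hc2 : 0 < δ⁻¹ := inv_pos.2 hδ
  have hcomp : IsCompact E' := by
    rw [hE']
    exact hE.image_of_continuousOn hM
  have hvol : 0 < volume E' := by
    rw [pos_iff_ne_zero]
    intro h0
    have h1 : DifferentiableOn ℝ (fun w : ℂ => q + 1 / w) E' := by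
      intro w hw
      have h2 : DifferentiableAt ℂ (fun w : ℂ => q + 1 / w) w :=
        (differentiableAt_const q).add ((differentiableAt_const 1).div differentiableAt_id (hmem w hw).1)
      exact (h2.restrictScalars ℝ).differentiableWithinAt
    have h2 := addHaar_image_eq_zero_of_differentiableOn_of_addHaar_eq_zero volume h1 h0
    have h3 : E ⊆ (fun w : ℂ => q + 1 / w) '' E' := by
      intro z hz
      refine ⟨1 / (z - q), ?_, ?_⟩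
      · rw [hE']
        exact ⟨z, hz, rfl⟩
      · show q + 1 / (1 / (z - q)) = z
        rw [one_div_one_div, add_sub_cancel]
    exact hp.ne' (measure_mono_null h3 h2)
  refine ⟨E', fun i w => μ i (q + 1 / w) * (w ^ 2 / (starRingEnd ℂ) w ^ 2), hcomp, hvol, fun i w hw => ⟨(hmem w hw).2.1, ?_⟩, ?_⟩
  · show ‖μ i (q + 1 / w) * (w ^ 2 / (starRingEnd ℂ) w ^ 2)‖ = ‖μ i (q + 1 / w)‖
    have h1 : ‖w‖ ≠ 0 := norm_ne_zero_iff.2 (hmem w hw).1
    rw [norm_mul, norm_div, norm_pow, norm_pow, RCLike.norm_conj, div_self (pow_ne_zero 2 h1), mul_one]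
  · intro ε hε
    obtain ⟨L, hL⟩ : ∃ L : ℝ, L = 2 / R⁻¹ ^ 2 := ⟨_, rfl⟩
    have hL0 : 0 < L := by rw [hL]; positivity
    obtain ⟨K1, hK1⟩ : ∃ K1 : ℝ, K1 = 4 * δ⁻¹ ^ 2 * L := ⟨_, rfl⟩
    have hK10 : 0 < K1 := by rw [hK1]; positivity
    obtain ⟨K2, hK2⟩ : ∃ K2 : ℝ, K2 = (|C| + 1) * (8 * δ⁻¹ ^ 2 / R⁻¹ ^ 3) := ⟨_, rfl⟩
    have hK20 : 0 < K2 := by
      rw [hK2]
      have := abs_nonneg C
      positivity
    obtain ⟨ρ, hρ, hX⟩ := hT (ε / (2 * K1)) (by positivity)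
    refine ⟨min (R⁻¹ / 2) (min (ρ / L) (ε / (2 * K2))), by positivity, fun i w0 hw0 r hr hrρ => ?_⟩
    obtain ⟨hw00, hz0, h1, h2⟩ := hmem w0 hw0
    have hr1 : r ≤ R⁻¹ / 2 := (hrρ.trans_le (min_le_left _ _)).le
    have hr2 : L * r < ρ := by
      have := hrρ.trans_le ((min_le_right _ _).trans (min_le_left _ _))
      rwa [lt_div_iff₀' hL0] at this
    have hr3 : K2 * r ≤ ε / 2 := by
      have := (hrρ.trans_le ((min_le_right _ _).trans (min_le_right _ _))).le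
      rw [le_div_iff₀ (by positivity)] at this
      linarith
    obtain ⟨H, hH, hHX⟩ := hX i (q + 1 / w0) hz0 (L * r) (by positivity) hr2
    -- the points of the ball
    have hball : ∀ w ∈ ball w0 r, w ≠ 0 ∧ R⁻¹ / 2 ≤ ‖w‖ ∧ ‖w‖ ≤ 2 * δ⁻¹ ∧ ‖w - w0‖ < r ∧
        q + 1 / w ∈ ball (q + 1 / w0) (L * r) := by
      intro w hw
      rw [mem_ball, dist_eq_norm] at hw
      have h3 : R⁻¹ / 2 ≤ ‖w‖ := by
        have := norm_sub_norm_le w0 w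
        rw [norm_sub_rev] at this
        linarith
      have h4 : ‖w‖ ≤ 2 * δ⁻¹ := by
        have := norm_sub_norm_le w w0
        linarith
      have h5 : w ≠ 0 := by
        rw [← norm_pos_iff]
        linarith
      refine ⟨h5, h3, h4, hw, ?_⟩
      rw [mem_ball, dist_eq_norm, str_diff h5 hw00, norm_neg, norm_div, norm_mul]
      have h6 : R⁻¹ ^ 2 / 2 ≤ ‖w‖ * ‖w0‖ := by
        calc R⁻¹ ^ 2 / 2 = (R⁻¹ / 2) * R⁻¹ := by ring
          _ ≤ ‖w‖ * ‖w0‖ := by gcongr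
      have h7 : 0 < R⁻¹ ^ 2 / 2 := by positivity
      calc ‖w - w0‖ / (‖w‖ * ‖w0‖) ≤ ‖w - w0‖ / (R⁻¹ ^ 2 / 2) := by gcongr
        _ = L * ‖w - w0‖ := by
            rw [hL]
            field_simp
        _ < L * r := by gcongr
    refine ⟨fun w => -(w ^ 2 * H (q + 1 / w)), ?_, fun w hw => ?_⟩
    · intro w hw
      obtain ⟨h3, -, -, -, h4⟩ := hball w hw
      have h5 : DifferentiableAt ℂ H (q + 1 / w) := (hH _ h4).differentiableAt (isOpen_ball.mem_nhds h4)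
      have h6 : DifferentiableAt ℂ (fun w : ℂ => q + 1 / w) w :=
        (differentiableAt_const q).add ((differentiableAt_const 1).div differentiableAt_id h3)
      have h7 : DifferentiableAt ℂ (fun w : ℂ => H (q + 1 / w)) w := DifferentiableAt.comp w h5 h6
      exact (((differentiableAt_id.pow 2).mul h7).neg).differentiableWithinAt
    · obtain ⟨h3, h4, h5, h6, h7⟩ := hball w hw
      have e1 := hHX _ h7
      rw [str_diff h3 hw00] at e1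
      have e2 : Y i w - μ i (q + 1 / w0) * (w0 ^ 2 / (starRingEnd ℂ) w0 ^ 2) * (starRingEnd ℂ) (w - w0) -
          -(w ^ 2 * H (q + 1 / w)) =
          -(w ^ 2 * (X i (q + 1 / w) - μ i (q + 1 / w0) * (starRingEnd ℂ) (-((w - w0) / (w * w0))) - H (q + 1 / w))) +
          (-(w ^ 2 * (μ i (q + 1 / w0) * (starRingEnd ℂ) (-((w - w0) / (w * w0))))) -
            μ i (q + 1 / w0) * (w0 ^ 2 / (starRingEnd ℂ) w0 ^ 2) * (starRingEnd ℂ) (w - w0)) := by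
        rw [hY i w h3]
        ring
      show ‖Y i w - μ i (q + 1 / w0) * (w0 ^ 2 / (starRingEnd ℂ) w0 ^ 2) * (starRingEnd ℂ) (w - w0) -
          -(w ^ 2 * H (q + 1 / w))‖ ≤ ε * r
      rw [e2, str_alg h3 hw00]
      have e3 := str_bound hc1 h1 h2 hr1 h6 ((hb i (q + 1 / w0)).trans ((le_abs_self C).trans (le_add_of_nonneg_right zero_le_one)))
      have e4 : ‖-(w ^ 2 * (X i (q + 1 / w) - μ i (q + 1 / w0) * (starRingEnd ℂ) (-((w - w0) / (w * w0))) - H (q + 1 / w)))‖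
          ≤ ε / 2 * r := by
        rw [norm_neg, norm_mul, norm_pow]
        calc ‖w‖ ^ 2 * ‖X i (q + 1 / w) - μ i (q + 1 / w0) * (starRingEnd ℂ) (-((w - w0) / (w * w0))) - H (q + 1 / w)‖
            ≤ (2 * δ⁻¹) ^ 2 * (ε / (2 * K1) * (L * r)) := by gcongr
          _ = ε / 2 * r := by
              rw [hK1]
              field_simp
              ring
      refine (norm_add_le _ _).trans ?_
      have e5 : (|C| + 1) * (8 * δ⁻¹ ^ 2 / R⁻¹ ^ 3) * r * r ≤ ε / 2 * r := by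
        rw [← hK2]
        gcongr
      linarith

end Pool.Agent.H66.IL
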