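import Pool.Agent.H66.IL.SMU
import Pool.Agent.H66.IL.STR
import Pool.Agent.H66.IL.SCN
import Pool.Agent.H66.IL.SHL

/-!
# UD, chapter ILF: the fields and the line fields, Julia set = sphere

`fxs`: in the chart `em q` (`q` in the plane of the chart where `0`, `1`, `∞` are fixed) for every `g` which represents `(Rf v)^[N]`.
-/

set_option autoImplicit false

open Filter Topology Polynomial Metric Set MeasureTheory

namespace Pool.Agent.H66.IL

open Pool.Agent.H44.Fatou (rat rat_continuous rat_coe rat_coe_of_ne pt crit_coe)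
open Pool.Agent.H32.BT Pool.Agent.H79.Eul Pool.Agent.H79.Par
open Pool.Agent.H35.EX Pool.Agent.H44.RR Pool.Agent.H56.HR Pool.Agent.H44.RC Pool.Agent.H47.RJ
open Pool.Agent.H47.NM Pool.Agent.H47.NN Pool.Agent.H44.ND Pool.Agent.H79.ES Pool.Agent.H44.RG
open Pool.Agent.H44.CP Pool.Agent.H47.PS Pool.Agent.H64.NC
open Pool.Agent.H61.TT (gg ww)
open Pool.Agent.H57.CP (tD)
open Pool.Agent.H66.UP

variable {d : ℕ} {v : E d}

/-- different directions have different fields -/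
theorem v_inj (hb : pol v.2 ≠ 0) {n : ℕ} {V : Fin n → ℂ → ℂ}
    (hV : ∀ i : Fin n, VelP (pol v.1) (pol v.2) (X ^ (i : ℕ)) (V i)) {c : Fin n → ℂ} (hc : ∀ z, ∑ i, c i * V i z = 0) : c = 0 := by
  obtain ⟨P, hP⟩ : ∃ P : Polynomial ℂ, P = ∑ i : Fin n, C (c i) * X ^ (i : ℕ) := ⟨_, rfl⟩
  have h1 : ∀ z : ℂ, (pol v.2).eval z ≠ 0 → P.eval z = 0 := by
    intro z hz
    have h2 : ∀ i : Fin n, c i * V i (gg (pol v.1) (pol v.2) z) =
        Pool.Agent.H61.TT.dg (pol v.1) (pol v.2) z * (c i * V i z) + (c i * z ^ (i : ℕ)) / (pol v.2).eval z ^ 2 := by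
      intro i
      rw [(hV i).2.1 z hz, eval_pow, eval_X]
      ring
    have h3 := hc (gg (pol v.1) (pol v.2) z)
    rw [Finset.sum_congr rfl fun i _ => h2 i, Finset.sum_add_distrib, ← Finset.mul_sum, hc z, mul_zero, zero_add,
      ← Finset.sum_div, div_eq_zero_iff] at h3
    rw [hP, eval_finsetSum]
    rw [Finset.sum_congr rfl fun i _ => by rw [eval_mul, eval_C, eval_pow, eval_X]]
    exact h3.resolve_right (pow_ne_zero 2 hz)
  have h2 : P = 0 := by
    have h3 : P * pol v.2 = 0 := by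
      refine Polynomial.funext fun z => ?_
      rw [eval_mul, eval_zero]
      by_cases hz : (pol v.2).eval z = 0
      · rw [hz, mul_zero]
      · rw [h1 z hz, zero_mul]
    exact (mul_eq_zero.1 h3).resolve_right hb
  funext i
  have h3 : P.coeff (i : ℕ) = c i := by
    rw [hP, finsetSum_coeff]
    rw [Finset.sum_eq_single i]
    · rw [coeff_C_mul, coeff_X_pow, if_pos rfl, mul_one]
    · intro j _ hj
      rw [coeff_C_mul, coeff_X_pow, if_neg, mul_zero]
      exact fun h => hj (Fin.ext h.symm)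
    · intro h
      exact absurd (Finset.mem_univ i) h
  rw [← h3, h2, coeff_zero, Pi.zero_apply]

theorem fxs (hd : 2 ≤ d) (hcop : IsCoprime (pol v.1) (pol v.2)) (hdeg : max (pol v.1).natDegree (pol v.2).natDegree = d)
    (hup : ¬ Up v) (hJ : JS (Rf v) = univ) (h0 : Rf v ((0 : ℂ) : OnePoint ℂ) = ((0 : ℂ) : OnePoint ℂ))
    (h1 : Rf v ((1 : ℂ) : OnePoint ℂ) = ((1 : ℂ) : OnePoint ℂ)) (hi : Rf v OnePoint.infty = OnePoint.infty)
    {q : ℂ} {N : ℕ} {g : ℂ → ℂ} {U : Set ℂ} (hU : IsOpen U) (hg : DifferentiableOn ℂ g U)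
    (he : ∀ w ∈ U, (Rf v)^[N] (em q w) = em q (g w)) :
    ∃ (E : Set ℂ) (Y h μ : Fin (2 * d + 1) → ℂ → ℂ) (i0 : Fin (2 * d + 1)) (b0 : ℝ), SFX g U E (2 * d + 1) Y h μ i0 b0 := by
  have hbn : pol v.2 ≠ 0 := by
    intro hb
    rw [hb, isCoprime_zero_right] at hcop
    rw [hb, natDegree_zero, natDegree_eq_zero_of_isUnit hcop] at hdeg
    simp at hdeg
    omega
  obtain ⟨V, hV⟩ : ∃ V : Fin (2 * d + 1) → ℂ → ℂ, ∀ i : Fin (2 * d + 1), VelP (pol v.1) (pol v.2) (X ^ (i : ℕ)) (V i) := by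
    have h2 : ∀ i : Fin (2 * d + 1), ∃ V : ℂ → ℂ, VelP (pol v.1) (pol v.2) (X ^ (i : ℕ)) V := fun i =>
      vel_s hd hcop hdeg hup hJ h0 h1 hi ((natDegree_X_pow_le _).trans (by have := i.2; omega))
    choose V hV using h2
    exact ⟨V, hV⟩
  -- growth
  obtain ⟨C1, hC1⟩ : ∃ C : ℝ, ∀ i z, ‖V i z‖ ≤ C * (1 + ‖z‖ ^ 2) := by
    choose B hB using fun i => (hV i).2.2.2
    refine ⟨∑ i, |B i|, fun i z => (hB i z).trans ?_⟩
    have h2 : B i ≤ ∑ i, |B i| := (le_abs_self _).trans (Finset.single_le_sum (f := fun i => |B i|)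
      (fun j _ => abs_nonneg _) (Finset.mem_univ i))
    have h3 : (0 : ℝ) ≤ 1 + ‖z‖ ^ 2 := by positivity
    exact mul_le_mul_of_nonneg_right h2 h3
  have hne : ∃ i, ¬ Differentiable ℂ (V i) := by
    obtain ⟨c, -, hc⟩ := sdm hC1 (by omega) (fun c hc => v_inj hbn hV hc) 0
    by_contra hcon
    push Not at hcon
    exact hc (Differentiable.fun_sum fun i _ => (hcon i).const_mul _)
  obtain ⟨C, μ, E, i0, b0, hC, hb, hb0, hE, hqE, hp, hlb, hT⟩ := smu (fun i => (hV i).1) (fun i => (hV i).2.2.1) q hne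
  have hY1 : ∀ i, ∃ Y : ℂ → ℂ, Continuous Y ∧ (∀ w : ℂ, w ≠ 0 → Y w = -(w ^ 2 * V i (q + 1 / w))) ∧
      ∃ C : ℝ, ∀ w : ℂ, ‖Y w‖ ≤ C * (1 + ‖w‖ ^ 2) := by
    intro i
    obtain ⟨l, hl⟩ := scn hd hcop hdeg hup hJ hi ((natDegree_X_pow_le _).trans (by have := i.2; omega)) (hV i)
    exact yex (hV i).1 hl q
  choose Y hYc hYV CY hCY using hY1
  obtain ⟨E', μ', hE', hp', hμ', hT'⟩ := str hE hqE hp hb hYV hT
  have hC0 : 0 < C := by linarith
  have hC0' : (C : ℂ) ≠ 0 := by exact_mod_cast hC0.ne'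
  obtain ⟨h, hh⟩ : ∃ h : Fin (2 * d + 1) → ℂ → ℂ, h = fun i w => Y i (g w) - deriv g w * Y i w := ⟨_, rfl⟩
  have hhd : ∀ i, DifferentiableOn ℂ (h i) U := by
    intro i
    rw [hh]
    exact shl hd hcop hdeg (hV i) (hYc i) (hYV i) hU hg he
  refine ⟨E', fun i w => Y i w / C, fun i w => h i w / C, fun i w => μ' i w / C, i0, b0 / C, ?_⟩
  have hYinj : ∀ c : Fin (2 * d + 1) → ℂ, (∀ z, ∑ i, c i * (Y i z / C) = 0) → c = 0 := by
    intro c hc
    refine v_inj hbn hV (c := c) ?_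
    have h2 : ∀ z : ℂ, z ≠ q → ∑ i, c i * V i z = 0 := by
      intro z hz
      have h3 : z - q ≠ 0 := sub_ne_zero.2 hz
      have h4 : (1 / (z - q) : ℂ) ≠ 0 := one_div_ne_zero h3
      have h5 := hc (1 / (z - q))
      have h6 : ∀ i, c i * (Y i (1 / (z - q)) / C) = -(1 / (z - q)) ^ 2 / C * (c i * V i z) := by
        intro i
        rw [hYV i _ h4, one_div_one_div, add_sub_cancel]
        ring
      rw [Finset.sum_congr rfl fun i _ => h6 i, ← Finset.mul_sum] at h5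
      refine (mul_eq_zero.1 h5).resolve_left ?_
      exact div_ne_zero (neg_ne_zero.2 (pow_ne_zero 2 h4)) hC0'
    have h3 : Continuous fun z => ∑ i, c i * V i z := continuous_finsetSum _ fun i _ => continuous_const.mul (hV i).1
    have h4 : Dense ({q}ᶜ : Set ℂ) := dense_compl_singleton q
    exact fun z => congrFun (h3.ext_on h4 continuous_const fun z hz => h2 z hz) z
  refine ⟨by positivity, fun i => (hYc i).div_const _, fun i => (hhd i).div_const _, ?_, hE', hp', ?_, ?_, ?_, ?_⟩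
  · intro i w hw
    show Y i (g w) / C = deriv g w * (Y i w / C) + h i w / C
    rw [hh]
    show Y i (g w) / C = deriv g w * (Y i w / C) + (Y i (g w) - deriv g w * Y i w) / C
    ring
  · intro i w hw
    show ‖μ' i w / C‖ ≤ 1
    rw [norm_div, Complex.norm_real, Real.norm_of_nonneg hC0.le, div_le_one hC0, (hμ' i w hw).2]
    exact hb i _
  · intro w hw
    show b0 / C ≤ ‖μ' i0 w / C‖
    rw [norm_div, Complex.norm_real, Real.norm_of_nonneg hC0.le, (hμ' i0 w hw).2]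
    exact div_le_div_of_nonneg_right (hlb _ (hμ' i0 w hw).1) hC0.le
  · intro ε hε
    obtain ⟨ρ, hρ, h2⟩ := hT' (ε * C) (by positivity)
    refine ⟨ρ, hρ, fun i w hw r hr hrρ => ?_⟩
    obtain ⟨H, hH, h3⟩ := h2 i w hw r hr hrρ
    refine ⟨fun u => H u / C, hH.div_const _, fun u hu => ?_⟩
    have h4 : Y i u / C - μ' i w / C * (starRingEnd ℂ) (u - w) - H u / C =
      (Y i u - μ' i w * (starRingEnd ℂ) (u - w) - H u) / C := by ring
    rw [h4, norm_div, Complex.norm_real, Real.norm_of_nonneg hC0.le, div_le_iff₀ hC0]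
    have := h3 u hu
    nlinarith
  · intro β
    refine sdm (C := ∑ i, |CY i|) ?_ (by omega) hYinj β
    intro i w
    rw [norm_div, Complex.norm_real, Real.norm_of_nonneg hC0.le, div_le_iff₀ hC0]
    have h2 : CY i ≤ ∑ i, |CY i| := (le_abs_self _).trans (Finset.single_le_sum (f := fun i => |CY i|)
      (fun j _ => abs_nonneg _) (Finset.mem_univ i))
    have h3 : (0 : ℝ) ≤ 1 + ‖w‖ ^ 2 := by positivity
    have h4 : 0 ≤ ∑ i, |CY i| := Finset.sum_nonneg fun i _ => abs_nonneg _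
    calc ‖Y i w‖ ≤ CY i * (1 + ‖w‖ ^ 2) := hCY i w
      _ ≤ (∑ i, |CY i|) * (1 + ‖w‖ ^ 2) := mul_le_mul_of_nonneg_right h2 h3
      _ ≤ (∑ i, |CY i|) * (1 + ‖w‖ ^ 2) * C := le_mul_of_one_le_right (by positivity) hC

end Pool.Agent.H66.IL
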