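import Pool.Agent.H66.IL.AK

/-!
# [H66 IL AC] UD, chapter ILF: the composition with a map `K → interior K` is a compact operator of `AK K`

PROOF. `ak_cmp`. The operator: `g ↦ ez g ∘ F` is continuous on `K` (`F` is continuous on `K` with values in `interior K`, where `ez g` is continuous) and holomorphic on `interior K` (chain rule, `F (interior K) ⊆ interior K`), linear, of norm `≤ 1` (`ez_le`): `ak_of`, `LinearMap.mkContinuous`.
Compact: it is enough (`isCompactOperator_iff_isCompact_closure_image_closedBall` or the variants, `𝕜 = ℂ`) that the image of the closed unit ball has compact closure in `AK K`; `AK K` is closed in `C(K, ℂ)` (`ak_closed`), so it is enough to work in `C(K, ℂ)` (`IsClosedEmbedding`, or `IsCompactOperator` of the composition with the inclusion and `IsCompactOperator.codRestrict`).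
ARZELA-ASCOLI: `ContinuousMap` version (`ArzelaAscoli`: `ContinuousMap.isCompact_of_equicontinuous`, `ArzelaAscoli.isCompact_closure_of_isClosedEmbedding`..) or `BoundedContinuousFunction.arzela_ascoli` via `ContinuousMap.equivBoundedOfCompact`. Values in `closedBall 0 1`. EQUICONTINUOUS: `F '' K` is compact in the open set `interior K`:
`δ > 0` with `closedBall (F z) (2 δ) ⊆ interior K` for all `z ∈ K`; Cauchy: `‖deriv (ez g) w‖ ≤ ‖g‖ / δ` for `w ∈ ball (F z) δ` (`Complex.norm_deriv_le_of_forall_mem_sphere_norm_le`), so `‖ez g (F z) - ez g (F z')‖ ≤ ‖F z - F z'‖ / δ` if `‖F z - F z'‖ < δ` (mean value inequality on the ball `ball (F z) δ`, convex); `F` is uniformly continuous on `K`.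
-/

set_option autoImplicit false

open Filter Topology Polynomial Metric Set

namespace Pool.Agent.H66.IL

variable {K : Set ℂ} [CompactSpace K]

theorem ak_cmp {F : ℂ → ℂ} (hF : ContinuousOn F K) (hFd : DifferentiableOn ℂ F (interior K))
    (hFm : ∀ z ∈ K, F z ∈ interior K) : ∃ L : AK K →L[ℂ] AK K, IsCompactOperator L ∧ ∀ g : AK K, ∀ z ∈ K,
    ez (L g : C(K, ℂ)) z = ez (g : C(K, ℂ)) (F z) := by
  obtain ⟨L, hL⟩ := ak_op (K := K) (C := 1) (fun g z => ez (g : C(K, ℂ)) (F z))
    (fun g => ContinuousOn.comp (ez_cont (g : C(K, ℂ))) hF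
      fun z hz => interior_subset (hFm z hz))
    (fun g => DifferentiableOn.comp (t := interior K) g.2 hFd fun z hz => hFm z (interior_subset hz))
    (fun f g z _ => by
      show ez ((f : C(K, ℂ)) + (g : C(K, ℂ))) (F z) = _
      rw [ez_add])
    (fun c g z _ => by
      show ez (c • (g : C(K, ℂ))) (F z) = _
      rw [ez_smul])
    zero_le_one (fun g z _ => by
      rw [one_mul]
      exact ez_le _ _)
  refine ⟨L, ?_, hL⟩
  have hKc : IsCompact K := isCompact_iff_compactSpace.2 inferInstance
  obtain ⟨δ, hδ, hδK⟩ := (hKc.image_of_continuousOn hF).exists_cthickening_subset_open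
    isOpen_interior (by
      rintro _ ⟨z, hz, rfl⟩
      exact hFm z hz)
  have hball : ∀ z ∈ K, closedBall (F z) δ ⊆ interior K := fun z hz =>
    (closedBall_subset_cthickening (mem_image_of_mem F hz) δ).trans hδK
  let A' : Set (BoundedContinuousFunction K ℂ) := {φ | (∀ x, ‖φ x‖ ≤ 1) ∧ ∀ x y : K,
    ‖F y - F x‖ < δ / 2 → ‖φ y - φ x‖ ≤ 1 / (δ / 2) * ‖F y - F x‖}
  have hA' : IsCompact A' := by
    refine BoundedContinuousFunction.arzela_ascoli₂ (closedBall (0 : ℂ) 1)
      (isCompact_closedBall 0 1) A' ?_ (fun φ x hφ => by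
        rw [mem_closedBall_zero_iff]
        exact hφ.1 x) ?_
    · have e : A' = (⋂ x : K, {φ : BoundedContinuousFunction K ℂ | ‖φ x‖ ≤ 1}) ∩
          ⋂ x : K, ⋂ y : K, {φ : BoundedContinuousFunction K ℂ |
            ‖F y - F x‖ < δ / 2 → ‖φ y - φ x‖ ≤ 1 / (δ / 2) * ‖F y - F x‖} := by
        ext φ
        simp only [A', mem_inter_iff, mem_iInter, mem_ofPred_eq]
      rw [e]
      refine IsClosed.inter (isClosed_iInter fun x => ?_)
        (isClosed_iInter fun x => isClosed_iInter fun y => ?_)
      · exact isClosed_le (continuous_norm.comp (continuous_eval_const (F := BoundedContinuousFunction K ℂ) x))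
          continuous_const
      · by_cases h : ‖F y - F x‖ < δ / 2
        · have e2 : {φ : BoundedContinuousFunction K ℂ |
              ‖F y - F x‖ < δ / 2 → ‖φ y - φ x‖ ≤ 1 / (δ / 2) * ‖F y - F x‖} =
              {φ | ‖φ y - φ x‖ ≤ 1 / (δ / 2) * ‖F y - F x‖} := by
            ext φ
            simp only [mem_ofPred_eq, h, forall_const]
          rw [e2]
          exact isClosed_le (continuous_norm.comp
            ((continuous_eval_const (F := BoundedContinuousFunction K ℂ) y).sub
              (continuous_eval_const (F := BoundedContinuousFunction K ℂ) x))) continuous_const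
        · have e2 : {φ : BoundedContinuousFunction K ℂ |
              ‖F y - F x‖ < δ / 2 → ‖φ y - φ x‖ ≤ 1 / (δ / 2) * ‖F y - F x‖} = univ := by
            ext φ
            simp only [mem_ofPred_eq, h, false_imp_iff, mem_univ]
          rw [e2]
          exact isClosed_univ
    · intro x
      rw [Metric.equicontinuousAt_iff]
      intro ε hε
      have hFx : ContinuousAt (fun y : K => F y) x :=
        (continuousOn_iff_continuous_domRestrict.1 hF).continuousAt
      obtain ⟨η, hη, hη2⟩ := Metric.continuousAt_iff.1 hFx (min (δ / 2) (ε * (δ / 2)))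
        (lt_min (by positivity) (by positivity))
      refine ⟨η, hη, fun y hy φ => ?_⟩
      have h1 := hη2 hy
      rw [dist_eq_norm] at h1
      have h2 := φ.2.2 x y (lt_of_lt_of_le h1 (min_le_left _ _))
      have h3 := lt_of_lt_of_le h1 (min_le_right _ _)
      rw [dist_comm, dist_eq_norm]
      refine lt_of_le_of_lt h2 ?_
      rw [one_div, inv_mul_lt_iff₀ (by positivity)]
      linarith
  let e := ContinuousMap.isometryEquivBoundedOfCompact K ℂ
  have hA : IsCompact (e ⁻¹' A') := e.toHomeomorph.isCompact_preimage.2 hA'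
  have hcl : Topology.IsClosedEmbedding (fun g : AK K => (g : C(K, ℂ))) :=
    (ak_closed (K := K)).isClosedEmbedding_subtypeVal
  refine ⟨(fun g : AK K => (g : C(K, ℂ))) ⁻¹' (e ⁻¹' A'), hcl.isCompact_preimage hA, ?_⟩
  refine Filter.mem_of_superset (closedBall_mem_nhds (0 : AK K) one_pos) fun g hg => ?_
  rw [mem_closedBall_zero_iff] at hg
  have hg' : ∀ w, ‖ez (g : C(K, ℂ)) w‖ ≤ 1 := fun w => (ez_le _ w).trans hg
  refine ⟨fun x => ?_, fun x y hxy => ?_⟩
  · show ‖(L g : C(K, ℂ)) x‖ ≤ 1
    rw [← ez_apply (L g : C(K, ℂ)) x.2, hL g x x.2]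
    exact hg' _
  · show ‖(L g : C(K, ℂ)) y - (L g : C(K, ℂ)) x‖ ≤ _
    rw [← ez_apply (L g : C(K, ℂ)) x.2, hL g x x.2, ← ez_apply (L g : C(K, ℂ)) y.2, hL g y y.2]
    refine Convex.norm_image_sub_le_of_norm_deriv_le (𝕜 := ℂ)
      (f := ez (g : C(K, ℂ))) (s := ball (F x) (δ / 2)) (C := 1 / (δ / 2)) (x := F x) (y := F y)
      (fun w hw => ?_) (fun w hw => ?_) (convex_ball _ _) (mem_ball_self (by positivity))
      (by rwa [mem_ball, dist_eq_norm])
    · exact (g.2 : DifferentiableOn ℂ (ez (g : C(K, ℂ))) (interior K)).differentiableAt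
        (isOpen_interior.mem_nhds (hball x x.2 (ball_subset_closedBall
          (ball_subset_ball (by linarith) hw))))
    · have hsub : closedBall w (δ / 2) ⊆ interior K := by
        intro u hu
        refine hball x x.2 ?_
        rw [mem_ball] at hw
        rw [mem_closedBall] at hu ⊢
        have := dist_triangle u w (F x)
        linarith
      exact Complex.norm_deriv_le_of_forall_mem_sphere_norm_le (by positivity)
        ((g.2 : DifferentiableOn ℂ (ez (g : C(K, ℂ))) (interior K)).diffContOnCl_ball hsub)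
        fun u _ => hg' u

end Pool.Agent.H66.IL
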