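import Mathlib

/-!
# [H66 IL AK] UD, chapter ILF: the Banach space of the functions which are continuous on `K` and holomorphic in its interior

`ez g`: extension of `g : C(K, ℂ)` by zero. `AK K`: the functions `g : C(K, ℂ)` with `ez g` holomorphic on `interior K`.
PROOFS. `AK`: on `K` the map `g ↦ ez g z` is linear. `ak_closed`: a limit in `C(K, ℂ)` is a uniform limit on `K`: `TendstoLocallyUniformlyOn.differentiableOn` on `interior K`; so `AK K` is complete (`IsClosed.completeSpace_coe`).
`ak_mul`: multiplication by a polynomial (`LinearMap.mkContinuous`; the norm of `R` on `K` is bounded). `ak_inv`: division by a polynomial `S` without zeros on `K` (bounded below on the compact set `K`).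
`ak_pol`: polynomials are in `AK K`. `ak_div`: for `c ∈ interior K` and `g ∈ AK K` the function `z ↦ (g z - g c) / (z - c)` (value `g' c` at `c`) is in `AK K` (`dslope (ez g) c`, differentiable on `interior K`: `DifferentiableOn` of `dslope` (`Complex.differentiableOn_dslope`);
continuous on `K`: away from `c` clear, at `c ∈ interior K` differentiable). It is linear in `g`; bounded: closed graph (`LinearMap.continuous_of_isClosed_graph` or `LinearMap.continuous_of_seq_closed_graph`: if `g k → g` and `D (g k) → h` then `h z = D g z` for `z ≠ c`, and for `z = c` by continuity, since `c` is an interior point of `K`), or directly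
by the maximum principle.
-/

set_option autoImplicit false

open Filter Topology Polynomial Metric Set

namespace Pool.Agent.H66.IL

open Classical in
/-- extension by zero -/
noncomputable def ez {K : Set ℂ} (g : C(K, ℂ)) (z : ℂ) : ℂ := if h : z ∈ K then g ⟨z, h⟩ else 0

theorem ez_add {K : Set ℂ} (f g : C(K, ℂ)) : ez (f + g) = fun z => ez f z + ez g z := by
  funext z
  unfold ez
  by_cases h : z ∈ K
  · simp [h]
  · simp [h]

theorem ez_smul {K : Set ℂ} (c : ℂ) (g : C(K, ℂ)) : ez (c • g) = fun z => c * ez g z := by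
  funext z
  unfold ez
  by_cases h : z ∈ K
  · simp [h]
  · simp [h]

theorem ez_zero {K : Set ℂ} : ez (0 : C(K, ℂ)) = fun _ => 0 := by
  funext z
  unfold ez
  by_cases h : z ∈ K
  · simp [h]
  · simp [h]

/-- continuous on `K`, holomorphic in the interior -/
noncomputable def AK (K : Set ℂ) : Submodule ℂ C(K, ℂ) where
  carrier := {g | DifferentiableOn ℂ (ez g) (interior K)}
  add_mem' := fun {f g} hf hg => by
    show DifferentiableOn ℂ (ez (f + g)) (interior K)
    rw [ez_add]
    exact hf.add hg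
  zero_mem' := by
    show DifferentiableOn ℂ (ez (0 : C(K, ℂ))) (interior K)
    rw [ez_zero]
    exact differentiableOn_const 0
  smul_mem' := fun c g hg => by
    show DifferentiableOn ℂ (ez (c • g)) (interior K)
    rw [ez_smul]
    exact hg.const_mul c

theorem ez_apply {K : Set ℂ} (g : C(K, ℂ)) {z : ℂ} (h : z ∈ K) : ez g z = g ⟨z, h⟩ := by
  unfold ez
  rw [dif_pos h]

variable {K : Set ℂ} [CompactSpace K]

theorem ez_cont (g : C(K, ℂ)) : ContinuousOn (ez g) K := by
  rw [continuousOn_iff_continuous_domRestrict]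
  have h : K.domRestrict (ez g) = g := by
    funext z
    rw [Set.domRestrict_apply, ez_apply g z.2]
  rw [h]
  exact g.continuous

theorem ez_le (g : C(K, ℂ)) (z : ℂ) : ‖ez g z‖ ≤ ‖g‖ := by
  by_cases h : z ∈ K
  · rw [ez_apply g h]
    exact g.norm_coe_le_norm _
  · unfold ez
    rw [dif_neg h, norm_zero]
    exact norm_nonneg _

theorem ez_ext {f g : C(K, ℂ)} (h : ∀ z ∈ K, ez f z = ez g z) : f = g := by
  refine ContinuousMap.ext fun z => ?_
  have h1 := h z z.2
  rwa [ez_apply f z.2, ez_apply g z.2] at h1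

/-- a function in `AK K` -/
theorem ak_of {h : ℂ → ℂ} (hc : ContinuousOn h K) (hd : DifferentiableOn ℂ h (interior K)) :
    ∃ g : AK K, ∀ z ∈ K, ez (g : C(K, ℂ)) z = h z := by
  let g₀ : C(K, ℂ) := ⟨K.domRestrict h, hc.domRestrict⟩
  have h1 : ∀ z ∈ K, ez g₀ z = h z := fun z hz => ez_apply g₀ hz
  exact ⟨⟨g₀, hd.congr fun z hz => h1 z (interior_subset hz)⟩, h1⟩

private theorem ds_ne {f : ℂ → ℂ} {c z : ℂ} (h : z ≠ c) :
    dslope f c z = (f z - f c) / (z - c) := by
  rw [dslope_of_ne _ h, slope_def_field]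

/-- bounded operators of `AK K` -/
theorem ak_op (T : AK K → ℂ → ℂ) (hc : ∀ g, ContinuousOn (T g) K)
    (hd : ∀ g, DifferentiableOn ℂ (T g) (interior K))
    (hadd : ∀ f g, ∀ z ∈ K, T (f + g) z = T f z + T g z)
    (hsmul : ∀ (c : ℂ) (g : AK K), ∀ z ∈ K, T (c • g) z = c * T g z) {C : ℝ} (hC : 0 ≤ C)
    (hb : ∀ g, ∀ z ∈ K, ‖T g z‖ ≤ C * ‖g‖) : ∃ M : AK K →L[ℂ] AK K, ∀ g : AK K, ∀ z ∈ K,
    ez (M g : C(K, ℂ)) z = T g z := by
  choose m hm using fun g => ak_of (hc g) (hd g)
  let M₀ : AK K →ₗ[ℂ] AK K :=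
    { toFun := m
      map_add' := fun f g => by
        refine Subtype.ext (ez_ext fun z hz => ?_)
        show ez (m (f + g) : C(K, ℂ)) z = ez ((m f : C(K, ℂ)) + (m g : C(K, ℂ))) z
        rw [ez_add, hm _ z hz, hadd f g z hz]
        show _ = ez (m f : C(K, ℂ)) z + ez (m g : C(K, ℂ)) z
        rw [hm _ z hz, hm _ z hz]
      map_smul' := fun c g => by
        refine Subtype.ext (ez_ext fun z hz => ?_)
        show ez (m (c • g) : C(K, ℂ)) z = ez (c • (m g : C(K, ℂ))) z
        rw [ez_smul, hm _ z hz, hsmul c g z hz]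
        show _ = c * ez (m g : C(K, ℂ)) z
        rw [hm _ z hz] }
  refine ⟨M₀.mkContinuous C fun g => ?_, fun g z hz => hm g z hz⟩
  show ‖(m g : C(K, ℂ))‖ ≤ C * ‖g‖
  rw [ContinuousMap.norm_le _ (mul_nonneg hC (norm_nonneg _))]
  intro z
  have h1 := hb g z z.2
  rw [← hm g z z.2, ez_apply _ z.2] at h1
  exact h1

theorem ak_closed : IsClosed (AK K : Set C(K, ℂ)) := by
  refine IsSeqClosed.isClosed fun g f hg hf => ?_
  have h1 : TendstoUniformlyOn (fun n => ez (g n)) (ez f) atTop (interior K) := by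
    rw [Metric.tendstoUniformlyOn_iff]
    intro ε hε
    have h2 := Metric.tendsto_atTop.1 hf ε hε
    obtain ⟨N, hN⟩ := h2
    filter_upwards [eventually_ge_atTop N] with n hn z hz
    have h3 := ez_le (f - g n) z
    have h4 : ez (f - g n) z = ez f z - ez (g n) z := by
      rw [ez_apply _ (interior_subset hz), ez_apply _ (interior_subset hz),
        ez_apply _ (interior_subset hz)]
      rfl
    rw [h4] at h3
    rw [dist_eq_norm]
    refine lt_of_le_of_lt h3 ?_
    rw [← dist_eq_norm, dist_comm]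
    exact hN n hn
  exact h1.tendstoLocallyUniformlyOn.differentiableOn (Eventually.of_forall fun n => hg n)
    isOpen_interior

theorem ak_mul (R : Polynomial ℂ) : ∃ M : AK K →L[ℂ] AK K, ∀ g : AK K, ∀ z ∈ K,
    ez (M g : C(K, ℂ)) z = R.eval z * ez (g : C(K, ℂ)) z := by
  obtain ⟨C, hC⟩ := (isCompact_iff_compactSpace.2 inferInstance : IsCompact K).exists_bound_of_continuousOn
    (f := fun z => R.eval z) R.continuous.continuousOn
  refine ak_op (K := K) (C := max 0 C) (fun g z => R.eval z * ez (g : C(K, ℂ)) z)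
    (fun g => R.continuous.continuousOn.mul (ez_cont (g : C(K, ℂ))))
    (fun g => R.differentiable.differentiableOn.mul g.2) (fun f g z _ => ?_) (fun c g z _ => ?_)
    (le_max_left 0 C) (fun g z hz => ?_)
  · show R.eval z * ez ((f : C(K, ℂ)) + (g : C(K, ℂ))) z = _
    rw [ez_add]
    ring
  · show R.eval z * ez (c • (g : C(K, ℂ))) z = _
    rw [ez_smul]
    ring
  · rw [norm_mul]
    exact mul_le_mul ((hC z hz).trans (le_max_right _ _)) (ez_le _ _) (norm_nonneg _)
      (le_max_left 0 C)

theorem ak_inv (S : Polynomial ℂ) (hS : ∀ z ∈ K, S.eval z ≠ 0) : ∃ M : AK K →L[ℂ] AK K, ∀ g : AK K, ∀ z ∈ K,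
    S.eval z * ez (M g : C(K, ℂ)) z = ez (g : C(K, ℂ)) z := by
  have hc : ContinuousOn (fun z => (S.eval z)⁻¹) K :=
    S.continuous.continuousOn.inv₀ hS
  obtain ⟨C, hC⟩ := (isCompact_iff_compactSpace.2 inferInstance : IsCompact K).exists_bound_of_continuousOn hc
  obtain ⟨M, hM⟩ := ak_op (K := K) (fun g z => (S.eval z)⁻¹ * ez (g : C(K, ℂ)) z)
    (fun g => hc.mul (ez_cont _))
    (fun g => (S.differentiable.differentiableOn.inv fun z hz => hS z (interior_subset hz)).mul g.2)
    (fun f g z _ => by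
      show (S.eval z)⁻¹ * ez ((f : C(K, ℂ)) + (g : C(K, ℂ))) z = _
      rw [ez_add]
      ring) (fun c g z _ => by
      show (S.eval z)⁻¹ * ez (c • (g : C(K, ℂ))) z = _
      rw [ez_smul]
      ring)
    (le_max_left 0 C) (fun g z hz => by
      rw [norm_mul]
      exact mul_le_mul ((hC z hz).trans (le_max_right _ _)) (ez_le _ _) (norm_nonneg _)
        (le_max_left 0 C))
  refine ⟨M, fun g z hz => ?_⟩
  rw [hM g z hz, mul_inv_cancel_left₀ (hS z hz)]

theorem ak_div {c : ℂ} (hc : c ∈ interior K) : ∃ D : AK K →L[ℂ] AK K, ∀ g : AK K, ∀ z ∈ K,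
    ez (g : C(K, ℂ)) z = (z - c) * ez (D g : C(K, ℂ)) z + ez (g : C(K, ℂ)) c := by
  have hK : interior K ∈ 𝓝 c := isOpen_interior.mem_nhds hc
  have e1 : ∀ r t : ℝ, 0 < r → t / (r / 4) = 4 / r * t := fun r t hr => by
    field_simp
  have e2 : ∀ r t : ℝ, 0 < r → 4 / r * t * (r / 2) = 2 * t := fun r t hr => by
    field_simp
    ring
  obtain ⟨r, hr, hrK⟩ := Metric.isOpen_iff.1 isOpen_interior c hc
  have hd : ∀ g : AK K, DifferentiableAt ℂ (ez (g : C(K, ℂ))) c := fun g =>
    (g.2 : DifferentiableOn ℂ (ez (g : C(K, ℂ))) (interior K)).differentiableAt hK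
  have hder : ∀ (g : AK K) (w : ℂ), w ∈ ball c (r / 2) →
      ‖deriv (ez (g : C(K, ℂ))) w‖ ≤ ‖g‖ / (r / 4) := by
    intro g w hw
    have hsub : closedBall w (r / 4) ⊆ interior K := by
      intro u hu
      refine hrK ?_
      rw [mem_ball] at hw ⊢
      rw [mem_closedBall] at hu
      have := dist_triangle u w c
      linarith
    refine Complex.norm_deriv_le_of_forall_mem_sphere_norm_le (by positivity)
      ((g.2 : DifferentiableOn ℂ (ez (g : C(K, ℂ))) (interior K)).diffContOnCl_ball hsub) ?_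
    intro u _
    exact ez_le _ _
  obtain ⟨D, hD⟩ := ak_op (K := K) (C := 4 / r) (fun g z => dslope (ez (g : C(K, ℂ))) c z)
    (fun g => (continuousOn_dslope (mem_interior_iff_mem_nhds.1 hc)).2 ⟨ez_cont _, hd g⟩)
    (fun g => (Complex.differentiableOn_dslope hK).2 g.2)
    (fun f g z _ => by
      show dslope (ez ((f : C(K, ℂ)) + (g : C(K, ℂ)))) c z = _
      rw [ez_add]
      rcases eq_or_ne z c with rfl | hz
      · rw [dslope_same, dslope_same, dslope_same]
        exact deriv_fun_add (hd f) (hd g)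
      · rw [ds_ne hz, ds_ne hz, ds_ne hz]
        ring) (fun a g z _ => by
      show dslope (ez (a • (g : C(K, ℂ)))) c z = _
      rw [ez_smul]
      rcases eq_or_ne z c with rfl | hz
      · rw [dslope_same, dslope_same]
        exact deriv_const_mul a (hd g)
      · rw [ds_ne hz, ds_ne hz]
        ring)
    (by positivity) (fun g z hz => by
      rcases eq_or_ne z c with rfl | hzc
      · rw [dslope_same]
        exact (hder g z (mem_ball_self (by positivity))).trans (le_of_eq (e1 r _ hr))
      · rw [ds_ne hzc, norm_div]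
        have hzc' : 0 < ‖z - c‖ := norm_pos_iff.2 (sub_ne_zero.2 hzc)
        rw [div_le_iff₀ hzc']
        rcases lt_or_ge ‖z - c‖ (r / 2) with h1 | h1
        · have h2 := Convex.norm_image_sub_le_of_norm_deriv_le (𝕜 := ℂ)
            (f := ez (g : C(K, ℂ))) (s := ball c (r / 2)) (C := ‖g‖ / (r / 4)) (x := c) (y := z)
            (fun w hw => (g.2 : DifferentiableOn ℂ (ez (g : C(K, ℂ))) (interior K)).differentiableAt
              (isOpen_interior.mem_nhds (hrK (ball_subset_ball (by linarith) hw))))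
            (fun w hw => hder g w hw) (convex_ball c (r / 2)) (mem_ball_self (by positivity))
            (by rwa [mem_ball, dist_eq_norm])
          rw [e1 r _ hr] at h2
          exact h2
        · have h2 : ‖ez (g : C(K, ℂ)) z - ez (g : C(K, ℂ)) c‖ ≤ 2 * ‖g‖ := by
            refine (norm_sub_le _ _).trans ?_
            have h3 := ez_le (g : C(K, ℂ)) z
            have h4 := ez_le (g : C(K, ℂ)) c
            have h5 : ‖(g : C(K, ℂ))‖ = ‖g‖ := rfl
            linarith
          refine h2.trans ?_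
          have h6 : 4 / r * ‖g‖ * (r / 2) ≤ 4 / r * ‖g‖ * ‖z - c‖ :=
            mul_le_mul_of_nonneg_left h1 (by positivity)
          rw [e2 r _ hr] at h6
          exact h6)
  refine ⟨D, fun g z hz => ?_⟩
  rw [hD g z hz]
  have h1 := sub_smul_dslope (ez (g : C(K, ℂ))) c z
  rw [smul_eq_mul] at h1
  rw [h1]
  ring

end Pool.Agent.H66.IL
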