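import Pool.Agent.H66.IL.RI

/-!
# [H66 IL CT] UD, chapter ILF: the Cauchy transform

`Ct ν w = (1 / π) ∫ u, ν u / (w - u)`. `ct_le`: the rearrangement bound: if `ν = 0` outside `ball z (2 r)`, `‖ν‖ ≤ B` and `∫ ‖ν‖ ≤ η r ^ 2` then `‖Ct ν w‖ ≤ 8 (B + 1) √η r` (split at `‖w - u‖ < √η r`: `∫_(ball w s) 1 / ‖w - u‖ = 2 π s`; outside `1 / ‖w - u‖ ≤ 1 / (√η r)`). Polar coordinates or the library lemma on the integral of `1 / ‖w - u‖` over a ball
(search `Pool.Agent.H3.NC` L1N, `Pool.Agent.H66.UP.KI3`, `Pool.Agent.H61.TT`; `≤ 2 π s` is enough).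
`ct_cont`: `ν` bounded with bounded support: continuity (the kernel is locally integrable; or uniform limit: cut off the ball of radius `s` around `w`: the error is at most `2 B s` uniformly, and the cut off kernel `1 / max`-like `(w - u)‾ / max (‖w - u‖ ^ 2) (s ^ 2)` is continuous and bounded: dominated convergence).
`ct_ri`: Fubini (`1 / ‖w - u‖` is integrable on side × plane: for fixed `w` the integral over `u` is bounded) and `RI (fun w => 1 / (w - u)) z w' = 2 π I` for `u` in the interior of the rectangle, `= 0` for `u` outside (`ri_hol`), the boundary of the rectangle is a null set. For `u` in the interior: Mathlib's Cauchy formula for rectangles if there is one, or compare with a small square around `u`, or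
logarithms: on each side `1 / (w - u)` has the primitive `log` of a suitable branch; or: `RI (1 / (· - u))` does not depend on the rectangle around `u` (`ri_hol` on the differences), and for circles `circleIntegral.integral_sub_center_inv`.. Another way: by `ri_green` it is enough to know it in the weak sense (Cauchy-Pompeiu).
-/

set_option autoImplicit false

open Filter Topology Metric Set MeasureTheory

namespace Pool.Agent.H66.IL

private theorem k_int {s : ℝ} (hs : 0 < s) :
    Integrable (fun u : ℂ => if ‖u‖ < s then ‖u‖⁻¹ else 0) ∧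
      ∫ u : ℂ, (if ‖u‖ < s then ‖u‖⁻¹ else 0) = 2 * Real.pi * s := by
  have h1 : ∀ y ∈ Ioi (0 : ℝ), y * (if y < s then y⁻¹ else 0) = (Iio s).indicator (fun _ => (1 : ℝ)) y := by
    intro y hy
    have hy0 : 0 < y := hy
    by_cases h : y < s
    · rw [if_pos h, indicator_of_mem (show y ∈ Iio s from h)]
      field_simp
    · rw [if_neg h, indicator_of_notMem (show y ∉ Iio s from h), mul_zero]
  have hI : IntegrableOn (fun y : ℝ => y * (if y < s then y⁻¹ else 0)) (Ioi 0) := by
    refine IntegrableOn.congr_fun ?_ (fun y hy => (h1 y hy).symm) measurableSet_Ioi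
    rw [IntegrableOn, integrable_indicator_iff measurableSet_Iio, IntegrableOn, Measure.restrict_restrict measurableSet_Iio]
    have : Iio s ∩ Ioi 0 = Ioo 0 s := by
      ext y
      simp [and_comm]
    rw [this]
    exact integrable_const _
  have hint : Integrable (fun u : ℂ => if ‖u‖ < s then ‖u‖⁻¹ else 0) := by
    have := (integrable_fun_norm_addHaar (E := ℂ) (F := ℝ) volume (f := fun y => if y < s then y⁻¹ else 0)).2
      (by rw [Complex.finrank_real_complex]; simpa using hI)
    exact this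
  refine ⟨hint, ?_⟩
  have h3 := integral_fun_norm_addHaar (E := ℂ) (F := ℝ) volume (fun y => if y < s then y⁻¹ else 0)
  rw [Complex.finrank_real_complex] at h3
  have h2 : volume.real (ball (0 : ℂ) 1) = Real.pi := by
    simp [Measure.real, Complex.volume_ball]
  rw [h2] at h3
  simp only [Nat.add_one_sub_one, pow_one, smul_eq_mul, nsmul_eq_mul, Nat.cast_ofNat] at h3
  have h4 : ∫ y in Ioi (0 : ℝ), y * (if y < s then y⁻¹ else 0) = s := by
    rw [setIntegral_congr_fun measurableSet_Ioi h1, integral_indicator measurableSet_Iio,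
      Measure.restrict_restrict measurableSet_Iio]
    have : Iio s ∩ Ioi 0 = Ioo 0 s := by
      ext y
      simp [and_comm]
    rw [this]
    simp [hs.le]
  rw [h4] at h3
  rw [h3]
  ring

private theorem k_int' {s : ℝ} (hs : 0 < s) (w : ℂ) :
    Integrable (fun u : ℂ => if ‖w - u‖ < s then ‖w - u‖⁻¹ else 0) ∧
      ∫ u : ℂ, (if ‖w - u‖ < s then ‖w - u‖⁻¹ else 0) = 2 * Real.pi * s := by
  obtain ⟨h1, h2⟩ := k_int hs
  refine ⟨h1.comp_sub_left w, ?_⟩
  rw [← h2]
  exact integral_sub_left_eq_self (fun u : ℂ => if ‖u‖ < s then ‖u‖⁻¹ else 0) volume w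

private theorem nu_int {ν : ℂ → ℂ} (hm : Measurable ν) {z : ℂ} {R B : ℝ} (hB : ∀ u, ‖ν u‖ ≤ B)
    (h0 : ∀ u, u ∉ ball z R → ν u = 0) : Integrable ν := by
  have h1 : IntegrableOn ν (ball z R) := by
    refine Measure.integrableOn_of_bounded (M := B) measure_ball_lt_top.ne hm.aestronglyMeasurable ?_
    exact Eventually.of_forall hB
  rw [← integrableOn_univ]
  refine h1.of_forall_sdiff_eq_zero MeasurableSet.univ fun u hu => h0 u hu.2

private theorem k_bd {ν : ℂ → ℂ} {s B : ℝ} (hs : 0 < s) (hB : ∀ u, ‖ν u‖ ≤ B) (w u : ℂ) :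
    ‖ν u / (w - u)‖ ≤ B * (if ‖w - u‖ < s then ‖w - u‖⁻¹ else 0) + s⁻¹ * ‖ν u‖ := by
  rw [norm_div, div_eq_mul_inv]
  have h1 : 0 ≤ s⁻¹ * ‖ν u‖ := by positivity
  by_cases h : ‖w - u‖ < s
  · rw [if_pos h]
    have := mul_le_mul_of_nonneg_right (hB u) (inv_nonneg.2 (norm_nonneg (w - u)))
    linarith
  · rw [if_neg h, mul_zero, zero_add, mul_comm]
    push Not at h
    exact mul_le_mul_of_nonneg_right (inv_anti₀ hs h) (norm_nonneg _)

private theorem k_bd_int {ν : ℂ → ℂ} (hm : Measurable ν) {z : ℂ} {R B s : ℝ} (hs : 0 < s) (hB : ∀ u, ‖ν u‖ ≤ B)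
    (h0 : ∀ u, u ∉ ball z R → ν u = 0) (w : ℂ) :
    Integrable (fun u => B * (if ‖w - u‖ < s then ‖w - u‖⁻¹ else 0) + s⁻¹ * ‖ν u‖) ∧
      ∫ u, (B * (if ‖w - u‖ < s then ‖w - u‖⁻¹ else 0) + s⁻¹ * ‖ν u‖) =
        B * (2 * Real.pi * s) + s⁻¹ * ∫ u, ‖ν u‖ := by
  obtain ⟨h1, h2⟩ := k_int' hs w
  have h3 := (nu_int hm hB h0).norm
  refine ⟨(h1.const_mul B).add (h3.const_mul _), ?_⟩
  rw [integral_add (h1.const_mul B) (h3.const_mul _), integral_const_mul, integral_const_mul, h2]

/-- the Cauchy transform -/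
noncomputable def Ct (ν : ℂ → ℂ) (w : ℂ) : ℂ := (1 / (Real.pi : ℂ)) * ∫ u, ν u / (w - u)

theorem ct_le {ν : ℂ → ℂ} (hm : Measurable ν) {z w : ℂ} {r B η : ℝ} (hr : 0 < r) (hη : 0 < η) (hB : ∀ u, ‖ν u‖ ≤ B)
    (h0 : ∀ u, u ∉ ball z (2 * r) → ν u = 0) (hi : ∫ u in ball z (2 * r), ‖ν u‖ ≤ η * r ^ 2) :
    ‖Ct ν w‖ ≤ 8 * (B + 1) * √η * r := by
  have hs : 0 < √η * r := mul_pos (Real.sqrt_pos.2 hη) hr
  obtain ⟨h1, h2⟩ := k_bd_int hm hs hB h0 w
  have h3 := norm_integral_le_of_norm_le h1 (Eventually.of_forall fun u => k_bd hs hB w u)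
  rw [h2] at h3
  have h4 : ∫ u, ‖ν u‖ = ∫ u in ball z (2 * r), ‖ν u‖ := by
    rw [setIntegral_eq_integral_of_forall_compl_eq_zero]
    intro u hu
    rw [h0 u hu, norm_zero]
  rw [h4] at h3
  have h5 : (√η * r)⁻¹ * ∫ u in ball z (2 * r), ‖ν u‖ ≤ √η * r := by
    rw [inv_mul_le_iff₀ hs]
    refine hi.trans (le_of_eq ?_)
    have := Real.mul_self_sqrt hη.le
    nlinarith [this]
  have hB0 : 0 ≤ B := (norm_nonneg _).trans (hB 0)
  have hπ := Real.pi_gt_three
  have hπ0 : 0 < Real.pi := Real.pi_pos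
  unfold Ct
  rw [norm_mul, norm_div, norm_one, Complex.norm_real, Real.norm_of_nonneg hπ0.le, one_div, inv_mul_le_iff₀ hπ0]
  refine (h3.trans (add_le_add le_rfl h5)).trans ?_
  have h6 : 8 * (B + 1) * √η * r = 8 * (B + 1) * (√η * r) := by ring
  rw [h6]
  have h7 : 0 ≤ B * (√η * r) := mul_nonneg hB0 hs.le
  nlinarith [mul_nonneg h7 hπ0.le, mul_pos hs hπ0]

theorem ct_cont {ν : ℂ → ℂ} (hm : Measurable ν) {R B : ℝ} (hB : ∀ u, ‖ν u‖ ≤ B) (h0 : ∀ u, u ∉ ball 0 R → ν u = 0) :
    Continuous (Ct ν) := by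
  have hν := nu_int hm hB h0
  have hB0 : 0 ≤ B := (norm_nonneg _).trans (hB 0)
  have hπ0 : 0 < Real.pi := Real.pi_pos
  refine continuous_const.mul ?_
  refine continuous_of_uniform_approx_of_continuous fun V hV => ?_
  obtain ⟨ε, hε, hεV⟩ := Metric.mem_uniformity_dist.1 hV
  obtain ⟨s, hs, hsε⟩ : ∃ s : ℝ, 0 < s ∧ B * (2 * Real.pi * s) < ε := by
    refine ⟨ε / (2 * (B + 1) * (2 * Real.pi)), by positivity, ?_⟩
    have : B * (2 * Real.pi * (ε / (2 * (B + 1) * (2 * Real.pi)))) = ε * (B / (2 * (B + 1))) := by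
      field_simp
    rw [this]
    have h1 : B / (2 * (B + 1)) < 1 := by
      rw [div_lt_one (by positivity)]
      linarith
    nlinarith
  have hκ : Continuous fun v : ℂ => (starRingEnd ℂ) v / ((max (‖v‖ ^ 2) (s ^ 2) : ℝ) : ℂ) := by
    refine Continuous.div Complex.continuous_conj ?_ fun v => ?_
    · exact Complex.continuous_ofReal.comp ((continuous_norm.pow 2).max continuous_const)
    · have : 0 < max (‖v‖ ^ 2) (s ^ 2) := lt_max_of_lt_right (by positivity)
      exact_mod_cast this.ne'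
  have hκb : ∀ v : ℂ, ‖(starRingEnd ℂ) v / ((max (‖v‖ ^ 2) (s ^ 2) : ℝ) : ℂ)‖ ≤ s⁻¹ := by
    intro v
    have h1 : 0 < max (‖v‖ ^ 2) (s ^ 2) := lt_max_of_lt_right (by positivity)
    rw [norm_div, RCLike.norm_conj, Complex.norm_real, Real.norm_of_nonneg h1.le, div_le_iff₀ h1,
      inv_mul_eq_div, le_div_iff₀ hs]
    have h2 := le_max_left (‖v‖ ^ 2) (s ^ 2)
    have h3 := le_max_right (‖v‖ ^ 2) (s ^ 2)
    rcases le_total ‖v‖ s with h | h
    · nlinarith [norm_nonneg v]
    · nlinarith [norm_nonneg v]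
  refine ⟨fun w => ∫ u, ν u * ((starRingEnd ℂ) (w - u) / ((max (‖w - u‖ ^ 2) (s ^ 2) : ℝ) : ℂ)), ?_, fun w => ?_⟩
  · refine continuous_of_dominated (bound := fun u => ‖ν u‖ * s⁻¹) (fun w => ?_) (fun w => ?_) (hν.norm.mul_const _) ?_
    · exact (hm.mul ((hκ.comp (continuous_const.sub continuous_id)).measurable)).aestronglyMeasurable
    · refine Eventually.of_forall fun u => ?_
      rw [norm_mul]
      exact mul_le_mul_of_nonneg_left (hκb _) (norm_nonneg _)
    · refine Eventually.of_forall fun u => ?_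
      exact continuous_const.mul (hκ.comp (continuous_id.sub continuous_const))
  · apply hεV
    rw [dist_eq_norm]
    have hi1 : Integrable fun u => ν u / (w - u) := by
      refine (k_bd_int hm hs hB h0 w).1.mono' ?_ (Eventually.of_forall fun u => k_bd hs hB w u)
      exact (hm.div (measurable_const.sub measurable_id)).aestronglyMeasurable
    have hi2 : Integrable fun u => ν u * ((starRingEnd ℂ) (w - u) / ((max (‖w - u‖ ^ 2) (s ^ 2) : ℝ) : ℂ)) := by
      refine (hν.norm.mul_const s⁻¹).mono' ?_ (Eventually.of_forall fun u => ?_)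
      · exact (hm.mul ((hκ.comp (continuous_const.sub continuous_id)).measurable)).aestronglyMeasurable
      · rw [norm_mul]
        exact mul_le_mul_of_nonneg_left (hκb _) (norm_nonneg _)
    rw [← integral_sub hi1 hi2]
    obtain ⟨h1, h2⟩ := k_int' hs w
    refine lt_of_le_of_lt (norm_integral_le_of_norm_le (h1.const_mul B) (Eventually.of_forall fun u => ?_)) ?_
    · have e : ν u / (w - u) - ν u * ((starRingEnd ℂ) (w - u) / ((max (‖w - u‖ ^ 2) (s ^ 2) : ℝ) : ℂ)) =
          ν u * (1 / (w - u) - (starRingEnd ℂ) (w - u) / ((max (‖w - u‖ ^ 2) (s ^ 2) : ℝ) : ℂ)) := by ring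
      rw [e, norm_mul]
      refine mul_le_mul (hB u) ?_ (norm_nonneg _) hB0
      by_cases hv0 : w - u = 0
      · rw [hv0]
        simp [hs]
      by_cases h : ‖w - u‖ < s
      · rw [if_pos h]
        have hm' : max (‖w - u‖ ^ 2) (s ^ 2) = s ^ 2 :=
          max_eq_right (by nlinarith [norm_nonneg (w - u)])
        rw [hm']
        have e2 : 1 / (w - u) - (starRingEnd ℂ) (w - u) / ((s ^ 2 : ℝ) : ℂ) =
            (w - u)⁻¹ * (1 - ((‖w - u‖ ^ 2 / s ^ 2 : ℝ) : ℂ)) := by
          have h5 : (starRingEnd ℂ) (w - u) = (w - u)⁻¹ * ((‖w - u‖ ^ 2 : ℝ) : ℂ) := by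
            have h6 : (w - u) * (starRingEnd ℂ) (w - u) = ((‖w - u‖ ^ 2 : ℝ) : ℂ) := by
              rw [Complex.mul_conj, Complex.normSq_eq_norm_sq]
            rw [← h6]
            field_simp
          rw [h5]
          push_cast
          ring
        rw [e2, norm_mul, norm_inv]
        have h7 : ‖(1 : ℂ) - ((‖w - u‖ ^ 2 / s ^ 2 : ℝ) : ℂ)‖ ≤ 1 := by
          have h8 : (1 : ℂ) - ((‖w - u‖ ^ 2 / s ^ 2 : ℝ) : ℂ) = ((1 - ‖w - u‖ ^ 2 / s ^ 2 : ℝ) : ℂ) := by
            push_cast; ring
          rw [h8, Complex.norm_real, Real.norm_eq_abs, abs_le]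
          have h9 : ‖w - u‖ ^ 2 / s ^ 2 ≤ 1 := by
            rw [div_le_one (by positivity)]
            nlinarith [norm_nonneg (w - u)]
          have h10 : 0 ≤ ‖w - u‖ ^ 2 / s ^ 2 := by positivity
          constructor <;> linarith
        calc ‖w - u‖⁻¹ * ‖(1 : ℂ) - ((‖w - u‖ ^ 2 / s ^ 2 : ℝ) : ℂ)‖ ≤ ‖w - u‖⁻¹ * 1 :=
              mul_le_mul_of_nonneg_left h7 (by positivity)
          _ = ‖w - u‖⁻¹ := mul_one _
      · rw [if_neg h]
        push Not at h
        have hm' : max (‖w - u‖ ^ 2) (s ^ 2) = ‖w - u‖ ^ 2 :=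
          max_eq_left (by nlinarith [norm_nonneg (w - u)])
        rw [hm']
        have h6 : (w - u) * (starRingEnd ℂ) (w - u) = ((‖w - u‖ ^ 2 : ℝ) : ℂ) := by
          rw [Complex.mul_conj, Complex.normSq_eq_norm_sq]
        have h7 : (starRingEnd ℂ) (w - u) ≠ 0 := (map_ne_zero (starRingEnd ℂ)).2 hv0
        rw [← h6]
        have h8 : 1 / (w - u) - (starRingEnd ℂ) (w - u) / ((w - u) * (starRingEnd ℂ) (w - u)) = 0 := by
          field_simp
          ring
        rw [h8, norm_zero]
    · rw [integral_const_mul, h2]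
      exact hsε

/-- the winding number of a rectangle -/
theorem ri_inv {z w u : ℂ} (h1 : z.re < u.re) (h2 : u.re < w.re) (h3 : z.im < u.im) (h4 : u.im < w.im) :
    RI (fun v => 1 / (v - u)) z w = 2 * (Real.pi : ℂ) * Complex.I := by
  have seg : ∀ (p q : ℂ) (a b : ℝ), (∀ t ∈ uIcc a b, p + t * q ∈ Complex.slitPlane) →
      q * ∫ t in a..b, 1 / (p + t * q) = Complex.log (p + b * q) - Complex.log (p + a * q) := by
    intro p q a b h
    rw [← intervalIntegral.integral_const_mul]
    have hd : ∀ t ∈ uIcc a b, HasDerivAt (fun t : ℝ => Complex.log (p + t * q)) (q * (1 / (p + t * q))) t := by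
      intro t ht
      have h5 : HasDerivAt (fun t : ℝ => p + (t : ℂ) * q) q t := by
        have h6 : HasDerivAt (fun t : ℝ => (t : ℂ)) 1 t := Complex.ofRealCLM.hasDerivAt
        simpa using (h6.mul_const q).const_add p
      have h7 := h5.clog_real (h t ht)
      rw [mul_one_div]
      exact h7
    refine intervalIntegral.integral_eq_sub_of_hasDerivAt hd ?_
    refine ContinuousOn.intervalIntegrable ?_
    refine continuousOn_const.mul (ContinuousOn.div continuousOn_const (by fun_prop) fun t ht => ?_)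
    exact Complex.slitPlane_ne_zero (h t ht)
  have b1 := seg (z.im * Complex.I - u) 1 z.re w.re (by
    intro t _
    rw [Complex.mem_slitPlane_iff]
    right
    simp
    intro h
    linarith)
  have b2 := seg (w.im * Complex.I - u) 1 z.re w.re (by
    intro t _
    rw [Complex.mem_slitPlane_iff]
    right
    simp
    intro h
    linarith)
  have b3 := seg (w.re - u) Complex.I z.im w.im (by
    intro t _
    rw [Complex.mem_slitPlane_iff]
    left
    simp
    linarith)
  have b4 := seg (-(z.re - u)) (-Complex.I) z.im w.im (by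
    intro t _
    rw [Complex.mem_slitPlane_iff]
    left
    simp
    linarith)
  have c4 : -Complex.I * ∫ t : ℝ in z.im..w.im, 1 / (-(z.re - u) + t * -Complex.I) =
      Complex.I * ∫ t : ℝ in z.im..w.im, 1 / (z.re + t * Complex.I - u) := by
    rw [neg_mul, ← mul_neg, ← intervalIntegral.integral_neg]
    congr 1
    refine intervalIntegral.integral_congr fun t _ => ?_
    have e : -((z.re : ℂ) - u) + t * -Complex.I = -(z.re + t * Complex.I - u) := by ring
    show -(1 / (-((z.re : ℂ) - u) + t * -Complex.I)) = _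
    rw [e, one_div_neg_eq_neg_one_div, neg_neg]
  have c1 : ∫ t : ℝ in z.re..w.re, 1 / (z.im * Complex.I - u + t * 1) =
      ∫ t : ℝ in z.re..w.re, 1 / (t + z.im * Complex.I - u) := by
    refine intervalIntegral.integral_congr fun t _ => ?_
    show 1 / (z.im * Complex.I - u + (t : ℂ) * 1) = _
    congr 1
    ring
  have c2 : ∫ t : ℝ in z.re..w.re, 1 / (w.im * Complex.I - u + t * 1) =
      ∫ t : ℝ in z.re..w.re, 1 / (t + w.im * Complex.I - u) := by
    refine intervalIntegral.integral_congr fun t _ => ?_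
    show 1 / (w.im * Complex.I - u + (t : ℂ) * 1) = _
    congr 1
    ring
  have c3 : ∫ t : ℝ in z.im..w.im, 1 / (w.re - u + t * Complex.I) =
      ∫ t : ℝ in z.im..w.im, 1 / (w.re + t * Complex.I - u) := by
    refine intervalIntegral.integral_congr fun t _ => ?_
    show 1 / ((w.re : ℂ) - u + (t : ℂ) * Complex.I) = _
    congr 1
    ring
  rw [c4] at b4
  rw [c3] at b3
  rw [one_mul, c1] at b1
  rw [one_mul, c2] at b2
  unfold RI
  rw [b1, b2, b3, b4]
  have lp : ∀ A : ℂ, 0 < A.im → Complex.log (-A) = Complex.log A - Real.pi * Complex.I := by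
    intro A hA
    rw [Complex.log, Complex.log, norm_neg, Complex.arg_neg_eq_arg_sub_pi_of_im_pos hA]
    push_cast
    ring
  have ln : ∀ A : ℂ, A.im < 0 → Complex.log (-A) = Complex.log A + Real.pi * Complex.I := by
    intro A hA
    rw [Complex.log, Complex.log, norm_neg, Complex.arg_neg_eq_arg_add_pi_of_im_neg hA]
    push_cast
    ring
  have d1 : -((z.re : ℂ) - u) + w.im * -Complex.I = -(w.im * Complex.I - u + z.re * 1) := by ring
  have d2 : -((z.re : ℂ) - u) + z.im * -Complex.I = -(z.im * Complex.I - u + z.re * 1) := by ring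
  have d3 : (w.re : ℂ) - u + w.im * Complex.I = w.im * Complex.I - u + w.re * 1 := by ring
  have d4 : (w.re : ℂ) - u + z.im * Complex.I = z.im * Complex.I - u + w.re * 1 := by ring
  rw [d1, d2, d3, d4, lp _ (by simp; linarith), ln _ (by simp; linarith)]
  ring

private theorem int4 {F1 F2 F3 F4 : ℂ → ℂ} (h1 : Integrable F1) (h2 : Integrable F2) (h3 : Integrable F3)
    (h4 : Integrable F4) : ∫ u, (F1 u - F2 u + Complex.I * F3 u - Complex.I * F4 u) =
      (∫ u, F1 u) - (∫ u, F2 u) + Complex.I * (∫ u, F3 u) - Complex.I * ∫ u, F4 u := by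
  have i12 : Integrable fun u => F1 u - F2 u := h1.sub h2
  have i3 : Integrable fun u => Complex.I * F3 u := h3.const_mul _
  have i4 : Integrable fun u => Complex.I * F4 u := h4.const_mul _
  have i123 : Integrable fun u => F1 u - F2 u + Complex.I * F3 u := i12.add i3
  rw [integral_sub i123 i4, integral_add i12 i3, integral_sub h1 h2, integral_const_mul, integral_const_mul]

private theorem line_null (c : ℝ) : (∀ᵐ u : ℂ, u.re ≠ c) ∧ ∀ᵐ u : ℂ, u.im ≠ c := by
  have h1 : ∀ s : Set (ℝ × ℝ), volume s = 0 → volume (Complex.measurableEquivRealProd ⁻¹' s) = 0 := by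
    intro s hs
    rw [Complex.volume_preserving_equiv_real_prod.measure_preimage_equiv, hs]
  constructor
  · have h2 := h1 ({c} ×ˢ univ) (by rw [Measure.volume_eq_prod, Measure.prod_prod]; simp)
    rw [ae_iff]
    refine measure_mono_null (fun u hu => ?_) h2
    simpa using hu
  · have h2 := h1 (univ ×ˢ {c}) (by rw [Measure.volume_eq_prod, Measure.prod_prod]; simp)
    rw [ae_iff]
    refine measure_mono_null (fun u hu => ?_) h2
    simpa using hu

private theorem ct_side {ν : ℂ → ℂ} (hm : Measurable ν) {R B : ℝ} (hB : ∀ u, ‖ν u‖ ≤ B)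
    (h0 : ∀ u, u ∉ ball 0 R → ν u = 0) {γ : ℝ → ℂ} (hγ : Continuous γ) {a b : ℝ} (hab : a ≤ b) :
    Integrable (fun u => ν u * ∫ x in a..b, 1 / (γ x - u)) ∧
      ∫ x in a..b, Ct ν (γ x) = (1 / (Real.pi : ℂ)) * ∫ u, ν u * ∫ x in a..b, 1 / (γ x - u) := by
  have hmeas : AEStronglyMeasurable (fun p : ℝ × ℂ => ν p.2 / (γ p.1 - p.2))
      ((volume.restrict (Ioc a b)).prod volume) :=
    ((hm.comp measurable_snd).div ((hγ.measurable.comp measurable_fst).sub measurable_snd)).aestronglyMeasurable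
  have hint : Integrable (fun p : ℝ × ℂ => ν p.2 / (γ p.1 - p.2)) ((volume.restrict (Ioc a b)).prod volume) := by
    rw [integrable_prod_iff hmeas]
    have h1 : ∀ x : ℝ, Integrable fun u => ν u / (γ x - u) := fun x => by
      refine (k_bd_int hm one_pos hB h0 (γ x)).1.mono' ?_ (Eventually.of_forall fun u => k_bd one_pos hB (γ x) u)
      exact (hm.div (measurable_const.sub measurable_id)).aestronglyMeasurable
    refine ⟨Eventually.of_forall h1, ?_⟩
    refine Integrable.of_bound hmeas.norm.integral_prod_right' (B * (2 * Real.pi * 1) + 1⁻¹ * ∫ u, ‖ν u‖)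
      (Eventually.of_forall fun x => ?_)
    rw [← (k_bd_int hm one_pos hB h0 (γ x)).2, Real.norm_of_nonneg (integral_nonneg fun u => norm_nonneg _)]
    exact integral_mono (h1 x).norm (k_bd_int hm one_pos hB h0 (γ x)).1 fun u => k_bd one_pos hB (γ x) u
  have e1 : ∀ u, ∫ x in Ioc a b, ν u / (γ x - u) = ν u * ∫ x in a..b, 1 / (γ x - u) := by
    intro u
    rw [intervalIntegral.integral_of_le hab, ← integral_const_mul]
    simp only [mul_one_div]
  constructor
  · have h2 := hint.integral_prod_right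
    exact h2.congr (Eventually.of_forall fun u => e1 u)
  · unfold Ct
    rw [intervalIntegral.integral_const_mul, intervalIntegral.integral_of_le hab]
    congr 1
    rw [integral_integral_swap hint]
    exact integral_congr_ae (Eventually.of_forall fun u => e1 u)

theorem ct_ri {ν : ℂ → ℂ} (hm : Measurable ν) {R B : ℝ} (hB : ∀ u, ‖ν u‖ ≤ B) (h0 : ∀ u, u ∉ ball 0 R → ν u = 0) {z w : ℂ}
    (h1 : z.re ≤ w.re) (h2 : z.im ≤ w.im) : RI (Ct ν) z w = 2 * Complex.I * ∫ u in Rt z w, ν u := by
  obtain ⟨i1, e1⟩ := ct_side hm hB h0 (γ := fun x : ℝ => (x : ℂ) + z.im * Complex.I) (by fun_prop) h1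
  obtain ⟨i2, e2⟩ := ct_side hm hB h0 (γ := fun x : ℝ => (x : ℂ) + w.im * Complex.I) (by fun_prop) h1
  obtain ⟨i3, e3⟩ := ct_side hm hB h0 (γ := fun y : ℝ => (w.re : ℂ) + y * Complex.I) (by fun_prop) h2
  obtain ⟨i4, e4⟩ := ct_side hm hB h0 (γ := fun y : ℝ => (z.re : ℂ) + y * Complex.I) (by fun_prop) h2
  have hRm : MeasurableSet (Rt z w) := by
    unfold Rt
    exact (measurableSet_le measurable_const Complex.measurable_re).inter
      ((measurableSet_le Complex.measurable_re measurable_const).inter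
      ((measurableSet_le measurable_const Complex.measurable_im).inter
      (measurableSet_le Complex.measurable_im measurable_const)))
  have key : ∀ᵐ u : ℂ, ν u * RI (fun v => 1 / (v - u)) z w =
      2 * (Real.pi : ℂ) * Complex.I * (Rt z w).indicator ν u := by
    filter_upwards [(line_null z.re).1, (line_null w.re).1, (line_null z.im).2, (line_null w.im).2]
      with u a1 a2 a3 a4
    by_cases hu : u ∈ Rt z w
    · obtain ⟨b1, b2, b3, b4⟩ := hu
      rw [ri_inv (lt_of_le_of_ne b1 a1.symm) (lt_of_le_of_ne b2 a2) (lt_of_le_of_ne b3 a3.symm) (lt_of_le_of_ne b4 a4),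
        indicator_of_mem (show u ∈ Rt z w from ⟨b1, b2, b3, b4⟩)]
      ring
    · rw [indicator_of_notMem hu]
      have hne : ∀ v ∈ Rt z w, v - u ≠ 0 := fun v hv h => hu (by rw [← sub_eq_zero.1 h]; exact hv)
      rw [ri_hol (X := fun v => 1 / (v - u)) h1 h2 (ContinuousOn.div continuousOn_const (by fun_prop) hne)
        countable_empty (fun v hv _ => by
          have h5 : DifferentiableAt ℂ (fun v : ℂ => v - u) v := by fun_prop
          exact (differentiableAt_const _).div h5 (hne v hv))]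
      ring
  have hsum : RI (Ct ν) z w = (1 / (Real.pi : ℂ)) * ∫ u, ν u * RI (fun v => 1 / (v - u)) z w := by
    have e5 : ∀ u, ν u * RI (fun v => 1 / (v - u)) z w =
        (ν u * ∫ x in z.re..w.re, 1 / ((x : ℂ) + z.im * Complex.I - u)) -
        (ν u * ∫ x in z.re..w.re, 1 / ((x : ℂ) + w.im * Complex.I - u)) +
        Complex.I * (ν u * ∫ y in z.im..w.im, 1 / ((w.re : ℂ) + y * Complex.I - u)) -
        Complex.I * (ν u * ∫ y in z.im..w.im, 1 / ((z.re : ℂ) + y * Complex.I - u)) := by
      intro u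
      unfold RI
      ring
    rw [integral_congr_ae (Eventually.of_forall e5), int4 i1 i2 i3 i4]
    unfold RI
    rw [e1, e2, e3, e4]
    ring
  rw [hsum, integral_congr_ae key, integral_const_mul, integral_indicator hRm]
  have hπ : (Real.pi : ℂ) ≠ 0 := by exact_mod_cast Real.pi_ne_zero
  field_simp

end Pool.Agent.H66.IL
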