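import Pool.Agent.H64.NC.NSA
import Pool.Agent.H83.UP.MLN
import Pool.Agent.H18.UP.Defs
import Pool.Agent.H56.UD.Defs

/-!
# THEOREM UD, chapter ILF (field `X`, line field `μ`): definitions, Julia set not the sphere

`GT v T`: `T` is a trap (`GA`, H64/NC/NSA) with infinity, all poles and all Fatou critical points in its interior; all Fatou orbits enter it.
`LN v w T r R`: the line of maps `v + t w`, `‖t‖ ≤ r`: `T` is a trap for all of them, no neutral cycles, the points of `Rf v ⁻¹ T` are attracted, all attracted critical points are in the interior of `T`.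
`XF v T κ p Z X`: a vector field `X` on the plane, holomorphic on the Fatou set, with the functional equation in the direction `p / b ^ 2` there, of growth `|z| ^ κ`, zero at the `κ + 1` points `Z i`, not zero on `T`.
`XV v p X`: the functional equation on `J` and the three point estimate for the points of `J`. `MV v w T r R X`: `X x` is the velocity of the repelling periodic points.
-/

set_option autoImplicit false

open Filter Topology Polynomial Metric Set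

namespace Pool.Agent.H66.IL

open Pool.Agent.H44.Fatou (rat rat_continuous ev)
open Pool.Agent.H56.HR (FS)
open Pool.Agent.H32.BT Pool.Agent.H79.Eul Pool.Agent.H79.Par Pool.Agent.H79.ES Pool.Agent.H47.NN Pool.Agent.H44.RC Pool.Agent.H84.BR
open Pool.Agent.H64.NC (GA JC)
open Pool.Agent.H61.TT (gg dg ww)
open Pool.Agent.H83.UP (PP)

variable {d : ℕ}

/-- the trap -/
structure GT (v : E d) (T : Set (OnePoint ℂ)) : Prop extends GA v T where
  cr : ∀ c, IsCrit (Rf v) c → c ∈ FS (Rf v) → c ∈ interior T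
  po : ∀ z : ℂ, (pol v.2).eval z = 0 → (z : OnePoint ℂ) ∈ interior T
  en : ∀ x ∈ FS (Rf v), ∃ k, (Rf v)^[k] x ∈ T

/-- a line of maps -/
structure LN (v w : E d) (T : Set (OnePoint ℂ)) (r R : ℝ) : Prop where
  hr : 0 < r
  hR : 0 < R
  cop : ∀ t : ℂ, ‖t‖ ≤ r → IsCoprime (pol (v + t • w).1) (pol (v + t • w).2)
  deg : ∀ t : ℂ, ‖t‖ ≤ r → max (pol (v + t • w).1).natDegree (pol (v + t • w).2).natDegree = d
  no : ∀ t : ℂ, ‖t‖ ≤ r → ∀ p : ℕ, 0 < p → ∀ x m, Cyc (pol (v + t • w).1) (pol (v + t • w).2) p x m → ‖m‖ ≠ 1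
  bd : ∀ z : ℂ, R < ‖z‖ → (z : OnePoint ℂ) ∈ interior T
  tr : ∀ t : ℂ, ‖t‖ ≤ r → ∀ x ∈ T, Rf (v + t • w) x ∈ interior T
  pa : ∀ t : ℂ, ‖t‖ ≤ r → ∀ x, Rf v x ∈ T → Att (Rf (v + t • w)) x
  ca : ∀ t : ℂ, ‖t‖ ≤ r → ∀ c, IsCrit (Rf (v + t • w)) c → Att (Rf (v + t • w)) c → c ∈ interior T

/-- the vector field on the Fatou set -/
structure XF (v : E d) (T : Set (OnePoint ℂ)) (κ : ℕ) (p : Polynomial ℂ) (Z : Fin (κ + 1) → ℂ) (X : ℂ → ℂ) : Prop where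
  hol : DifferentiableOn ℂ X {z : ℂ | (z : OnePoint ℂ) ∈ FS (Rf v)}
  eq : ∀ z : ℂ, (z : OnePoint ℂ) ∈ FS (Rf v) → (pol v.2).eval z ≠ 0 →
    X (gg (pol v.1) (pol v.2) z) = dg (pol v.1) (pol v.2) z * X z + p.eval z / (pol v.2).eval z ^ 2
  gr : ∃ C : ℝ, ∀ z : ℂ, (z : OnePoint ℂ) ∈ T → ‖X z‖ ≤ C * (1 + ‖z‖) ^ κ
  zj : Function.Injective Z
  zr : ∀ i, X (Z i) = 0
  nz : ∃ z : ℂ, (z : OnePoint ℂ) ∈ T ∧ X z ≠ 0

/-- the vector field on `J` -/
structure XJ (v : E d) (p : Polynomial ℂ) (C : ℝ) (V : ℂ → ℂ) : Prop where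
  hC : 1 ≤ C
  bd : ∀ x ∈ JC v, ‖V x‖ ≤ C
  eq : ∀ x ∈ JC v, V (gg (pol v.1) (pol v.2) x) = dg (pol v.1) (pol v.2) x * V x + p.eval x / (pol v.2).eval x ^ 2
  tri : ∀ x ∈ JC v, ∀ y ∈ JC v, ∀ z ∈ JC v, x ≠ y → z ≠ y →
    ‖V x - V y - (x - y) / (z - y) * (V z - V y)‖ ≤ C * ‖x - y‖ * (1 + |Real.log (‖z - y‖ / ‖x - y‖)|)

/-- the Julia set is uniformly perfect -/
def Thk (J : Set ℂ) : Prop := ∃ θ r1 : ℝ, 0 < θ ∧ 0 < r1 ∧ ∀ y ∈ J, ∀ ρ : ℝ, 0 < ρ → ρ ≤ r1 → ∃ w ∈ J, θ * ρ ≤ ‖w - y‖ ∧ ‖w - y‖ ≤ ρ / 8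

end Pool.Agent.H66.IL
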