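import Pool.Agent.H66.IL.RI

/-!
# [H66 IL SQ] UD, chapter ILF: the boundary integrals of `X` over small squares

`sq_one`: if `X` is affine up to `B` on the square then `‖RI X‖ ≤ 4 l B` (`ri_add`, `ri_hol`, `ri_le`).
`sq_pl`. PROOF. Let `θ, r1` as in `hth`, `l ≤ l0` small (`l0 ≤ min (r1 / 16) (δ / 4)`, `l0 > 0`), `Q` the square. If `Q ∩ J = ∅`: `ri_hol`. Otherwise `x ∈ Q ∩ J`; `hth` with `ρ = 16 l`: `y ∈ J`, `16 θ l ≤ ‖y - x‖ ≤ 2 l`. For `w ∈ Q`, `w ≠ x`: `‖w - x‖ ≤ 2 l`, `infDist w J ≤ 2 l < δ`, and with `t = ‖w - x‖ ≤ 2 l`, `s = ‖y - x‖ ∈ [16 θ l, 2 l]`: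
`t (1 + |log (s / t)|) ≤ C' l` (`t |log (s / t)| ≤ s * (u |log u|)` with `u = t / s ≤ 1 / (8 θ)`, bounded). So `X w = X x + (w - x) / (y - x) (X y - X x)` up to `C C' l` (trivial for `w = x`): `sq_one`.
`sq_sp` (Julia set = sphere): `x = z`, `y = z + l`: `w ∈ Q`: the same with `s = l`, `t ≤ 2 l`; the constant of the three point estimate for the radius `R + 4`.
-/

set_option autoImplicit false

open Filter Topology Metric Set MeasureTheory

namespace Pool.Agent.H66.IL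

private theorem sqr_re {z : ℂ} {l : ℝ} : (z + (l + l * Complex.I)).re = z.re + l := by simp

private theorem sqr_im {z : ℂ} {l : ℝ} : (z + (l + l * Complex.I)).im = z.im + l := by simp

private theorem sqr_nm {z w x : ℂ} {l : ℝ} (hw : w ∈ Rt z (z + (l + l * Complex.I)))
    (hx : x ∈ Rt z (z + (l + l * Complex.I))) : ‖w - x‖ ≤ 2 * l := by
  obtain ⟨a1, a2, a3, a4⟩ := hw
  obtain ⟨b1, b2, b3, b4⟩ := hx
  rw [sqr_re] at a2 b2
  rw [sqr_im] at a4 b4
  refine (Complex.norm_le_abs_re_add_abs_im _).trans ?_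
  have h1 : |(w - x).re| ≤ l := by
    rw [Complex.sub_re, abs_le]
    constructor <;> linarith
  have h2 : |(w - x).im| ≤ l := by
    rw [Complex.sub_im, abs_le]
    constructor <;> linarith
  linarith

private theorem tl {s t : ℝ} (hs : 0 < s) (ht : 0 < t) : t * |Real.log (s / t)| ≤ s + t ^ 2 / s := by
  have hq : 0 < s / t := div_pos hs ht
  have h1 := Real.log_le_sub_one_of_pos hq
  have h2 := Real.log_le_sub_one_of_pos (inv_pos.2 hq)
  rw [Real.log_inv, inv_div] at h2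
  have h3 : 0 ≤ t ^ 2 / s := by positivity
  rcases abs_cases (Real.log (s / t)) with ⟨h4, -⟩ | ⟨h4, -⟩
  · rw [h4]
    have h5 : t * Real.log (s / t) ≤ t * (s / t - 1) := mul_le_mul_of_nonneg_left h1 ht.le
    have h6 : t * (s / t - 1) = s - t := by field_simp
    linarith
  · rw [h4]
    have h5 : t * -Real.log (s / t) ≤ t * (t / s - 1) := mul_le_mul_of_nonneg_left h2 ht.le
    have h6 : t * (t / s - 1) = t ^ 2 / s - t := by ring
    linarith

theorem sq_one {X : ℂ → ℂ} (hX : Continuous X) {z α β : ℂ} {l B : ℝ} (hl : 0 < l)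
    (h : ∀ w ∈ Rt z (z + (l + l * Complex.I)), ‖X w - (α + β * w)‖ ≤ B) :
    ‖RI X z (z + (l + l * Complex.I))‖ ≤ 4 * l * B := by
  have h1 : z.re ≤ (z + (l + l * Complex.I)).re := by rw [sqr_re]; linarith
  have h2 : z.im ≤ (z + (l + l * Complex.I)).im := by rw [sqr_im]; linarith
  have hc : Continuous fun w : ℂ => α + β * w := by fun_prop
  have h3 := ri_add (X := fun w => X w - (α + β * w)) (Y := fun w => α + β * w) h1 h2
    (hX.sub hc).continuousOn hc.continuousOn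
  have h4 : (fun u => (X u - (α + β * u)) + (α + β * u)) = X := by
    funext u
    ring
  have h5 : RI (fun w => α + β * w) z (z + (l + l * Complex.I)) = 0 :=
    ri_hol h1 h2 hc.continuousOn (s := ∅) Set.countable_empty fun u _ _ => by fun_prop
  have h3' : RI (fun u => (X u - (α + β * u)) + (α + β * u)) z (z + (l + l * Complex.I)) =
      RI (fun w => X w - (α + β * w)) z (z + (l + l * Complex.I)) +
        RI (fun w => α + β * w) z (z + (l + l * Complex.I)) := h3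
  rw [h4, h5, add_zero] at h3'
  rw [h3']
  refine (ri_le h1 h2 h).trans (le_of_eq ?_)
  rw [sqr_re, sqr_im]
  ring

theorem sq_pl {X : ℂ → ℂ} (hX : Continuous X) {J : Set ℂ} (hJ : IsClosed J) (hd : DifferentiableOn ℂ X Jᶜ) {C δ θ r1 : ℝ}
    (hC : 0 ≤ C) (hδ : 0 < δ) (hθ : 0 < θ) (hr1 : 0 < r1)
    (hth : ∀ x ∈ J, ∀ ρ : ℝ, 0 < ρ → ρ ≤ r1 → ∃ y ∈ J, θ * ρ ≤ ‖y - x‖ ∧ ‖y - x‖ ≤ ρ / 8)
    (ht : ∀ x ∈ J, ∀ y ∈ J, x ≠ y → ∀ w : ℂ, infDist w J < δ → w ≠ x →
      ‖X w - X x - (w - x) / (y - x) * (X y - X x)‖ ≤ C * ‖w - x‖ * (1 + |Real.log (‖y - x‖ / ‖w - x‖)|)) :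
    ∃ C' l0 : ℝ, 0 ≤ C' ∧ 0 < l0 ∧ ∀ (z : ℂ) (l : ℝ), 0 < l → l ≤ l0 → ‖RI X z (z + (l + l * Complex.I))‖ ≤ C' * l ^ 2 := by
  refine ⟨4 * (C * (4 + 1 / (4 * θ))), min (r1 / 16) (δ / 4), by positivity, by positivity, ?_⟩
  intro z l hl hl0
  have hl1 : l ≤ r1 / 16 := hl0.trans (min_le_left _ _)
  have hl2 : l ≤ δ / 4 := hl0.trans (min_le_right _ _)
  have hre : z.re ≤ (z + (l + l * Complex.I)).re := by rw [sqr_re]; linarith
  have him : z.im ≤ (z + (l + l * Complex.I)).im := by rw [sqr_im]; linarith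
  by_cases hQ : ∃ x ∈ Rt z (z + (l + l * Complex.I)), x ∈ J
  · obtain ⟨x, hx, hxJ⟩ := hQ
    obtain ⟨y, hy, hy1, hy2⟩ := hth x hxJ (16 * l) (by positivity) (by linarith)
    have hs0 : 0 < ‖y - x‖ := lt_of_lt_of_le (by positivity) hy1
    have hxy : x ≠ y := by
      intro h
      rw [h, sub_self, norm_zero] at hs0
      exact lt_irrefl _ hs0
    have key : ∀ w ∈ Rt z (z + (l + l * Complex.I)),
        ‖X w - ((X x - (X y - X x) / (y - x) * x) + (X y - X x) / (y - x) * w)‖ ≤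
          C * (4 + 1 / (4 * θ)) * l := by
      intro w hw
      have e1 : X w - ((X x - (X y - X x) / (y - x) * x) + (X y - X x) / (y - x) * w) =
          X w - X x - (w - x) / (y - x) * (X y - X x) := by ring
      rw [e1]
      by_cases hwx : w = x
      · rw [hwx]
        simp only [sub_self, zero_div, zero_mul, norm_zero]
        positivity
      · have ht2 : ‖w - x‖ ≤ 2 * l := sqr_nm hw hx
        have ht0 : 0 < ‖w - x‖ := norm_pos_iff.2 (sub_ne_zero.2 hwx)
        have hin : infDist w J < δ := by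
          refine (infDist_le_dist_of_mem hxJ).trans_lt ?_
          rw [dist_eq_norm]
          linarith
        refine (ht x hxJ y hy hxy w hin hwx).trans ?_
        have h1 := tl hs0 ht0
        have h2 : ‖w - x‖ ^ 2 / ‖y - x‖ ≤ 1 / (4 * θ) * l := by
          rw [div_le_iff₀ hs0]
          have h3 : ‖w - x‖ ^ 2 ≤ (2 * l) ^ 2 := pow_le_pow_left₀ ht0.le ht2 2
          have h4 : 1 / (4 * θ) * l * (θ * (16 * l)) ≤ 1 / (4 * θ) * l * ‖y - x‖ :=
            mul_le_mul_of_nonneg_left hy1 (by positivity)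
          have h5 : 1 / (4 * θ) * l * (θ * (16 * l)) = (2 * l) ^ 2 := by
            field_simp
            ring
          linarith
        have h3 : ‖w - x‖ * (1 + |Real.log (‖y - x‖ / ‖w - x‖)|) ≤ (4 + 1 / (4 * θ)) * l := by
          have h4 : 16 * l / 8 = 2 * l := by ring
          rw [h4] at hy2
          nlinarith
        rw [mul_assoc, mul_assoc]
        exact mul_le_mul_of_nonneg_left h3 hC
    refine (sq_one hX hl key).trans (le_of_eq ?_)
    ring
  · have h0 : RI X z (z + (l + l * Complex.I)) = 0 := by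
      refine ri_hol hre him hX.continuousOn (s := ∅) Set.countable_empty fun u hu _ => ?_
      refine hd.differentiableAt (hJ.isOpen_compl.mem_nhds fun huJ => hQ ⟨u, hu, huJ⟩)
    rw [h0, norm_zero]
    positivity

theorem sq_sp {X : ℂ → ℂ} (hX : Continuous X) (ht : ∀ R : ℝ, ∃ C : ℝ, 0 ≤ C ∧ ∀ x y z : ℂ, ‖x‖ ≤ R → ‖y‖ ≤ R → ‖z‖ ≤ R →
    x ≠ y → z ≠ y → ‖X x - X y - (x - y) / (z - y) * (X z - X y)‖ ≤ C * ‖x - y‖ * (1 + |Real.log (‖z - y‖ / ‖x - y‖)|))
    (R : ℝ) : ∃ C' l0 : ℝ, 0 ≤ C' ∧ 0 < l0 ∧ ∀ z ∈ ball (0 : ℂ) R, ∀ l : ℝ, 0 < l → l ≤ l0 →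
      ‖RI X z (z + (l + l * Complex.I))‖ ≤ C' * l ^ 2 := by
  obtain ⟨C, hC, h⟩ := ht (R + 4)
  refine ⟨4 * (C * 7), 1, by positivity, one_pos, ?_⟩
  intro z hz l hl hl1
  have hzR : ‖z‖ < R := by rwa [mem_ball_zero_iff] at hz
  have hzQ : z ∈ Rt z (z + (l + l * Complex.I)) := by
    refine ⟨le_rfl, ?_, le_rfl, ?_⟩
    · rw [sqr_re]
      linarith
    · rw [sqr_im]
      linarith
  have hln : ‖(l : ℂ)‖ = l := by rw [Complex.norm_real, Real.norm_of_nonneg hl.le]
  have hs : ‖z + l - z‖ = l := by rw [add_sub_cancel_left, hln]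
  have hl0 : (l : ℂ) ≠ 0 := by exact_mod_cast hl.ne'
  have hne : z + l ≠ z := by
    intro h1
    exact hl0 (by rwa [add_eq_left] at h1)
  have key : ∀ w ∈ Rt z (z + (l + l * Complex.I)),
      ‖X w - ((X z - (X (z + l) - X z) / (z + l - z) * z) + (X (z + l) - X z) / (z + l - z) * w)‖ ≤
        C * 7 * l := by
    intro w hw
    have e1 : X w - ((X z - (X (z + l) - X z) / (z + l - z) * z) + (X (z + l) - X z) / (z + l - z) * w) =
        X w - X z - (w - z) / (z + l - z) * (X (z + l) - X z) := by ring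
    rw [e1]
    by_cases hwx : w = z
    · rw [hwx]
      simp only [sub_self, zero_div, zero_mul, norm_zero]
      positivity
    · have ht2 : ‖w - z‖ ≤ 2 * l := sqr_nm hw hzQ
      have ht0 : 0 < ‖w - z‖ := norm_pos_iff.2 (sub_ne_zero.2 hwx)
      have hwR : ‖w‖ ≤ R + 4 := by
        have e2 : w = z + (w - z) := by ring
        rw [e2]
        refine (norm_add_le _ _).trans ?_
        linarith
      have hzl : ‖z + l‖ ≤ R + 4 := by
        refine (norm_add_le _ _).trans ?_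
        rw [hln]
        linarith
      refine (h w z (z + l) hwR (by linarith) hzl hwx hne).trans ?_
      rw [hs]
      have h1 := tl hl ht0
      have h2 : ‖w - z‖ ^ 2 / l ≤ 4 * l := by
        rw [div_le_iff₀ hl]
        have h3 : ‖w - z‖ ^ 2 ≤ (2 * l) ^ 2 := pow_le_pow_left₀ ht0.le ht2 2
        linarith
      have h3 : ‖w - z‖ * (1 + |Real.log (l / ‖w - z‖)|) ≤ 7 * l := by
        nlinarith
      rw [mul_assoc, mul_assoc]
      exact mul_le_mul_of_nonneg_left h3 hC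
  refine (sq_one hX hl key).trans (le_of_eq ?_)
  ring

end Pool.Agent.H66.IL
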