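import Pool.Agent.H66.IL.CT

/-!
# [H66 IL TZ] UD, chapter ILF: expansion of `X` at a Lebesgue point of `μ`, and the set `E`

`tz`. PROOF. `ν = (μ - μ z) 1_(ball z (2 r))`, `η` with `8 (2 C + 1) √η ≤ ε`. `H w = X w - μ z * conj (w - z) - Ct ν w` is continuous (`ct_cont`), and for a rectangle in `ball z r`: `RI H = 2 I ∫ μ - μ z * 2 I area - 2 I ∫ (μ - μ z) = 0` (`ri_add`, `ri_smul`, `ri_conj`, `ct_ri`): `mor`. `ct_le` gives the estimate.
`eg`. PROOF. The set `{μ ≠ 0}` is in the compact set `J` up to nothing; `A n = {z ∈ J | 1 / (n + 1) ≤ ‖μ z‖}` increases to it, so some `A n` has positive measure: `b0`. Lebesgue points: a.e. `z` has `(1 / r ^ 2) ∫_(ball z r) ‖μ u - μ z‖ → 0` for `r → 0+` (`Besicovitch`/`IsUnifLocDoublingMeasure.ae_tendsto_average_norm_sub` or `VitaliFamily`, `μ` is locally integrable). Egorov (`MeasureTheory.tendstoUniformlyOn_of_ae_tendsto`)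
for `f n z = (n + 1) ^ 2 ∫_(ball z (1 / (n + 1))) ‖μ u - μ z‖` on `A n0` (finite measure; `f n` is measurable in `z`: `StronglyMeasurable.integral_prod_right` for `(z, u) ↦ 1_{‖u - z‖ < 1/(n+1)} ‖μ u - μ z‖`): uniform convergence outside a set of small measure; a compact subset `E` of positive measure (inner regularity). For `1 / (n + 2) < r ≤ 1 / (n + 1)`: `∫_(ball z r) ≤ ∫_(ball z (1/(n+1))) ≤ η' / (n + 1) ^ 2 ≤ 4 η' r ^ 2`.
-/

set_option autoImplicit false

open Filter Topology Metric Set MeasureTheory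

namespace Pool.Agent.H66.IL

private theorem rt_eq (z w : ℂ) : Rt z w = Complex.measurableEquivRealProd ⁻¹' (Icc z.re w.re ×ˢ Icc z.im w.im) := by
  ext u
  simp only [Rt, mem_setOf_eq, mem_preimage, mem_prod, mem_Icc, Complex.measurableEquivRealProd_apply]
  tauto

private theorem rt_meas (z w : ℂ) : MeasurableSet (Rt z w) := by
  rw [rt_eq]
  exact Complex.measurableEquivRealProd.measurable (measurableSet_Icc.prod measurableSet_Icc)

private theorem rt_vol (z w : ℂ) : volume (Rt z w) = ENNReal.ofReal (w.re - z.re) * ENNReal.ofReal (w.im - z.im) := by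
  rw [rt_eq, Complex.volume_preserving_equiv_real_prod.measure_preimage
    (measurableSet_Icc.prod measurableSet_Icc).nullMeasurableSet, Measure.volume_eq_prod, Measure.prod_prod,
    Real.volume_Icc, Real.volume_Icc]

theorem tz {X μ : ℂ → ℂ} (hX : Continuous X) {R C : ℝ} (hm : Measurable μ) (hb : ∀ z, ‖μ z‖ ≤ C)
    (hri : ∀ z w : ℂ, z.re ≤ w.re → z.im ≤ w.im → Rt z w ⊆ ball 0 R → RI X z w = 2 * Complex.I * ∫ u in Rt z w, μ u) {ε : ℝ}
    (hε : 0 < ε) : ∃ η : ℝ, 0 < η ∧ ∀ (z : ℂ) (r : ℝ), 0 < r → ball z (2 * r) ⊆ ball 0 R →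
    ∫ u in ball z (2 * r), ‖μ u - μ z‖ ≤ η * r ^ 2 → ∃ H : ℂ → ℂ, DifferentiableOn ℂ H (ball z r) ∧
      ∀ w ∈ ball z r, ‖X w - μ z * (starRingEnd ℂ) (w - z) - H w‖ ≤ ε * r := by
  have hC : 0 ≤ C := (norm_nonneg _).trans (hb 0)
  have hC1 : 0 < 8 * (2 * C + 1) := by positivity
  refine ⟨(ε / (8 * (2 * C + 1))) ^ 2, by positivity, fun z r hr hzr hi => ?_⟩
  have hsq : √((ε / (8 * (2 * C + 1))) ^ 2) = ε / (8 * (2 * C + 1)) := Real.sqrt_sq (by positivity)
  set ν : ℂ → ℂ := (ball z (2 * r)).indicator (fun u => μ u - μ z) with hν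
  have hνm : Measurable ν := (hm.sub_const _).indicator measurableSet_ball
  have hνb : ∀ u, ‖ν u‖ ≤ 2 * C := by
    intro u
    by_cases hu : u ∈ ball z (2 * r)
    · rw [hν, indicator_of_mem hu]
      calc ‖μ u - μ z‖ ≤ ‖μ u‖ + ‖μ z‖ := norm_sub_le _ _
        _ ≤ C + C := add_le_add (hb u) (hb z)
        _ = 2 * C := by ring
    · rw [hν, indicator_of_notMem hu, norm_zero]; positivity
  have hν0 : ∀ u, u ∉ ball z (2 * r) → ν u = 0 := fun u hu => indicator_of_notMem hu _
  have hν0R : ∀ u, u ∉ ball 0 R → ν u = 0 := fun u hu => hν0 u fun h => hu (hzr h)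
  have hct : Continuous (Ct ν) := ct_cont hνm hνb hν0R
  have hconj : Continuous (fun w : ℂ => (starRingEnd ℂ) (w - z)) := Complex.continuous_conj.comp (continuous_id.sub continuous_const)
  refine ⟨fun w => X w - μ z * (starRingEnd ℂ) (w - z) - Ct ν w, ?_, ?_⟩
  · refine mor (((hX.sub (continuous_const.mul hconj)).sub hct).continuousOn) ?_
    intro a b hab1 hab2 hsub
    have hRi : RI (fun w => X w - μ z * (starRingEnd ℂ) (w - z) - Ct ν w) a b =
        RI X a b + (- μ z * RI (fun w => (starRingEnd ℂ) (w - z)) a b + (-1) * RI (Ct ν) a b) := by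
      rw [← ri_smul, ← ri_smul, ← ri_add hab1 hab2 (by fun_prop) (by fun_prop), ← ri_add hab1 hab2 (by fun_prop) (by fun_prop)]
      congr 1
      funext w
      ring
    have hsubR : Rt a b ⊆ ball 0 R := fun u hu => hzr (ball_subset_ball (by linarith) (hsub hu))
    have hi1 : IntegrableOn μ (Rt a b) := by
      refine Measure.integrableOn_of_bounded (M := C) ?_ hm.aestronglyMeasurable (Eventually.of_forall hb)
      rw [rt_vol]; exact ENNReal.mul_ne_top ENNReal.ofReal_ne_top ENNReal.ofReal_ne_top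
    have hνint : ∫ u in Rt a b, ν u = (∫ u in Rt a b, μ u) - ((b.re - a.re) * (b.im - a.im) : ℝ) * μ z := by
      have h1 : ∫ u in Rt a b, ν u = ∫ u in Rt a b, (μ u - μ z) := by
        refine setIntegral_congr_fun (rt_meas a b) fun u hu => ?_
        exact indicator_of_mem (ball_subset_ball (by linarith) (hsub hu)) _
      rw [h1, integral_sub hi1 (by
        refine integrableOn_const ?_
        rw [rt_vol]; exact ENNReal.mul_ne_top ENNReal.ofReal_ne_top ENNReal.ofReal_ne_top), setIntegral_const]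
      congr 1
      rw [measureReal_def, rt_vol, ENNReal.toReal_mul, ENNReal.toReal_ofReal (by linarith), ENNReal.toReal_ofReal (by linarith)]
      rw [Complex.real_smul]
    rw [hRi, hri a b hab1 hab2 hsubR, ri_conj hab1 hab2, ct_ri hνm hνb hν0R hab1 hab2, hνint]
    push_cast
    ring
  · intro w hw
    have h1 : X w - μ z * (starRingEnd ℂ) (w - z) - (X w - μ z * (starRingEnd ℂ) (w - z) - Ct ν w) = Ct ν w := by ring
    rw [h1]
    have h2 := ct_le (w := w) hνm hr (show 0 < (ε / (8 * (2 * C + 1))) ^ 2 by positivity) hνb hν0 (by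
      refine le_trans (le_of_eq ?_) hi
      refine setIntegral_congr_fun measurableSet_ball fun u hu => ?_
      simp only [hν, indicator_of_mem hu])
    refine h2.trans (le_of_eq ?_)
    rw [hsq]
    field_simp

private theorem meas_avg {μ : ℂ → ℂ} (hm : Measurable μ) (ρ : ℝ) :
    StronglyMeasurable (fun z : ℂ => ∫ u in closedBall z ρ, ‖μ u - μ z‖) := by
  have h : (fun z : ℂ => ∫ u in closedBall z ρ, ‖μ u - μ z‖) =
      fun z : ℂ => ∫ u, ({p : ℂ × ℂ | dist p.2 p.1 ≤ ρ}.indicator (fun p : ℂ × ℂ => ‖μ p.2 - μ p.1‖)) (z, u) := by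
    funext z
    rw [← integral_indicator measurableSet_closedBall]
    congr 1
  rw [h]
  refine StronglyMeasurable.integral_prod_right ?_
  refine StronglyMeasurable.indicator ?_ ?_
  · exact (((hm.comp measurable_snd).sub (hm.comp measurable_fst)).norm).stronglyMeasurable
  · exact measurableSet_le (measurable_snd.dist measurable_fst) measurable_const

theorem eg {μ : ℂ → ℂ} (hm : Measurable μ) {C : ℝ} (hb : ∀ z, ‖μ z‖ ≤ C) {J : Set ℂ} (hJ : IsCompact J)
    (hp : 0 < volume {z ∈ J | μ z ≠ 0}) : ∃ (E : Set ℂ) (b0 : ℝ), 0 < b0 ∧ IsCompact E ∧ E ⊆ J ∧ 0 < volume E ∧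
    (∀ z ∈ E, b0 ≤ ‖μ z‖) ∧ ∀ η : ℝ, 0 < η → ∃ ρ : ℝ, 0 < ρ ∧ ∀ z ∈ E, ∀ r : ℝ, 0 < r → r < ρ →
      ∫ u in ball z r, ‖μ u - μ z‖ ≤ η * r ^ 2 := by
  have hC : 0 ≤ C := (norm_nonneg _).trans (hb 0)
  -- the level
  have hA : ∃ n : ℕ, 0 < volume {z ∈ J | 1 / ((n : ℝ) + 1) ≤ ‖μ z‖} := by
    by_contra hcon
    push Not at hcon
    have h1 : {z ∈ J | μ z ≠ 0} ⊆ ⋃ n : ℕ, {z ∈ J | 1 / ((n : ℝ) + 1) ≤ ‖μ z‖} := by
      intro z hz
      obtain ⟨n, hn⟩ := exists_nat_one_div_lt (norm_pos_iff.2 hz.2)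
      exact mem_iUnion.2 ⟨n, hz.1, hn.le⟩
    have h2 : volume {z ∈ J | μ z ≠ 0} ≤ 0 := by
      refine (measure_mono h1).trans ?_
      rw [nonpos_iff_eq_zero, measure_iUnion_null_iff]
      exact fun n => nonpos_iff_eq_zero.1 (hcon n)
    exact absurd hp (not_lt.2 h2)
  obtain ⟨n0, hn0⟩ := hA
  set A : Set ℂ := {z ∈ J | 1 / ((n0 : ℝ) + 1) ≤ ‖μ z‖} with hAdef
  have hAm : MeasurableSet A := hJ.isClosed.measurableSet.inter (measurableSet_le measurable_const hm.norm)
  have hAf : volume A ≠ ⊤ := ((measure_mono (fun z hz => hz.1)).trans_lt hJ.measure_lt_top).ne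
  -- integrability
  have hint : ∀ (z : ℂ) (s : Set ℂ), volume s ≠ ⊤ → IntegrableOn (fun u => ‖μ u - μ z‖) s := by
    intro z s hs
    refine Measure.integrableOn_of_bounded (M := 2 * C) hs ((hm.sub_const _).norm.aestronglyMeasurable) (Eventually.of_forall fun u => ?_)
    rw [norm_norm]
    calc ‖μ u - μ z‖ ≤ ‖μ u‖ + ‖μ z‖ := norm_sub_le _ _
      _ ≤ C + C := add_le_add (hb u) (hb z)
      _ = 2 * C := by ring
  have hloc : LocallyIntegrable μ volume := by
    refine locallyIntegrable_iff.2 fun k hk => ?_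
    exact Measure.integrableOn_of_bounded (M := C) hk.measure_lt_top.ne hm.aestronglyMeasurable (Eventually.of_forall hb)
  set F : ℕ → ℂ → ℝ := fun n z => ((n : ℝ) + 1) ^ 2 * ∫ u in closedBall z (1 / ((n : ℝ) + 1)), ‖μ u - μ z‖ with hF
  have hFm : ∀ n, StronglyMeasurable (F n) := fun n => (meas_avg hm _).const_mul _
  have hFlim : ∀ᵐ z ∂volume, z ∈ A → Tendsto (fun n => F n z) atTop (𝓝 ((fun _ => (0 : ℝ)) z)) := by
    have h1 := IsUnifLocDoublingMeasure.ae_tendsto_average_norm_sub (μ := (volume : Measure ℂ)) hloc 1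
    filter_upwards [h1] with z hz _
    have h2 := hz (l := atTop) (fun _ : ℕ => z) (fun n : ℕ => 1 / ((n : ℝ) + 1)) (by
      refine tendsto_nhdsWithin_iff.2 ⟨tendsto_one_div_add_atTop_nhds_zero_nat, Eventually.of_forall fun n => ?_⟩
      exact mem_Ioi.2 (by positivity)) (Eventually.of_forall fun n => mem_closedBall_self (by positivity))
    have h3 : (fun n => F n z) = fun n : ℕ => Real.pi * ⨍ y in closedBall z (1 / ((n : ℝ) + 1)), ‖μ y - μ z‖ := by
      funext n
      have hn : (0 : ℝ) < (n : ℝ) + 1 := by positivity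
      rw [setAverage_eq, measureReal_def, Complex.volume_closedBall, smul_eq_mul]
      simp only [ENNReal.toReal_mul, ENNReal.toReal_pow, ENNReal.coe_toReal, NNReal.coe_real_pi]
      rw [ENNReal.toReal_ofReal (by positivity)]
      simp only [hF]
      field_simp
    rw [h3]
    simpa using h2.const_mul Real.pi
  obtain ⟨t, hts, htm, htv, htu⟩ := tendstoUniformlyOn_of_ae_tendsto hFm (stronglyMeasurable_const (b := (0 : ℝ))) hAm hAf hFlim
    (show 0 < (volume A).toReal / 2 by have := ENNReal.toReal_pos hn0.ne' hAf; positivity)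
  have hpos : 0 < volume (A \ t) := by
    rw [pos_iff_ne_zero]
    intro h0
    have h1 : volume A ≤ ENNReal.ofReal ((volume A).toReal / 2) := by
      calc volume A ≤ volume (A \ t ∪ t) := measure_mono (by rw [diff_union_self]; exact subset_union_left)
        _ ≤ volume (A \ t) + volume t := measure_union_le _ _
        _ ≤ 0 + ENNReal.ofReal ((volume A).toReal / 2) := add_le_add h0.le htv
        _ = _ := zero_add _
    have h2 := ENNReal.toReal_pos hn0.ne' hAf
    have h3 := ENNReal.toReal_mono ENNReal.ofReal_ne_top h1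
    rw [ENNReal.toReal_ofReal (by positivity)] at h3
    linarith
  obtain ⟨K, hKs, hKc, hKp⟩ := (hAm.diff htm).exists_lt_isCompact hpos
  refine ⟨K, 1 / ((n0 : ℝ) + 1), by positivity, hKc, fun z hz => (hKs hz).1.1, hKp, fun z hz => (hKs hz).1.2, fun η hη => ?_⟩
  have hu := (Metric.tendstoUniformlyOn_iff.1 htu) (η / 4) (by positivity)
  obtain ⟨N, hN⟩ := eventually_atTop.1 hu
  refine ⟨1 / ((N : ℝ) + 1), by positivity, fun z hz r hr hrN => ?_⟩
  have hr1 : (N : ℝ) + 1 < 1 / r := by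
    rw [lt_div_iff₀ hr]
    rw [lt_div_iff₀ (by positivity)] at hrN
    linarith
  obtain ⟨m, hm1, hm2⟩ : ∃ m : ℕ, (m : ℝ) ≤ 1 / r ∧ 1 / r < m + 1 := ⟨⌊1 / r⌋₊, Nat.floor_le (by positivity), Nat.lt_floor_add_one _⟩
  have hmN : N < m := by
    have : (N : ℝ) + 1 < m + 1 := hr1.trans hm2
    exact_mod_cast (by linarith : (N : ℝ) < m)
  obtain ⟨n, rfl⟩ : ∃ n, m = n + 1 := ⟨m - 1, by omega⟩
  have hn : N ≤ n := by omega
  push_cast at hm1 hm2
  have hnp : (0 : ℝ) < (n : ℝ) + 1 := by positivity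
  have hrn : r ≤ 1 / ((n : ℝ) + 1) := by
    rw [le_div_iff₀ hnp]
    rw [le_div_iff₀ hr] at hm1
    linarith
  have hrn2 : 1 / ((n : ℝ) + 1) ≤ 2 * r := by
    rw [div_le_iff₀ hnp]
    rw [div_lt_iff₀ hr] at hm2
    nlinarith
  have h1 := hN n hn z (hKs hz)
  rw [Real.dist_eq, zero_sub, abs_neg] at h1
  have h2 : F n z < η / 4 := (le_abs_self _).trans_lt h1
  have h3 : ∫ u in ball z r, ‖μ u - μ z‖ ≤ ∫ u in closedBall z (1 / ((n : ℝ) + 1)), ‖μ u - μ z‖ := by
    refine setIntegral_mono_set (hint z _ measure_closedBall_lt_top.ne) (Eventually.of_forall fun u => norm_nonneg _)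
      (Eventually.of_forall ?_)
    exact fun u hu => ball_subset_closedBall (ball_subset_ball hrn hu)
  have h4 : ∫ u in closedBall z (1 / ((n : ℝ) + 1)), ‖μ u - μ z‖ = F n z * (1 / ((n : ℝ) + 1)) ^ 2 := by
    simp only [hF]
    field_simp
  have h5 : 0 ≤ F n z := by
    simp only [hF]
    exact mul_nonneg (by positivity) (integral_nonneg fun u => norm_nonneg _)
  calc ∫ u in ball z r, ‖μ u - μ z‖ ≤ F n z * (1 / ((n : ℝ) + 1)) ^ 2 := h3.trans h4.le
    _ ≤ (η / 4) * (2 * r) ^ 2 := by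
        refine mul_le_mul h2.le (pow_le_pow_left₀ (by positivity) hrn2 2) (by positivity) (by positivity)
    _ = η * r ^ 2 := by ring

end Pool.Agent.H66.IL
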