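import Pool.Agent.H66.IL.RI

/-!
# [H66 IL WA] UD, chapter ILF: the weak derivative of a function with small boundary integrals

`star`: for `q` with `0 ≤ q.re`, `0 ≤ q.im` and a test function `φ`: `∫ z, RI X z (z + q) * φ z = -2 I ∫ u, X u * ∫ w in Rt 0 q, db φ (u - w)`.
PROOF of `star`. Write `RI X z (z + q)` with the sides parametrized from `z` (substitution `x = z.re + s`): `∫ s in 0..q.re, X (z + s) - ∫ s in 0..q.re, X (z + s + q.im I) + I ∫ s in 0..q.im, X (z + q.re + s I) - I ∫ s in 0..q.im, X (z + s I)`.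
Fubini (`X` continuous, `φ` continuous with compact support: everything is integrable on `ℂ × [0, q]`) and translation invariance (`integral_add_right_eq_self`, `∫ z, X (z + s) * φ z = ∫ u, X u * φ (u - s)`): the left side is `∫ u, X u * RI (fun w => φ (u - w)) 0 q`. `ri_green` for `w ↦ φ (u - w)`: `db` of it at `w` is `- db φ (u - w)`.
`wk_bd`: take `q = l (1 + I)`, divide by `l ^ 2`: for `l → 0+` `(1 / l ^ 2) ∫ w in Rt 0 q, db φ (u - w) → db φ u` uniformly in `u` (`db φ` is continuous with compact support, so uniformly continuous; the area of `Rt 0 q` is `l ^ 2`), the supports stay in a fixed compact set, `X` is bounded there, so `(1 / l ^ 2) ∫ z, RI X z (z + q) * φ z → -2 I ∫ u, X u * db φ u`;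
and the norm of the left side is at most `C ∫ ‖φ‖` for `l ≤ l0` (`hsq` on the support of `φ`). So `2 ‖∫ X db φ‖ ≤ C ∫ ‖φ‖`.
-/

set_option autoImplicit false

open Filter Topology Metric Set MeasureTheory

namespace Pool.Agent.H66.IL

/-- test functions with support in `O` -/
structure Tf (O : Set ℂ) (φ : ℂ → ℂ) : Prop where
  c1 : ContDiff ℝ 1 φ
  cs : HasCompactSupport φ
  sub : tsupport φ ⊆ O

private theorem int_prod {F : ℂ × ℝ → ℂ} (hF : Continuous F) {K : Set ℂ} (hK : IsCompact K) {a : ℝ}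
    (h0 : ∀ z s, s ∈ Ioc 0 a → z ∉ K → F (z, s) = 0) :
    Integrable F ((volume : Measure ℂ).prod (volume.restrict (Ioc (0 : ℝ) a))) := by
  have h1 : (volume : Measure ℂ).prod (volume.restrict (Ioc (0 : ℝ) a)) =
      ((volume : Measure ℂ).prod (volume : Measure ℝ)).restrict (univ ×ˢ Ioc (0 : ℝ) a) := by
    rw [← Measure.prod_restrict, Measure.restrict_univ]
  rw [h1]
  have h2 : IntegrableOn F (K ×ˢ Icc (0 : ℝ) a) ((volume : Measure ℂ).prod (volume : Measure ℝ)) :=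
    hF.continuousOn.integrableOn_compact (hK.prod isCompact_Icc)
  refine IntegrableOn.of_forall_sdiff_eq_zero h2 (MeasurableSet.univ.prod measurableSet_Ioc) ?_
  rintro ⟨z, s⟩ ⟨⟨-, hs⟩, hn⟩
  exact h0 z s hs fun hz => hn ⟨hz, Ioc_subset_Icc_self hs⟩

/-- Fubini for one side -/
private theorem fub {X φ : ℂ → ℂ} (hX : Continuous X) (hφ : Continuous φ) (hc : HasCompactSupport φ)
    {γ : ℝ → ℂ} (hγ : Continuous γ) {a : ℝ} (ha : 0 ≤ a) :
    Integrable (fun z => (∫ s in (0 : ℝ)..a, X (z + γ s)) * φ z) ∧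
    Integrable (fun u => X u * ∫ s in (0 : ℝ)..a, φ (u - γ s)) ∧
    ∫ z, (∫ s in (0 : ℝ)..a, X (z + γ s)) * φ z = ∫ u, X u * ∫ s in (0 : ℝ)..a, φ (u - γ s) := by
  obtain ⟨F1, hF1⟩ : ∃ F : ℂ × ℝ → ℂ, F = fun p => X (p.1 + γ p.2) * φ p.1 := ⟨_, rfl⟩
  obtain ⟨F2, hF2⟩ : ∃ F : ℂ × ℝ → ℂ, F = fun p => X p.1 * φ (p.1 - γ p.2) := ⟨_, rfl⟩
  have hF1c : Continuous F1 := by rw [hF1]; fun_prop
  have hF2c : Continuous F2 := by rw [hF2]; fun_prop
  have hK : IsCompact (tsupport φ) := hc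
  have i1 : Integrable F1 ((volume : Measure ℂ).prod (volume.restrict (Ioc (0 : ℝ) a))) := by
    refine int_prod hF1c hK fun z s _ hz => ?_
    rw [hF1]
    show X (z + γ s) * φ z = 0
    rw [image_eq_zero_of_notMem_tsupport hz, mul_zero]
  have i2 : Integrable F2 ((volume : Measure ℂ).prod (volume.restrict (Ioc (0 : ℝ) a))) := by
    have hK' : IsCompact ((fun p : ℂ × ℝ => p.1 + γ p.2) '' (tsupport φ ×ˢ Icc (0 : ℝ) a)) :=
      (hK.prod isCompact_Icc).image (by fun_prop)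
    refine int_prod hF2c hK' fun z s hs hz => ?_
    rw [hF2]
    show X z * φ (z - γ s) = 0
    have h1 : z - γ s ∉ tsupport φ := fun h1 =>
      hz ⟨(z - γ s, s), ⟨h1, Ioc_subset_Icc_self hs⟩, by simp⟩
    rw [image_eq_zero_of_notMem_tsupport h1, mul_zero]
  have e1 : (fun z => (∫ s in (0 : ℝ)..a, X (z + γ s)) * φ z) =
      fun z => ∫ s, F1 (z, s) ∂(volume.restrict (Ioc (0 : ℝ) a)) := by
    funext z
    rw [intervalIntegral.integral_of_le ha, ← integral_mul_const, hF1]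
  have e2 : (fun u => X u * ∫ s in (0 : ℝ)..a, φ (u - γ s)) =
      fun u => ∫ s, F2 (u, s) ∂(volume.restrict (Ioc (0 : ℝ) a)) := by
    funext u
    rw [intervalIntegral.integral_of_le ha, ← integral_const_mul, hF2]
  rw [e1, e2]
  refine ⟨i1.integral_prod_left, i2.integral_prod_left, ?_⟩
  have s1 : ∫ z, ∫ s, F1 (z, s) ∂(volume.restrict (Ioc (0 : ℝ) a)) =
      ∫ s, ∫ z, F1 (z, s) ∂volume ∂(volume.restrict (Ioc (0 : ℝ) a)) :=
    integral_integral_swap (f := fun z s => F1 (z, s)) i1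
  have s2 : ∫ z, ∫ s, F2 (z, s) ∂(volume.restrict (Ioc (0 : ℝ) a)) =
      ∫ s, ∫ z, F2 (z, s) ∂volume ∂(volume.restrict (Ioc (0 : ℝ) a)) :=
    integral_integral_swap (f := fun z s => F2 (z, s)) i2
  rw [s1, s2]
  refine integral_congr_ae (Eventually.of_forall fun s => ?_)
  show ∫ z, F1 (z, s) = ∫ z, F2 (z, s)
  have h3 := integral_add_right_eq_self (μ := (volume : Measure ℂ)) (fun u => F2 (u, s)) (γ s)
  rw [← h3]
  refine integral_congr_ae (Eventually.of_forall fun z => ?_)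
  rw [hF1, hF2]
  show X (z + γ s) * φ z = X (z + γ s) * φ (z + γ s - γ s)
  rw [add_sub_cancel_right]

private theorem side (d a : ℝ) (G H : ℝ → ℂ) (h : ∀ s, G (d + s) = H s) :
    ∫ x in d..d + a, G x = ∫ s in (0 : ℝ)..a, H s := by
  have h1 := intervalIntegral.integral_comp_add_left G d (a := 0) (b := a)
  rw [add_zero] at h1
  rw [← h1]
  simp only [h]

private theorem ri_form (X : ℂ → ℂ) (z q : ℂ) : RI X z (z + q) =
    (((∫ s in (0 : ℝ)..q.re, X (z + s)) - ∫ s in (0 : ℝ)..q.re, X (z + (s + q.im * Complex.I))) +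
      Complex.I * ∫ s in (0 : ℝ)..q.im, X (z + (q.re + s * Complex.I))) -
      Complex.I * ∫ s in (0 : ℝ)..q.im, X (z + s * Complex.I) := by
  unfold RI
  rw [Complex.add_re, Complex.add_im]
  rw [side z.re q.re (fun x : ℝ => X (x + z.im * Complex.I)) (fun s : ℝ => X (z + s)),
    side z.re q.re (fun x : ℝ => X (x + ((z.im + q.im : ℝ) : ℂ) * Complex.I))
      (fun s : ℝ => X (z + (s + q.im * Complex.I))),
    side z.im q.im (fun y : ℝ => X (((z.re + q.re : ℝ) : ℂ) + y * Complex.I))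
      (fun s : ℝ => X (z + (q.re + s * Complex.I))),
    side z.im q.im (fun y : ℝ => X (z.re + y * Complex.I)) (fun s : ℝ => X (z + s * Complex.I))]
  · intro s
    show X (z.re + ((z.im + s : ℝ) : ℂ) * Complex.I) = X (z + s * Complex.I)
    exact congrArg X (Complex.ext (by simp) (by simp))
  · intro s
    show X (((z.re + q.re : ℝ) : ℂ) + ((z.im + s : ℝ) : ℂ) * Complex.I) =
      X (z + (q.re + s * Complex.I))
    exact congrArg X (Complex.ext (by simp) (by simp))
  · intro s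
    show X (((z.re + s : ℝ) : ℂ) + ((z.im + q.im : ℝ) : ℂ) * Complex.I) =
      X (z + (s + q.im * Complex.I))
    exact congrArg X (Complex.ext (by simp) (by simp))
  · intro s
    show X (((z.re + s : ℝ) : ℂ) + z.im * Complex.I) = X (z + s)
    exact congrArg X (Complex.ext (by simp) (by simp))

private theorem db_sub {φ : ℂ → ℂ} (hφ : ContDiff ℝ 1 φ) (u w : ℂ) :
    db (fun w => φ (u - w)) w = - db φ (u - w) := by
  have h1 : HasFDerivAt φ (fderiv ℝ φ (u - w)) (u - w) :=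
    ((hφ.differentiable one_ne_zero) (u - w)).hasFDerivAt
  have h2 : HasFDerivAt (fun w : ℂ => u - w) (-(ContinuousLinearMap.id ℝ ℂ)) w :=
    (hasFDerivAt_id w).const_sub u
  have h3 : HasFDerivAt (fun w => φ (u - w)) ((fderiv ℝ φ (u - w)).comp
      (-(ContinuousLinearMap.id ℝ ℂ))) w := h1.comp w h2
  unfold db
  rw [h3.fderiv]
  simp only [ContinuousLinearMap.comp_apply, neg_apply,
    ContinuousLinearMap.id_apply, map_neg]
  ring

private theorem int4 {f1 f2 f3 f4 : ℂ → ℂ} (a1 : Integrable f1) (a2 : Integrable f2)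
    (a3 : Integrable f3) (a4 : Integrable f4) :
    ∫ z, (((f1 z - f2 z) + Complex.I * f3 z) - Complex.I * f4 z) =
      (((∫ z, f1 z) - ∫ z, f2 z) + Complex.I * ∫ z, f3 z) - Complex.I * ∫ z, f4 z := by
  have b3 : Integrable fun z => Complex.I * f3 z := a3.const_mul _
  have b4 : Integrable fun z => Complex.I * f4 z := a4.const_mul _
  have b12 : Integrable fun z => f1 z - f2 z := a1.sub a2
  have b123 : Integrable fun z => (f1 z - f2 z) + Complex.I * f3 z := b12.add b3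
  rw [integral_sub b123 b4, integral_add b12 b3, integral_sub a1 a2, integral_const_mul,
    integral_const_mul]

private theorem star_aux {X : ℂ → ℂ} (hX : Continuous X) {φ : ℂ → ℂ} (hφ : ContDiff ℝ 1 φ)
    (hc : HasCompactSupport φ) {q : ℂ} (h1 : 0 ≤ q.re) (h2 : 0 ≤ q.im) :
    Integrable (fun u => X u * ∫ w in Rt 0 q, db φ (u - w)) ∧
    ∫ z, RI X z (z + q) * φ z = -(2 * Complex.I) * ∫ u, X u * ∫ w in Rt 0 q, db φ (u - w) := by
  have hφc : Continuous φ := hφ.continuous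
  obtain ⟨a1, b1, c1⟩ := fub hX hφc hc (γ := fun s : ℝ => (s : ℂ)) (by fun_prop) h1
  obtain ⟨a2, b2, c2⟩ := fub hX hφc hc (γ := fun s : ℝ => (s : ℂ) + q.im * Complex.I) (by fun_prop) h1
  obtain ⟨a3, b3, c3⟩ := fub hX hφc hc (γ := fun s : ℝ => (q.re : ℂ) + s * Complex.I) (by fun_prop) h2
  obtain ⟨a4, b4, c4⟩ := fub hX hφc hc (γ := fun s : ℝ => (s : ℂ) * Complex.I) (by fun_prop) h2
  have hR : ∀ u, RI (fun w => φ (u - w)) 0 q = -(2 * Complex.I) * ∫ w in Rt 0 q, db φ (u - w) := by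
    intro u
    have hu : ContDiff ℝ 1 (fun w => φ (u - w)) := hφ.comp (contDiff_const.sub contDiff_id)
    rw [ri_green hu (by simpa using h1) (by simpa using h2)]
    simp only [db_sub hφ]
    rw [integral_neg]
    ring
  have hR2 : ∀ u, X u * RI (fun w => φ (u - w)) 0 q =
      (((X u * ∫ s in (0 : ℝ)..q.re, φ (u - s)) -
        X u * ∫ s in (0 : ℝ)..q.re, φ (u - (s + q.im * Complex.I))) +
        Complex.I * (X u * ∫ s in (0 : ℝ)..q.im, φ (u - (q.re + s * Complex.I)))) -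
        Complex.I * (X u * ∫ s in (0 : ℝ)..q.im, φ (u - s * Complex.I)) := by
    intro u
    have h3 := ri_form (fun w => φ (u - w)) 0 q
    simp only [zero_add] at h3
    rw [h3]
    ring
  have hL : ∀ z, RI X z (z + q) * φ z =
      ((((∫ s in (0 : ℝ)..q.re, X (z + s)) * φ z) -
        (∫ s in (0 : ℝ)..q.re, X (z + (s + q.im * Complex.I))) * φ z) +
        Complex.I * ((∫ s in (0 : ℝ)..q.im, X (z + (q.re + s * Complex.I))) * φ z)) -
        Complex.I * ((∫ s in (0 : ℝ)..q.im, X (z + s * Complex.I)) * φ z) := by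
    intro z
    rw [ri_form]
    ring
  have hI : ∫ z, RI X z (z + q) * φ z = ∫ u, X u * RI (fun w => φ (u - w)) 0 q := by
    simp only [hL, hR2]
    rw [int4 a1 a2 a3 a4, int4 b1 b2 b3 b4, c1, c2, c3, c4]
  have hint : Integrable (fun u => X u * RI (fun w => φ (u - w)) 0 q) := by
    simp only [hR2]
    exact ((b1.sub b2).add (b3.const_mul _)).sub (b4.const_mul _)
  have hfe : (fun u => X u * RI (fun w => φ (u - w)) 0 q) =
      fun u => -(2 * Complex.I) * (X u * ∫ w in Rt 0 q, db φ (u - w)) := by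
    funext u
    rw [hR u]
    ring
  constructor
  · rw [hfe] at hint
    have h3 : (-(2 * Complex.I)) ≠ 0 := by simp
    have h4 := hint.const_mul (-(2 * Complex.I))⁻¹
    refine h4.congr (Eventually.of_forall fun u => ?_)
    show (-(2 * Complex.I))⁻¹ * (-(2 * Complex.I) * (X u * ∫ w in Rt 0 q, db φ (u - w))) = _
    rw [← mul_assoc, inv_mul_cancel₀ h3, one_mul]
  · rw [hI, hfe, integral_const_mul]

theorem star {X : ℂ → ℂ} (hX : Continuous X) {φ : ℂ → ℂ} (hφ : Tf univ φ) {q : ℂ} (h1 : 0 ≤ q.re) (h2 : 0 ≤ q.im) :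
    ∫ z, RI X z (z + q) * φ z = -(2 * Complex.I) * ∫ u, X u * ∫ w in Rt 0 q, db φ (u - w) :=
  (star_aux hX hφ.c1 hφ.cs h1 h2).2

private theorem db_cont {φ : ℂ → ℂ} (hφ : ContDiff ℝ 1 φ) : Continuous (db φ) := by
  have h1 : Continuous (fderiv ℝ φ) := hφ.continuous_fderiv one_ne_zero
  unfold db
  exact ((h1.clm_apply continuous_const).add
    (continuous_const.mul (h1.clm_apply continuous_const))).div_const 2

private theorem db_cs {φ : ℂ → ℂ} (hc : HasCompactSupport φ) : HasCompactSupport (db φ) :=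
  (hc.fderiv ℝ).comp_left (g := fun T : ℂ →L[ℝ] ℂ => (T 1 + Complex.I * T Complex.I) / 2) (by simp)

private theorem rt_eq (l : ℝ) : Rt 0 (l + l * Complex.I) =
    Complex.measurableEquivRealProd ⁻¹' (Icc (0 : ℝ) l ×ˢ Icc (0 : ℝ) l) := by
  ext u
  simp only [Rt, Set.mem_ofPred_eq, mem_preimage, Complex.measurableEquivRealProd_apply, mem_prod,
    mem_Icc, Complex.zero_re, Complex.zero_im, Complex.add_re, Complex.add_im, Complex.ofReal_re,
    Complex.ofReal_im, Complex.mul_re, Complex.mul_im, Complex.I_re, Complex.I_im, mul_zero,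
    mul_one, sub_zero, zero_add, add_zero]
  tauto

private theorem rt_vol {l : ℝ} (hl : 0 ≤ l) :
    volume (Rt 0 (l + l * Complex.I)) = ENNReal.ofReal (l ^ 2) := by
  rw [rt_eq, Complex.volume_preserving_equiv_real_prod.measure_preimage
    (measurableSet_Icc.prod measurableSet_Icc).nullMeasurableSet, Measure.volume_eq_prod,
    Measure.prod_prod, Real.volume_Icc, sub_zero, ← ENNReal.ofReal_mul hl, pow_two]

private theorem rt_norm {l : ℝ} (hl : 0 ≤ l) {w : ℂ} (hw : w ∈ Rt 0 (l + l * Complex.I)) :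
    ‖w‖ ≤ 2 * l := by
  rw [rt_eq] at hw
  obtain ⟨h1, h2⟩ := hw
  rw [Complex.measurableEquivRealProd_apply] at h1 h2
  have h3 := Complex.norm_le_abs_re_add_abs_im w
  have h4 : |w.re| ≤ l := abs_le.2 ⟨by linarith [h1.1], h1.2⟩
  have h5 : |w.im| ≤ l := abs_le.2 ⟨by linarith [h2.1], h2.2⟩
  linarith

private theorem rt_compact {l : ℝ} (hl : 0 ≤ l) : IsCompact (Rt 0 (l + l * Complex.I)) := by
  refine Metric.isCompact_of_isClosed_isBounded ?_ ?_
  · have h1 : IsClosed (Icc (0 : ℝ) l ×ˢ Icc (0 : ℝ) l) := isClosed_Icc.prod isClosed_Icc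
    rw [rt_eq]
    exact h1.preimage (Complex.continuous_re.prodMk Complex.continuous_im)
  · exact (isBounded_closedBall (x := (0 : ℂ)) (r := 2 * l)).subset fun w hw => by
      rw [mem_closedBall, dist_zero_right]
      exact rt_norm hl hw

theorem wk_bd {X : ℂ → ℂ} (hX : Continuous X) {O : Set ℂ} {C l0 : ℝ} (hC : 0 ≤ C) (hl0 : 0 < l0)
    (hsq : ∀ z ∈ O, ∀ l : ℝ, 0 < l → l ≤ l0 → ‖RI X z (z + (l + l * Complex.I))‖ ≤ C * l ^ 2) {φ : ℂ → ℂ} (hφ : Tf O φ) :
    ‖∫ u, X u * db φ u‖ ≤ C * ∫ u, ‖φ u‖ := by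
  obtain ⟨ψ, hψ⟩ : ∃ ψ, ψ = db φ := ⟨_, rfl⟩
  have hψc : Continuous ψ := hψ ▸ db_cont hφ.c1
  have hψs : HasCompactSupport ψ := hψ ▸ db_cs hφ.cs
  have hφi : Integrable φ := hφ.c1.continuous.integrable_of_hasCompactSupport hφ.cs
  have hTi : Integrable (fun u => X u * ψ u) :=
    (hX.mul hψc).integrable_of_hasCompactSupport hψs.mul_left
  obtain ⟨R, hR⟩ : ∃ R : ℝ, tsupport ψ ⊆ closedBall 0 R := hψs.isCompact.isBounded.subset_closedBall 0
  obtain ⟨B, hB⟩ : ∃ B : ℝ, B = ∫ u in closedBall (0 : ℂ) (R + 2), ‖X u‖ := ⟨_, rfl⟩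
  have hB0 : 0 ≤ B := by
    rw [hB]
    exact integral_nonneg fun u => norm_nonneg _
  have hI0 : 0 ≤ ∫ u, ‖φ u‖ := integral_nonneg fun u => norm_nonneg _
  have hXi : IntegrableOn (fun u => ‖X u‖) (closedBall (0 : ℂ) (R + 2)) :=
    hX.norm.continuousOn.integrableOn_compact (isCompact_closedBall _ _)
  rw [← hψ]
  refine le_of_forall_pos_le_add fun ε' hε' => ?_
  obtain ⟨ε, hε⟩ : ∃ ε : ℝ, ε = ε' / (B + 1) := ⟨_, rfl⟩
  have hε0 : 0 < ε := by rw [hε]; positivity
  have huc : UniformContinuous ψ := hψc.uniformContinuous_of_tendsto_cocompact hψs.is_zero_at_infty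
  obtain ⟨ζ, hζ, huc⟩ := Metric.uniformContinuous_iff.1 huc ε hε0
  obtain ⟨l, hl⟩ : ∃ l : ℝ, l = min l0 (min 1 (ζ / 3)) := ⟨_, rfl⟩
  have hlp : 0 < l := by
    rw [hl]
    exact lt_min hl0 (lt_min one_pos (by positivity))
  have hl1 : l ≤ l0 := hl ▸ min_le_left _ _
  have hl2 : l ≤ 1 := hl ▸ (min_le_right _ _).trans (min_le_left _ _)
  have hl3 : l ≤ ζ / 3 := hl ▸ (min_le_right _ _).trans (min_le_right _ _)
  obtain ⟨q, hq⟩ : ∃ q : ℂ, q = l + l * Complex.I := ⟨_, rfl⟩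
  have hqre : q.re = l := by rw [hq]; simp
  have hqim : q.im = l := by rw [hq]; simp
  obtain ⟨si, se⟩ := star_aux hX hφ.c1 hφ.cs (q := q) (by rw [hqre]; exact hlp.le)
    (by rw [hqim]; exact hlp.le)
  rw [← hψ] at si se
  -- the left side
  have hL : ‖∫ z, RI X z (z + q) * φ z‖ ≤ C * l ^ 2 * ∫ u, ‖φ u‖ := by
    rw [← integral_const_mul]
    refine norm_integral_le_of_norm_le (hφi.norm.const_mul _) (Eventually.of_forall fun z => ?_)
    rw [norm_mul]
    by_cases hz : φ z = 0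
    · rw [hz, norm_zero, mul_zero, mul_zero]
    · refine mul_le_mul_of_nonneg_right ?_ (norm_nonneg _)
      rw [hq]
      exact hsq z (hφ.sub (subset_tsupport _ hz)) l hlp hl1
  rw [se, norm_mul] at hL
  have h2 : ‖-(2 * Complex.I)‖ = 2 := by simp
  rw [h2] at hL
  -- the averages
  have hm : volume.real (Rt 0 q) = l ^ 2 := by
    rw [Measure.real, hq, rt_vol hlp.le, ENNReal.toReal_ofReal (by positivity)]
  have hfin : volume (Rt 0 q) < ⊤ := by
    rw [hq, rt_vol hlp.le]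
    exact ENNReal.ofReal_lt_top
  have hav : ∀ u, ‖(∫ w in Rt 0 q, ψ (u - w)) - (l ^ 2 : ℝ) * ψ u‖ ≤ ε * l ^ 2 := by
    intro u
    have e1 : ((l ^ 2 : ℝ) : ℂ) * ψ u = ∫ w in Rt 0 q, ψ u := by
      rw [setIntegral_const, hm, Complex.real_smul]
    have hi1 : IntegrableOn (fun w => ψ (u - w)) (Rt 0 q) := by
      rw [hq]
      exact (hψc.comp (continuous_const.sub continuous_id)).continuousOn.integrableOn_compact
        (rt_compact hlp.le)
    have hi2 : IntegrableOn (fun _ : ℂ => ψ u) (Rt 0 q) := integrableOn_const hfin.ne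
    rw [e1, ← integral_sub hi1 hi2]
    have h3 := norm_setIntegral_le_of_norm_le_const (μ := (volume : Measure ℂ)) (s := Rt 0 q)
      (f := fun w => ψ (u - w) - ψ u) (C := ε) hfin fun w hw => by
        have h4 : dist (u - w) u < ζ := by
          rw [dist_eq_norm, sub_sub_cancel_left, norm_neg]
          rw [hq] at hw
          have := rt_norm hlp.le hw
          linarith
        have h5 := huc h4
        rw [dist_eq_norm] at h5
        exact h5.le
    rwa [hm] at h3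
  have hz0 : ∀ u, u ∉ closedBall (0 : ℂ) (R + 2) →
      (∫ w in Rt 0 q, ψ (u - w)) - (l ^ 2 : ℝ) * ψ u = 0 := by
    intro u hu
    rw [mem_closedBall, dist_zero_right, not_le] at hu
    have h3 : ψ u = 0 := by
      refine image_eq_zero_of_notMem_tsupport fun h => ?_
      have := hR h
      rw [mem_closedBall, dist_zero_right] at this
      linarith
    have h4 : ∀ w ∈ Rt 0 q, ψ (u - w) = 0 := by
      intro w hw
      refine image_eq_zero_of_notMem_tsupport fun h => ?_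
      have h5 := hR h
      rw [mem_closedBall, dist_zero_right] at h5
      rw [hq] at hw
      have h6 := rt_norm hlp.le hw
      have h7 : ‖u‖ ≤ ‖u - w‖ + ‖w‖ := by
        calc ‖u‖ = ‖(u - w) + w‖ := by rw [sub_add_cancel]
          _ ≤ _ := norm_add_le _ _
      linarith
    rw [h3, mul_zero, sub_zero]
    exact setIntegral_eq_zero_of_forall_eq_zero h4
  have hD : ‖(∫ u, X u * ∫ w in Rt 0 q, ψ (u - w)) - (l ^ 2 : ℝ) * ∫ u, X u * ψ u‖ ≤
      B * (ε * l ^ 2) := by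
    have e2 : (∫ u, X u * ∫ w in Rt 0 q, ψ (u - w)) - ((l ^ 2 : ℝ) : ℂ) * ∫ u, X u * ψ u =
        ∫ u, X u * ((∫ w in Rt 0 q, ψ (u - w)) - (l ^ 2 : ℝ) * ψ u) := by
      rw [← integral_const_mul, ← integral_sub si (hTi.const_mul _)]
      refine integral_congr_ae (Eventually.of_forall fun u => ?_)
      show X u * (∫ w in Rt 0 q, ψ (u - w)) - ((l ^ 2 : ℝ) : ℂ) * (X u * ψ u) = _
      ring
    have e3 : B * (ε * l ^ 2) = ∫ u, (closedBall (0 : ℂ) (R + 2)).indicator
        (fun u => ‖X u‖ * (ε * l ^ 2)) u := by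
      rw [integral_indicator measurableSet_closedBall, integral_mul_const, hB]
    rw [e2, e3]
    refine norm_integral_le_of_norm_le ?_ (Eventually.of_forall fun u => ?_)
    · rw [integrable_indicator_iff measurableSet_closedBall]
      exact hXi.mul_const _
    · rw [norm_mul]
      by_cases hu : u ∈ closedBall (0 : ℂ) (R + 2)
      · rw [indicator_of_mem hu]
        exact mul_le_mul_of_nonneg_left (hav u) (norm_nonneg _)
      · rw [indicator_of_notMem hu, hz0 u hu, norm_zero, mul_zero]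
  have hl20 : 0 < l ^ 2 := by positivity
  obtain ⟨T, hT⟩ : ∃ T : ℂ, T = ∫ u, X u * ψ u := ⟨_, rfl⟩
  obtain ⟨D, hDd⟩ : ∃ D : ℂ, D = ∫ u, X u * ∫ w in Rt 0 q, ψ (u - w) := ⟨_, rfl⟩
  rw [← hT, ← hDd] at hD
  rw [← hDd] at hL
  rw [← hT]
  have h5 : l ^ 2 * ‖T‖ ≤ ‖D‖ + B * (ε * l ^ 2) := by
    calc l ^ 2 * ‖T‖ = ‖((l ^ 2 : ℝ) : ℂ) * T‖ := by
          rw [norm_mul, Complex.norm_real, Real.norm_of_nonneg hl20.le]
      _ = ‖D - (D - ((l ^ 2 : ℝ) : ℂ) * T)‖ := by rw [sub_sub_cancel]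
      _ ≤ ‖D‖ + ‖D - ((l ^ 2 : ℝ) : ℂ) * T‖ := norm_sub_le _ _
      _ ≤ _ := by linarith
  have h6 : B * ε ≤ ε' := by
    rw [hε, mul_div_assoc', div_le_iff₀ (by positivity)]
    nlinarith
  have h7 : l ^ 2 * ‖T‖ ≤ l ^ 2 * (C * (∫ u, ‖φ u‖) + ε') := by
    have h8 : ‖D‖ ≤ C * l ^ 2 * ∫ u, ‖φ u‖ := by
      have := norm_nonneg D
      linarith
    have h9 : B * (ε * l ^ 2) ≤ ε' * l ^ 2 := by
      calc B * (ε * l ^ 2) = (B * ε) * l ^ 2 := by ring
        _ ≤ _ := mul_le_mul_of_nonneg_right h6 hl20.le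
    calc l ^ 2 * ‖T‖ ≤ C * l ^ 2 * (∫ u, ‖φ u‖) + ε' * l ^ 2 := by linarith
      _ = _ := by ring
  exact le_of_mul_le_mul_left h7 hl20

end Pool.Agent.H66.IL
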