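import Pool.Agent.H66.IL.WA

/-!
# [H66 IL WC] UD, chapter ILF: from the weak form to rectangles

PROOF. Fix `q = w - z`, `O' = {z' | Rt z' (z' + q) ⊆ ball 0 R}` (open; contains `z`). For a test function `φ` with support in `O'` let `ψ u = ∫ w in Rt 0 q, φ (u - w)`: `C ^ 1` (`contDiff` of a parametric integral over a compact set; or `ψ` = convolution of the indicator of `Rt 0 q` with `φ`: `HasCompactSupport.contDiff_convolution_right`), support in `tsupport φ + Rt 0 q`, compact in `ball 0 R`,
`db ψ u = ∫ w in Rt 0 q, db φ (u - w)`. `star` and `hw` for `ψ`: `∫ z, RI X z (z + q) φ z = -2 I ∫ X db ψ = 2 I ∫ u, μ u ψ u = 2 I ∫ z, φ z * ∫ u in Rt z (z + q), μ u` (Fubini, `u - w = z`). So the continuous function `z' ↦ RI X z' (z' + q) - 2 I ∫ u in Rt z' (z' + q), μ u` is orthogonal to all test functions with support in `O'`: it vanishes on `O'`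
(`IsOpen.ae_eq_zero_of_integral_contDiff_smul_eq_zero`, then continuity). Continuity: `RI X z (z + q)` by dominated convergence / uniform continuity of `X` on compact sets, the other by `‖μ‖ ≤ C` and the area of the symmetric difference.
-/

set_option autoImplicit false

open Filter Topology Metric Set MeasureTheory

namespace Pool.Agent.H66.IL

private theorem rt_closed (z w : ℂ) : IsClosed (Rt z w) := by
  unfold Rt
  exact (isClosed_le continuous_const Complex.continuous_re).inter
    ((isClosed_le Complex.continuous_re continuous_const).inter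
      ((isClosed_le continuous_const Complex.continuous_im).inter
        (isClosed_le Complex.continuous_im continuous_const)))

private theorem rt_norm {z q u : ℂ} (hu : u ∈ Rt z (z + q)) : ‖u - z‖ ≤ q.re + q.im := by
  obtain ⟨h1, h2, h3, h4⟩ := hu
  rw [Complex.add_re] at h2
  rw [Complex.add_im] at h4
  have h5 := Complex.norm_le_abs_re_add_abs_im (u - z)
  rw [Complex.sub_re, Complex.sub_im, abs_of_nonneg (by linarith), abs_of_nonneg (by linarith)] at h5
  linarith

private theorem rt_compact (z q : ℂ) : IsCompact (Rt z (z + q)) := by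
  refine (isCompact_closedBall z (q.re + q.im)).of_isClosed_subset (rt_closed z _) fun u hu => ?_
  rw [mem_closedBall, dist_eq_norm]
  exact rt_norm hu

private theorem rt_iff {z q u : ℂ} : u ∈ Rt z (z + q) ↔ u - z ∈ Rt 0 q := by
  unfold Rt
  simp only [Set.mem_ofPred_eq, Complex.add_re, Complex.add_im, Complex.sub_re, Complex.sub_im,
    Complex.zero_re, Complex.zero_im]
  constructor
  · rintro ⟨h1, h2, h3, h4⟩
    exact ⟨by linarith, by linarith, by linarith, by linarith⟩
  · rintro ⟨h1, h2, h3, h4⟩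
    exact ⟨by linarith, by linarith, by linarith, by linarith⟩

private theorem int_cont {f : ℂ → ℝ → ℂ} (hf : Continuous (Function.uncurry f)) {a b : ℂ → ℝ}
    (ha : Continuous a) (hb : Continuous b) : Continuous fun z => ∫ t in a z..b z, f z t := by
  have h1 : (fun z => ∫ t in a z..b z, f z t) =
      fun z => (∫ t in (0 : ℝ)..b z, f z t) - ∫ t in (0 : ℝ)..a z, f z t := by
    funext z
    have hc : Continuous (f z) := hf.comp (Continuous.prodMk_right z)
    rw [intervalIntegral.integral_interval_sub_left (hc.intervalIntegrable _ _)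
      (hc.intervalIntegrable _ _)]
  rw [h1]
  exact (intervalIntegral.continuous_parametric_intervalIntegral_of_continuous hf hb).sub
    (intervalIntegral.continuous_parametric_intervalIntegral_of_continuous hf ha)

private theorem ri_cont {X : ℂ → ℂ} (hX : Continuous X) (q : ℂ) :
    Continuous fun z => RI X z (z + q) := by
  unfold RI
  have r1 : Continuous fun z : ℂ => z.re := Complex.continuous_re
  have r2 : Continuous fun z : ℂ => z.im := Complex.continuous_im
  have r3 : Continuous fun z : ℂ => (z + q).re := by fun_prop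
  have r4 : Continuous fun z : ℂ => (z + q).im := by fun_prop
  refine (((int_cont ?_ r1 r3).sub (int_cont ?_ r1 r3)).add
    (continuous_const.mul (int_cont ?_ r2 r4))).sub (continuous_const.mul (int_cont ?_ r2 r4))
  · exact hX.comp (by fun_prop)
  · exact hX.comp (by fun_prop)
  · exact hX.comp (by fun_prop)
  · exact hX.comp (by fun_prop)

private theorem ae_re (a : ℝ) : ∀ᵐ u : ℂ, u.re ≠ a := by
  have h1 : Measure.QuasiMeasurePreserving (Prod.fst : ℝ × ℝ → ℝ) volume volume :=
    Measure.quasiMeasurePreserving_fst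
  have h2 := h1.comp Complex.volume_preserving_equiv_real_prod.quasiMeasurePreserving
  have h3 : ∀ᵐ x : ℝ, x ≠ a := by
    have := measure_singleton (μ := (volume : Measure ℝ)) a
    exact compl_mem_ae_iff.2 this
  exact h2.ae h3

private theorem ae_im (a : ℝ) : ∀ᵐ u : ℂ, u.im ≠ a := by
  have h1 : Measure.QuasiMeasurePreserving (Prod.snd : ℝ × ℝ → ℝ) volume volume :=
    Measure.quasiMeasurePreserving_snd
  have h2 := h1.comp Complex.volume_preserving_equiv_real_prod.quasiMeasurePreserving
  have h3 : ∀ᵐ x : ℝ, x ≠ a := by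
    have := measure_singleton (μ := (volume : Measure ℝ)) a
    exact compl_mem_ae_iff.2 this
  exact h2.ae h3

private theorem ev_le {f : ℂ → ℝ} (hf : Continuous f) {z0 : ℂ} {c : ℝ} (hne : c ≠ f z0) :
    ∀ᶠ z in 𝓝 z0, (f z ≤ c ↔ f z0 ≤ c) := by
  rcases lt_or_gt_of_ne hne with h | h
  · filter_upwards [hf.continuousAt.eventually_const_lt h] with z hz
    exact ⟨fun h1 => absurd h1 (not_le.2 hz), fun h1 => absurd h1 (not_le.2 h)⟩
  · filter_upwards [hf.continuousAt.eventually_lt_const h] with z hz
    exact ⟨fun _ => h.le, fun _ => hz.le⟩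

private theorem ev_ge {f : ℂ → ℝ} (hf : Continuous f) {z0 : ℂ} {c : ℝ} (hne : c ≠ f z0) :
    ∀ᶠ z in 𝓝 z0, (c ≤ f z ↔ c ≤ f z0) := by
  rcases lt_or_gt_of_ne hne with h | h
  · filter_upwards [hf.continuousAt.eventually_const_lt h] with z hz
    exact ⟨fun _ => h.le, fun _ => hz.le⟩
  · filter_upwards [hf.continuousAt.eventually_lt_const h] with z hz
    exact ⟨fun h1 => absurd h1 (not_le.2 hz), fun h1 => absurd h1 (not_le.2 h)⟩

private theorem rt_cont {μ : ℂ → ℂ} (hm : Measurable μ) {C : ℝ} (hb : ∀ z, ‖μ z‖ ≤ C) (q : ℂ) :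
    Continuous fun z => ∫ u in Rt z (z + q), μ u := by
  have hms : ∀ z, MeasurableSet (Rt z (z + q)) := fun z => (rt_closed z _).measurableSet
  have hC : 0 ≤ C := (norm_nonneg _).trans (hb 0)
  have h1 : (fun z => ∫ u in Rt z (z + q), μ u) =
      fun z => ∫ u, (Rt z (z + q)).indicator μ u := by
    funext z
    rw [integral_indicator (hms z)]
  rw [h1, continuous_iff_continuousAt]
  intro z0
  refine tendsto_integral_filter_of_dominated_convergence
    ((closedBall z0 (q.re + q.im + 1)).indicator fun _ => C) ?_ ?_ ?_ ?_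
  · exact Eventually.of_forall fun z => (hm.indicator (hms z)).aestronglyMeasurable
  · filter_upwards [Metric.ball_mem_nhds z0 one_pos] with z hz
    refine Eventually.of_forall fun u => ?_
    by_cases hu : u ∈ Rt z (z + q)
    · have h2 : u ∈ closedBall z0 (q.re + q.im + 1) := by
        rw [mem_closedBall]
        have h3 := dist_triangle u z z0
        have h4 := rt_norm hu
        rw [← dist_eq_norm] at h4
        rw [mem_ball] at hz
        linarith
      rw [indicator_of_mem hu, indicator_of_mem h2]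
      exact hb u
    · rw [indicator_of_notMem hu, norm_zero]
      exact indicator_nonneg (fun _ _ => hC) u
  · rw [integrable_indicator_iff measurableSet_closedBall]
    exact integrableOn_const measure_closedBall_lt_top.ne
  · filter_upwards [ae_re z0.re, ae_re (z0 + q).re, ae_im z0.im, ae_im (z0 + q).im]
      with u a1 a2 a3 a4
    refine tendsto_nhds_of_eventually_eq ?_
    filter_upwards [ev_le Complex.continuous_re a1,
      ev_ge (f := fun z => (z + q).re) (by fun_prop) a2, ev_le Complex.continuous_im a3,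
      ev_ge (f := fun z => (z + q).im) (by fun_prop) a4] with z b1 b2 b3 b4
    have h2 : u ∈ Rt z (z + q) ↔ u ∈ Rt z0 (z0 + q) := and_congr b1 (and_congr b2 (and_congr b3 b4))
    by_cases hu : u ∈ Rt z (z + q)
    · rw [indicator_of_mem hu, indicator_of_mem (h2.1 hu)]
    · rw [indicator_of_notMem hu, indicator_of_notMem fun h3 => hu (h2.2 h3)]

private theorem rt0_compact (q : ℂ) : IsCompact (Rt 0 q) := by
  have h := rt_compact 0 q
  rwa [zero_add] at h

private theorem smear {q : ℂ} {φ : ℂ → ℂ} (h1 : ContDiff ℝ 1 φ) (h2 : HasCompactSupport φ) {O : Set ℂ}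
    (hO : ∀ z ∈ tsupport φ, ∀ k ∈ Rt 0 q, z + k ∈ O) :
    Tf O (fun u => ∫ k in Rt 0 q, φ (u - k)) ∧
    ∀ u, db (fun u => ∫ k in Rt 0 q, φ (u - k)) u = ∫ k in Rt 0 q, db φ (u - k) := by
  have hK : IsCompact (Rt 0 q) := rt0_compact q
  have hKm : MeasurableSet (Rt 0 q) := hK.measurableSet
  set f : ℂ → ℝ := (Rt 0 q).indicator fun _ => 1 with hf
  have hfi : LocallyIntegrable f volume := by
    have h3 : Integrable f volume := by
      rw [hf, integrable_indicator_iff hKm]
      exact integrableOn_const hK.measure_lt_top.ne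
    exact h3.locallyIntegrable
  have hconv : ∀ (g : ℂ → ℂ) (u : ℂ),
      MeasureTheory.convolution f g (ContinuousLinearMap.lsmul ℝ ℝ) volume u =
        ∫ k in Rt 0 q, g (u - k) := by
    intro g u
    rw [MeasureTheory.convolution_def, ← integral_indicator hKm]
    congr 1
    funext t
    rw [ContinuousLinearMap.lsmul_apply, hf]
    by_cases ht : t ∈ Rt 0 q
    · rw [indicator_of_mem ht, indicator_of_mem ht, one_smul]
    · rw [indicator_of_notMem ht, indicator_of_notMem ht, zero_smul]
  have hψ : (fun u => ∫ k in Rt 0 q, φ (u - k)) =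
      MeasureTheory.convolution f φ (ContinuousLinearMap.lsmul ℝ ℝ) volume := by
    funext u
    rw [hconv]
  have hder : ∀ u v, fderiv ℝ (fun u => ∫ k in Rt 0 q, φ (u - k)) u v =
      ∫ k in Rt 0 q, fderiv ℝ φ (u - k) v := by
    intro u v
    rw [hψ, (h2.hasFDerivAt_convolution_right (ContinuousLinearMap.lsmul ℝ ℝ) hfi h1 u).fderiv,
      convolution_precompR_apply _ hfi (h2.fderiv ℝ) (h1.continuous_fderiv one_ne_zero), hconv]
  have hsupp : Function.support (fun u => ∫ k in Rt 0 q, φ (u - k)) ⊆
      (fun p : ℂ × ℂ => p.1 + p.2) '' (tsupport φ ×ˢ Rt 0 q) := by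
    intro u hu
    by_contra hcon
    apply hu
    have h3 : ∀ k ∈ Rt 0 q, φ (u - k) = 0 := by
      intro k hk
      by_contra h4
      exact hcon ⟨(u - k, k), ⟨subset_tsupport _ h4, hk⟩, sub_add_cancel _ _⟩
    show ∫ k in Rt 0 q, φ (u - k) = 0
    rw [setIntegral_congr_fun hKm h3, integral_zero]
  have hcomp : IsCompact ((fun p : ℂ × ℂ => p.1 + p.2) '' (tsupport φ ×ˢ Rt 0 q)) :=
    (IsCompact.prod h2 hK).image continuous_add
  refine ⟨⟨?_, HasCompactSupport.of_support_subset_isCompact hcomp hsupp, ?_⟩, ?_⟩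
  · rw [hψ]
    exact h2.contDiff_convolution_right _ hfi h1
  · refine (closure_minimal hsupp hcomp.isClosed).trans ?_
    rintro _ ⟨⟨z, k⟩, ⟨hz, hk⟩, rfl⟩
    exact hO z hz k hk
  · intro u
    have hc : ∀ v, IntegrableOn (fun k => fderiv ℝ φ (u - k) v) (Rt 0 q) volume := by
      intro v
      refine ContinuousOn.integrableOn_compact hK ?_
      have h3 := h1.continuous_fderiv one_ne_zero
      have h4 : Continuous fun k : ℂ => u - k := continuous_const.sub continuous_id
      exact ((h3.comp h4).clm_apply continuous_const).continuousOn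
    unfold db
    rw [hder, hder, integral_div, integral_add (hc 1) ((hc Complex.I).const_mul _),
      integral_const_mul]

private theorem test {X : ℂ → ℂ} (hX : Continuous X) {R C : ℝ} {μ : ℂ → ℂ} (hm : Measurable μ)
    (hb : ∀ z, ‖μ z‖ ≤ C)
    (hw : ∀ φ : ℂ → ℂ, Tf (ball 0 R) φ → ∫ u, X u * db φ u = - ∫ u, μ u * φ u) {q : ℂ}
    (hq1 : 0 ≤ q.re) (hq2 : 0 ≤ q.im) {φ : ℂ → ℂ} (h1 : ContDiff ℝ 1 φ) (h2 : HasCompactSupport φ)
    (hO : ∀ z ∈ tsupport φ, ∀ k ∈ Rt 0 q, z + k ∈ ball (0 : ℂ) R) :
    ∫ x, RI X x (x + q) * φ x = 2 * Complex.I * ∫ x, (∫ u in Rt x (x + q), μ u) * φ x := by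
  obtain ⟨hT, hdb⟩ := smear h1 h2 hO
  have hK : IsCompact (Rt 0 q) := rt0_compact q
  have hKm : MeasurableSet (Rt 0 q) := hK.measurableSet
  have hC : 0 ≤ C := (norm_nonneg _).trans (hb 0)
  have h3 := star hX (φ := φ) ⟨h1, h2, subset_univ _⟩ hq1 hq2
  have h4 := hw _ hT
  have h5 : ∫ u, X u * ∫ w in Rt 0 q, db φ (u - w) = -∫ u, μ u * ∫ k in Rt 0 q, φ (u - k) := by
    rw [← h4]
    refine integral_congr_ae (Eventually.of_forall fun u => ?_)
    show X u * _ = X u * _
    rw [hdb u]
  let H : ℂ → ℂ → ℂ := fun u x => (Rt 0 q).indicator (fun _ => (1 : ℂ)) (u - x) * (μ u * φ x)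
  have e1 : ∀ u, μ u * ∫ k in Rt 0 q, φ (u - k) = ∫ x, H u x := by
    intro u
    rw [← integral_indicator hKm, ← integral_const_mul (μ u),
      ← integral_sub_left_eq_self (fun x => H u x) volume u]
    refine integral_congr_ae (Eventually.of_forall fun k => ?_)
    show μ u * (Rt 0 q).indicator (fun k => φ (u - k)) k =
      (Rt 0 q).indicator (fun _ => (1 : ℂ)) (u - (u - k)) * (μ u * φ (u - k))
    rw [sub_sub_cancel]
    by_cases hk : k ∈ Rt 0 q
    · rw [indicator_of_mem hk, indicator_of_mem hk, one_mul]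
    · rw [indicator_of_notMem hk, indicator_of_notMem hk, zero_mul, mul_zero]
  have e2 : ∀ x, (∫ u in Rt x (x + q), μ u) * φ x = ∫ u, H u x := by
    intro x
    rw [← integral_indicator (rt_closed x _).measurableSet, ← integral_mul_const (φ x)]
    refine integral_congr_ae (Eventually.of_forall fun u => ?_)
    show (Rt x (x + q)).indicator μ u * φ x =
      (Rt 0 q).indicator (fun _ => (1 : ℂ)) (u - x) * (μ u * φ x)
    by_cases hu : u ∈ Rt x (x + q)
    · rw [indicator_of_mem hu, indicator_of_mem (rt_iff.1 hu), one_mul]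
    · rw [indicator_of_notMem hu, indicator_of_notMem fun h => hu (rt_iff.2 h), zero_mul, zero_mul]
  have hint : Integrable (Function.uncurry H) (volume.prod volume) := by
    obtain ⟨B, hB⟩ := h2.exists_bound_of_continuous h1.continuous
    have hcomp : IsCompact ((fun p : ℂ × ℂ => p.1 + p.2) '' (tsupport φ ×ˢ Rt 0 q)) :=
      (IsCompact.prod h2 hK).image continuous_add
    have hsupp : Function.support (Function.uncurry H) ⊆
        ((fun p : ℂ × ℂ => p.1 + p.2) '' (tsupport φ ×ˢ Rt 0 q)) ×ˢ tsupport φ := by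
      rintro ⟨u, x⟩ hux
      have h6 : (Rt 0 q).indicator (fun _ => (1 : ℂ)) (u - x) * (μ u * φ x) ≠ 0 := hux
      have h7 : u - x ∈ Rt 0 q := by
        by_contra h8
        rw [indicator_of_notMem h8, zero_mul] at h6
        exact h6 rfl
      have h8 : x ∈ tsupport φ := subset_tsupport _
        (right_ne_zero_of_mul (right_ne_zero_of_mul h6))
      exact ⟨⟨(x, u - x), ⟨h8, h7⟩, add_sub_cancel _ _⟩, h8⟩
    refine (integrableOn_iff_integrable_of_support_subset hsupp).1
      (Measure.integrableOn_of_bounded (M := C * B) ?_ ?_ ?_)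
    · rw [Measure.prod_prod]
      exact (ENNReal.mul_lt_top hcomp.measure_lt_top (IsCompact.measure_lt_top h2)).ne
    · refine Measurable.aestronglyMeasurable ?_
      have a1 : Measurable fun p : ℂ × ℂ => (Rt 0 q).indicator (fun _ => (1 : ℂ)) (p.1 - p.2) :=
        (measurable_const.indicator hKm).comp (measurable_fst.sub measurable_snd)
      have a2 : Measurable fun p : ℂ × ℂ => μ p.1 := hm.comp measurable_fst
      have a3 : Measurable fun p : ℂ × ℂ => φ p.2 := h1.continuous.measurable.comp measurable_snd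
      exact a1.mul (a2.mul a3)
    · refine Eventually.of_forall ?_
      rintro ⟨u, x⟩
      show ‖(Rt 0 q).indicator (fun _ => (1 : ℂ)) (u - x) * (μ u * φ x)‖ ≤ C * B
      have h6 : ‖(Rt 0 q).indicator (fun _ => (1 : ℂ)) (u - x)‖ ≤ 1 := by
        by_cases hk : u - x ∈ Rt 0 q
        · rw [indicator_of_mem hk, norm_one]
        · rw [indicator_of_notMem hk, norm_zero]
          exact zero_le_one
      rw [norm_mul, norm_mul]
      calc ‖(Rt 0 q).indicator (fun _ => (1 : ℂ)) (u - x)‖ * (‖μ u‖ * ‖φ x‖)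
          ≤ 1 * (C * B) := mul_le_mul h6 (mul_le_mul (hb u) (hB x) (norm_nonneg _) hC)
            (by positivity) zero_le_one
        _ = C * B := one_mul _
  have h6 : ∫ u, μ u * ∫ k in Rt 0 q, φ (u - k) = ∫ x, (∫ u in Rt x (x + q), μ u) * φ x := by
    rw [integral_congr_ae (Eventually.of_forall e1), integral_congr_ae (Eventually.of_forall e2)]
    exact integral_integral_swap hint
  rw [h3, h5, h6]
  ring

theorem rect {X : ℂ → ℂ} (hX : Continuous X) {R C : ℝ} {μ : ℂ → ℂ} (hm : Measurable μ) (hb : ∀ z, ‖μ z‖ ≤ C)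
    (hw : ∀ φ : ℂ → ℂ, Tf (ball 0 R) φ → ∫ u, X u * db φ u = - ∫ u, μ u * φ u) {z w : ℂ} (h1 : z.re ≤ w.re) (h2 : z.im ≤ w.im)
    (hs : Rt z w ⊆ ball 0 R) : RI X z w = 2 * Complex.I * ∫ u in Rt z w, μ u := by
  obtain ⟨q, hq⟩ : ∃ q : ℂ, w = z + q := ⟨w - z, by ring⟩
  subst hq
  rw [Complex.add_re] at h1
  rw [Complex.add_im] at h2
  have hq1 : 0 ≤ q.re := by linarith
  have hq2 : 0 ≤ q.im := by linarith
  obtain ⟨δ, hδ, hth⟩ := (rt_compact z q).exists_thickening_subset_open isOpen_ball hs
  have hadd : ∀ z' ∈ ball z δ, ∀ k ∈ Rt 0 q, z' + k ∈ ball (0 : ℂ) R := by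
    intro z' hz' k hk
    apply hth
    rw [mem_thickening_iff]
    refine ⟨z + k, rt_iff.2 (by rwa [add_sub_cancel_left]), ?_⟩
    rw [mem_ball] at hz'
    rwa [dist_add_right]
  have c1 := ri_cont hX q
  have c2 := rt_cont hm hb q
  have hG : Continuous fun x => RI X x (x + q) - 2 * Complex.I * ∫ u in Rt x (x + q), μ u :=
    c1.sub (continuous_const.mul c2)
  have hae : ∀ᵐ x : ℂ, x ∈ ball z δ →
      RI X x (x + q) - 2 * Complex.I * ∫ u in Rt x (x + q), μ u = 0 := by
    refine isOpen_ball.ae_eq_zero_of_integral_contDiff_smul_eq_zero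
      (hG.locallyIntegrable.locallyIntegrableOn _) ?_
    intro g hg hgc hgs
    have d1 : ContDiff ℝ 1 (fun x => (g x : ℂ)) := by
      have h3 : ContDiff ℝ 1 g := hg.of_le (by exact_mod_cast le_top)
      exact Complex.ofRealCLM.contDiff.comp h3
    have d2 : Function.support (fun x => (g x : ℂ)) = Function.support g := by
      ext x
      simp [Function.mem_support]
    have d3 : tsupport (fun x => (g x : ℂ)) = tsupport g := by
      unfold tsupport
      rw [d2]
    have d4 : HasCompactSupport (fun x => (g x : ℂ)) := by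
      unfold HasCompactSupport
      rw [d3]
      exact hgc
    have h3 := test hX hm hb hw hq1 hq2 d1 d4 (by
      rw [d3]
      exact fun x hx k hk => hadd x (hgs hx) k hk)
    have i1 : Integrable (fun x => RI X x (x + q) * (g x : ℂ)) volume :=
      (c1.mul d1.continuous).integrable_of_hasCompactSupport d4.mul_left
    have i2 : Integrable (fun x => (∫ u in Rt x (x + q), μ u) * (g x : ℂ)) volume :=
      (c2.mul d1.continuous).integrable_of_hasCompactSupport d4.mul_left
    have e3 : ∀ x, g x • (RI X x (x + q) - 2 * Complex.I * ∫ u in Rt x (x + q), μ u) =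
        RI X x (x + q) * (g x : ℂ) - 2 * Complex.I * ((∫ u in Rt x (x + q), μ u) * (g x : ℂ)) := by
      intro x
      rw [Complex.real_smul]
      ring
    rw [integral_congr_ae (Eventually.of_forall e3), integral_sub i1 (i2.const_mul _),
      integral_const_mul, h3, sub_self]
  have h3 : (fun x => RI X x (x + q) - 2 * Complex.I * ∫ u in Rt x (x + q), μ u)
      =ᵐ[volume.restrict (ball z δ)] fun _ => 0 := (ae_restrict_iff' measurableSet_ball).2 hae
  have h4 := Measure.eqOn_open_of_ae_eq h3 isOpen_ball hG.continuousOn continuousOn_const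
    (mem_ball_self hδ)
  exact sub_eq_zero.1 h4

end Pool.Agent.H66.IL
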