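import Pool.Agent.H66.IL.NZ
import Pool.Agent.H66.IL.TZ
import Pool.Agent.H66.IL.SQ
import Pool.Agent.H66.IL.WA
import Pool.Agent.H66.IL.WB
import Pool.Agent.H66.IL.WC
import Pool.Agent.H66.IL.CT
import Pool.Agent.H66.IL.Defs

/-!
# [H66 IL FXA] UD, chapter ILF: abstract end

`mu_all`: from the bound over small squares to `μ` with the rectangle identity. PROOF: `wk_bd`, `mu_ex`, `rect`.
`mu_off`: where `X` is holomorphic `μ = 0` almost everywhere. PROOF. Let `K ⊆ O` be compact; claim `volume {z ∈ K | μ z ≠ 0} = 0`. Otherwise `eg` (with `J := K`): `E`, `b0`; `z ∈ E` (`0 < volume E`); `tz` with `ε = b0 / 8`: `η`; `eg` with `η / 4`: for small `r` (with `ball z (2 r) ⊆ O`) `∫ u in ball z (2 r), ‖μ u - μ z‖ ≤ η r ^ 2`: `H` with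
`‖X w - μ z * conj (w - z) - H w‖ ≤ (b0 / 8) r` on `ball z r`. Let `Q = Rt (z - r/4 (1 + i)) (z + r/4 (1 + i)) ⊆ ball z r`, side `r / 2`: `RI` over `Q` of `X - H` is `0` (`ri_hol`), of `μ z * conj (w - z)` is `2 i μ z (r/2)^2` (`ri_conj`, `ri_smul`), of the difference at most `(b0 / 8) r * 2 r` (`ri_le`, `ri_add`): `‖μ z‖ r^2 / 2 ≤ b0 r^2 / 4`, but `b0 ≤ ‖μ z‖`.
`O` is a countable union of compact sets (`O = ⋃ n, {z ∈ closedBall 0 n | 1 / (n + 1) ≤ infDist z Oᶜ}`, or `IsOpen.isSigmaCompact`).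
`fxa`. PROOF. `J ⊆ ball 0 R0`, `R = R0 + 1`. `sq_pl` (`Thk`; `‖w - x‖ ≠ 0` etc.): `C', l0`; `mu_all`. If `volume {z ∈ J | μ z ≠ 0} = 0` then `μ = 0` a.e. on `ball 0 R` (`mu_off` for `O = ball 0 R \ J`), so `RI X z w = 0` for all rectangles in `ball 0 R`, and `nz` gives `X = 0`: contradiction. So `eg` gives `E, b0`. Let `s = max C' 1`, `X' = X / s`, `h' = h / s`, `μ' = μ / s`, `b0' = b0 / s`.
`T`: for `ε` take `tz` with `ε * s`: `η`; `eg` with `η / 4`: `ρ1`; `ρ = min (ρ1 / 2) (1 / 2)`: for `z ∈ E ⊆ J`, `r < ρ`: `ball z (2 r) ⊆ ball 0 R`; divide by `s`.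
-/

set_option autoImplicit false

open Filter Topology Polynomial Metric Set MeasureTheory

namespace Pool.Agent.H66.IL

private theorem setIntegral_eq_zero_of_ae_null {μ : ℂ → ℂ} {R : ℝ}
    (hnull : volume {z ∈ ball (0 : ℂ) R | μ z ≠ 0} = 0) {a b : ℂ} (h : Rt a b ⊆ ball 0 R) :
    ∫ u in Rt a b, μ u = 0 := by
  have hmeas : MeasurableSet (Rt a b) :=
    (measurableSet_le measurable_const Complex.measurable_re).inter
      ((measurableSet_le Complex.measurable_re measurable_const).inter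
        ((measurableSet_le measurable_const Complex.measurable_im).inter
          (measurableSet_le Complex.measurable_im measurable_const)))
  have h1 : ∀ᵐ u ∂(volume.restrict (Rt a b)), μ u = (fun _ : ℂ => (0 : ℂ)) u := by
    rw [ae_restrict_iff' hmeas, ae_iff]
    refine measure_mono_null (fun u hu => ?_) hnull
    have h2 : ¬ (u ∈ Rt a b → μ u = 0) := hu
    push Not at h2
    exact ⟨h h2.1, h2.2⟩
  rw [integral_congr_ae h1, integral_zero]

theorem mu_all {X : ℂ → ℂ} (hX : Continuous X) {R C l0 : ℝ} (hC : 0 ≤ C) (hl0 : 0 < l0)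
    (hsq : ∀ z ∈ ball (0 : ℂ) R, ∀ l : ℝ, 0 < l → l ≤ l0 → ‖RI X z (z + (l + l * Complex.I))‖ ≤ C * l ^ 2) :
    ∃ μ : ℂ → ℂ, Measurable μ ∧ (∀ z, ‖μ z‖ ≤ C) ∧
      ∀ z w : ℂ, z.re ≤ w.re → z.im ≤ w.im → Rt z w ⊆ ball 0 R → RI X z w = 2 * Complex.I * ∫ u in Rt z w, μ u := by
  obtain ⟨μ, h1, h2, h3⟩ := mu_ex hX hC fun φ hφ => wk_bd hX hC hl0 hsq hφ
  exact ⟨μ, h1, h2, fun z w hz hw hs => rect hX h1 h2 h3 hz hw hs⟩

theorem mu_off {X μ : ℂ → ℂ} (hX : Continuous X) {R C : ℝ} (hm : Measurable μ) (hb : ∀ z, ‖μ z‖ ≤ C)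
    (hri : ∀ z w : ℂ, z.re ≤ w.re → z.im ≤ w.im → Rt z w ⊆ ball 0 R → RI X z w = 2 * Complex.I * ∫ u in Rt z w, μ u)
    {O : Set ℂ} (hO : IsOpen O) (hOR : O ⊆ ball 0 R) (hd : DifferentiableOn ℂ X O) : volume {z ∈ O | μ z ≠ 0} = 0 := by
  by_contra hne
  have hpos : 0 < volume {z ∈ O | μ z ≠ 0} := pos_iff_ne_zero.2 hne
  have hms : MeasurableSet {z ∈ O | μ z ≠ 0} :=
    hO.measurableSet.inter (hm (measurableSet_singleton 0)).compl
  obtain ⟨K, hKs, hK, hKp⟩ := hms.exists_lt_isCompact hpos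
  have hKe : {z ∈ K | μ z ≠ 0} = K := by
    ext z
    exact ⟨fun h => h.1, fun h => ⟨h, (hKs h).2⟩⟩
  obtain ⟨E, b0, hb0, hEc, hEK, hEp, hlb, hη⟩ := eg hm hb hK (by rw [hKe]; exact hKp)
  obtain ⟨z, hz⟩ : E.Nonempty := nonempty_of_measure_ne_zero hEp.ne'
  have hzO : z ∈ O := (hKs (hEK hz)).1
  obtain ⟨ρ0, hρ0, hball⟩ := Metric.isOpen_iff.1 hO z hzO
  obtain ⟨η, hη0, hH⟩ := tz hX hm hb hri (ε := b0 / 8) (by positivity)
  obtain ⟨ρ1, hρ1, hi⟩ := hη (η / 4) (by positivity)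
  obtain ⟨r, hr, hr0, hr1⟩ : ∃ r : ℝ, 0 < r ∧ 2 * r < ρ0 ∧ 2 * r < ρ1 := by
    refine ⟨min ρ0 ρ1 / 4, by positivity, ?_, ?_⟩
    · have := min_le_left ρ0 ρ1
      have h4 : 0 < min ρ0 ρ1 := lt_min hρ0 hρ1
      linarith
    · have := min_le_right ρ0 ρ1
      have h4 : 0 < min ρ0 ρ1 := lt_min hρ0 hρ1
      linarith
  have hbO : ball z (2 * r) ⊆ O := (ball_subset_ball hr0.le).trans hball
  obtain ⟨H, hHd, hHb⟩ := hH z r hr (hbO.trans hOR) (by
    have h1 := hi z hz (2 * r) (by positivity) hr1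
    refine h1.trans (le_of_eq ?_)
    ring)
  have hbr : ball z r ⊆ O := (ball_subset_ball (by linarith)).trans hbO
  obtain ⟨q, hq⟩ : ∃ q : ℂ, q = ((r / 4 : ℝ) : ℂ) * (1 + Complex.I) := ⟨_, rfl⟩
  have hqr : q.re = r / 4 := by
    rw [hq]; simp
  have hqi : q.im = r / 4 := by
    rw [hq]; simp
  have h1 : (z - q).re ≤ (z + q).re := by
    rw [Complex.sub_re, Complex.add_re, hqr]; linarith
  have h2 : (z - q).im ≤ (z + q).im := by
    rw [Complex.sub_im, Complex.add_im, hqi]; linarith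
  have hQ : Rt (z - q) (z + q) ⊆ ball z r := by
    rintro u ⟨h3, h4, h5, h6⟩
    rw [Complex.sub_re, hqr] at h3
    rw [Complex.add_re, hqr] at h4
    rw [Complex.sub_im, hqi] at h5
    rw [Complex.add_im, hqi] at h6
    rw [mem_ball, dist_eq_norm]
    have h7 := Complex.norm_le_abs_re_add_abs_im (u - z)
    have h8 : |(u - z).re| ≤ r / 4 := by
      rw [Complex.sub_re, abs_le]; constructor <;> linarith
    have h9 : |(u - z).im| ≤ r / 4 := by
      rw [Complex.sub_im, abs_le]; constructor <;> linarith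
    linarith
  obtain ⟨Y, hY⟩ : ∃ Y : ℂ → ℂ, ∀ u, Y u = X u - μ z * (starRingEnd ℂ) (u - z) - H u :=
    ⟨_, fun _ => rfl⟩
  have hHc : ContinuousOn H (Rt (z - q) (z + q)) := hHd.continuousOn.mono hQ
  have hcc : Continuous (fun u : ℂ => μ z * (starRingEnd ℂ) (u - z)) :=
    continuous_const.mul (Complex.continuous_conj.comp (continuous_id.sub continuous_const))
  have hYc : ContinuousOn Y (Rt (z - q) (z + q)) := by
    have h3 : Y = fun u => X u - μ z * (starRingEnd ℂ) (u - z) - H u := funext hY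
    rw [h3]
    exact (hX.continuousOn.sub hcc.continuousOn).sub hHc
  have e1 : RI (fun u => X u - H u) (z - q) (z + q) = 0 := by
    refine ri_hol h1 h2 (hX.continuousOn.sub hHc) Set.countable_empty fun u hu _ => ?_
    exact (hd.differentiableAt (hO.mem_nhds (hbr (hQ hu)))).sub
      (hHd.differentiableAt (isOpen_ball.mem_nhds (hQ hu)))
  have e2 : (fun u => X u - H u) = fun u => μ z * (starRingEnd ℂ) (u - z) + Y u := by
    funext u
    rw [hY]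
    ring
  rw [e2, ri_add h1 h2 hcc.continuousOn hYc, ri_smul, ri_conj h1 h2] at e1
  have e3 : ‖RI Y (z - q) (z + q)‖ ≤ (b0 / 8 * r) *
      (2 * ((z + q).re - (z - q).re) + 2 * ((z + q).im - (z - q).im)) := by
    refine ri_le h1 h2 fun u hu => ?_
    rw [hY]
    exact hHb u (hQ hu)
  rw [Complex.add_re, Complex.sub_re, Complex.add_im, Complex.sub_im, hqr, hqi] at e3
  rw [Complex.add_re, Complex.sub_re, Complex.add_im, Complex.sub_im, hqr, hqi] at e1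
  have e4 : RI Y (z - q) (z + q) = -(μ z * (2 * Complex.I * ((r ^ 2 / 4 : ℝ) : ℂ))) := by
    rw [eq_neg_iff_add_eq_zero, add_comm, ← e1]
    push_cast
    ring
  rw [e4, norm_neg, norm_mul, norm_mul, norm_mul, Complex.norm_I, Complex.norm_real,
    Real.norm_of_nonneg (by positivity)] at e3
  have e5 : ‖(2 : ℂ)‖ = 2 := by simp
  rw [e5] at e3
  have e6 := hlb z hz
  have e7 : 0 < b0 * r ^ 2 := by positivity
  nlinarith [mul_le_mul_of_nonneg_right e6 (sq_nonneg r)]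

theorem fxa {f : ℂ → ℂ} {U J : Set ℂ} {X h : ℂ → ℂ} (hJ : IsCompact J) (hX : Continuous X) (hd : DifferentiableOn ℂ X Jᶜ)
    (hh : DifferentiableOn ℂ h U) (he : ∀ z ∈ U, X (f z) = deriv f z * X z + h z) {C δ : ℝ} (hC : 0 ≤ C) (hδ : 0 < δ)
    (ht : ∀ x ∈ J, ∀ y ∈ J, x ≠ y → ∀ w : ℂ, infDist w J < δ → w ≠ x →
      ‖X w - X x - (w - x) / (y - x) * (X y - X x)‖ ≤ C * ‖w - x‖ * (1 + |Real.log (‖y - x‖ / ‖w - x‖)|))
    (hth : Thk J) {κ : ℕ} {C1 R1 : ℝ} (hg : ∀ z : ℂ, R1 < ‖z‖ → ‖X z‖ ≤ C1 * (1 + ‖z‖) ^ κ) {Z : Fin (κ + 1) → ℂ}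
    (hZ : Function.Injective Z) (hz : ∀ i, X (Z i) = 0) (hnz : ∃ z, X z ≠ 0) :
    ∃ (E : Set ℂ) (X' h' μ : ℂ → ℂ) (b0 : ℝ), ∀ δ' : ℝ, Pool.Agent.H56.UD.FX f U J E δ' X' h' μ b0 := by
  obtain ⟨R0, hR0, hJR⟩ : ∃ R0 : ℝ, 0 < R0 ∧ J ⊆ ball 0 R0 := by
    obtain ⟨R0, h1⟩ := hJ.isBounded.subset_ball (0 : ℂ)
    exact ⟨max R0 1, lt_max_of_lt_right one_pos, h1.trans (ball_subset_ball (le_max_left _ _))⟩
  obtain ⟨θ, r1, hθ, hr1, hth'⟩ := hth
  obtain ⟨C', l0, hC', hl0, hsq⟩ := sq_pl hX hJ.isClosed hd hC hδ hθ hr1 hth' ht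
  obtain ⟨μ, hm, hb, hri⟩ := mu_all (R := R0 + 1) hX hC' hl0 fun z _ l h1 h2 => hsq z l h1 h2
  have hJR' : J ⊆ ball 0 (R0 + 1) := hJR.trans (ball_subset_ball (by linarith))
  have hpos : 0 < volume {z ∈ J | μ z ≠ 0} := by
    rw [pos_iff_ne_zero]
    intro h0
    have hoff : volume {z ∈ ball (0 : ℂ) (R0 + 1) \ J | μ z ≠ 0} = 0 := by
      refine mu_off hX hm hb hri (isOpen_ball.sdiff hJ.isClosed) diff_subset (hd.mono ?_)
      exact fun z hz => hz.2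
    have hnull : volume {z ∈ ball (0 : ℂ) (R0 + 1) | μ z ≠ 0} = 0 := by
      refine measure_mono_null ?_ (measure_union_null h0 hoff)
      rintro z ⟨h1, h2⟩
      by_cases hz : z ∈ J
      · exact Or.inl ⟨hz, h2⟩
      · exact Or.inr ⟨⟨h1, hz⟩, h2⟩
    obtain ⟨z0, hz0⟩ := hnz
    refine hz0 (nz hX hJR' hd hJ.isClosed (fun a b h1 h2 h3 => ?_) hg hZ hz z0)
    rw [hri a b h1 h2 h3]
    have h4 : ∫ u in Rt a b, μ u = 0 := by
      refine setIntegral_eq_zero_of_ae_null hnull h3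
    rw [h4, mul_zero]
  obtain ⟨E, b0, hb0, hEc, hEJ, hEp, hlb, hη⟩ := eg hm hb hJ hpos
  obtain ⟨s, hs⟩ : ∃ s : ℝ, s = max C' 1 := ⟨_, rfl⟩
  have hs1 : 1 ≤ s := by rw [hs]; exact le_max_right _ _
  have hsC : C' ≤ s := by rw [hs]; exact le_max_left _ _
  have hs0 : 0 < s := by linarith
  have hsn : ∀ u : ℂ, ‖u / (s : ℂ)‖ = ‖u‖ / s := fun u => by
    rw [norm_div, Complex.norm_real, Real.norm_of_nonneg hs0.le]
  refine ⟨E, fun z => X z / (s : ℂ), fun z => h z / (s : ℂ), fun z => μ z / (s : ℂ), b0 / s,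
    fun δ' => ?_⟩
  refine ⟨by positivity, hX.div_const _, hh.div_const _, ?_, ?_, hEc, hEJ, hEp, ?_, ?_⟩
  · intro z hz
    change X (f z) / (s : ℂ) = deriv f z * (X z / (s : ℂ)) + h z / (s : ℂ)
    rw [he z hz]
    ring
  · exact (hd.mono fun z hz => hz.2).div_const _
  · intro z hz
    rw [hsn]
    exact ⟨div_le_div_of_nonneg_right (hlb z hz) hs0.le,
      (div_le_one hs0).2 ((hb z).trans hsC)⟩
  · intro ε hε
    obtain ⟨η, hη0, hH⟩ := tz hX hm hb hri (ε := ε * s) (by positivity)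
    obtain ⟨ρ1, hρ1, hi⟩ := hη (η / 4) (by positivity)
    refine ⟨min (ρ1 / 2) (1 / 2), lt_min (by positivity) (by positivity), ?_⟩
    intro z hz r hr hrρ
    have hr2 : r < ρ1 / 2 := hrρ.trans_le (min_le_left _ _)
    have hr3 : r < 1 / 2 := hrρ.trans_le (min_le_right _ _)
    have hbR : ball z (2 * r) ⊆ ball 0 (R0 + 1) := by
      intro u hu
      have h1 := hJR (hEJ hz)
      rw [mem_ball_zero_iff] at h1 ⊢
      rw [mem_ball, dist_eq_norm] at hu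
      have h2 := norm_add_le (u - z) z
      rw [sub_add_cancel] at h2
      linarith
    obtain ⟨H, hHd, hHb⟩ := hH z r hr hbR (by
      have h1 := hi z hz (2 * r) (by positivity) (by linarith)
      refine h1.trans (le_of_eq ?_)
      ring)
    refine ⟨fun w => H w / (s : ℂ), hHd.div_const _, fun w hw => ?_⟩
    have h1 : X w / (s : ℂ) - μ z / (s : ℂ) * (starRingEnd ℂ) (w - z) - H w / (s : ℂ) =
        (X w - μ z * (starRingEnd ℂ) (w - z) - H w) / (s : ℂ) := by ring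
    rw [h1, hsn, div_le_iff₀ hs0]
    refine (hHb w hw).trans (le_of_eq ?_)
    ring

end Pool.Agent.H66.IL
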