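import Pool.Agent.H66.IL.FXP

/-!
# UD, chapter ILF: the field for a general chart (for the bridge H27/BR)

`FXD u D`: degrees and directions. `fxd_up`, `fxd_upF`. `il_ga`: the field, for a chart with `GA`, the Lagrange identity and the motions of degree `D`, and `FXD u D`.
-/

set_option autoImplicit false

open Filter Topology Polynomial Metric Set MeasureTheory

namespace Pool.Agent.H66.IL

open Pool.Agent.H44.Fatou (rat rat_continuous rat_coe rat_coe_of_ne pt crit_coe ev)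
open Pool.Agent.H56.HR (FS)
open Pool.Agent.H32.BT Pool.Agent.H79.Eul Pool.Agent.H79.Par Pool.Agent.H79.ES Pool.Agent.H47.NN Pool.Agent.H44.RC Pool.Agent.H84.BR
open Pool.Agent.H64.NC (GA JC)
open Pool.Agent.H61.TT (gg ww RatD fs RegV)
open Pool.Agent.H57.CP (tD)
open Pool.Agent.H83.UP (PP MOT)
open Pool.Agent.H44.ND Pool.Agent.H57.CF Pool.Agent.H44.CP Pool.Agent.H47.NM Pool.Agent.H18.UP

variable {d : ℕ} {v : E d}

/-- degrees and directions -/
def FXD (u : E d) (D : ℕ) : Prop := ∃ κ : ℕ, κ ≤ 2 ∧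
  (∀ a : ℂ, ((pol u.1 - C a * pol u.2) ^ κ * (pol u.2) ^ (2 - κ)).natDegree ≤ D) ∧
  (ww (pol u.1) (pol u.2)).natDegree + κ ≤ D ∧ Drs u D

theorem fxd_up (hd : 2 ≤ d) (hcop : IsCoprime (pol v.1) (pol v.2)) (hdeg : max (pol v.1).natDegree (pol v.2).natDegree = d)
    (hup : ¬ Up v) : FXD v (2 * d) := by
  have hrt : RatD d (pol v.1) (pol v.2) := ⟨hd, hcop, hdeg⟩
  have hw := Pool.Agent.H44.RR.ww_deg hrt
  have ha : (pol v.1).natDegree ≤ d := (le_max_left _ _).trans (le_of_eq hdeg)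
  have hb : (pol v.2).natDegree ≤ d := (le_max_right _ _).trans (le_of_eq hdeg)
  refine ⟨2, le_rfl, fun a => ?_, by omega, drs_up hd hcop hdeg hup⟩
  have h1 : (pol v.1 - C a * pol v.2).natDegree ≤ d :=
    (natDegree_sub_le _ _).trans (max_le ha ((natDegree_C_mul_le _ _).trans hb))
  rw [Nat.sub_self, pow_zero, mul_one]
  exact (natDegree_pow_le).trans (Nat.mul_le_mul_left 2 h1)

theorem fxd_upF {k : ℕ} (hd : 2 ≤ d) (hk : 2 ≤ k) (hkd : k ≤ d) {x : Em d k} (hg : GenM d k (pol x.1) (pol x.2))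
    (hup : ¬ UpF d k x) : FXD (ex d k x) (2 * d - k) := by
  have hbk : (pol (ex d k x).2).natDegree + k ≤ d := by
    rw [(fam_ex hk hkd hg).hb]
    omega
  have hdeg : max (pol (ex d k x).1).natDegree (pol (ex d k x).2).natDegree = d := ex_deg (Pool.Agent.H57.CF.genM_deg hg)
  have ha : (pol (ex d k x).1).natDegree ≤ d := (le_max_left _ _).trans (le_of_eq hdeg)
  have ha' := natDegree_derivative_le (pol (ex d k x).1)
  have hb' := natDegree_derivative_le (pol (ex d k x).2)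
  have hw : (ww (pol (ex d k x).1) (pol (ex d k x).2)).natDegree + 1 ≤ 2 * d - k := by
    have h1 : (ww (pol (ex d k x).1) (pol (ex d k x).2)).natDegree ≤ 2 * d - k - 1 := by
      unfold Pool.Agent.H61.TT.ww
      refine (natDegree_sub_le _ _).trans (max_le ?_ ?_)
      · exact natDegree_mul_le.trans (by omega)
      · by_cases h0 : (pol (ex d k x).2).natDegree = 0
        · rw [natDegree_eq_zero.1 h0 |>.choose_spec.symm, derivative_C, mul_zero, natDegree_zero]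
          omega
        · exact natDegree_mul_le.trans (by omega)
    omega
  refine ⟨1, one_le_two, fun a => ?_, hw, drs_upF hd hk hkd hg hup⟩
  have h1 : (pol (ex d k x).1 - C a * pol (ex d k x).2).natDegree ≤ d :=
    (natDegree_sub_le _ _).trans (max_le ha ((natDegree_C_mul_le _ _).trans (by omega)))
  rw [pow_one, show 2 - 1 = 1 from rfl, pow_one]
  exact natDegree_mul_le.trans (by omega)

theorem il_ga {T : Set (OnePoint ℂ)} {D : ℕ} (h : GA v T) (hD : 1 ≤ D) (wd : (ww (pol v.1) (pol v.2)).natDegree ≤ D + 1)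
    (lg : ∀ x : ℂ, RegV d (pol v.1) (pol v.2) x → ∃ η : Polynomial ℂ, η.natDegree ≤ D ∧
      ∀ z : ℂ, (pol v.2).eval z ≠ 0 → gg (pol v.1) (pol v.2) z ≠ x →
      ∑ y ∈ fs (pol v.1) (pol v.2) x, Pool.Agent.H61.TT.dg (pol v.1) (pol v.2) z / ((y - z) * Pool.Agent.H61.TT.dg (pol v.1) (pol v.2) y ^ 2) =
        1 / (x - gg (pol v.1) (pol v.2) z) + η.eval z / (pol v.2).eval z ^ 2)
    (mot : ∀ η : Polynomial ℂ, η.natDegree ≤ D → ∃ (r R : ℝ) (F : ℂ → ℂ → ℂ), MOT (pol v.1) (pol v.2) (PP v) η r R F)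
    (hF : FXD v D) {c : ℂ} (hc : IsCrit (Rf v) (c : OnePoint ℂ)) (hcJ : (c : OnePoint ℂ) ∈ JS (Rf v)) :
    ∃ (E : Set ℂ) (X h μ : ℂ → ℂ) (b0 : ℝ), ∀ δ : ℝ,
      Pool.Agent.H56.UD.FX (gg (pol v.1) (pol v.2)) {z : ℂ | (pol v.2).eval z ≠ 0} (JC v) E δ X h μ b0 := by
  obtain ⟨κ, hκ, hR, hS, hdir⟩ := hF
  obtain ⟨δ0, R0, hU⟩ := us0 h hD wd hc hcJ lg
  obtain ⟨C0, V, hV⟩ := Pool.Agent.H83.UP.vp_ga h hU mot
  exact fx_ga h hκ hR hS hdir hU hV hc hcJ

end Pool.Agent.H66.IL
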