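import Pool.Agent.H66.IL.Defs
import Pool.Agent.H64.PC.VB4

/-!
# [H66 IL MT] UD, chapter ILF: motions

`mot2`: `mot_line` (H83/UP/MLN) with one more clause: the moving point is on a cycle of multiplier of modulus at least one of the map with parameter `t` (in its proof: `F x t` is in `KS v w p r R`: `Gp p`, `wi p = id`, `1 ≤ ‖mu p‖`; `wi_cyc` gives `Cyc`). Copy the proof (or generalize).
`pp_out`: such points are not in `T` and not attracted (`big_na_all`, H44/CP/MNT: points of cycles with `1 ≤ ‖m‖` are not attracted; `LN.pa`: all points of `T ⊆ Rf v ⁻¹ T` are attracted).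
`zt`: the preimages of a constant `u` in the fundamental region move. PROOF. A mark `q ∈ ℂ`, `q ∈ interior T` (`GA.ti`: a neighbourhood of infinity contains finite points). `BD v w r (fun _ => q) (fun _ => u)` (H64/PC/VB2): `nq`: the orbit of `q` under `Rf (v + t w)` is in `interior T` (`LN.tr`), `u` is not. `nc`: let `c` be critical, `f_t^[n] c = u`: `u` is attracted (`LN.pa`), so `c` is
(`att_iter`), so `c ∈ interior T` (`LN.ca`) and `f_t^[n] c ∈ interior T`: contradiction. `pre_sel` (H64/PC/VB3): `G` on `ball 0 r`, `psi q (G t)` is mapped to `u` by `f_t^[m]`; `psi q (G t) ∉ interior T` (`LN.tr`; `u ∉ interior T`), so it is not `∞`: `G t ≠ 0`, `ζ t = q + 1 / G t` (`psi`, VB2), `‖ζ t‖ ≤ R` by `LN.bd`.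
-/

set_option autoImplicit false

open Filter Topology Polynomial Metric Set

namespace Pool.Agent.H66.IL

open Pool.Agent.H44.Fatou (rat rat_continuous rat_coe rat_coe_of_ne pt crit_coe ev)
open Pool.Agent.H56.HR (FS)
open Pool.Agent.H32.BT Pool.Agent.H79.Eul Pool.Agent.H79.Par Pool.Agent.H79.ES Pool.Agent.H47.NN Pool.Agent.H44.RC Pool.Agent.H84.BR
open Pool.Agent.H64.NC (GA JC)
open Pool.Agent.H61.TT (gg dg ww)
open Pool.Agent.H57.CP (tD)
open Pool.Agent.H83.UP (PP)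

variable {d : ℕ} {v w : E d} {T : Set (OnePoint ℂ)} {r R : ℝ}

open Pool.Agent.H44.ND Pool.Agent.H44.CP Pool.Agent.H44.NP

section
open Pool.Agent.H44.Fatou Pool.Agent.H83.UP

private theorem mln_ev {P : ℂ → Fin (d + 1) → ℂ} {P' : Fin (d + 1) → ℂ} {u : ℂ → ℂ} {u' : ℂ}
    (hP : HasDerivAt P P' 0) (hu : HasDerivAt u u' 0) :
    HasDerivAt (fun t => ev (P t) (u t)) (ev P' (u 0) + dev (P 0) (u 0) * u') 0 := by
  have h1 : ev P' (u 0) + dev (P 0) (u 0) * u' = ∑ i : Fin (d + 1),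
      (P' i * u 0 ^ (i : ℕ) + P 0 i * (((i : ℕ) : ℂ) * u 0 ^ ((i : ℕ) - 1) * u')) := by
    unfold ev dev
    rw [Finset.sum_add_distrib, Finset.sum_mul]
    congr 1
    refine Finset.sum_congr rfl fun i _ => ?_
    ring
  rw [h1]
  unfold ev
  apply HasDerivAt.fun_sum
  intro i _
  exact (hasDerivAt_pi.1 hP i).mul (hu.pow (i : ℕ))

private theorem mot_line2 {v0 w : E d} {r R : ℝ} (hr : 0 < r)
    (hcop : ∀ t : ℂ, ‖t‖ ≤ r → IsCoprime (pol (v0 + t • w).1) (pol (v0 + t • w).2))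
    (hne : ∀ t : ℂ, ‖t‖ ≤ r → ∀ p : ℕ, 0 < p → ∀ x m, Cyc (pol (v0 + t • w).1) (pol (v0 + t • w).2) p x m → ‖m‖ ≠ 1)
    (hR : ∀ t : ℂ, ‖t‖ ≤ r → ∀ p : ℕ, 0 < p → ∀ x m, Cyc (pol (v0 + t • w).1) (pol (v0 + t • w).2) p x m →
      1 ≤ ‖m‖ → ∀ i, i ≤ p → ‖x i‖ ≤ R) :
    ∃ F : ℂ → ℂ → ℂ, (∀ x ∈ PP v0, DifferentiableOn ℂ (F x) (ball 0 r) ∧ F x 0 = x ∧
        (∀ t ∈ ball (0 : ℂ) r, ‖F x t‖ ≤ R ∧ F x t ∈ PP (v0 + t • w)) ∧
        deriv (F (gg (pol v0.1) (pol v0.2) x)) 0 = dg (pol v0.1) (pol v0.2) x * deriv (F x) 0 + xi v0 w x) ∧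
      ∀ x ∈ PP v0, ∀ y ∈ PP v0, x ≠ y → ∀ t ∈ ball (0 : ℂ) r, F x t ≠ F y t := by
  have e0 : v0 + (0 : ℂ) • w = v0 := by rw [zero_smul, add_zero]
  have h0r : (0 : ℂ) ∈ ball (0 : ℂ) r := mem_ball_self hr
  -- selections
  have hsel : ∀ x : ℂ, ∃ F : ℂ → ℂ, x ∈ PP v0 → DifferentiableOn ℂ F (ball 0 r) ∧ F 0 = x ∧
      ∃ p : ℕ, 0 < p ∧ ∀ t ∈ ball (0 : ℂ) r, (t, F t) ∈ KS v0 w p r R := by
    intro x
    by_cases hx : x ∈ PP v0
    · obtain ⟨p, y, m, hp, hc, hm, hy⟩ := hx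
      obtain ⟨g1, g2, g3⟩ := cyc_wi hc
      have hwx : ∀ j, j ≤ p → wi j (v0, y 0) = y j := by
        intro j
        induction j with
        | zero => intro _; rfl
        | succ j ih =>
          intro hj
          have h1 := ih (by omega)
          have h2 := hc.step j (by omega)
          show (pol v0.1).eval (wi j (v0, y 0)) / (pol v0.2).eval (wi j (v0, y 0)) = y (j + 1)
          rw [h1, h2]
      have hz : ((0 : ℂ), y 0) ∈ KS v0 w p r R := by
        refine ⟨?_, ?_, ?_, ?_, ?_⟩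
        · rw [norm_zero]; exact hr.le
        · show (v0 + (0 : ℂ) • w, y 0) ∈ (Gp p : Set (E d × ℂ))
          rw [e0]; exact g1
        · show wi p (v0 + (0 : ℂ) • w, y 0) = y 0
          rw [e0]; exact g2
        · show 1 ≤ ‖mu p (v0 + (0 : ℂ) • w, y 0)‖
          rw [e0, g3]; exact hm
        · intro i hi
          show ‖wi i (v0 + (0 : ℂ) • w, y 0)‖ ≤ R
          rw [e0, hwx i hi]
          exact hR 0 (by rw [norm_zero]; exact hr.le) p hp y m (by rw [e0]; exact hc) hm i hi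
      obtain ⟨F, hF, hF0, hFK⟩ := ks_sel hr hcop (fun t ht => hne t ht p hp) (fun t ht => hR t ht p hp) hz
      exact ⟨F, fun _ => ⟨hF, hF0.trans hy, p, hp, hFK⟩⟩
    · exact ⟨fun _ => 0, fun h => absurd h hx⟩
  choose F hF using hsel
  have hgP : ∀ x ∈ PP v0, gg (pol v0.1) (pol v0.2) x ∈ PP v0 := by
    intro x hx
    obtain ⟨hd, h0, p, hp, hK⟩ := hF x hx
    have h1 := ks_shift hp (hK 0 h0r)
    obtain ⟨-, k2, k3, k4, -⟩ := h1
    have h2 : wi 1 (v0 + (0 : ℂ) • w, F x 0) = gg (pol v0.1) (pol v0.2) x := by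
      rw [e0, h0]
      rfl
    have k2' : (v0, gg (pol v0.1) (pol v0.2) x) ∈ Gp p := by
      have := k2
      rw [h2, e0] at this
      exact this
    have k3' : wi p (v0, gg (pol v0.1) (pol v0.2) x) = gg (pol v0.1) (pol v0.2) x := by
      have := k3
      rw [h2, e0] at this
      exact this
    have k4' : 1 ≤ ‖mu p (v0, gg (pol v0.1) (pol v0.2) x)‖ := by
      have := k4
      rw [h2, e0] at this
      exact this
    exact ⟨p, _, _, hp, wi_cyc k2' k3', k4', rfl⟩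
  refine ⟨F, fun x hx => ?_, fun x hx y hy hxy t ht he => ?_⟩
  · obtain ⟨hd, h0, p, hp, hK⟩ := hF x hx
    obtain ⟨hd', h0', p', hp', hK'⟩ := hF _ (hgP x hx)
    refine ⟨hd, h0, fun t ht => ⟨(hK t ht).2.2.2.2 0 (Nat.zero_le _),
      ⟨p, _, _, hp, wi_cyc (hK t ht).2.1 (hK t ht).2.2.1, (hK t ht).2.2.2.1, rfl⟩⟩, ?_⟩
    obtain ⟨W, hW⟩ : ∃ W : ℂ → ℂ, W = fun t => wi 1 (v0 + t • w, F x t) := ⟨_, rfl⟩
    have hWd : DifferentiableOn ℂ W (ball 0 r) := by
      intro t ht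
      have hG : (v0 + t • w, F x t) ∈ (Gp 1 : Set (E d × ℂ)) := fun j hj => (hK t ht).2.1 j (by omega)
      have h1 := (wi_an 1 hG).differentiableAt
      have h2 : DifferentiableAt ℂ (fun t : ℂ => ((v0 + t • w, F x t) : E d × ℂ)) t :=
        ((differentiableAt_const _).add (differentiableAt_id.smul_const w)).prodMk
          (hd.differentiableAt (isOpen_ball.mem_nhds ht))
      rw [hW]
      exact (DifferentiableAt.comp t h1 h2).differentiableWithinAt
    have hWK : ∀ t ∈ ball (0 : ℂ) r, (t, W t) ∈ KS v0 w p r R := by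
      intro t ht
      rw [hW]
      exact ks_shift hp (hK t ht)
    have hW0 : W 0 = F (gg (pol v0.1) (pol v0.2) x) 0 := by
      rw [h0', hW]
      show wi 1 (v0 + (0 : ℂ) • w, F x 0) = _
      rw [e0, h0]
      rfl
    have hE := ks_eq hne hR hp hp' hWd hd' hWK hK' h0r hW0
    have h1 : HasDerivAt (F x) (deriv (F x) 0) 0 := (hd.differentiableAt (isOpen_ball.mem_nhds h0r)).hasDerivAt
    have hv : HasDerivAt (fun t : ℂ => v0 + t • w) w 0 := by
      have h2 := ((hasDerivAt_id (0 : ℂ)).smul_const w).const_add v0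
      rwa [one_smul] at h2
    have h3 := mln_ev hv.fst h1
    have h4 := mln_ev hv.snd h1
    have hQ' : ev v0.2 x ≠ 0 := by
      have := (hK 0 h0r).2.1 0 hp
      rw [← pol_eval, ← h0]
      have e2 : (pol (v0 + (0 : ℂ) • w).2).eval (wi 0 (v0 + (0 : ℂ) • w, F x 0)) ≠ 0 := this
      rw [e0] at e2
      exact e2
    have hQ : ev (v0 + (0 : ℂ) • w).2 (F x 0) ≠ 0 := by
      rw [e0, h0]
      exact hQ'
    have h5 := h3.div h4 hQ
    have h6 : (fun t => ev (v0 + t • w).1 (F x t) / ev (v0 + t • w).2 (F x t)) = W := by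
      funext t
      rw [hW]
      show _ = (pol (v0 + t • w).1).eval (wi 0 (v0 + t • w, F x t)) /
        (pol (v0 + t • w).2).eval (wi 0 (v0 + t • w, F x t))
      rw [pol_eval, pol_eval]
      rfl
    have h6' : F (gg (pol v0.1) (pol v0.2) x) =ᶠ[𝓝 0] fun t => ev (v0 + t • w).1 (F x t) / ev (v0 + t • w).2 (F x t) := by
      rw [h6]
      filter_upwards [isOpen_ball.mem_nhds h0r] with t ht
      exact (hE ht).symm
    have h7 := h5.congr_of_eventuallyEq h6'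
    rw [h7.deriv, e0, h0, Pool.Agent.H64.NC.dg_wv]
    unfold wv xi
    field_simp
    ring
  · obtain ⟨hd, h0, p, hp, hK⟩ := hF x hx
    obtain ⟨hd', h0', p', hp', hK'⟩ := hF y hy
    have hE := ks_eq hne hR hp hp' hd hd' hK hK' ht he
    apply hxy
    rw [← h0, ← h0']
    exact hE h0r

end

private theorem mt_out (hT : GT v T) (h : LN v w T r R) {t : ℂ} (ht : ‖t‖ ≤ r) {p : ℕ} (hp : 0 < p) {x : ℕ → ℂ} {m : ℂ}
    (hc : Cyc (pol (v + t • w).1) (pol (v + t • w).2) p x m) (hm : 1 ≤ ‖m‖) {i : ℕ} (hi : i ≤ p) : ‖x i‖ ≤ R := by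
  by_contra h1
  have h2 := h.bd (x i) (not_le.1 h1)
  have h3 : Rf v (x i : OnePoint ℂ) ∈ T := by
    have h4 := h.tr 0 (by rw [norm_zero]; exact h.hr.le) _ (interior_subset h2)
    rw [zero_smul, add_zero] at h4
    exact interior_subset h4
  exact big_na_all hT.hd (h.cop t ht) (h.deg t ht) hp hc hm hi (h.pa t ht _ h3)

private theorem mt_it (h : LN v w T r R) {t : ℂ} (ht : ‖t‖ ≤ r) {x : OnePoint ℂ} (hx : x ∈ interior T) (n : ℕ) :
    (Rf (v + t • w))^[n] x ∈ interior T := by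
  induction n with
  | zero => exact hx
  | succ n ih =>
    rw [Function.iterate_succ_apply']
    exact h.tr t ht _ (interior_subset ih)

theorem mot2 (hT : GT v T) (h : LN v w T r R) :
    ∃ F : ℂ → ℂ → ℂ, (∀ x ∈ PP v, DifferentiableOn ℂ (F x) (ball 0 r) ∧ F x 0 = x ∧
        (∀ t ∈ ball (0 : ℂ) r, ‖F x t‖ ≤ R ∧ F x t ∈ PP (v + t • w)) ∧
        deriv (F (gg (pol v.1) (pol v.2) x)) 0 = dg (pol v.1) (pol v.2) x * deriv (F x) 0 + xi v w x) ∧
      ∀ x ∈ PP v, ∀ y ∈ PP v, x ≠ y → ∀ t ∈ ball (0 : ℂ) r, F x t ≠ F y t :=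
  mot_line2 h.hr h.cop h.no fun _ ht _ hp _ _ hc hm _ hi => mt_out hT h ht hp hc hm hi

/-- repelling cycles are not attracted, and their points are mapped to such points -/
theorem pp_out (hT : GT v T) (h : LN v w T r R) {t : ℂ} (ht : ‖t‖ ≤ r) {x : ℂ} (hx : x ∈ PP (v + t • w)) :
    ∀ n : ℕ, ¬ Att (Rf (v + t • w)) ((Rf (v + t • w))^[n] x) := by
  intro n hn
  obtain ⟨p, y, m, hp, hc, hm, hy⟩ := hx
  have h1 := (att_iter (rat_continuous (h.cop t ht)) _ n).1 hn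
  rw [← hy] at h1
  exact big_na hT.hd (h.cop t ht) (h.deg t ht) hp hc hm h1

theorem zt (hT : GT v T) (h : LN v w T r R) {z u : ℂ} {m : ℕ} (hz : (Rf v)^[m] (z : OnePoint ℂ) = (u : OnePoint ℂ))
    (hu : (u : OnePoint ℂ) ∉ interior T) (hu' : Rf v u ∈ T) : ∃ ζ : ℂ → ℂ, DifferentiableOn ℂ ζ (ball 0 r) ∧ ζ 0 = z ∧
      ∀ t ∈ ball (0 : ℂ) r, ‖ζ t‖ ≤ R ∧ (ζ t : OnePoint ℂ) ∉ interior T ∧ (Rf (v + t • w))^[m] (ζ t) = (u : OnePoint ℂ) := by
  obtain ⟨q, hq⟩ : ∃ q : ℂ, (q : OnePoint ℂ) ∈ interior T := by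
    refine ⟨((R + 1 : ℝ) : ℂ), h.bd _ ?_⟩
    rw [Complex.norm_real, Real.norm_eq_abs, abs_of_pos (by linarith [h.hR])]
    linarith
  have hB : Pool.Agent.H64.PC.BD v w r (fun _ => q) (fun _ => u) := by
    refine ⟨h.hr, h.cop, h.deg, fun t _ => analyticAt_const, fun t _ => analyticAt_const, ?_, ?_⟩
    · intro t ht n h1
      have h2 := mt_it h ht hq n
      rw [h1] at h2
      exact hu h2
    · intro t ht c hc n h1
      have h2 : Att (Rf (v + t • w)) ((Rf (v + t • w))^[n] c) := by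
        rw [h1]
        exact h.pa t ht _ hu'
      have h3 := (att_iter (rat_continuous (h.cop t ht)) _ n).1 h2
      have h4 := mt_it h ht (h.ca t ht c hc h3) n
      rw [h1] at h4
      exact hu h4
  obtain ⟨G, hG, hG0, -, -, hGt⟩ := Pool.Agent.H64.PC.pre_sel hB (m := m) (z0 := z) hz
  have hle : ∀ t ∈ ball (0 : ℂ) r, ‖t‖ ≤ r := fun t ht => (mem_ball_zero_iff.1 ht).le
  have hni : ∀ t ∈ ball (0 : ℂ) r, Pool.Agent.H64.PC.psi q (G t) ∉ interior T := by
    intro t ht h1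
    have h2 := mt_it h (hle t ht) h1 m
    have h3 : (Rf (v + t • w))^[m] (Pool.Agent.H64.PC.psi q (G t)) = (u : OnePoint ℂ) := hGt t ht
    rw [h3] at h2
    exact hu h2
  have hne : ∀ t ∈ ball (0 : ℂ) r, G t ≠ 0 := by
    intro t ht h1
    apply hni t ht
    rw [h1]
    unfold Pool.Agent.H64.PC.psi pt
    rw [if_pos rfl]
    exact hT.ti
  have hps : ∀ t ∈ ball (0 : ℂ) r, Pool.Agent.H64.PC.psi q (G t) = (((G t)⁻¹ + q : ℂ) : OnePoint ℂ) := by
    intro t ht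
    rw [Pool.Agent.H64.PC.psi_s (hne t ht)]
    unfold pt
    rw [if_neg one_ne_zero, div_one]
  refine ⟨fun t => (G t)⁻¹ + q, (hG.inv hne).add_const q, ?_, fun t ht => ⟨?_, ?_, ?_⟩⟩
  · show (G 0)⁻¹ + q = z
    rw [hG0, inv_inv]
    ring
  · by_contra h1
    have h2 := h.bd _ (not_le.1 h1)
    have h3 := hni t ht
    rw [hps t ht] at h3
    exact h3 h2
  · have h3 := hni t ht
    rw [hps t ht] at h3
    exact h3
  · have h3 : (Rf (v + t • w))^[m] (Pool.Agent.H64.PC.psi q (G t)) = (u : OnePoint ℂ) := hGt t ht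
    rw [hps t ht] at h3
    exact h3

end Pool.Agent.H66.IL
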