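import Pool.Agent.H66.UP.VS5

/-!
# THEOREM UD, chapter ILF, Julia set = sphere: definitions

`em q`: the chart map `w ↦ q + 1 / w`, `0 ↦ ∞` (the new infinity is `q`). `TT E X μ`: expansion of the fields `X i` at the points of `E` with the coefficients `μ i`, uniform.
`SFX`: the fields for the map `g` in the plane (`Julia set = sphere`).
-/

set_option autoImplicit false

open Filter Topology Polynomial Metric Set MeasureTheory

namespace Pool.Agent.H66.IL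

open Classical in
/-- the chart map -/
noncomputable def em (q w : ℂ) : OnePoint ℂ := if w = 0 then OnePoint.infty else ((q + 1 / w : ℂ) : OnePoint ℂ)

/-- uniform expansions -/
def TT {n : ℕ} (E : Set ℂ) (X μ : Fin n → ℂ → ℂ) : Prop := ∀ ε : ℝ, 0 < ε → ∃ ρ : ℝ, 0 < ρ ∧ ∀ i, ∀ z ∈ E, ∀ r : ℝ, 0 < r → r < ρ →
  ∃ H : ℂ → ℂ, DifferentiableOn ℂ H (ball z r) ∧ ∀ w ∈ ball z r, ‖X i w - μ i z * (starRingEnd ℂ) (w - z) - H w‖ ≤ ε * r

/-- the fields for a map `g` of the plane, Julia set = sphere -/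
structure SFX (g : ℂ → ℂ) (U E : Set ℂ) (n : ℕ) (X h μ : Fin n → ℂ → ℂ) (i0 : Fin n) (b0 : ℝ) : Prop where
  hb : 0 < b0
  Xc : ∀ i, Continuous (X i)
  hd : ∀ i, DifferentiableOn ℂ (h i) U
  eq : ∀ i, ∀ z ∈ U, X i (g z) = deriv g z * X i z + h i z
  Ec : IsCompact E
  Ep : 0 < volume E
  up : ∀ i, ∀ z ∈ E, ‖μ i z‖ ≤ 1
  lb : ∀ z ∈ E, b0 ≤ ‖μ i0 z‖
  T : TT E X μ
  dim : ∀ β : Fin n → ℂ, ∃ c : Fin n → ℂ, ∑ i, c i * β i = 0 ∧ ¬ Differentiable ℂ (fun z => ∑ i, c i * X i z)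

end Pool.Agent.H66.IL
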