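import Pool.Agent.H66.IL.SDF
import Pool.Agent.H66.IL.SEG
import Pool.Agent.H66.IL.FXA

/-!
# [H66 IL SMU] UD, chapter ILF, Julia set = sphere: line fields

PROOF of `smu`. `i0` with `X i0` not entire. There is `R > 0` such that `X i0` is not holomorphic on `ball 0 R` (otherwise differentiable at every point). For every `i` `sq_sp` (SQ; `TP univ` unfolds to its hypothesis) with radius `R + 1` and `mu_all` (FXA) on `ball 0 (R + 1)`: measurable `μ i`, `‖μ i‖ ≤ C i`; `C` = maximum, at least `1`.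
If `volume {z ∈ ball 0 R | μ i0 z ≠ 0} = 0` then `∫ u in Rt z w, μ i0 u = 0` for `Rt z w ⊆ ball 0 R`, so `RI (X i0) z w = 0` and `mor` (RI) gives `X i0` holomorphic on `ball 0 R`: contradiction. So for some `s > 0` `0 < volume {z ∈ K | μ i0 z ≠ 0}` with `K = {z | ‖z‖ ≤ R ∧ s ≤ ‖z - q‖}` (compact): otherwise the union over `s = 1 / (m + 1)` would be null, but it is the whole
set without the point `q` (volume zero). `eg_fam`: `E ⊆ K`, so `q ∉ E`. `TT`: for `ε`: `tz` (radius `R + 1`) for every `i`: `η i`; `eg_fam` with `η / 4`, `η` the minimum: `ρ1`; `ρ = min (ρ1 / 2) (1 / 2)`: `ball z (2 r) ⊆ ball 0 (R + 1)`.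
-/

set_option autoImplicit false

open Filter Topology Polynomial Metric Set MeasureTheory

namespace Pool.Agent.H66.IL

open Pool.Agent.H66.UP (TP)

private theorem smu_null {μ : ℂ → ℂ} {R : ℝ}
    (hnull : volume {z ∈ ball (0 : ℂ) R | μ z ≠ 0} = 0) {a b : ℂ} (h : Rt a b ⊆ ball 0 R) :
    ∫ u in Rt a b, μ u = 0 := by
  have hmeas : MeasurableSet (Rt a b) :=
    (measurableSet_le measurable_const Complex.measurable_re).inter
      ((measurableSet_le Complex.measurable_re measurable_const).inter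
        ((measurableSet_le measurable_const Complex.measurable_im).inter
          (measurableSet_le Complex.measurable_im measurable_const)))
  have h1 : ∀ᵐ u ∂(volume.restrict (Rt a b)), μ u = (fun _ : ℂ => (0 : ℂ)) u := by
    rw [ae_restrict_iff' hmeas, ae_iff]
    refine measure_mono_null (fun u hu => ?_) hnull
    have h2 : ¬ (u ∈ Rt a b → μ u = 0) := hu
    push Not at h2
    exact ⟨h h2.1, h2.2⟩
  rw [integral_congr_ae h1, integral_zero]

private theorem smu_min {n : ℕ} (i0 : Fin n) (η : Fin n → ℝ) (h : ∀ i, 0 < η i) : ∃ ε : ℝ, 0 < ε ∧ ∀ i, ε ≤ η i := by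
  obtain ⟨j, -, hj⟩ := (Finset.univ : Finset (Fin n)).exists_min_image η ⟨i0, Finset.mem_univ _⟩
  exact ⟨η j, h j, fun i => hj i (Finset.mem_univ _)⟩

theorem smu {n : ℕ} {X : Fin n → ℂ → ℂ} (hX : ∀ i, Continuous (X i)) (hT : ∀ i, TP univ (X i)) (q : ℂ)
    (hne : ∃ i, ¬ Differentiable ℂ (X i)) :
    ∃ (C : ℝ) (μ : Fin n → ℂ → ℂ) (E : Set ℂ) (i0 : Fin n) (b0 : ℝ), 1 ≤ C ∧ (∀ i z, ‖μ i z‖ ≤ C) ∧ 0 < b0 ∧ IsCompact E ∧ q ∉ E ∧
      0 < volume E ∧ (∀ z ∈ E, b0 ≤ ‖μ i0 z‖) ∧ TT E X μ := by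
  obtain ⟨i0, hi0⟩ := hne
  obtain ⟨R, hR, hRd⟩ : ∃ R : ℝ, 0 < R ∧ ¬ DifferentiableOn ℂ (X i0) (ball 0 R) := by
    by_contra hcon
    push Not at hcon
    apply hi0
    intro z
    refine (hcon (‖z‖ + 1) (by positivity)).differentiableAt (isOpen_ball.mem_nhds ?_)
    rw [mem_ball_zero_iff]
    linarith
  have hex : ∀ i, ∃ (C : ℝ) (μ : ℂ → ℂ), Measurable μ ∧ (∀ z, ‖μ z‖ ≤ C) ∧
      ∀ z w : ℂ, z.re ≤ w.re → z.im ≤ w.im → Rt z w ⊆ ball 0 (R + 1) → RI (X i) z w = 2 * Complex.I * ∫ u in Rt z w, μ u := by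
    intro i
    obtain ⟨C', l0, hC', hl0, hsq⟩ := sq_sp (hX i) (fun R' => by
      obtain ⟨C, h0, h1⟩ := hT i R'
      exact ⟨C, h0, fun x y z hx hy hz => h1 x trivial y trivial z trivial hx hy hz⟩) (R + 1)
    obtain ⟨μ, h1, h2, h3⟩ := mu_all (R := R + 1) (hX i) hC' hl0 hsq
    exact ⟨C', μ, h1, h2, h3⟩
  choose Ci μ hm hbi hri using hex
  have hb : ∀ i z, ‖μ i z‖ ≤ 1 + ∑ j, |Ci j| := by
    intro i z
    have h1 : |Ci i| ≤ ∑ j, |Ci j| := Finset.single_le_sum (f := fun j => |Ci j|) (fun j _ => abs_nonneg _) (Finset.mem_univ i)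
    have h2 := hbi i z
    have h3 := le_abs_self (Ci i)
    linarith
  have hC1 : 1 ≤ 1 + ∑ j, |Ci j| := by
    have : 0 ≤ ∑ j, |Ci j| := Finset.sum_nonneg fun j _ => abs_nonneg _
    linarith
  generalize 1 + ∑ j, |Ci j| = C at hb hC1
  have hvp : volume {z ∈ ball (0 : ℂ) R | μ i0 z ≠ 0} ≠ 0 := by
    intro h0
    apply hRd
    refine mor (hX i0).continuousOn fun z w h1 h2 h3 => ?_
    rw [hri i0 z w h1 h2 (h3.trans (ball_subset_ball (by linarith))), smu_null h0 h3, mul_zero]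
  obtain ⟨s, hs, hsp⟩ : ∃ s : ℝ, 0 < s ∧ 0 < volume {z ∈ {z : ℂ | ‖z‖ ≤ R ∧ s ≤ ‖z - q‖} | μ i0 z ≠ 0} := by
    by_contra hcon
    push Not at hcon
    apply hvp
    refine measure_mono_null (t := {q} ∪ ⋃ m : ℕ, {z ∈ {z : ℂ | ‖z‖ ≤ R ∧ 1 / ((m : ℝ) + 1) ≤ ‖z - q‖} | μ i0 z ≠ 0}) ?_ ?_
    · rintro z ⟨hz, hz2⟩
      by_cases hzq : z = q
      · exact Or.inl hzq
      · right
        have h1 : 0 < ‖z - q‖ := norm_pos_iff.2 (sub_ne_zero.2 hzq)
        obtain ⟨m, hm⟩ := exists_nat_one_div_lt h1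
        rw [mem_iUnion]
        exact ⟨m, ⟨(mem_ball_zero_iff.1 hz).le, hm.le⟩, hz2⟩
    · refine measure_union_null (measure_singleton q) (measure_iUnion_null fun m => ?_)
      exact le_antisymm (hcon _ (by positivity)) (zero_le)
  have hK : IsCompact {z : ℂ | ‖z‖ ≤ R ∧ s ≤ ‖z - q‖} := by
    refine (isCompact_closedBall (0 : ℂ) R).of_isClosed_subset ?_ fun z hz => mem_closedBall_zero_iff.2 hz.1
    exact (isClosed_le continuous_norm continuous_const).inter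
      (isClosed_le continuous_const (continuous_id.sub continuous_const).norm)
  obtain ⟨E, b0, hb0, hEc, hEK, hEp, hlb, hEt⟩ := eg_fam hm hb hK i0 hsp
  refine ⟨C, μ, E, i0, b0, hC1, hb, hb0, hEc, ?_, hEp, hlb, ?_⟩
  · intro hq
    have h1 := (hEK hq).2
    rw [sub_self, norm_zero] at h1
    linarith
  · intro ε hε
    have htz : ∀ i, ∃ η : ℝ, 0 < η ∧ ∀ (z : ℂ) (r : ℝ), 0 < r → ball z (2 * r) ⊆ ball 0 (R + 1) →
        ∫ u in ball z (2 * r), ‖μ i u - μ i z‖ ≤ η * r ^ 2 → ∃ H : ℂ → ℂ, DifferentiableOn ℂ H (ball z r) ∧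
          ∀ w ∈ ball z r, ‖X i w - μ i z * (starRingEnd ℂ) (w - z) - H w‖ ≤ ε * r :=
      fun i => tz (hX i) (hm i) (hb i) (hri i) hε
    choose η hη htz using htz
    obtain ⟨η0, hη0, hη1⟩ := smu_min i0 η hη
    obtain ⟨ρ1, hρ1, hi⟩ := hEt (η0 / 4) (by positivity)
    refine ⟨min (ρ1 / 2) (1 / 2), lt_min (by positivity) (by positivity), ?_⟩
    intro i z hz r hr hrρ
    have hr2 : r < ρ1 / 2 := hrρ.trans_le (min_le_left _ _)
    have hr3 : r < 1 / 2 := hrρ.trans_le (min_le_right _ _)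
    refine htz i z r hr ?_ ?_
    · intro u hu
      have h1 := (hEK hz).1
      rw [mem_ball_zero_iff]
      rw [mem_ball, dist_eq_norm] at hu
      have h2 := norm_add_le (u - z) z
      rw [sub_add_cancel] at h2
      linarith
    · have h1 := hi i z hz (2 * r) (by positivity) (by linarith)
      refine h1.trans ?_
      have h2 := hη1 i
      nlinarith [mul_le_mul_of_nonneg_right h2 (sq_nonneg r)]

end Pool.Agent.H66.IL
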