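import Pool.Agent.H66.IL.Defs

/-!
# [H66 IL VZ] UD, chapter ILF: the velocity of a moving preimage

PROOF of `vz`. Let `f_t = Rf (v + t w)`, `z_j = gg^[j] z`. For `j ≤ m` and `t ∈ ball 0 r` `f_t^[j] (ζ t) ∉ interior T` (otherwise `u = f_t^[m] (ζ t) ∈ interior T` by `LN.tr`), so it is finite: `= W j t`, and for `j < m` the denominator of `f_t` at `W j t` is not zero; `W 0 = ζ`, `W (j+1) t = (pol (v + t w).1).eval (W j t) / (pol (v + t w).2).eval (W j t)`, `W j` is holomorphic,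
`W j 0 = z_j`, `W m t = u`. Derivative at `0` (`mln_ev` of H83/UP/MLN is private: the same computation): `W (j+1)' = dg z_j * (W j)' + xi v w z_j` (as in `vel_line`, `mot_line`). `z_j ∈ FS` (its orbit enters `T`). `XF.eq`: `D j = X z_j - (W j)' 0` satisfies `D (j+1) = dg z_j * D j`, `D m = X u`, and `tD m z = ∏_(j<m) dg z_j`.
`kb` (Koebe). PROOF. `A = {u : ℂ | u ∉ interior T, Rf v u ∈ T}` is compact (closed, bounded since `∞ ∈ interior T`), in `FS`. `δ > 0`: the points of `ball u δ`, `u ∈ A`, are not in `J` and not in `Rf v '' T` (a compact subset of `interior T`). So for a critical point `c`, `n ≥ 1`: `(Rf v)^[n] c ∉ ball u δ` (`c ∈ J`: `GA.js`; `c ∈ FS`: `c ∈ T` by `GT.cr`, `Rf v`-orbit in `Rf v '' T`), and points of `interior T` go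
to `Rf v '' T` or are themselves (`n = 0`). `H32.BT.branch` (see H18/UP/SYS): a branch `ψ` of `Rf v^[-m]` on `ball u δ`, `ψ u = z` (finiteness of the orbits: if `(Rf v)^[i] y = ∞ ∈ T`, `i < m`, then `(Rf v)^[m] y ∈ Rf v '' T`; for `i = m` clear). `ψ` avoids `J` (`GA.js`), injective: `univ_cover` (H80/AJ): `ball z (δ ‖ψ' u‖ / 16) ⊆ ψ '' ball u δ`, so `δ ‖ψ' u‖ / 16 ≤ infDist z J`.
`ψ' u * tD m z = 1` (chain rule; `bra_it`, H57/CP/BRA; as `b_der` in H18/UP/BAS).
-/

set_option autoImplicit false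

open Filter Topology Polynomial Metric Set

namespace Pool.Agent.H66.IL

open Pool.Agent.H44.Fatou (rat rat_continuous rat_coe rat_coe_of_ne pt crit_coe ev)
open Pool.Agent.H56.HR (FS)
open Pool.Agent.H32.BT Pool.Agent.H79.Eul Pool.Agent.H79.Par Pool.Agent.H79.ES Pool.Agent.H47.NN Pool.Agent.H44.RC Pool.Agent.H84.BR
open Pool.Agent.H64.NC (GA JC)
open Pool.Agent.H61.TT (gg dg ww)
open Pool.Agent.H57.CP (tD)
open Pool.Agent.H83.UP (PP)

variable {d : ℕ} {v w : E d} {T : Set (OnePoint ℂ)} {r R : ℝ}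

private theorem gg_wi (v : E d) (z : ℂ) (i : ℕ) : (gg (pol v.1) (pol v.2))^[i] z = Pool.Agent.H44.NP.wi i (v, z) := by
  induction i with
  | zero => rfl
  | succ i ih =>
    rw [Function.iterate_succ_apply', ih]
    rfl

private theorem orb_fin {v : E d} {z : ℂ} {n : ℕ}
    (hfin : ∀ i ≤ n, ∃ y : ℂ, (Rf v)^[i] (z : OnePoint ℂ) = (y : OnePoint ℂ)) :
    ∀ i ≤ n, (Rf v)^[i] (z : OnePoint ℂ) = (((gg (pol v.1) (pol v.2))^[i] z : ℂ) : OnePoint ℂ) ∧
      ∀ j < i, (pol v.2).eval ((gg (pol v.1) (pol v.2))^[j] z) ≠ 0 := by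
  intro i
  induction i with
  | zero => intro _; exact ⟨rfl, fun j hj => absurd hj (by omega)⟩
  | succ i ih =>
    intro hi
    obtain ⟨h1, h2⟩ := ih (by omega)
    have hb : (pol v.2).eval ((gg (pol v.1) (pol v.2))^[i] z) ≠ 0 := by
      intro h0
      obtain ⟨z', hz'⟩ := hfin (i + 1) hi
      rw [Function.iterate_succ_apply', h1] at hz'
      unfold Rf at hz'
      rw [rat_coe, h0] at hz'
      unfold pt at hz'
      rw [if_pos rfl] at hz'
      exact OnePoint.infty_ne_coe _ hz'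
    refine ⟨?_, ?_⟩
    · rw [Function.iterate_succ_apply', h1, Function.iterate_succ_apply']
      unfold Rf
      rw [rat_coe_of_ne hb]
      rfl
    · intro j hj
      rcases Nat.lt_succ_iff_lt_or_eq.1 hj with h3 | rfl
      · exact h2 j h3
      · exact hb

private theorem vz_ev {P : ℂ → Fin (d + 1) → ℂ} {P' : Fin (d + 1) → ℂ} {u : ℂ → ℂ} {u' : ℂ}
    (hP : HasDerivAt P P' 0) (hu : HasDerivAt u u' 0) :
    HasDerivAt (fun t => ev (P t) (u t)) (ev P' (u 0) + Pool.Agent.H44.Fatou.dev (P 0) (u 0) * u') 0 := by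
  have h1 : ev P' (u 0) + Pool.Agent.H44.Fatou.dev (P 0) (u 0) * u' = ∑ i : Fin (d + 1),
      (P' i * u 0 ^ (i : ℕ) + P 0 i * (((i : ℕ) : ℂ) * u 0 ^ ((i : ℕ) - 1) * u')) := by
    unfold ev Pool.Agent.H44.Fatou.dev
    rw [Finset.sum_add_distrib, Finset.sum_mul]
    congr 1
    refine Finset.sum_congr rfl fun i _ => ?_
    ring
  rw [h1]
  unfold ev
  apply HasDerivAt.fun_sum
  intro i _
  exact (hasDerivAt_pi.1 hP i).mul (hu.pow (i : ℕ))

private theorem step_der {v w : E d} {W : ℂ → ℂ} {W' : ℂ} (hW : HasDerivAt W W' 0) (hb : (pol v.2).eval (W 0) ≠ 0) :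
    HasDerivAt (fun t => (pol (v + t • w).1).eval (W t) / (pol (v + t • w).2).eval (W t))
      (dg (pol v.1) (pol v.2) (W 0) * W' + xi v w (W 0)) 0 := by
  have e0 : v + (0 : ℂ) • w = v := by rw [zero_smul, add_zero]
  have hv : HasDerivAt (fun t : ℂ => v + t • w) w 0 := by
    have h2 := ((hasDerivAt_id (0 : ℂ)).smul_const w).const_add v
    rwa [one_smul] at h2
  have h3 := vz_ev hv.fst hW
  have h4 := vz_ev hv.snd hW
  have hQ' : ev v.2 (W 0) ≠ 0 := by
    rw [← Pool.Agent.H79.Eul.pol_eval]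
    exact hb
  have hQ : ev (v + (0 : ℂ) • w).2 (W 0) ≠ 0 := by
    rw [e0]
    exact hQ'
  have h5 := h3.div h4 hQ
  have h6 : (fun t => (pol (v + t • w).1).eval (W t) / (pol (v + t • w).2).eval (W t)) =
      fun t => ev (v + t • w).1 (W t) / ev (v + t • w).2 (W t) := by
    funext t
    rw [Pool.Agent.H79.Eul.pol_eval, Pool.Agent.H79.Eul.pol_eval]
  rw [h6]
  refine HasDerivAt.congr_deriv h5 ?_
  rw [e0, Pool.Agent.H64.NC.dg_wv]
  unfold Pool.Agent.H44.Fatou.wv xi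
  field_simp
  ring

private theorem it_T {v : E d} {T : Set (OnePoint ℂ)} (htr : ∀ x ∈ T, Rf v x ∈ interior T) (n : ℕ) {x : OnePoint ℂ}
    (hx : x ∈ interior T) : (Rf v)^[n] x ∈ interior T := by
  induction n generalizing x with
  | zero => exact hx
  | succ n ih =>
    rw [Function.iterate_succ_apply]
    exact ih (htr x (interior_subset hx))

theorem vz (hT : GT v T) (h : LN v w T r R) {κ : ℕ} {p : Polynomial ℂ} {Z : Fin (κ + 1) → ℂ} {X : ℂ → ℂ}
    (hX : XF v T κ p Z X) (hxi : ∀ z : ℂ, xi v w z = p.eval z / (pol v.2).eval z ^ 2) {z u : ℂ} {m : ℕ}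
    (hu : (u : OnePoint ℂ) ∉ interior T) (hu' : Rf v u ∈ T) {ζ : ℂ → ℂ} (hζ : DifferentiableOn ℂ ζ (ball 0 r)) (h0 : ζ 0 = z)
    (hl : ∀ t ∈ ball (0 : ℂ) r, (Rf (v + t • w))^[m] (ζ t) = (u : OnePoint ℂ)) :
    (X z - deriv ζ 0) * tD (pol v.1) (pol v.2) m z = X u := by
  have e0 : v + (0 : ℂ) • w = v := by rw [zero_smul, add_zero]
  have h0r : (0 : ℂ) ∈ ball (0 : ℂ) r := mem_ball_self h.hr
  have hfin : ∀ t ∈ ball (0 : ℂ) r, ∀ i ≤ m, ∃ y : ℂ, (Rf (v + t • w))^[i] (ζ t : OnePoint ℂ) = (y : OnePoint ℂ) := by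
    intro t ht i hi
    have ht' : ‖t‖ ≤ r := (mem_ball_zero_iff.1 ht).le
    have h1 : (Rf (v + t • w))^[i] (ζ t : OnePoint ℂ) ∉ interior T := by
      intro h2
      have h3 := it_T (h.tr t ht') (m - i) h2
      rw [← Function.iterate_add_apply, Nat.sub_add_cancel hi, hl t ht] at h3
      exact hu h3
    have h4 : (Rf (v + t • w))^[i] (ζ t : OnePoint ℂ) ≠ OnePoint.infty := by
      intro h5
      rw [h5] at h1
      exact h1 hT.ti
    obtain ⟨y, hy⟩ := OnePoint.ne_infty_iff_exists.1 h4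
    exact ⟨y, hy.symm⟩
  have hG : ∀ t ∈ ball (0 : ℂ) r, ((v + t • w, ζ t) : E d × ℂ) ∈ (Pool.Agent.H44.NP.Gp m : Set (E d × ℂ)) := by
    intro t ht i hi
    have h1 := (orb_fin (hfin t ht) m le_rfl).2 i hi
    rw [gg_wi] at h1
    exact h1
  set W : ℕ → ℂ → ℂ := fun j t => Pool.Agent.H44.NP.wi j (v + t • w, ζ t) with hW
  have hWd : ∀ j ≤ m, DifferentiableAt ℂ (W j) 0 := by
    intro j hj
    have h1 := (Pool.Agent.H44.NP.wi_an (d := d) j (q := (v + (0 : ℂ) • w, ζ 0))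
      (fun i hi => hG 0 h0r i (by omega))).differentiableAt
    have h2 : DifferentiableAt ℂ (fun t : ℂ => ((v + t • w, ζ t) : E d × ℂ)) 0 :=
      ((differentiableAt_const _).add (differentiableAt_id.smul_const w)).prodMk
        (hζ.differentiableAt (isOpen_ball.mem_nhds h0r))
    exact DifferentiableAt.comp (0 : ℂ) h1 h2
  have hW0 : ∀ j, W j 0 = (gg (pol v.1) (pol v.2))^[j] z := by
    intro j
    rw [gg_wi, hW]
    simp only [e0, h0]
  have hbn : ∀ j < m, (pol v.2).eval ((gg (pol v.1) (pol v.2))^[j] z) ≠ 0 := by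
    intro j hj
    have h1 := hG 0 h0r j hj
    rw [← hW0 j]
    simpa [e0, hW] using h1
  have hrt : ∀ i ≤ m, (Rf v)^[i] (z : OnePoint ℂ) = (((gg (pol v.1) (pol v.2))^[i] z : ℂ) : OnePoint ℂ) := by
    intro i hi
    have h1 := hfin 0 h0r
    rw [e0, h0] at h1
    exact (orb_fin h1 i hi).1
  have hFS : ∀ i ≤ m, (((gg (pol v.1) (pol v.2))^[i] z : ℂ) : OnePoint ℂ) ∈ FS (Rf v) := by
    intro i hi
    rw [← hrt i hi]
    have h1 : (Rf v)^[m + 1 - i] ((Rf v)^[i] (z : OnePoint ℂ)) ∈ FS (Rf v) := by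
      rw [← Function.iterate_add_apply, show m + 1 - i + i = 1 + m by omega, Function.iterate_add_apply]
      have h2 := hl 0 h0r
      rw [e0, h0] at h2
      rw [h2]
      exact hT.af _ (hT.tr.att _ hu')
    exact (Pool.Agent.H47.RJ.fs_iff (by have := hT.hd; omega) hT.cop hT.deg _ _).1 h1
  have hD : ∀ j ≤ m, X ((gg (pol v.1) (pol v.2))^[j] z) - deriv (W j) 0 =
      tD (pol v.1) (pol v.2) j z * (X z - deriv ζ 0) := by
    intro j
    induction j with
    | zero =>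
      intro _
      have h1 : W 0 = ζ := rfl
      have h2 : tD (pol v.1) (pol v.2) 0 z = 1 := by simp [tD]
      rw [h1, h2, one_mul]
      rfl
    | succ j ih =>
      intro hj
      have h1 := ih (by omega)
      have h2 := hX.eq _ (hFS j (by omega)) (hbn j (by omega))
      have hb : (pol v.2).eval (W j 0) ≠ 0 := by
        rw [hW0]
        exact hbn j (by omega)
      have h3 := (step_der (w := w) (hWd j (by omega)).hasDerivAt hb).deriv
      have h4 : W (j + 1) = fun t => (pol (v + t • w).1).eval (W j t) / (pol (v + t • w).2).eval (W j t) := rfl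
      have h5 : tD (pol v.1) (pol v.2) (j + 1) z =
          tD (pol v.1) (pol v.2) j z * dg (pol v.1) (pol v.2) ((gg (pol v.1) (pol v.2))^[j] z) := by
        unfold tD
        rw [Finset.prod_range_succ]
      rw [h4, h3, Function.iterate_succ_apply', h2, hW0, hxi, h5]
      linear_combination dg (pol v.1) (pol v.2) ((gg (pol v.1) (pol v.2))^[j] z) * h1
  have h1 := hD m le_rfl
  have hWm : ∀ t ∈ ball (0 : ℂ) r, W m t = u := by
    intro t ht
    have h2 := (orb_fin (hfin t ht) m le_rfl).1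
    rw [hl t ht, gg_wi] at h2
    exact (OnePoint.coe_injective h2).symm
  have h2 : deriv (W m) 0 = 0 := by
    have h3 : W m =ᶠ[𝓝 0] fun _ => u := by
      filter_upwards [isOpen_ball.mem_nhds h0r] with t ht
      exact hWm t ht
    rw [h3.deriv_eq, deriv_const]
  have h3 : (gg (pol v.1) (pol v.2))^[m] z = u := by
    rw [← hW0]
    exact hWm 0 h0r
  rw [h2, h3, sub_zero] at h1
  rw [h1, mul_comm]

theorem kb (hT : GT v T) (hJ : (JC v).Nonempty) : ∃ C : ℝ, 0 < C ∧ ∀ (z u : ℂ) (m : ℕ),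
    (Rf v)^[m] (z : OnePoint ℂ) = (u : OnePoint ℂ) → (u : OnePoint ℂ) ∉ interior T → Rf v u ∈ T →
    tD (pol v.1) (pol v.2) m z ≠ 0 ∧ ‖tD (pol v.1) (pol v.2) m z‖⁻¹ ≤ C * infDist z (JC v) := by
  set A : Set ℂ := {u : ℂ | (u : OnePoint ℂ) ∉ interior T ∧ Rf v u ∈ T} with hA
  have hcont : Continuous (Rf v) := rat_continuous hT.cop
  have hAcl : IsClosed A := by
    have h1 : IsClosed {u : ℂ | (u : OnePoint ℂ) ∉ interior T} :=
      (isOpen_interior.isClosed_compl).preimage OnePoint.continuous_coe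
    have h2 : IsClosed {u : ℂ | Rf v u ∈ T} := hT.tr.closed.preimage (hcont.comp OnePoint.continuous_coe)
    exact h1.inter h2
  have hAk : IsCompact A := by
    have h1 : Tendsto (fun z : ℂ => (z : OnePoint ℂ)) (Filter.cocompact ℂ) (𝓝 OnePoint.infty) := by
      rw [← Filter.coclosedCompact_eq_cocompact]
      exact OnePoint.tendsto_coe_infty
    have h2 : ∀ᶠ z : ℂ in Filter.cocompact ℂ, (z : OnePoint ℂ) ∈ interior T :=
      h1.eventually (isOpen_interior.mem_nhds hT.ti)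
    rw [Filter.eventually_iff, Filter.mem_cocompact] at h2
    obtain ⟨K, hK, hK2⟩ := h2
    refine hK.of_isClosed_subset hAcl fun u hu => ?_
    by_contra hn
    exact hu.1 (hK2 hn)
  set B : Set ℂ := {y : ℂ | (y : OnePoint ℂ) ∈ Rf v '' T} with hB
  have hBcl : IsClosed B :=
    ((hT.tr.closed.isCompact.image hcont).isClosed).preimage OnePoint.continuous_coe
  have hdis : Disjoint A (JC v ∪ B) := by
    rw [Set.disjoint_left]
    rintro u ⟨h1, h2⟩ (h3 | h3)
    · have h4 : Rf v (u : OnePoint ℂ) ∈ JS (Rf v) := hT.js 1 h3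
      exact h4 (hT.af _ (hT.tr.att _ h2))
    · obtain ⟨x, hx, hxu⟩ := h3
      apply h1
      rw [← hxu]
      exact hT.tr.maps x hx
  obtain ⟨δ, hδ, hδ1⟩ := hdis.exists_thickenings hAk (hT.cl.union hBcl)
  refine ⟨16 / δ, by positivity, fun z u m hzu hu1 hu2 => ?_⟩
  have huA : u ∈ A := ⟨hu1, hu2⟩
  have hoff : ∀ y ∈ ball u δ, y ∉ JC v ∧ y ∉ B := by
    intro y hy
    have h1 : y ∈ thickening δ A := mem_thickening_iff.2 ⟨u, huA, mem_ball.1 hy⟩
    have h2 : y ∉ JC v ∪ B := fun h3 => Set.disjoint_left.1 hδ1 h1 (self_subset_thickening hδ _ h3)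
    exact ⟨fun h3 => h2 (Or.inl h3), fun h3 => h2 (Or.inr h3)⟩
  have hBit : ∀ (n : ℕ) (x : OnePoint ℂ) (y : ℂ), 0 < n → x ∈ T → (Rf v)^[n] x = (y : OnePoint ℂ) → y ∈ B := by
    intro n x y hn hx hxy
    obtain ⟨k, rfl⟩ : ∃ k, n = k + 1 := ⟨n - 1, by omega⟩
    rw [Function.iterate_succ_apply'] at hxy
    exact ⟨_, hT.tit k x hx, hxy⟩
  have hcond : ∀ y ∈ ball u δ, ∀ x : OnePoint ℂ, (Rf v)^[m] x = (y : OnePoint ℂ) →
      (∀ i < m, ¬ IsCrit (Rf v) ((Rf v)^[i] x)) ∧ ∀ i ≤ m, ∃ w : ℂ, (Rf v)^[i] x = (w : OnePoint ℂ) := by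
    intro y hy x hx
    have hit : ∀ i ≤ m, (Rf v)^[m - i] ((Rf v)^[i] x) = (y : OnePoint ℂ) := by
      intro i hi
      rw [← Function.iterate_add_apply, Nat.sub_add_cancel hi, hx]
    refine ⟨fun i hi hc => ?_, fun i hi => ?_⟩
    · by_cases h1 : (Rf v)^[i] x ∈ FS (Rf v)
      · exact (hoff y hy).2 (hBit (m - i) _ y (by omega) (interior_subset (hT.cr _ hc h1)) (hit i hi.le))
      · have h2 : (Rf v)^[m - i] ((Rf v)^[i] x) ∈ JS (Rf v) := hT.js (m - i) h1
        rw [hit i hi.le] at h2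
        exact (hoff y hy).1 h2
    · by_contra hno
      have h1 : (Rf v)^[i] x = OnePoint.infty := by
        by_contra h2
        obtain ⟨w, hw⟩ := OnePoint.ne_infty_iff_exists.1 h2
        exact hno ⟨w, hw.symm⟩
      rcases Nat.lt_or_ge i m with h3 | h3
      · exact (hoff y hy).2 (hBit (m - i) _ y (by omega) (by rw [h1]; exact interior_subset hT.ti) (hit i hi))
      · have h4 : i = m := by omega
        rw [h4, hx] at h1
        exact OnePoint.coe_ne_infty y h1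
  obtain ⟨G, hG1, hG2, hG3⟩ := Pool.Agent.H32.BT.branch hT.cop (by rw [hT.deg]; have := hT.hd; omega) hδ hcond hzu
  have hGf : ∀ y ∈ ball u δ, (gg (pol v.1) (pol v.2))^[m] (G y) = y ∧
      ∀ j < m, (pol v.2).eval ((gg (pol v.1) (pol v.2))^[j] (G y)) ≠ 0 := by
    intro y hy
    have h1 := orb_fin (v := v) (z := G y) (n := m) (hcond y hy _ (hG3 y hy)).2 m le_rfl
    refine ⟨?_, h1.2⟩
    have h2 := h1.1
    have h3 : (Rf v)^[m] (G y : OnePoint ℂ) = (y : OnePoint ℂ) := hG3 y hy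
    rw [h3] at h2
    exact (OnePoint.coe_injective h2).symm
  have huB : u ∈ ball u δ := mem_ball_self hδ
  have hder : tD (pol v.1) (pol v.2) m z * deriv G u = 1 := by
    have h4 : HasDerivAt G (deriv G u) u := (hG1.differentiableAt (isOpen_ball.mem_nhds huB)).hasDerivAt
    have h5 : HasDerivAt ((gg (pol v.1) (pol v.2))^[m] ∘ G) (tD (pol v.1) (pol v.2) m (G u) * deriv G u) u :=
      (Pool.Agent.H57.CP.bra_it (hGf u huB).2).hasDerivAt.comp u h4
    have h6 : (gg (pol v.1) (pol v.2))^[m] ∘ G =ᶠ[𝓝 u] id := by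
      filter_upwards [isOpen_ball.mem_nhds huB] with y hy
      exact (hGf y hy).1
    have h7 : HasDerivAt ((gg (pol v.1) (pol v.2))^[m] ∘ G) 1 u := (hasDerivAt_id u).congr_of_eventuallyEq h6
    rw [hG2] at h5
    exact h5.unique h7
  have hne : tD (pol v.1) (pol v.2) m z ≠ 0 := left_ne_zero_of_mul_eq_one hder
  refine ⟨hne, ?_⟩
  have hinj : InjOn G (ball u δ) := by
    intro y hy y' hy' he
    have h1 := hG3 y hy
    rw [he, hG3 y' hy'] at h1
    exact (OnePoint.coe_injective h1).symm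
  have hcov := Pool.Agent.H80.AJ.univ_cover hδ hG1 hinj
  rw [hG2] at hcov
  have hnorm : ‖tD (pol v.1) (pol v.2) m z‖⁻¹ = ‖deriv G u‖ := by
    rw [← norm_inv, eq_comm]
    congr 1
    exact (eq_inv_of_mul_eq_one_right hder)
  have hle : δ * ‖deriv G u‖ / 16 ≤ infDist z (JC v) := by
    refine (Metric.le_infDist hJ).2 fun y hy => ?_
    by_contra hlt
    rw [not_le, dist_comm] at hlt
    obtain ⟨y', hy', he⟩ := hcov (mem_ball.2 hlt)
    have h1 : ((Rf v)^[m] (G y' : OnePoint ℂ)) ∈ JS (Rf v) := by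
      rw [he]
      exact hT.js m hy
    have h2 : (Rf v)^[m] (G y' : OnePoint ℂ) = (y' : OnePoint ℂ) := hG3 y' hy'
    rw [h2] at h1
    exact (hoff y' hy').1 h1
  rw [hnorm]
  calc ‖deriv G u‖ = 16 / δ * (δ * ‖deriv G u‖ / 16) := by field_simp
    _ ≤ 16 / δ * infDist z (JC v) := by gcongr

end Pool.Agent.H66.IL
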