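import Pool.Agent.H66.IL.MT
import Pool.Agent.H66.IL.VZ
import Pool.Agent.H83.UP.LLG

/-!
# [H66 IL TR] UD, chapter ILF: the three point estimate for one Fatou point and two Julia points

PROOF of `tr3`. `F` from `mot2`. (1) For `x ∈ PP v ∩ JC v`: `V x = deriv (F x) 0`: both are bounded on the cycle of `x` and satisfy `u (gg x) = dg x * u x + p x / b x ^ 2` (`XJ.eq`, `mot2`, `hxi`); the difference `D` satisfies `D (gg x) = dg x * D x`, so `D x = tD n x * D x` for the period `n` and `‖tD n x‖ > 1` (`GA.rep` or `GA.no`): `D x = 0`.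
(2) Let `x ≠ y` in `PP v`, `z ∉ J`, `z ∉ T`: `z ∈ FS`, `m` minimal with `(Rf v)^[m+1] z ∈ T`, `u = (Rf v)^[m] z ∉ T`, finite. `zt`: `ζ`. `ζ t ≠ F x t, F y t`: the orbit of `F x t` is never attracted (`pp_out`), `f_t^[m] (ζ t) = u` is (`LN.pa`). `g t = (ζ t - F x t) / (F y t - F x t)` is holomorphic on `ball 0 r` and omits `0, 1`: `llg` (H83/UP/LLG): `‖g' 0‖ ≤ (C / r) ‖g 0‖ (1 + |log ‖g 0‖|)`,
`g' 0 = (ζ' 0 - V x - g 0 * (V y - V x)) / (y - x)`: the estimate for `ζ' 0` in the place of `X z`. `vz`, `kb`: `‖X z - ζ' 0‖ = ‖X u‖ ‖tD‖⁻¹ ≤ sup_A ‖X‖ * C * infDist z J ≤ C' ‖z - x‖` (`X` is continuous on the compact set `A ⊆ FS` of `kb`).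
(3) General `x ≠ y` in `JC v`: `PP v ∩ JC v` is dense in `JC v` (`hper`), `V` is continuous on `JC v` (`XJ.tri` with a fixed third point `z'`: `‖V x' - V x‖ ≤ ‖x' - x‖ / ‖z' - x‖ * 2 C + C ‖x' - x‖ (1 + |log (‖z' - x‖ / ‖x' - x‖)|) → 0`), both sides are continuous in `x, y` for fixed `z` (`z ∉ J`, `x ≠ y`).
-/

set_option autoImplicit false

open Filter Topology Polynomial Metric Set

namespace Pool.Agent.H66.IL

open Pool.Agent.H44.Fatou (rat rat_continuous rat_coe rat_coe_of_ne pt crit_coe ev)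
open Pool.Agent.H56.HR (FS)
open Pool.Agent.H32.BT Pool.Agent.H79.Eul Pool.Agent.H79.Par Pool.Agent.H79.ES Pool.Agent.H47.NN Pool.Agent.H44.RC Pool.Agent.H84.BR
open Pool.Agent.H64.NC (GA JC)
open Pool.Agent.H61.TT (gg dg ww)
open Pool.Agent.H57.CP (tD)
open Pool.Agent.H83.UP (PP)

variable {d : ℕ} {v w : E d} {T : Set (OnePoint ℂ)} {r R : ℝ}

/-- periodic points of the Julia set are in `PP` -/
private theorem tr_per {u : E d} {T : Set (OnePoint ℂ)} (h : GA u T) {x : ℂ} (hx : x ∈ JC u) {p : ℕ} (hp : 0 < p)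
    (hpx : (gg (pol u.1) (pol u.2))^[p] x = x) : x ∈ PP u := by
  have hit := h.git hx
  have ha : (Rf u)^[p] (x : OnePoint ℂ) = (x : OnePoint ℂ) := by rw [(hit p).2, hpx]
  have hi : ∀ i : ℕ, (Rf u)^[i] (x : OnePoint ℂ) ≠ OnePoint.infty := by
    intro i
    rw [(hit i).2]
    exact OnePoint.coe_ne_infty _
  obtain ⟨z, m, hz, hc, -, -⟩ := Pool.Agent.H64.NC.pl_cyc ha hi
  have hzi : ∀ i, z i = (gg (pol u.1) (pol u.2))^[i] x := by
    intro i
    have h1 := hz i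
    rw [(hit i).2] at h1
    exact (OnePoint.coe_injective h1).symm
  have hm : m = tD (pol u.1) (pol u.2) p x := by
    rw [← hc.mul]
    unfold tD
    refine Finset.prod_congr rfl fun i _ => ?_
    rw [hzi]
    rfl
  have h1 := h.rep x hx p hp hpx
  rw [← hm] at h1
  exact ⟨p, z, m, hp, hc, h1.le, hzi 0⟩

/-- the velocity of the repelling periodic points -/
private theorem tr_vel (hT : GA v T) {p : Polynomial ℂ} {V : ℂ → ℂ} {C0 : ℝ} (hV : XJ v p C0 V)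
    (hxi : ∀ z : ℂ, xi v w z = p.eval z / (pol v.2).eval z ^ 2) {F : ℂ → ℂ → ℂ}
    (hF : ∀ x ∈ PP v, deriv (F (gg (pol v.1) (pol v.2) x)) 0 =
      dg (pol v.1) (pol v.2) x * deriv (F x) 0 + xi v w x) {x : ℂ} (hx : x ∈ PP v) (hxJ : x ∈ JC v) :
    V x = deriv (F x) 0 := by
  obtain ⟨n, y, m, hn, hc, -, hy⟩ := hx
  have hyj : ∀ j, j ≤ n → (gg (pol v.1) (pol v.2))^[j] x = y j := by
    intro j
    induction j with
    | zero => intro _; exact hy.symm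
    | succ j ih =>
      intro hj
      rw [Function.iterate_succ_apply', ih (by omega)]
      exact hc.step j (by omega)
  have hper : (gg (pol v.1) (pol v.2))^[n] x = x := by
    rw [hyj n le_rfl, hc.per, hy]
  have hPi : ∀ i, (gg (pol v.1) (pol v.2))^[i] x ∈ PP v := by
    intro i
    refine tr_per hT (hT.git hxJ i).1 hn ?_
    rw [← Function.iterate_add_apply, Nat.add_comm n i, Function.iterate_add_apply, hper]
  have hD : ∀ i, V ((gg (pol v.1) (pol v.2))^[i] x) - deriv (F ((gg (pol v.1) (pol v.2))^[i] x)) 0 =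
      tD (pol v.1) (pol v.2) i x * (V x - deriv (F x) 0) := by
    intro i
    induction i with
    | zero =>
      unfold tD
      rw [Finset.range_zero, Finset.prod_empty, one_mul]
      rfl
    | succ i ih =>
      have h1 := hV.eq _ (hT.git hxJ i).1
      have h2 := hF _ (hPi i)
      rw [hxi] at h2
      rw [Function.iterate_succ_apply', h1, h2]
      have h3 : tD (pol v.1) (pol v.2) (i + 1) x =
          tD (pol v.1) (pol v.2) i x * dg (pol v.1) (pol v.2) ((gg (pol v.1) (pol v.2))^[i] x) := by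
        unfold tD
        exact Finset.prod_range_succ _ _
      rw [h3]
      linear_combination dg (pol v.1) (pol v.2) ((gg (pol v.1) (pol v.2))^[i] x) * ih
  have h1 := hD n
  rw [hper] at h1
  have h2 := hT.rep x hxJ n hn hper
  by_contra hne
  have h3 : V x - deriv (F x) 0 ≠ 0 := sub_ne_zero.2 hne
  have h4 : tD (pol v.1) (pol v.2) n x = 1 := by
    have h5 : (tD (pol v.1) (pol v.2) n x - 1) * (V x - deriv (F x) 0) = 0 := by
      linear_combination -h1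
    rcases mul_eq_zero.1 h5 with h6 | h6
    · exact sub_eq_zero.1 h6
    · exact absurd h6 h3
  rw [h4, norm_one] at h2
  exact lt_irrefl _ h2

private theorem tr_abs {a b : ℝ} (ha : 0 < a) (hb : 0 < b) : |Real.log (a / b)| = |Real.log (b / a)| := by
  rw [Real.log_div ha.ne' hb.ne', Real.log_div hb.ne' ha.ne', abs_sub_comm]

/-- Landau for a triple of moving points -/
private theorem tr_lan {r : ℝ} (hr : 0 < r) {f1 f2 f3 : ℂ → ℂ} {x y z : ℂ} (h1 : DifferentiableOn ℂ f1 (ball 0 r))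
    (h2 : DifferentiableOn ℂ f2 (ball 0 r)) (h3 : DifferentiableOn ℂ f3 (ball 0 r)) (e1 : f1 0 = x) (e2 : f2 0 = y)
    (e3 : f3 0 = z) (h12 : ∀ t ∈ ball (0 : ℂ) r, f1 t ≠ f2 t) (h13 : ∀ t ∈ ball (0 : ℂ) r, f3 t ≠ f1 t)
    (h23 : ∀ t ∈ ball (0 : ℂ) r, f3 t ≠ f2 t) :
    ‖deriv f3 0 - deriv f1 0 - (z - x) / (y - x) * (deriv f2 0 - deriv f1 0)‖ ≤
      5760 / r * (‖z - x‖ * (1 + |Real.log (‖y - x‖ / ‖z - x‖)|)) := by
  have h0 : (0 : ℂ) ∈ ball (0 : ℂ) r := mem_ball_self hr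
  have hyx : y - x ≠ 0 := by
    rw [← e1, ← e2]
    exact sub_ne_zero.2 (h12 0 h0).symm
  have hzx : z - x ≠ 0 := by
    rw [← e1, ← e3]
    exact sub_ne_zero.2 (h13 0 h0)
  have hd : ∀ t ∈ ball (0 : ℂ) r, f2 t - f1 t ≠ 0 := fun t ht => sub_ne_zero.2 (h12 t ht).symm
  have hg : DifferentiableOn ℂ (fun t => (f3 t - f1 t) / (f2 t - f1 t)) (ball 0 r) :=
    (h3.sub h1).div (h2.sub h1) hd
  have hl := Pool.Agent.H83.UP.llg hr hg fun t ht => by
    refine ⟨div_ne_zero (sub_ne_zero.2 (h13 t ht)) (hd t ht), fun he => ?_⟩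
    have he' : (f3 t - f1 t) / (f2 t - f1 t) = 1 := he
    rw [div_eq_one_iff_eq (hd t ht)] at he'
    exact h23 t ht (sub_left_injective he')
  have a1 : HasDerivAt f1 (deriv f1 0) 0 := (h1.differentiableAt (isOpen_ball.mem_nhds h0)).hasDerivAt
  have a2 : HasDerivAt f2 (deriv f2 0) 0 := (h2.differentiableAt (isOpen_ball.mem_nhds h0)).hasDerivAt
  have a3 : HasDerivAt f3 (deriv f3 0) 0 := (h3.differentiableAt (isOpen_ball.mem_nhds h0)).hasDerivAt
  have a4 := ((a3.sub a1).div (a2.sub a1) (hd 0 h0)).deriv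
  have a5 : deriv (fun t => (f3 t - f1 t) / (f2 t - f1 t)) 0 =
      (deriv f3 0 - deriv f1 0 - (z - x) / (y - x) * (deriv f2 0 - deriv f1 0)) / (y - x) := by
    refine a4.trans ?_
    simp only [Pi.sub_apply, e1, e2, e3]
    field_simp
  have hny : 0 < ‖y - x‖ := norm_pos_iff.2 hyx
  have hnz : 0 < ‖z - x‖ := norm_pos_iff.2 hzx
  rw [a5] at hl
  simp only [e1, e2, e3, norm_div] at hl
  rw [div_le_iff₀ hny] at hl
  rw [tr_abs hnz hny] at hl
  refine hl.trans (le_of_eq ?_)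
  field_simp

/-- the constant for periodic `x`, `y` -/
private theorem tr_pp (hT : GT v T) (h : LN v w T r R) {κ : ℕ} {p : Polynomial ℂ} {Z : Fin (κ + 1) → ℂ} {X V : ℂ → ℂ} {C0 : ℝ}
    (hX : XF v T κ p Z X) (hV : XJ v p C0 V) (hxi : ∀ z : ℂ, xi v w z = p.eval z / (pol v.2).eval z ^ 2)
    (hJ : (JC v).Nonempty) :
    ∃ C : ℝ, 0 ≤ C ∧ ∀ x ∈ JC v, x ∈ PP v → ∀ y ∈ JC v, y ∈ PP v → x ≠ y → ∀ z : ℂ, z ∉ JC v → (z : OnePoint ℂ) ∉ T →
      ‖X z - V x - (z - x) / (y - x) * (V y - V x)‖ ≤ C * ‖z - x‖ * (1 + |Real.log (‖y - x‖ / ‖z - x‖)|) := by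
  obtain ⟨F, hF1, hF2⟩ := mot2 hT h
  obtain ⟨C1, hC1, hkb⟩ := kb hT hJ
  have hGA : GA v T := hT.toGA
  have hcont : Continuous (Rf v) := rat_continuous hGA.cop
  have hTF : ∀ x ∈ T, x ∈ FS (Rf v) := fun x hx => hGA.af x (hGA.tr.att x hx)
  -- the fundamental region
  obtain ⟨A, hA⟩ : ∃ A : Set ℂ, A = {u : ℂ | (u : OnePoint ℂ) ∉ interior T ∧ Rf v u ∈ T} := ⟨_, rfl⟩
  have hAF : A ⊆ {z : ℂ | (z : OnePoint ℂ) ∈ FS (Rf v)} := by
    intro u hu
    rw [hA] at hu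
    have h1 : (Rf v)^[1] (u : OnePoint ℂ) ∈ FS (Rf v) := hTF _ hu.2
    exact (Pool.Agent.H47.RJ.fs_iff (by have := hGA.hd; omega) hGA.cop hGA.deg 1 _).1 h1
  have hAc : IsCompact A := by
    have h1 : IsClosed A := by
      have h2 : A = (fun u : ℂ => (u : OnePoint ℂ)) ⁻¹' ((interior T)ᶜ ∩ (Rf v) ⁻¹' T) := by
        rw [hA]
        rfl
      rw [h2]
      exact (isOpen_interior.isClosed_compl.inter (hGA.tr.closed.preimage hcont)).preimage
        OnePoint.continuous_coe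
    have h2 : A ⊆ closedBall 0 R := by
      intro u hu
      rw [mem_closedBall_zero_iff]
      by_contra hlt
      rw [hA] at hu
      exact hu.1 (h.bd u (not_le.1 hlt))
    exact (isCompact_closedBall (0 : ℂ) R).of_isClosed_subset h1 h2
  obtain ⟨B, hB⟩ := hAc.exists_bound_of_continuousOn (hX.hol.continuousOn.mono hAF)
  refine ⟨5760 / r + |B| * C1, by have := h.hr; positivity, ?_⟩
  intro x hx hxP y hy hyP hxy z hz hzT
  -- the orbit of `z`
  have hzF : (z : OnePoint ℂ) ∈ FS (Rf v) := by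
    by_contra h1
    exact hz h1
  have hex : ∃ k, (Rf v)^[k] (z : OnePoint ℂ) ∈ T := hT.en _ hzF
  classical
  obtain ⟨k, hk⟩ : ∃ k, k = Nat.find hex := ⟨_, rfl⟩
  have hkT : (Rf v)^[k] (z : OnePoint ℂ) ∈ T := by
    rw [hk]
    exact Nat.find_spec hex
  have hk0 : k ≠ 0 := by
    intro h0
    rw [h0] at hkT
    exact hzT hkT
  obtain ⟨m, hm⟩ : ∃ m, k = m + 1 := ⟨k - 1, by omega⟩
  have hmT : (Rf v)^[m] (z : OnePoint ℂ) ∉ T := by
    apply Nat.find_min hex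
    omega
  have hmi : (Rf v)^[m] (z : OnePoint ℂ) ≠ OnePoint.infty := by
    intro h0
    rw [h0] at hmT
    exact hmT (interior_subset hGA.ti)
  obtain ⟨u, hu⟩ := OnePoint.ne_infty_iff_exists.1 hmi
  have huT : (u : OnePoint ℂ) ∉ interior T := by
    rw [hu]
    exact fun h0 => hmT (interior_subset h0)
  have huT' : Rf v u ∈ T := by
    rw [hu, ← Function.iterate_succ_apply' (Rf v) m, ← Nat.succ_eq_add_one, ← hm] at *
    exact hkT
  obtain ⟨ζ, hζd, hζ0, hζ⟩ := zt hT h hu.symm huT huT'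
  have hr0 : (0 : ℂ) ∈ ball (0 : ℂ) r := mem_ball_self h.hr
  have hne : ∀ q ∈ PP v, ∀ t ∈ ball (0 : ℂ) r, ζ t ≠ F q t := by
    intro q hq t ht he
    have ht' : ‖t‖ ≤ r := (mem_ball_zero_iff.1 ht).le
    have h1 := pp_out hT h ht' ((hF1 q hq).2.2.1 t ht).2 m
    rw [← he, (hζ t ht).2.2] at h1
    exact h1 (h.pa t ht' _ huT')
  have h1 := tr_lan h.hr (hF1 x hxP).1 (hF1 y hyP).1 hζd (hF1 x hxP).2.1 (hF1 y hyP).2.1 hζ0
    (fun t ht => hF2 x hxP y hyP hxy t ht) (fun t ht => hne x hxP t ht) (fun t ht => hne y hyP t ht)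
  rw [← tr_vel hGA hV hxi (fun q hq => (hF1 q hq).2.2.2) hxP hx,
    ← tr_vel hGA hV hxi (fun q hq => (hF1 q hq).2.2.2) hyP hy] at h1
  have h2 := vz hT h hX hxi huT huT' hζd hζ0 (fun t ht => (hζ t ht).2.2)
  obtain ⟨h3, h4⟩ := hkb z u m hu.symm huT huT'
  have h5 : ‖X z - deriv ζ 0‖ ≤ |B| * C1 * ‖z - x‖ := by
    have h6 : X z - deriv ζ 0 = X u * (tD (pol v.1) (pol v.2) m z)⁻¹ := by
      rw [← h2, mul_assoc, mul_inv_cancel₀ h3, mul_one]
    rw [h6, norm_mul, norm_inv]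
    have h7 : ‖X u‖ ≤ |B| := (hB u (by rw [hA]; exact ⟨huT, huT'⟩)).trans (le_abs_self B)
    have h8 : infDist z (JC v) ≤ ‖z - x‖ := by
      rw [← dist_eq_norm]
      exact infDist_le_dist_of_mem hx
    have h9 : ‖tD (pol v.1) (pol v.2) m z‖⁻¹ ≤ C1 * ‖z - x‖ :=
      h4.trans (mul_le_mul_of_nonneg_left h8 hC1.le)
    calc ‖X u‖ * ‖tD (pol v.1) (pol v.2) m z‖⁻¹ ≤ |B| * (C1 * ‖z - x‖) :=
          mul_le_mul h7 h9 (by positivity) (abs_nonneg _)
      _ = |B| * C1 * ‖z - x‖ := by ring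
  have h6 : X z - V x - (z - x) / (y - x) * (V y - V x) =
      (X z - deriv ζ 0) + (deriv ζ 0 - V x - (z - x) / (y - x) * (V y - V x)) := by ring
  rw [h6]
  refine (norm_add_le _ _).trans ?_
  have h7 : 0 ≤ |B| * C1 * ‖z - x‖ * |Real.log (‖y - x‖ / ‖z - x‖)| := by positivity
  calc ‖X z - deriv ζ 0‖ + ‖deriv ζ 0 - V x - (z - x) / (y - x) * (V y - V x)‖
      ≤ |B| * C1 * ‖z - x‖ + 5760 / r * (‖z - x‖ * (1 + |Real.log (‖y - x‖ / ‖z - x‖)|)) :=
        add_le_add h5 h1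
    _ ≤ (5760 / r + |B| * C1) * ‖z - x‖ * (1 + |Real.log (‖y - x‖ / ‖z - x‖)|) := by
        nlinarith [h7]

/-- `V` is continuous on the Julia set -/
private theorem tr_cont {p : Polynomial ℂ} {V : ℂ → ℂ} {C0 : ℝ} (hV : XJ v p C0 V) {x c : ℂ} (hx : x ∈ JC v)
    (hc : c ∈ JC v) (hxc : c ≠ x) {s : ℕ → ℂ} (hs : ∀ n, s n ∈ JC v) (hl : Tendsto s atTop (𝓝 x)) :
    Tendsto (fun n => V (s n)) atTop (𝓝 (V x)) := by
  have hC0 : 0 < C0 := lt_of_lt_of_le one_pos hV.hC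
  have hn : 0 < ‖c - x‖ := norm_pos_iff.2 (sub_ne_zero.2 hxc)
  obtain ⟨φ, hφ⟩ : ∃ φ : ℝ → ℝ, φ = fun a => a / ‖c - x‖ * (2 * C0) +
      C0 * (a + |a * Real.log ‖c - x‖ - a * Real.log a|) := ⟨_, rfl⟩
  have hφc : Continuous φ := by
    rw [hφ]
    have h1 : Continuous fun a : ℝ => a * Real.log a := Real.continuous_mul_log
    fun_prop
  have hφ0 : φ 0 = 0 := by
    rw [hφ]
    simp
  have hb : ∀ n, ‖V (s n) - V x‖ ≤ φ ‖s n - x‖ := by
    intro n
    by_cases he : s n = x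
    · rw [he, sub_self, sub_self, norm_zero, hφ0]
    · have hsx : 0 < ‖s n - x‖ := norm_pos_iff.2 (sub_ne_zero.2 he)
      have h1 := hV.tri (s n) (hs n) x hx c hc he hxc
      have h2 : V (s n) - V x = (V (s n) - V x - (s n - x) / (c - x) * (V c - V x)) +
          (s n - x) / (c - x) * (V c - V x) := by ring
      rw [h2]
      refine (norm_add_le _ _).trans ?_
      have h3 : ‖(s n - x) / (c - x) * (V c - V x)‖ ≤ ‖s n - x‖ / ‖c - x‖ * (2 * C0) := by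
        rw [norm_mul, norm_div]
        refine mul_le_mul_of_nonneg_left ?_ (by positivity)
        refine (norm_sub_le _ _).trans ?_
        have := hV.bd c hc
        have := hV.bd x hx
        linarith
      have h4 : ‖s n - x‖ * (1 + |Real.log (‖c - x‖ / ‖s n - x‖)|) =
          ‖s n - x‖ + |‖s n - x‖ * Real.log ‖c - x‖ - ‖s n - x‖ * Real.log ‖s n - x‖| := by
        rw [← mul_sub, abs_mul, abs_of_pos hsx, ← Real.log_div hn.ne' hsx.ne']
        ring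
      rw [hφ]
      simp only []
      rw [← h4]
      have h5 := h1
      rw [mul_assoc] at h5
      linarith
  have hl2 : Tendsto (fun n => φ ‖s n - x‖) atTop (𝓝 0) := by
    have h1 : Tendsto (fun n => ‖s n - x‖) atTop (𝓝 0) := by
      have h2 := (hl.sub_const x).norm
      rwa [sub_self, norm_zero] at h2
    have h3 := (hφc.tendsto 0).comp h1
    rwa [hφ0] at h3
  rw [tendsto_iff_norm_sub_tendsto_zero]
  exact squeeze_zero (fun n => norm_nonneg _) hb hl2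

theorem tr3 (hT : GT v T) (h : LN v w T r R) {κ : ℕ} {p : Polynomial ℂ} {Z : Fin (κ + 1) → ℂ} {X V : ℂ → ℂ} {C0 : ℝ}
    (hX : XF v T κ p Z X) (hV : XJ v p C0 V) (hxi : ∀ z : ℂ, xi v w z = p.eval z / (pol v.2).eval z ^ 2)
    (hper : ∀ y ∈ JC v, ∀ ρ : ℝ, 0 < ρ → ∃ x ∈ JC v, x ∈ PP v ∧ ‖x - y‖ < ρ) :
    ∃ C : ℝ, 0 ≤ C ∧ ∀ x ∈ JC v, ∀ y ∈ JC v, x ≠ y → ∀ z : ℂ, z ∉ JC v → (z : OnePoint ℂ) ∉ T →
      ‖X z - V x - (z - x) / (y - x) * (V y - V x)‖ ≤ C * ‖z - x‖ * (1 + |Real.log (‖y - x‖ / ‖z - x‖)|) := by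
  by_cases hJ : (JC v).Nonempty
  swap
  · refine ⟨0, le_rfl, fun x hx => absurd ⟨x, hx⟩ hJ⟩
  obtain ⟨C, hC, hpp⟩ := tr_pp hT h hX hV hxi hJ
  refine ⟨C, hC, fun x hx y hy hxy z hz hzT => ?_⟩
  have hseq : ∀ q ∈ JC v, ∃ s : ℕ → ℂ, (∀ n, s n ∈ JC v ∧ s n ∈ PP v) ∧ Tendsto s atTop (𝓝 q) := by
    intro q hq
    have h1 : ∀ n : ℕ, ∃ s : ℂ, (s ∈ JC v ∧ s ∈ PP v) ∧ ‖s - q‖ < 1 / ((n : ℝ) + 1) := by
      intro n
      obtain ⟨s, h2, h3, h4⟩ := hper q hq (1 / ((n : ℝ) + 1)) (by positivity)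
      exact ⟨s, ⟨h2, h3⟩, h4⟩
    choose s hs1 hs2 using h1
    refine ⟨s, hs1, ?_⟩
    rw [tendsto_iff_norm_sub_tendsto_zero]
    exact squeeze_zero (fun n => norm_nonneg _) (fun n => (hs2 n).le) tendsto_one_div_add_atTop_nhds_zero_nat
  obtain ⟨s, hs, hsl⟩ := hseq x hx
  obtain ⟨s', hs', hsl'⟩ := hseq y hy
  have hVs := tr_cont hV hx hy hxy.symm (fun n => (hs n).1) hsl
  have hVs' := tr_cont hV hy hx hxy (fun n => (hs' n).1) hsl'
  have hne : ∀ᶠ n in atTop, s n ≠ s' n := by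
    have h1 : Tendsto (fun n => s n - s' n) atTop (𝓝 (x - y)) := hsl.sub hsl'
    have h2 : ∀ᶠ n in atTop, s n - s' n ≠ 0 := h1.eventually_ne (sub_ne_zero.2 hxy)
    exact h2.mono fun n hn => sub_ne_zero.1 hn
  have hyx : y - x ≠ 0 := sub_ne_zero.2 hxy.symm
  have hzx : z - x ≠ 0 := by
    refine sub_ne_zero.2 ?_
    rintro rfl
    exact hz hx
  have hL : Tendsto (fun n => ‖X z - V (s n) - (z - s n) / (s' n - s n) * (V (s' n) - V (s n))‖) atTop
      (𝓝 ‖X z - V x - (z - x) / (y - x) * (V y - V x)‖) := by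
    have h1 : Tendsto (fun n => (z - s n) / (s' n - s n)) atTop (𝓝 ((z - x) / (y - x))) :=
      (hsl.const_sub z).div (hsl'.sub hsl) hyx
    exact ((hVs.const_sub (X z)).sub (h1.mul (hVs'.sub hVs))).norm
  have hRt : Tendsto (fun n => C * ‖z - s n‖ * (1 + |Real.log (‖s' n - s n‖ / ‖z - s n‖)|)) atTop
      (𝓝 (C * ‖z - x‖ * (1 + |Real.log (‖y - x‖ / ‖z - x‖)|))) := by
    have h1 : Tendsto (fun n => ‖z - s n‖) atTop (𝓝 ‖z - x‖) := (hsl.const_sub z).norm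
    have h2 : Tendsto (fun n => ‖s' n - s n‖) atTop (𝓝 ‖y - x‖) := (hsl'.sub hsl).norm
    have h3 : Tendsto (fun n => ‖s' n - s n‖ / ‖z - s n‖) atTop (𝓝 (‖y - x‖ / ‖z - x‖)) :=
      h2.div h1 (norm_ne_zero_iff.2 hzx)
    have h4 : Tendsto (fun n => Real.log (‖s' n - s n‖ / ‖z - s n‖)) atTop
        (𝓝 (Real.log (‖y - x‖ / ‖z - x‖))) :=
      h3.log (div_ne_zero (norm_ne_zero_iff.2 hyx) (norm_ne_zero_iff.2 hzx))
    exact (h1.const_mul C).mul (h4.abs.const_add 1)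
  refine le_of_tendsto_of_tendsto hL hRt (hne.mono fun n hn => ?_)
  exact hpp (s n) (hs n).1 (hs n).2 (s' n) (hs' n).1 (hs' n).2 hn z hz hzT

end Pool.Agent.H66.IL
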